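import Pool.Agent.RF.Base

/-!
# [RF-A1] Walsh functions: orthogonality, inversion, Parseval

`ι` finite, cube `ι → Bool`, `wal A e = ∏_{i ∈ A} sg (e i)`.

* `sg_sq`: `sg b * sg b = 1`.
* `wal_mul`: `wal A e * wal B e = wal (symmDiff A B) e` (product over `A ∩ B` of `sg^2 = 1`).
* `sum_wal`: `∑_e wal A e = 2^|ι|` if `A = ∅`, else `0`
  (`Fintype.piFinset`/`Finset.prod_univ_sum`: `∑_e ∏_i c_i (e i) = ∏_i (c_i true + c_i false)`, with
  `c_i b = if i ∈ A then sg b else 1`; a factor with `i ∈ A` is `1 + (-1) = 0`).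
* `wal_orth`, `fc_inversion`: the `2^|ι|` functions `wal A` are orthogonal; inversion: either by the
  dual orthogonality `∑_A wal A e * wal A h = ∏_i (1 + sg (e i) * sg (h i)) = 2^|ι| [e = h]`
  (`Finset.prod_add` / `Finset.prod_one_add`, `Finset.sum_powerset`): then
  `∑_A fc f A * wal A e = 2^{-|ι|} ∑_h f h ∑_A wal A h * wal A e = f e`.
* `parseval`: expand `∑_e f e * f e` with inversion.
-/

set_option linter.unusedVariables false

namespace RF

variable {ι : Type} [Fintype ι] [DecidableEq ι]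

theorem sg_sq (b : Bool) : sg b * sg b = 1 := by
  cases b <;> simp [sg]

theorem sg_abs (b : Bool) : |sg b| = 1 := by
  cases b <;> simp [sg]

theorem a1_wal (A : Finset ι) (e : ι → Bool) :
    wal A e = ∏ i, if i ∈ A then sg (e i) else 1 := by
  unfold wal
  rw [Finset.prod_ite_mem, Finset.univ_inter]

theorem wal_mul (A B : Finset ι) (e : ι → Bool) :
    wal A e * wal B e = wal (symmDiff A B) e := by
  rw [a1_wal, a1_wal, a1_wal, ← Finset.prod_mul_distrib]
  refine Finset.prod_congr rfl fun i _ => ?_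
  have h := sg_sq (e i)
  by_cases hA : i ∈ A <;> by_cases hB : i ∈ B <;>
    simp [Finset.mem_symmDiff, hA, hB, h]

theorem sum_wal (A : Finset ι) :
    ∑ e, wal A e = if A = ∅ then (2 : ℝ) ^ Fintype.card ι else 0 := by
  have h1 : ∏ i : ι, ∑ b : Bool, (if i ∈ A then sg b else 1) =
      ∑ e : ι → Bool, ∏ i, (if i ∈ A then sg (e i) else 1) := by
    rw [Finset.prod_univ_sum, Fintype.piFinset_univ]
  have h2 : ∑ e, wal A e = ∏ i : ι, ∑ b : Bool, (if i ∈ A then sg b else 1) := by
    rw [h1]
    exact Finset.sum_congr rfl fun e _ => a1_wal A e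
  rw [h2]
  by_cases hA : A = ∅
  · rw [if_pos hA, hA]
    have h3 : ∀ i : ι, ∑ b : Bool, (if i ∈ (∅ : Finset ι) then sg b else 1) = 2 := by
      intro i
      rw [Fintype.sum_bool]
      simp
      norm_num
    rw [Finset.prod_congr rfl fun i _ => h3 i, Finset.prod_const, Finset.card_univ]
  · rw [if_neg hA]
    obtain ⟨i, hi⟩ := Finset.nonempty_iff_ne_empty.2 hA
    refine Finset.prod_eq_zero (Finset.mem_univ i) ?_
    rw [Fintype.sum_bool, if_pos hi, if_pos hi]
    simp [sg]

theorem wal_orth (A B : Finset ι) :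
    ∑ e, wal A e * wal B e = if A = B then (2 : ℝ) ^ Fintype.card ι else 0 := by
  rw [Finset.sum_congr rfl fun e _ => wal_mul A B e, sum_wal]
  by_cases h : A = B
  · have h1 : symmDiff A B = ∅ := by
      rw [h, symmDiff_self, Finset.bot_eq_empty]
    rw [if_pos h, if_pos h1]
  · rw [if_neg h, if_neg]
    intro h1
    exact h (symmDiff_eq_bot.1 h1)

theorem wal_dual (e h : ι → Bool) :
    ∑ A : Finset ι, wal A e * wal A h = if e = h then (2 : ℝ) ^ Fintype.card ι else 0 := by
  have h1 : ∑ A : Finset ι, wal A e * wal A h = ∏ i : ι, (1 + sg (e i) * sg (h i)) := by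
    rw [Finset.prod_one_add, Finset.powerset_univ]
    refine Finset.sum_congr rfl fun A _ => ?_
    unfold wal
    rw [Finset.prod_mul_distrib]
  rw [h1]
  by_cases he : e = h
  · rw [if_pos he, he]
    have h3 : ∀ i : ι, 1 + sg (h i) * sg (h i) = 2 := by
      intro i
      rw [sg_sq]
      norm_num
    rw [Finset.prod_congr rfl fun i _ => h3 i, Finset.prod_const, Finset.card_univ]
  · rw [if_neg he]
    obtain ⟨i, hi⟩ := Function.ne_iff.1 he
    refine Finset.prod_eq_zero (Finset.mem_univ i) ?_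
    cases h2 : e i <;> cases h3 : h i
    · rw [h2, h3] at hi
      exact absurd rfl hi
    · simp [sg]
    · simp [sg]
    · rw [h2, h3] at hi
      exact absurd rfl hi

end RF
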