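import Pool.Agent.RF.A1

/-!
# [RF-A1] Walsh functions: orthogonality, inversion, Parseval

`ι` finite, cube `ι → Bool`, `wal A e = ∏_{i ∈ A} sg (e i)`.

* `sg_sq`: `sg b * sg b = 1`.
* `wal_mul`: `wal A e * wal B e = wal (symmDiff A B) e` (product over `A ∩ B` of `sg^2 = 1`).
* `sum_wal`: `∑_e wal A e = 2^|ι|` if `A = ∅`, else `0`
  (`Fintype.piFinset`/`Finset.prod_univ_sum`: `∑_e ∏_i c_i (e i) = ∏_i (c_i true + c_i false)`, with
  `c_i b = if i ∈ A then sg b else 1`; a factor with `i ∈ A` is `1 + (-1) = 0`).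
* `wal_orth`, `fc_inversion`: the `2^|ι|` functions `wal A` are orthogonal; inversion: either by the
  dual orthogonality `∑_A wal A e * wal A h = ∏_i (1 + sg (e i) * sg (h i)) = 2^|ι| [e = h]`
  (`Finset.prod_add` / `Finset.prod_one_add`, `Finset.sum_powerset`): then
  `∑_A fc f A * wal A e = 2^{-|ι|} ∑_h f h ∑_A wal A h * wal A e = f e`.
* `parseval`: expand `∑_e f e * f e` with inversion.
-/

set_option linter.unusedVariables false

namespace RF

variable {ι : Type} [Fintype ι] [DecidableEq ι]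

theorem fc_inversion (f : (ι → Bool) → ℝ) (e : ι → Bool) :
    f e = ∑ A : Finset ι, fc f A * wal A e := by
  have h2 : (2 : ℝ) ^ Fintype.card ι ≠ 0 := by positivity
  have h1 : ∀ A : Finset ι, fc f A * wal A e =
      (∑ h, f h * (wal A h * wal A e)) / 2 ^ Fintype.card ι := by
    intro A
    unfold fc av
    rw [div_mul_eq_mul_div, Finset.sum_mul]
    congr 1
    exact Finset.sum_congr rfl fun h _ => by ring
  rw [Finset.sum_congr rfl fun A _ => h1 A, ← Finset.sum_div, Finset.sum_comm]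
  have h3 : ∀ h : ι → Bool, ∑ A : Finset ι, f h * (wal A h * wal A e) =
      if h = e then f h * 2 ^ Fintype.card ι else 0 := by
    intro h
    rw [← Finset.mul_sum, wal_dual, mul_ite, mul_zero]
  rw [Finset.sum_congr rfl fun h _ => h3 h, Finset.sum_ite_eq' Finset.univ e,
    if_pos (Finset.mem_univ e), mul_div_assoc, div_self h2, mul_one]

/-- Parseval's identity. -/
theorem parseval (f : (ι → Bool) → ℝ) :
    ∑ e, (f e) ^ 2 = (2 : ℝ) ^ Fintype.card ι * ∑ A : Finset ι, (fc f A) ^ 2 := by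
  have h2 : (2 : ℝ) ^ Fintype.card ι ≠ 0 := by positivity
  have h1 : ∀ e, (f e) ^ 2 = ∑ A : Finset ι, fc f A * (f e * wal A e) := by
    intro e
    rw [pow_two]
    nth_rewrite 2 [fc_inversion f e]
    rw [Finset.mul_sum]
    exact Finset.sum_congr rfl fun A _ => by ring
  rw [Finset.sum_congr rfl fun e _ => h1 e, Finset.sum_comm, Finset.mul_sum]
  refine Finset.sum_congr rfl fun A _ => ?_
  rw [← Finset.mul_sum]
  have h3 : ∑ e, f e * wal A e = 2 ^ Fintype.card ι * fc f A := by
    unfold fc av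
    rw [mul_div_cancel₀ _ h2]
  rw [h3]
  ring

end RF
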