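import Pool.Agent.RF.A1b

/-!
# [RF-A2] The noise kernel `kk`

`kk δ e h = 2^{-|ι|} ∏_i (1 + δ sg(e i) sg(h i)) = 2^{-|ι|} ∑_A δ^{|A|} wal A e wal A h`
(`Finset.prod_one_add` or `Finset.prod_add`; `∏_{i∈A} δ sg(e i) sg(h i) = δ^|A| wal A e wal A h`).
`kk_nonneg`: each factor is `1 ± δ ≥ 0`.  `kk_sum`: apply the expansion and `sum_wal`.
`kk_fc`: the operator with kernel `kk` multiplies the Walsh coefficient at `A` by `δ^|A|`
(insert the expansion, exchange the sums, `wal_orth`).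
`av_kk_le`: contraction: for `p` a seminorm and `Φ : (ι → Bool) → V`,
`av_e p(∑_h kk δ e h • Φ h) ≤ av_e p(Φ e)` and `av_e p(∑_h kk δ e h • Φ h)^2 ≤ av_e p(Φ e)^2`
(triangle inequality, `kk_nonneg`, `kk_sum`, symmetry `kk δ e h = kk δ h e`; for the square:
Jensen / Cauchy-Schwarz `(∑_h k_h t_h)^2 ≤ ∑_h k_h t_h^2` when `k ≥ 0`, `∑ k = 1`).
-/

set_option linter.unusedVariables false

namespace RF

variable {ι : Type} [Fintype ι] [DecidableEq ι]

theorem kk_symm (δ : ℝ) (e h : ι → Bool) : kk δ e h = kk δ h e := by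
  unfold kk
  congr 1
  exact Finset.prod_congr rfl fun i _ => by rw [mul_comm (sg (e i))]

theorem kk_eq (δ : ℝ) (e h : ι → Bool) :
    kk δ e h = (2 ^ Fintype.card ι : ℝ)⁻¹ *
      ∑ A : Finset ι, δ ^ A.card * (wal A e * wal A h) := by
  unfold kk
  rw [Finset.prod_one_add, Finset.powerset_univ, div_eq_inv_mul]
  congr 1
  refine Finset.sum_congr rfl fun A _ => ?_
  unfold wal
  rw [Finset.prod_mul_distrib, Finset.prod_const, Finset.prod_mul_distrib]

theorem a2_sg (b c : Bool) : sg b * sg c = 1 ∨ sg b * sg c = -1 := by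
  cases b <;> cases c <;> simp [sg]

theorem kk_nonneg {δ : ℝ} (h0 : 0 ≤ δ) (h1 : δ ≤ 1) (e h : ι → Bool) : 0 ≤ kk δ e h := by
  unfold kk
  refine div_nonneg (Finset.prod_nonneg fun i _ => ?_) (by positivity)
  rcases a2_sg (e i) (h i) with h2 | h2
  · rw [h2]; linarith
  · rw [h2]; linarith

theorem kk_sum (δ : ℝ) (e : ι → Bool) : ∑ h, kk δ e h = 1 := by
  have h1 : ∀ h : ι → Bool, kk δ e h = (2 ^ Fintype.card ι : ℝ)⁻¹ *
      ∑ A : Finset ι, δ ^ A.card * (wal A e * wal A h) := fun h => kk_eq δ e h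
  rw [Finset.sum_congr rfl (fun h _ => h1 h), ← Finset.mul_sum, Finset.sum_comm]
  have h2 : ∀ A : Finset ι, ∑ h, δ ^ A.card * (wal A e * wal A h) =
      if A = ∅ then (2 : ℝ) ^ Fintype.card ι else 0 := by
    intro A
    have h3 : ∑ h, δ ^ A.card * (wal A e * wal A h) = (δ ^ A.card * wal A e) * ∑ h, wal A h := by
      rw [Finset.mul_sum]
      exact Finset.sum_congr rfl fun h _ => by ring
    rw [h3, sum_wal]
    split_ifs with hA
    · rw [hA]
      simp [wal]
    · rw [mul_zero]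
  rw [Finset.sum_congr rfl (fun A _ => h2 A), Finset.sum_ite_eq']
  simp

theorem a2_kk_wal (δ : ℝ) (h : ι → Bool) (A : Finset ι) :
    ∑ e, kk δ e h * wal A e = δ ^ A.card * wal A h := by
  have h1 : ∀ e : ι → Bool, kk δ e h * wal A e = (2 ^ Fintype.card ι : ℝ)⁻¹ *
      ∑ B : Finset ι, (δ ^ B.card * wal B h) * (wal B e * wal A e) := by
    intro e
    rw [kk_eq, mul_assoc, Finset.sum_mul]
    congr 1
    exact Finset.sum_congr rfl fun B _ => by ring
  rw [Finset.sum_congr rfl (fun e _ => h1 e), ← Finset.mul_sum, Finset.sum_comm]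
  have h2 : ∀ B : Finset ι, ∑ e, (δ ^ B.card * wal B h) * (wal B e * wal A e) =
      if B = A then (δ ^ A.card * wal A h) * (2 : ℝ) ^ Fintype.card ι else 0 := by
    intro B
    rw [← Finset.mul_sum, wal_orth]
    split_ifs with hB
    · rw [hB]
    · rw [mul_zero]
  rw [Finset.sum_congr rfl (fun B _ => h2 B), Finset.sum_ite_eq', if_pos (Finset.mem_univ A)]
  field_simp

theorem kk_fc (δ : ℝ) (f : (ι → Bool) → ℝ) (A : Finset ι) :
    fc (fun e => ∑ h, kk δ e h * f h) A = δ ^ A.card * fc f A := by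
  unfold fc av
  rw [← mul_div_assoc]
  congr 1
  have h1 : ∀ e : ι → Bool, (∑ h, kk δ e h * f h) * wal A e =
      ∑ h, f h * (kk δ e h * wal A e) := by
    intro e
    rw [Finset.sum_mul]
    exact Finset.sum_congr rfl fun h _ => by ring
  rw [Finset.sum_congr rfl (fun e _ => h1 e), Finset.sum_comm, Finset.mul_sum]
  refine Finset.sum_congr rfl fun h _ => ?_
  rw [← Finset.mul_sum, a2_kk_wal]
  ring

end RF
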