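import Pool.Agent.RF.A2

/-!
# [RF-A2] The noise kernel `kk`

`kk δ e h = 2^{-|ι|} ∏_i (1 + δ sg(e i) sg(h i)) = 2^{-|ι|} ∑_A δ^{|A|} wal A e wal A h`
(`Finset.prod_one_add` or `Finset.prod_add`; `∏_{i∈A} δ sg(e i) sg(h i) = δ^|A| wal A e wal A h`).
`kk_nonneg`: each factor is `1 ± δ ≥ 0`.  `kk_sum`: apply the expansion and `sum_wal`.
`kk_fc`: the operator with kernel `kk` multiplies the Walsh coefficient at `A` by `δ^|A|`
(insert the expansion, exchange the sums, `wal_orth`).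
`av_kk_le`: contraction: for `p` a seminorm and `Φ : (ι → Bool) → V`,
`av_e p(∑_h kk δ e h • Φ h) ≤ av_e p(Φ e)` and `av_e p(∑_h kk δ e h • Φ h)^2 ≤ av_e p(Φ e)^2`
(triangle inequality, `kk_nonneg`, `kk_sum`, symmetry `kk δ e h = kk δ h e`; for the square:
Jensen / Cauchy-Schwarz `(∑_h k_h t_h)^2 ≤ ∑_h k_h t_h^2` when `k ≥ 0`, `∑ k = 1`).
-/

set_option linter.unusedVariables false

namespace RF

variable {ι : Type} [Fintype ι] [DecidableEq ι]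

theorem a2b_av (g : (ι → Bool) → ℝ) {δ : ℝ} :
    ∑ e, ∑ h, kk δ e h * g h = ∑ e, g e := by
  rw [Finset.sum_comm]
  refine Finset.sum_congr rfl fun h _ => ?_
  rw [← Finset.sum_mul]
  have h1 : ∑ e, kk δ e h = 1 := by
    rw [← kk_sum δ h]
    exact Finset.sum_congr rfl fun e _ => kk_symm δ e h
  rw [h1, one_mul]

theorem a2b_tri {V : Type} [AddCommGroup V] [Module ℝ V] (p : SN V) {δ : ℝ}
    (h0 : 0 ≤ δ) (h1 : δ ≤ 1) (Φ : (ι → Bool) → V) (e : ι → Bool) :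
    p (∑ h, kk δ e h • Φ h) ≤ ∑ h, kk δ e h * p (Φ h) := by
  refine (Finset.le_sum_of_subadditive p (map_zero p).le (map_add_le_add p) _ _).trans ?_
  refine Finset.sum_le_sum fun h _ => ?_
  rw [map_smul_eq_mul, Real.norm_of_nonneg (kk_nonneg h0 h1 e h)]

theorem av_kk_le {V : Type} [AddCommGroup V] [Module ℝ V] (p : SN V) {δ : ℝ}
    (h0 : 0 ≤ δ) (h1 : δ ≤ 1) (Φ : (ι → Bool) → V) :
    av (fun e => p (∑ h, kk δ e h • Φ h)) ≤ av (fun e => p (Φ e)) := by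
  unfold av
  refine div_le_div_of_nonneg_right ?_ (by positivity)
  refine (Finset.sum_le_sum fun e _ => a2b_tri p h0 h1 Φ e).trans ?_
  rw [a2b_av (fun h => p (Φ h))]

theorem av_kk_sq_le {V : Type} [AddCommGroup V] [Module ℝ V] (p : SN V) {δ : ℝ}
    (h0 : 0 ≤ δ) (h1 : δ ≤ 1) (Φ : (ι → Bool) → V) :
    av (fun e => p (∑ h, kk δ e h • Φ h) ^ 2) ≤ av (fun e => p (Φ e) ^ 2) := by
  unfold av
  refine div_le_div_of_nonneg_right ?_ (by positivity)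
  have h2 : ∀ e : ι → Bool, p (∑ h, kk δ e h • Φ h) ^ 2 ≤ ∑ h, kk δ e h * p (Φ h) ^ 2 := by
    intro e
    have h3 := a2b_tri p h0 h1 Φ e
    have h4 : (∑ h, kk δ e h * p (Φ h)) ^ 2 ≤ (∑ h, kk δ e h) * ∑ h, kk δ e h * p (Φ h) ^ 2 := by
      refine Finset.sum_sq_le_sum_mul_sum_of_sq_le_mul _ (fun h _ => kk_nonneg h0 h1 e h)
        (fun h _ => mul_nonneg (kk_nonneg h0 h1 e h) (sq_nonneg _)) (fun h _ => le_of_eq ?_)
      ring
    rw [kk_sum, one_mul] at h4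
    exact (pow_le_pow_left₀ (apply_nonneg p _) h3 2).trans h4
  refine (Finset.sum_le_sum fun e _ => h2 e).trans ?_
  rw [a2b_av (fun h => p (Φ h) ^ 2)]

end RF
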