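import Pool.Agent.RF.A2

/-!
# [RF-A3] The remainder kernel of Lemma P has `l_2` norm at most `δ`

`rk δ e h = δ^{-1} (kk δ e h - 2^{-n}) - 2^{-n} ∑_i sg(e i) sg(h i)
          = 2^{-n} ∑_{|A| ≥ 2} δ^{|A|-1} wal A e wal A h`.
For `a : cube → ℝ` put `F h = ∑_e a e * rk δ e h`.  By `kk_eq`, `fc F A = m A * fc a A` with `m A = 0`
for `|A| ≤ 1` and `m A = δ^{|A|-1}` for `|A| ≥ 2`, so `|m A| ≤ δ` (as `0 < δ ≤ 1`), and `parseval` twice gives
the claim.  (The first level: `fc` of `h ↦ 2^{-n} ∑_e a e ∑_i sg(e i) sg(h i)` is `fc a {i}` at `{i}` and `0`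
at the sets that are not singletons; use `sg (e i) = wal {i} e` and `wal_orth`.)
-/

set_option linter.unusedVariables false

namespace RF

variable {ι : Type} [Fintype ι] [DecidableEq ι]

omit [DecidableEq ι] in
theorem a3_sum_single (f : Finset ι → ℝ) :
    ∑ i, f {i} = ∑ A : Finset ι, if A.card = 1 then f A else 0 := by
  rw [← Finset.sum_filter, Finset.univ_filter_card_eq, Finset.powersetCard_one, Finset.sum_map]
  rfl

theorem a3_rk_eq (δ : ℝ) (hδ : δ ≠ 0) (e h : ι → Bool) :
    rk δ e h = (2 ^ Fintype.card ι : ℝ)⁻¹ *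
      ∑ A : Finset ι, (if A.card ≤ 1 then 0 else δ ^ (A.card - 1)) * (wal A e * wal A h) := by
  have h1 : ∑ i, sg (e i) * sg (h i) =
      ∑ A : Finset ι, if A.card = 1 then wal A e * wal A h else 0 := by
    rw [← a3_sum_single (fun A => wal A e * wal A h)]
    refine Finset.sum_congr rfl fun i _ => ?_
    simp [wal]
  have h2 : (1 : ℝ) = ∑ A : Finset ι, if A = ∅ then wal A e * wal A h else 0 := by
    rw [Finset.sum_ite_eq' Finset.univ (∅ : Finset ι) fun A => wal A e * wal A h,
      if_pos (Finset.mem_univ _)]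
    simp [wal]
  have h3 : ∑ A : Finset ι, (if A.card ≤ 1 then 0 else δ ^ (A.card - 1)) * (wal A e * wal A h) =
      δ⁻¹ * (∑ A : Finset ι, δ ^ A.card * (wal A e * wal A h) - 1) -
        ∑ i, sg (e i) * sg (h i) := by
    rw [h1]
    conv_rhs => rw [h2]
    rw [← Finset.sum_sub_distrib, Finset.mul_sum, ← Finset.sum_sub_distrib]
    refine Finset.sum_congr rfl fun A _ => ?_
    rcases lt_trichotomy A.card 1 with hc | hc | hc
    · have h0 : A = ∅ := Finset.card_eq_zero.1 (by omega)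
      subst h0
      simp
    · have hne : A ≠ ∅ := by
        rintro rfl
        simp at hc
      rw [if_pos (by omega), if_neg hne, if_pos hc, hc, pow_one, zero_mul, sub_zero, ← mul_assoc,
        inv_mul_cancel₀ hδ, one_mul, sub_self]
    · have hne : A ≠ ∅ := by
        rintro rfl
        simp at hc
      obtain ⟨k, hk⟩ := Nat.exists_eq_add_of_lt hc
      rw [if_neg (by omega), if_neg hne, if_neg (by omega), sub_zero, sub_zero]
      have h4 : δ ^ A.card = δ * δ ^ (A.card - 1) := by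
        rw [← pow_succ']
        congr 1
        omega
      rw [h4, mul_assoc, ← mul_assoc δ⁻¹, inv_mul_cancel₀ hδ, one_mul]
  rw [rk, kk_eq, h3]
  ring

theorem rk_fc (δ : ℝ) (hδ : δ ≠ 0) (a : (ι → Bool) → ℝ) (A : Finset ι) :
    fc (fun h => ∑ e, a e * rk δ e h) A
      = (if A.card ≤ 1 then 0 else δ ^ (A.card - 1)) * fc a A := by
  have hF : ∀ h : ι → Bool, ∑ e, a e * rk δ e h =
      ∑ B : Finset ι, (if B.card ≤ 1 then 0 else δ ^ (B.card - 1)) * fc a B * wal B h := by
    intro h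
    have h1 : ∀ e, a e * rk δ e h = ∑ B : Finset ι, (2 ^ Fintype.card ι : ℝ)⁻¹ *
        ((if B.card ≤ 1 then 0 else δ ^ (B.card - 1)) * wal B h) * (a e * wal B e) := by
      intro e
      rw [a3_rk_eq δ hδ, Finset.mul_sum, Finset.mul_sum]
      refine Finset.sum_congr rfl fun B _ => ?_
      ring
    rw [Finset.sum_congr rfl fun e _ => h1 e, Finset.sum_comm]
    refine Finset.sum_congr rfl fun B _ => ?_
    rw [← Finset.mul_sum, fc, av]
    ring
  have h2 : fc (fun h => ∑ e, a e * rk δ e h) A = (∑ h, (∑ B : Finset ι,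
      (if B.card ≤ 1 then 0 else δ ^ (B.card - 1)) * fc a B * wal B h) * wal A h) /
        2 ^ Fintype.card ι := by
    rw [fc, av]
    congr 1
    exact Finset.sum_congr rfl fun h _ => by rw [hF h]
  rw [h2]
  have h3 : ∀ h : ι → Bool, (∑ B : Finset ι,
      (if B.card ≤ 1 then 0 else δ ^ (B.card - 1)) * fc a B * wal B h) * wal A h =
      ∑ B : Finset ι, (if B.card ≤ 1 then 0 else δ ^ (B.card - 1)) * fc a B *
        (wal B h * wal A h) := by
    intro h
    rw [Finset.sum_mul]
    exact Finset.sum_congr rfl fun B _ => by ring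
  rw [Finset.sum_congr rfl fun h _ => h3 h, Finset.sum_comm]
  have h4 : ∀ B : Finset ι, ∑ h : ι → Bool, (if B.card ≤ 1 then 0 else δ ^ (B.card - 1)) * fc a B *
        (wal B h * wal A h) = if B = A then (if B.card ≤ 1 then 0 else δ ^ (B.card - 1)) * fc a B *
          2 ^ Fintype.card ι else 0 := by
    intro B
    rw [← Finset.mul_sum, wal_orth]
    split_ifs <;> simp
  rw [Finset.sum_congr rfl fun B _ => h4 B, Finset.sum_ite_eq' Finset.univ A fun B =>
    (if B.card ≤ 1 then 0 else δ ^ (B.card - 1)) * fc a B * 2 ^ Fintype.card ι,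
    if_pos (Finset.mem_univ _), mul_div_assoc, div_self (by positivity), mul_one]

theorem kernel_P {δ : ℝ} (h0 : 0 < δ) (h1 : δ ≤ 1) (a : (ι → Bool) → ℝ) :
    ∑ h, (∑ e, a e * rk δ e h) ^ 2 ≤ δ ^ 2 * ∑ e, (a e) ^ 2 := by
  rw [parseval (fun h => ∑ e, a e * rk δ e h), parseval a, mul_left_comm]
  refine mul_le_mul_of_nonneg_left ?_ (by positivity)
  rw [Finset.mul_sum]
  refine Finset.sum_le_sum fun A _ => ?_
  rw [rk_fc δ h0.ne', mul_pow]
  refine mul_le_mul_of_nonneg_right ?_ (sq_nonneg _)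
  split_ifs with hc
  · rw [zero_pow two_ne_zero]
    positivity
  · refine pow_le_pow_left₀ (by positivity) ?_ 2
    calc δ ^ (A.card - 1) ≤ δ ^ 1 := pow_le_pow_of_le_one h0.le h1 (by omega)
      _ = δ := pow_one δ

end RF
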