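import Pool.Agent.RF.A2

/-!
# [RF-A4] The gap inequality for functions without first level

If all `fc f {i} = 0` then `∑_e f(e)^2 ≤ 16 ∑_e (∑_h kk (1/2) e h f(h) - f(e)/2)^2`.
Proof: `parseval` on both sides; by `kk_fc` the coefficient of the right function at `A` is
`((1/2)^|A| - 1/2) fc f A`; for `|A| = 1` it is zero and `fc f A = 0`; for `|A| ≠ 1`,
`|(1/2)^|A| - 1/2| ≥ 1/4`.
`gap_vec`: the same for `f : cube → (κ → ℝ)` (sum over the coordinates).
-/

set_option linter.unusedVariables false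

namespace RF

variable {ι : Type} [Fintype ι] [DecidableEq ι]

private theorem A4_fc (F f : (ι → Bool) → ℝ) (A : Finset ι) :
    fc (fun e => F e - f e / 2) A = fc F A - fc f A / 2 := by
  unfold fc av
  have h1 : ∑ e : ι → Bool, (F e - f e / 2) * wal A e = ∑ e, F e * wal A e - (∑ e, f e * wal A e) / 2 := by
    rw [Finset.sum_div, ← Finset.sum_sub_distrib]
    exact Finset.sum_congr rfl fun e _ => by ring
  rw [h1]
  ring

private theorem A4_coef (n : ℕ) (hn : n ≠ 1) : 1 ≤ 16 * ((1 / 2 : ℝ) ^ n - 1 / 2) ^ 2 := by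
  rcases Nat.lt_or_ge n 2 with h | h
  · have h0 : n = 0 := by omega
    rw [h0]
    norm_num
  · have h1 : (1 / 2 : ℝ) ^ n ≤ (1 / 2 : ℝ) ^ 2 := pow_le_pow_of_le_one (by norm_num) (by norm_num) h
    have h2 : 0 ≤ (1 / 2 : ℝ) ^ n := by positivity
    have h3 : (1 / 2 : ℝ) ^ n ≤ 1 / 4 := by
      refine h1.trans (le_of_eq ?_)
      norm_num
    nlinarith

theorem gap (f : (ι → Bool) → ℝ) (hf : ∀ i, fc f {i} = 0) :
    ∑ e, (f e) ^ 2 ≤ 16 * ∑ e, ((∑ h, kk (1/2) e h * f h) - f e / 2) ^ 2 := by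
  have h1 := parseval f
  have h2 := parseval (fun e => (∑ h, kk (1/2) e h * f h) - f e / 2)
  rw [h1, h2]
  have h3 : ∀ A : Finset ι, fc (fun e => (∑ h, kk (1/2) e h * f h) - f e / 2) A =
      ((1 / 2 : ℝ) ^ A.card - 1 / 2) * fc f A := by
    intro A
    rw [A4_fc (fun e => ∑ h, kk (1/2) e h * f h) f A, kk_fc]
    ring
  have h4 : ∑ A : Finset ι, (fc f A) ^ 2 ≤
      16 * ∑ A : Finset ι, (fc (fun e => (∑ h, kk (1/2) e h * f h) - f e / 2) A) ^ 2 := by
    rw [Finset.mul_sum]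
    refine Finset.sum_le_sum fun A _ => ?_
    rw [h3, mul_pow, ← mul_assoc]
    by_cases hA : A.card = 1
    · obtain ⟨i, hi⟩ := Finset.card_eq_one.1 hA
      rw [hi, hf i]
      norm_num
    · exact le_mul_of_one_le_left (sq_nonneg _) (A4_coef _ hA)
  have h5 : (0 : ℝ) ≤ 2 ^ Fintype.card ι := by positivity
  calc (2 : ℝ) ^ Fintype.card ι * ∑ A : Finset ι, (fc f A) ^ 2 ≤
      2 ^ Fintype.card ι * (16 * ∑ A : Finset ι, (fc (fun e => (∑ h, kk (1/2) e h * f h) - f e / 2) A) ^ 2) :=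
        mul_le_mul_of_nonneg_left h4 h5
    _ = _ := by ring

theorem gap_vec {κ : Type} [Fintype κ] (f : (ι → Bool) → κ → ℝ)
    (hf : ∀ i l, fc (fun e => f e l) {i} = 0) :
    ∑ e, ∑ l, (f e l) ^ 2 ≤
      16 * ∑ e, ∑ l, ((∑ h, kk (1/2) e h * f h l) - f e l / 2) ^ 2 := by
  rw [Finset.sum_comm]
  have h1 : ∑ e, ∑ l, ((∑ h, kk (1/2) e h * f h l) - f e l / 2) ^ 2 =
      ∑ l, ∑ e, ((∑ h, kk (1/2) e h * f h l) - f e l / 2) ^ 2 := Finset.sum_comm
  rw [h1, Finset.mul_sum]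
  exact Finset.sum_le_sum fun l _ => gap (fun e => f e l) fun i => hf i l

end RF
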