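import Pool.Agent.RF.A1b

/-!
# [RF-A5] Kahane's inequality with constant sqrt 2 (Latala-Oleszkiewicz)

`f e = p (rs x e) ≥ 0`, `n = |ι|`.  Let `flip j e` be `e` with the sign at `j` changed
(`Function.update e j (!e j)`).
(1) triangle inequality: `∑_j f (flip j e) ≥ p (∑_j rs x (flip j e)) = p ((n-2) • rs x e) ≥ (n - 2) f e`
    (if `n = 0` the statement is trivial: `rs x e = 0`; if `n = 1`, `(n-2) = -1` and `p(-v) = p v`,
    so in general `p ((n-2) • v) = |n-2| p v ≥ (n-2) p v`).
(2) `wal A (flip j e) = - wal A e` if `j ∈ A`, `= wal A e` otherwise, so by inversion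
    `∑_j f (flip j e) = ∑_A (n - 2|A|) fc f A wal A e`.
(3) multiply (1) by `f e ≥ 0`, sum over `e`, use Parseval/orthogonality:
    `∑_A (n - 2|A|) (fc f A)^2 ≥ (n-2) ∑_A (fc f A)^2`, i.e. `∑_A (2 - 2|A|) (fc f A)^2 ≥ 0`.
(4) `fc f A = 0` for `|A|` odd as `f` is even (`f (fun i => !e i) = f e`); in particular for `|A| = 1`.
    So `2 (fc f ∅)^2 ≥ ∑_{|A| ≥ 2} (2|A|-2) (fc f A)^2 ≥ 2 ∑_{|A| ≥ 2} (fc f A)^2`, hence
    `av f^2 = ∑_A (fc f A)^2 ≤ 2 (fc f ∅)^2 = 2 (av f)^2`.
-/

set_option linter.unusedVariables false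

namespace RF

variable {ι : Type} [Fintype ι] [DecidableEq ι]

private theorem A5_N_pos : (0 : ℝ) < 2 ^ Fintype.card ι := by positivity

/-- the sign change at `j` -/
private def A5_fl (j : ι) (e : ι → Bool) : ι → Bool := Function.update e j (!(e j))

private theorem A5_sg_not (b : Bool) : sg (!b) = - sg b := by
  cases b <;> simp [sg]

private theorem A5_sg_fl (j : ι) (e : ι → Bool) (i : ι) :
    sg (A5_fl j e i) = sg (e i) * (if i = j then -1 else 1) := by
  unfold A5_fl
  by_cases h : i = j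
  · subst h
    rw [Function.update_self, A5_sg_not, if_pos rfl]
    ring
  · rw [Function.update_of_ne h, if_neg h, mul_one]

private theorem A5_wal_fl (j : ι) (A : Finset ι) (e : ι → Bool) :
    wal A (A5_fl j e) = (if j ∈ A then -1 else 1) * wal A e := by
  unfold wal
  rw [Finset.prod_congr rfl fun i _ => A5_sg_fl j e i, Finset.prod_mul_distrib, mul_comm]
  congr 1
  rw [Finset.prod_ite_eq' A j fun _ => (-1 : ℝ)]

private theorem A5_sum_mul (f : (ι → Bool) → ℝ) (A : Finset ι) :
    ∑ e, f e * wal A e = 2 ^ Fintype.card ι * fc f A := by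
  have h := A5_N_pos (ι := ι)
  unfold fc av
  rw [mul_div_cancel₀ _ h.ne']

private theorem A5_flip (f : (ι → Bool) → ℝ) (j : ι) :
    ∑ e, f e * f (A5_fl j e) =
      2 ^ Fintype.card ι * ∑ A : Finset ι, (if j ∈ A then -1 else 1) * (fc f A) ^ 2 := by
  have h1 : ∀ e, f e * f (A5_fl j e) =
      ∑ A : Finset ι, (fc f A * (if j ∈ A then -1 else 1)) * (f e * wal A e) := by
    intro e
    rw [fc_inversion f (A5_fl j e), Finset.mul_sum]
    refine Finset.sum_congr rfl fun A _ => ?_
    rw [A5_wal_fl]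
    ring
  rw [Finset.sum_congr rfl fun e _ => h1 e, Finset.sum_comm, Finset.mul_sum]
  refine Finset.sum_congr rfl fun A _ => ?_
  rw [← Finset.mul_sum, A5_sum_mul]
  ring

private theorem A5_rs_fl {V : Type} [AddCommGroup V] [Module ℝ V] (x : ι → V) (j : ι)
    (e : ι → Bool) : rs x (A5_fl j e) = rs x e - (2 * sg (e j)) • x j := by
  unfold rs
  have h : ∀ i, sg (A5_fl j e i) • x i =
      sg (e i) • x i - (if i = j then (2 * sg (e j)) • x j else 0) := by
    intro i
    rw [A5_sg_fl]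
    by_cases h : i = j
    · subst h
      rw [if_pos rfl, if_pos rfl, ← sub_smul]
      congr 1
      ring
    · rw [if_neg h, if_neg h, mul_one, sub_zero]
  rw [Finset.sum_congr rfl fun i _ => h i, Finset.sum_sub_distrib, Finset.sum_ite_eq' Finset.univ j,
    if_pos (Finset.mem_univ j)]

private theorem A5_one {V : Type} [AddCommGroup V] [Module ℝ V] (p : SN V) (x : ι → V)
    (e : ι → Bool) : ((Fintype.card ι : ℝ) - 2) * p (rs x e) ≤ ∑ j, p (rs x (A5_fl j e)) := by
  have h1 : ∑ j, rs x (A5_fl j e) = ((Fintype.card ι : ℝ) - 2) • rs x e := by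
    rw [Finset.sum_congr rfl fun j _ => A5_rs_fl x j e, Finset.sum_sub_distrib, Finset.sum_const,
      Finset.card_univ, sub_smul]
    congr 1
    · rw [Nat.cast_smul_eq_nsmul]
    · unfold rs
      rw [Finset.smul_sum]
      exact Finset.sum_congr rfl fun j _ => mul_smul _ _ _
  have h2 : p (∑ j, rs x (A5_fl j e)) ≤ ∑ j, p (rs x (A5_fl j e)) :=
    Finset.le_sum_of_subadditive p (map_zero p).le (map_add_le_add p) _ _
  rw [h1, map_smul_eq_mul, Real.norm_eq_abs] at h2
  refine le_trans ?_ h2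
  exact mul_le_mul_of_nonneg_right (le_abs_self _) (apply_nonneg p _)

private theorem A5_even {V : Type} [AddCommGroup V] [Module ℝ V] (p : SN V) (x : ι → V)
    (A : Finset ι) (hA : A.card = 1) : fc (fun e => p (rs x e)) A = 0 := by
  obtain ⟨j, rfl⟩ := Finset.card_eq_one.1 hA
  have hinv : Function.Involutive (fun (e : ι → Bool) (i : ι) => !(e i)) := by
    intro e
    funext i
    exact Bool.not_not (e i)
  have h1 : ∑ e : ι → Bool, p (rs x e) * wal {j} e =
      ∑ e : ι → Bool, p (rs x fun i => !(e i)) * wal {j} (fun i => !(e i)) :=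
    (Equiv.sum_comp hinv.toPerm fun e : ι → Bool => p (rs x e) * wal {j} e).symm
  have h2 : ∀ e : ι → Bool, p (rs x fun i => !(e i)) * wal {j} (fun i => !(e i)) =
      - (p (rs x e) * wal {j} e) := by
    intro e
    have h3 : rs x (fun i => !(e i)) = - rs x e := by
      unfold rs
      rw [← Finset.sum_neg_distrib]
      refine Finset.sum_congr rfl fun i _ => ?_
      rw [A5_sg_not, neg_smul]
    have h4 : wal {j} (fun i => !(e i)) = - wal {j} e := by
      unfold wal
      rw [Finset.prod_singleton, Finset.prod_singleton, A5_sg_not]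
    rw [h3, h4, map_neg_eq_map]
    ring
  rw [Finset.sum_congr rfl fun e _ => h2 e, Finset.sum_neg_distrib] at h1
  have h5 : ∑ e : ι → Bool, p (rs x e) * wal {j} e = 0 := by linarith
  unfold fc av
  rw [h5, zero_div]

private theorem A5_card (A : Finset ι) :
    ∑ j : ι, (if j ∈ A then (-1 : ℝ) else 1) = (Fintype.card ι : ℝ) - 2 * A.card := by
  have h : ∀ j : ι, (if j ∈ A then (-1 : ℝ) else 1) = 1 - 2 * (if j ∈ A then 1 else 0) := by
    intro j
    split_ifs <;> norm_num
  rw [Finset.sum_congr rfl fun j _ => h j, Finset.sum_sub_distrib, ← Finset.mul_sum,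
    Finset.sum_const, Finset.card_univ, nsmul_eq_mul, mul_one, Finset.sum_ite_mem,
    Finset.univ_inter, Finset.sum_const, nsmul_eq_mul, mul_one]

theorem kahane {V : Type} [AddCommGroup V] [Module ℝ V] (p : SN V) (x : ι → V) :
    av (fun e => p (rs x e) ^ 2) ≤ 2 * (av (fun e => p (rs x e))) ^ 2 := by
  have hN := A5_N_pos (ι := ι)
  obtain ⟨f, hf⟩ : ∃ f : (ι → Bool) → ℝ, f = fun e => p (rs x e) := ⟨_, rfl⟩
  have hf0 : ∀ e, 0 ≤ f e := by
    intro e
    rw [hf]
    exact apply_nonneg p _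
  have h1 : ∀ e, ((Fintype.card ι : ℝ) - 2) * (f e) ^ 2 ≤ ∑ j, f e * f (A5_fl j e) := by
    intro e
    rw [← Finset.mul_sum]
    have h2 : ((Fintype.card ι : ℝ) - 2) * f e ≤ ∑ j, f (A5_fl j e) := by
      rw [hf]
      exact A5_one p x e
    have h3 := mul_le_mul_of_nonneg_left h2 (hf0 e)
    calc ((Fintype.card ι : ℝ) - 2) * (f e) ^ 2 = f e * (((Fintype.card ι : ℝ) - 2) * f e) := by ring
      _ ≤ _ := h3
  have h2 : ((Fintype.card ι : ℝ) - 2) * ∑ e, (f e) ^ 2 ≤ ∑ e, ∑ j, f e * f (A5_fl j e) := by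
    rw [Finset.mul_sum]
    exact Finset.sum_le_sum fun e _ => h1 e
  have h3 : ∑ e, ∑ j, f e * f (A5_fl j e) =
      2 ^ Fintype.card ι * ∑ A : Finset ι, ((Fintype.card ι : ℝ) - 2 * A.card) * (fc f A) ^ 2 := by
    rw [Finset.sum_comm, Finset.sum_congr rfl fun j _ => A5_flip f j, ← Finset.mul_sum,
      Finset.sum_comm]
    congr 1
    refine Finset.sum_congr rfl fun A _ => ?_
    rw [← Finset.sum_mul, A5_card]
  rw [h3, parseval] at h2
  have h4 : ((Fintype.card ι : ℝ) - 2) * ∑ A : Finset ι, (fc f A) ^ 2 ≤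
      ∑ A : Finset ι, ((Fintype.card ι : ℝ) - 2 * A.card) * (fc f A) ^ 2 := by
    refine le_of_mul_le_mul_left ?_ hN
    linarith
  have h5 : ∀ A : Finset ι, ((Fintype.card ι : ℝ) - 2 * A.card) * (fc f A) ^ 2 -
      ((Fintype.card ι : ℝ) - 2) * (fc f A) ^ 2 + 2 * (fc f A) ^ 2 ≤
        if A = ∅ then 4 * (fc f ∅) ^ 2 else 0 := by
    intro A
    by_cases hA : A = ∅
    · subst hA
      rw [if_pos rfl, Finset.card_empty]
      push_cast
      linarith
    · rw [if_neg hA]
      by_cases hA1 : A.card = 1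
      · have h6 : fc f A = 0 := by
          rw [hf]
          exact A5_even p x A hA1
        rw [h6]
        norm_num
      · have h7 : 2 ≤ A.card := by
          have := Finset.card_pos.2 (Finset.nonempty_iff_ne_empty.2 hA)
          omega
        have h8 : (2 : ℝ) ≤ A.card := by exact_mod_cast h7
        have h9 : 0 ≤ (fc f A) ^ 2 := sq_nonneg _
        nlinarith
  have h6 := Finset.sum_le_sum fun A (_ : A ∈ (Finset.univ : Finset (Finset ι))) => h5 A
  rw [Finset.sum_add_distrib, Finset.sum_sub_distrib, ← Finset.mul_sum, ← Finset.mul_sum,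
    Finset.sum_ite_eq' Finset.univ (∅ : Finset ι), if_pos (Finset.mem_univ _)] at h6
  have h7 : ∑ A : Finset ι, (fc f A) ^ 2 ≤ 2 * (fc f ∅) ^ 2 := by linarith
  have h8 : fc f ∅ = av f := by
    unfold fc wal
    simp only [Finset.prod_empty, mul_one]
  have h9 : av (fun e => (f e) ^ 2) = ∑ A : Finset ι, (fc f A) ^ 2 := by
    unfold av
    rw [parseval, mul_div_cancel_left₀ _ hN.ne']
  rw [h8, ← h9, hf] at h7
  exact h7

end RF
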