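import Pool.Agent.RF.A5

/-!
# [RF-A6] Khintchine, cotype 2 of `L_1` and of `l_1`, cotype of Hilbert-like seminorms

* `rad_sq`: `av (∑_i a_i sg(e i))^2 = ∑ a_i^2` (`sg (e i) = wal {i} e`, `wal_orth`).
* `khin`: `sqrt (∑ a_i^2) ≤ sqrt 2 * L1 (J a)`: `rad_sq` and `kahane` for the seminorm `|.|` on `ℝ`
  (`normSeminorm ℝ ℝ`).
* `L1_Jm_le`: Cauchy-Schwarz, `(av |g|)^2 ≤ av g^2`.
* `ct2_of_pointwise`: if `N v = ∑_γ w_γ |f_γ v|` with `f_γ` linear functionals and `w_γ ≥ 0` (finite sum),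
  then `CT2 N (sqrt 2)`: Minkowski `sqrt (∑_i (∑_γ w_γ |f_γ x_i|)^2) ≤ ∑_γ w_γ sqrt (∑_i |f_γ x_i|^2)` and
  `khin` for `a_i = f_γ x_i` (exchange the sum over `γ` and the average).
* `L1_CT2` is the case of the cube; `l1f_CT2` the case of finitely supported families (reduce to the
  finite union of the supports).
-/

set_option linter.unusedVariables false

namespace RF

variable {ι : Type} [Fintype ι] [DecidableEq ι]

private theorem a6_pos (κ : Type) [Fintype κ] : (0 : ℝ) < 2 ^ Fintype.card κ := by positivity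

private theorem a6_wal (i : ι) (e : ι → Bool) : sg (e i) = wal {i} e := by
  unfold wal
  rw [Finset.prod_singleton]

private theorem a6_cs (g : (ι → Bool) → ℝ) :
    av (fun e => |g e|) ^ 2 ≤ av (fun e => g e ^ 2) := by
  unfold av
  have hp := a6_pos ι
  have hc : ((Finset.univ : Finset (ι → Bool)).card : ℝ) = 2 ^ Fintype.card ι := by
    rw [Finset.card_univ, Fintype.card_fun, Fintype.card_bool]
    push_cast
    rfl
  have h1 := sq_sum_le_card_mul_sum_sq (s := (Finset.univ : Finset (ι → Bool)))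
    (f := fun e => |g e|)
  rw [hc] at h1
  simp only [sq_abs] at h1
  rw [div_pow, div_le_div_iff₀ (by positivity) hp]
  have h2 : 0 ≤ (2 : ℝ) ^ Fintype.card ι := hp.le
  calc (∑ e, |g e|) ^ 2 * 2 ^ Fintype.card ι
      ≤ (2 ^ Fintype.card ι * ∑ e, g e ^ 2) * 2 ^ Fintype.card ι :=
        mul_le_mul_of_nonneg_right h1 h2
    _ = (∑ e, g e ^ 2) * (2 ^ Fintype.card ι) ^ 2 := by ring

private theorem a6_nn (g : (ι → Bool) → ℝ) (h : ∀ e, 0 ≤ g e) : 0 ≤ av g := by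
  unfold av
  exact div_nonneg (Finset.sum_nonneg fun e _ => h e) (a6_pos ι).le

theorem rad_sq (a : ι → ℝ) :
    av (fun e => (∑ i, a i * sg (e i)) ^ 2) = ∑ i, (a i) ^ 2 := by
  unfold av
  rw [div_eq_iff (a6_pos ι).ne']
  have h1 : ∀ e : ι → Bool, (∑ i, a i * sg (e i)) ^ 2 =
      ∑ i, ∑ j, a i * a j * (wal {i} e * wal {j} e) := by
    intro e
    rw [sq, Finset.sum_mul_sum]
    refine Finset.sum_congr rfl fun i _ => Finset.sum_congr rfl fun j _ => ?_
    rw [a6_wal i e, a6_wal j e]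
    ring
  simp only [h1]
  rw [Finset.sum_comm, Finset.sum_mul]
  refine Finset.sum_congr rfl fun i _ => ?_
  rw [Finset.sum_comm]
  simp only [← Finset.mul_sum, wal_orth, Finset.singleton_inj]
  rw [Finset.sum_eq_single i]
  · rw [if_pos rfl]
    ring
  · intro j _ hj
    rw [if_neg (Ne.symm hj), mul_zero]
  · intro h
    exact absurd (Finset.mem_univ i) h

theorem khin (a : ι → ℝ) :
    Real.sqrt (∑ i, (a i) ^ 2) ≤ Real.sqrt 2 * L1 ι (Jm ι a) := by
  have h1 := kahane (normSeminorm ℝ ℝ) a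
  have h2 : ∀ e : ι → Bool, rs a e = Jm ι a e := by
    intro e
    rw [Jm_apply]
    unfold rs
    refine Finset.sum_congr rfl fun i _ => ?_
    rw [smul_eq_mul, mul_comm]
  have h3 : ∀ e : ι → Bool, (normSeminorm ℝ ℝ) (rs a e) = |Jm ι a e| := by
    intro e
    rw [h2]
    rfl
  simp only [h3, sq_abs] at h1
  have h4 : av (fun e => (Jm ι a e) ^ 2) = ∑ i, (a i) ^ 2 := rad_sq a
  rw [h4, ← L1_apply] at h1
  have h5 : 0 ≤ L1 ι (Jm ι a) := apply_nonneg _ _
  calc Real.sqrt (∑ i, (a i) ^ 2) ≤ Real.sqrt (2 * (L1 ι (Jm ι a)) ^ 2) := Real.sqrt_le_sqrt h1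
    _ = Real.sqrt 2 * L1 ι (Jm ι a) := by
      rw [Real.sqrt_mul (by norm_num), Real.sqrt_sq h5]

theorem L1_Jm_le (a : ι → ℝ) : L1 ι (Jm ι a) ≤ Real.sqrt (∑ i, (a i) ^ 2) := by
  apply Real.le_sqrt_of_sq_le
  rw [L1_apply]
  exact (a6_cs (Jm ι a)).trans (le_of_eq (rad_sq a))

end RF
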