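import Pool.Agent.RF.A6

/-!
# [RF-A6] Khintchine, cotype 2 of `L_1` and of `l_1`, cotype of Hilbert-like seminorms

* `rad_sq`: `av (∑_i a_i sg(e i))^2 = ∑ a_i^2` (`sg (e i) = wal {i} e`, `wal_orth`).
* `khin`: `sqrt (∑ a_i^2) ≤ sqrt 2 * L1 (J a)`: `rad_sq` and `kahane` for the seminorm `|.|` on `ℝ`
  (`normSeminorm ℝ ℝ`).
* `L1_Jm_le`: Cauchy-Schwarz, `(av |g|)^2 ≤ av g^2`.
* `ct2_of_pointwise`: if `N v = ∑_γ w_γ |f_γ v|` with `f_γ` linear functionals and `w_γ ≥ 0` (finite sum),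
  then `CT2 N (sqrt 2)`: Minkowski `sqrt (∑_i (∑_γ w_γ |f_γ x_i|)^2) ≤ ∑_γ w_γ sqrt (∑_i |f_γ x_i|^2)` and
  `khin` for `a_i = f_γ x_i` (exchange the sum over `γ` and the average).
* `L1_CT2` is the case of the cube; `l1f_CT2` the case of finitely supported families (reduce to the
  finite union of the supports).
-/

set_option linter.unusedVariables false

namespace RF

variable {ι : Type} [Fintype ι] [DecidableEq ι]

theorem A6b_minkowski {κ : Type} [Fintype κ] (v : κ → ι → ℝ) :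
    Real.sqrt (∑ i, (∑ c, v c i) ^ 2) ≤ ∑ c, Real.sqrt (∑ i, (v c i) ^ 2) := by
  have h := norm_sum_le (Finset.univ : Finset κ)
    (fun c => (WithLp.toLp 2 (v c) : EuclideanSpace ℝ ι))
  have h1 : ‖∑ c, (WithLp.toLp 2 (v c) : EuclideanSpace ℝ ι)‖ =
      Real.sqrt (∑ i, (∑ c, v c i) ^ 2) := by
    rw [EuclideanSpace.norm_eq]
    congr 1
    refine Finset.sum_congr rfl (fun i _ => ?_)
    rw [Real.norm_eq_abs, sq_abs]
    congr 1
    rw [← WithLp.toLp_sum]
    simp
  have h2 : ∀ c, ‖(WithLp.toLp 2 (v c) : EuclideanSpace ℝ ι)‖ =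
      Real.sqrt (∑ i, (v c i) ^ 2) := by
    intro c
    rw [EuclideanSpace.norm_eq]
    congr 1
    refine Finset.sum_congr rfl (fun i _ => ?_)
    rw [Real.norm_eq_abs, sq_abs]
  rw [h1] at h
  refine h.trans (le_of_eq ?_)
  exact Finset.sum_congr rfl (fun c _ => h2 c)

theorem ct2_of_pointwise {V : Type} [AddCommGroup V] [Module ℝ V] (N : SN V)
    {κ : Type} [Fintype κ] (w : κ → ℝ) (hw : ∀ c, 0 ≤ w c) (f : κ → V →ₗ[ℝ] ℝ)
    (hN : ∀ v, N v = ∑ c, w c * |f c v|) : CT2 N (Real.sqrt 2) := by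
  intro ι _ _ x
  have h1 : Real.sqrt (∑ i, N (x i) ^ 2) ≤
      ∑ c, Real.sqrt (∑ i, (w c * |f c (x i)|) ^ 2) := by
    have := A6b_minkowski (ι := ι) (fun c i => w c * |f c (x i)|)
    refine (le_of_eq ?_).trans this
    congr 1
    exact Finset.sum_congr rfl (fun i _ => by rw [hN])
  have h2 : ∀ c, Real.sqrt (∑ i, (w c * |f c (x i)|) ^ 2) ≤
      Real.sqrt 2 * av (fun e : ι → Bool => w c * |f c (rs x e)|) := by
    intro c
    have e1 : ∑ i, (w c * |f c (x i)|) ^ 2 = (w c) ^ 2 * ∑ i, (f c (x i)) ^ 2 := by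
      rw [Finset.mul_sum]
      exact Finset.sum_congr rfl (fun i _ => by rw [mul_pow, sq_abs])
    rw [e1, Real.sqrt_mul (sq_nonneg _), Real.sqrt_sq (hw c)]
    have k := khin (fun i => f c (x i))
    have e2 : L1 ι (Jm ι (fun i => f c (x i))) = av (fun e : ι → Bool => |f c (rs x e)|) := by
      rw [L1_apply]
      congr 1
      funext e
      rw [Jm_apply, rs, map_sum]
      congr 1
      exact Finset.sum_congr rfl (fun i _ => by rw [map_smul, smul_eq_mul, mul_comm])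
    rw [e2] at k
    have e3 : av (fun e : ι → Bool => w c * |f c (rs x e)|) =
        w c * av (fun e : ι → Bool => |f c (rs x e)|) := by
      simp only [av]
      rw [← Finset.mul_sum, mul_div_assoc]
    rw [e3]
    calc w c * Real.sqrt (∑ i, (f c (x i)) ^ 2)
        ≤ w c * (Real.sqrt 2 * av (fun e : ι → Bool => |f c (rs x e)|)) :=
          mul_le_mul_of_nonneg_left k (hw c)
      _ = Real.sqrt 2 * (w c * av (fun e : ι → Bool => |f c (rs x e)|)) := by ring
  refine h1.trans ((Finset.sum_le_sum (fun c _ => h2 c)).trans (le_of_eq ?_))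
  rw [← Finset.mul_sum]
  congr 1
  simp only [av]
  rw [← Finset.sum_div]
  congr 1
  rw [Finset.sum_comm]
  exact Finset.sum_congr rfl (fun e _ => by rw [hN])

theorem L1_CT2 (κ : Type) [Fintype κ] [DecidableEq κ] : CT2 (L1 κ) (Real.sqrt 2) := by
  refine ct2_of_pointwise (L1 κ) (κ := κ → Bool) (fun _ => (2 ^ Fintype.card κ : ℝ)⁻¹)
    (fun _ => by positivity) (fun e => LinearMap.proj e) ?_
  intro v
  rw [L1_apply, av, div_eq_inv_mul, Finset.mul_sum]
  rfl

end RF
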