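import Pool.Agent.RF.A6b

/-!
# [RF-A6] Khintchine, cotype 2 of `L_1` and of `l_1`, cotype of Hilbert-like seminorms

* `rad_sq`: `av (∑_i a_i sg(e i))^2 = ∑ a_i^2` (`sg (e i) = wal {i} e`, `wal_orth`).
* `khin`: `sqrt (∑ a_i^2) ≤ sqrt 2 * L1 (J a)`: `rad_sq` and `kahane` for the seminorm `|.|` on `ℝ`
  (`normSeminorm ℝ ℝ`).
* `L1_Jm_le`: Cauchy-Schwarz, `(av |g|)^2 ≤ av g^2`.
* `ct2_of_pointwise`: if `N v = ∑_γ w_γ |f_γ v|` with `f_γ` linear functionals and `w_γ ≥ 0` (finite sum),
  then `CT2 N (sqrt 2)`: Minkowski `sqrt (∑_i (∑_γ w_γ |f_γ x_i|)^2) ≤ ∑_γ w_γ sqrt (∑_i |f_γ x_i|^2)` and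
  `khin` for `a_i = f_γ x_i` (exchange the sum over `γ` and the average).
* `L1_CT2` is the case of the cube; `l1f_CT2` the case of finitely supported families (reduce to the
  finite union of the supports).
-/

set_option linter.unusedVariables false

namespace RF

variable {ι : Type} [Fintype ι] [DecidableEq ι]

/-- The `l_1` seminorm on finitely supported functions. -/
noncomputable def l1f (Γ : Type) : SN (Γ →₀ ℝ) :=
  Seminorm.of (fun g => g.sum (fun _ a => |a|))
    (by
      classical
      intro x y
      rw [Finsupp.sum_of_support_subset (x + y) (s := x.support ∪ y.support) Finsupp.support_add _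
          (by simp),
        Finsupp.sum_of_support_subset x (s := x.support ∪ y.support) Finset.subset_union_left _
          (by simp),
        Finsupp.sum_of_support_subset y (s := x.support ∪ y.support) Finset.subset_union_right _
          (by simp), ← Finset.sum_add_distrib]
      exact Finset.sum_le_sum (fun i _ => by simpa using abs_add_le (x i) (y i)))
    (by
      intro a x
      rw [Finsupp.sum_of_support_subset (a • x) (s := x.support) Finsupp.support_smul _ (by simp),
        Finsupp.sum, Finset.mul_sum]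
      exact Finset.sum_congr rfl (fun i _ => by simp [abs_mul]))

theorem l1f_apply (Γ : Type) (g : Γ →₀ ℝ) : l1f Γ g = g.sum (fun _ a => |a|) := rfl

theorem A6c_sum (Γ : Type) (S : Finset Γ) (g : Γ →₀ ℝ) (h : g.support ⊆ S) :
    l1f Γ g = ∑ c : S, |g c| := by
  rw [l1f_apply, Finsupp.sum_of_support_subset g h _ (by simp)]
  exact (Finset.sum_coe_sort S (fun c => |g c|)).symm

theorem l1f_CT2 (Γ : Type) : CT2 (l1f Γ) (Real.sqrt 2) := by
  classical
  intro ι _ _ x
  set S : Finset Γ := Finset.univ.biUnion (fun i => (x i).support) with hS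
  let M : SN (S → ℝ) := Seminorm.of (fun v => ∑ c : S, |v c|)
    (by
      intro a b
      rw [← Finset.sum_add_distrib]
      exact Finset.sum_le_sum (fun c _ => abs_add_le (a c) (b c)))
    (by
      intro a b
      rw [Finset.mul_sum]
      exact Finset.sum_congr rfl (fun c _ => by simp [abs_mul]))
  have hM : CT2 M (Real.sqrt 2) := by
    refine ct2_of_pointwise M (κ := S) (fun _ => 1) (fun _ => zero_le_one)
      (fun c => LinearMap.proj c) ?_
    intro v
    show ∑ c : S, |v c| = ∑ c : S, 1 * |v c|
    simp
  have key := hM ι (fun i => fun c : S => x i c)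
  have h1 : ∀ i, M (fun c : S => x i c) = l1f Γ (x i) := by
    intro i
    rw [A6c_sum Γ S (x i)]
    · rfl
    · intro c hc
      rw [hS, Finset.mem_biUnion]
      exact ⟨i, Finset.mem_univ i, hc⟩
  have h2 : ∀ e : ι → Bool, M (rs (fun i => fun c : S => x i c) e) = l1f Γ (rs x e) := by
    intro e
    rw [A6c_sum Γ S (rs x e)]
    · show ∑ c : S, |(rs (fun i => fun c : S => x i c) e) c| = _
      refine Finset.sum_congr rfl (fun c _ => ?_)
      congr 1
      simp only [rs, Finset.sum_apply, Pi.smul_apply, smul_eq_mul, Finsupp.finsetSum_apply,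
        Finsupp.smul_apply]
    · intro c hc
      rw [rs] at hc
      have h3 := Finsupp.support_finsetSum hc
      rw [Finset.mem_biUnion] at h3
      obtain ⟨i, hi, hi2⟩ := h3
      rw [hS, Finset.mem_biUnion]
      exact ⟨i, hi, Finsupp.support_smul hi2⟩
  simp only [h1, h2] at key
  exact key

end RF
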