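import Pool.Agent.RF.A3

/-!
# [RF-B1] Lemma P (the bootstrap inequality)

Let `NX` have (R) with constant `C ≥ 1`, `NY` cotype 2 with constant `K ≥ 1`, `c : X → Y` linear with
`NY (c x) ≤ A NX x`, and suppose the 2-summing constant of `c` is finite (`hfin`).  Then it is at most
`8 K^2 C^2 A`.

Proof.  Let `π` be the least upper bound of `sqrt (∑ NY(c x_i)^2)` over all finite types `ι` and all families `x`
with `W2 NX x 1` (a real number `≤ M`; to avoid universe problems take `ι = Fin n`: every family over a finite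
type is a reindexed family over `Fin n`, the sums are unchanged).  It is enough to show
  (*)  for all `0 < δ ≤ 1` and all `x` with `W2 NX x 1`: `sqrt (∑ NY(c x_i)^2) ≤ K (2 C A / δ + δ C π)`.
With `δ = 1/(2KC)` this gives `π ≤ 4 K^2 C^2 A + π/2`.

Proof of (*).  Take `Φ` from `RProp` for `x`, `n = |ι|`, and put `R e = ∑_h rk δ e h • Φ h`.  By the definition of
`rk`, `R e = δ⁻¹ • (∑_h kk δ e h • Φ h - 2^{-n} • ∑_h Φ h) - ∑_i sg(e i) • (2^{-n} • ∑_h sg(h i) • Φ h)`, so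
`rs x e = δ⁻¹ • (∑_h kk δ e h • Φ h - 2^{-n} • ∑_h Φ h) - R e + (vector of NX-seminorm 0)`.  Now
 * `NX (∑_h kk δ e h • Φ h) ≤ C`  (`kk_nonneg`, `kk_sum`), `NX (2^{-n} • ∑_h Φ h) ≤ C`, so
   `NY (c (δ⁻¹ • ..)) ≤ δ⁻¹ * A * 2 C`.
 * the family `y_e = (sqrt (2^n))⁻¹ • R e`, `e ∈ cube`, satisfies `W2 NX y (δ C)`:
   `∑_e a_e • y_e = (sqrt 2^n)⁻¹ • ∑_h (∑_e a_e rk δ e h) • Φ h`, its seminorm is at most
   `(sqrt 2^n)⁻¹ C ∑_h |∑_e a_e rk δ e h| ≤ C sqrt (∑_h (∑_e a_e rk δ e h)^2) ≤ C δ sqrt (∑ a_e^2)` by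
   Cauchy-Schwarz (`2^n` points `h`) and `kernel_P`.  By scaling (`δ C > 0`), `sqrt (∑_e NY(c y_e)^2) ≤ δ C π`, i.e.
   `(av NY(c R)^2)^{1/2} ≤ δ C π`, and `av NY(c R) ≤ (av NY(c R)^2)^{1/2}`.
 * so `av_e NY (rs (c ∘ x) e) ≤ 2 C A / δ + δ C π` and cotype 2 of `NY` for the family `c ∘ x` gives (*).
-/

set_option linter.unusedVariables false

namespace RF

private theorem B1_cs {β : Type} [Fintype β] (F : β → ℝ) (hF : ∀ h, 0 ≤ F h) :
    ∑ h, F h ≤ Real.sqrt (Fintype.card β) * Real.sqrt (∑ h, (F h) ^ 2) := by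
  have h1 := sq_sum_le_card_mul_sum_sq (s := (Finset.univ : Finset β)) (f := F)
  rw [Finset.card_univ] at h1
  rw [← Real.sqrt_mul (Nat.cast_nonneg _)]
  exact Real.le_sqrt_of_sq_le h1

private theorem B1_card (ι : Type) [Fintype ι] [DecidableEq ι] :
    ((Fintype.card (ι → Bool) : ℕ) : ℝ) = (2 : ℝ) ^ Fintype.card ι := by
  rw [Fintype.card_fun, Fintype.card_bool]
  push_cast
  rfl

/-- the seminorm of a combination -/
private theorem B1_comb {V : Type} [AddCommGroup V] [Module ℝ V] (N : SN V) {β : Type}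
    (s : Finset β) (a : β → ℝ) (Φ : β → V) {C : ℝ} (hΦ : ∀ h, N (Φ h) ≤ C) :
    N (∑ h ∈ s, a h • Φ h) ≤ (∑ h ∈ s, |a h|) * C := by
  classical
  induction s using Finset.induction_on with
  | empty => simp
  | insert b s hb ih =>
    rw [Finset.sum_insert hb, Finset.sum_insert hb, add_mul]
    refine (map_add_le_add N _ _).trans (add_le_add ?_ ih)
    rw [map_smul_eq_mul, Real.norm_eq_abs]
    exact mul_le_mul_of_nonneg_left (hΦ b) (abs_nonneg _)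

/-- the remainder -/
private theorem B1_rem {X : Type} [AddCommGroup X] [Module ℝ X] {ι : Type} [Fintype ι]
    [DecidableEq ι] (δ : ℝ) (Φ : (ι → Bool) → X) (x : ι → X) (e : ι → Bool) :
    rs x e = δ⁻¹ • (∑ h, kk δ e h • Φ h - (2 ^ Fintype.card ι : ℝ)⁻¹ • ∑ h, Φ h) -
      (∑ h, rk δ e h • Φ h) +
      ∑ i, sg (e i) • (x i - (2 ^ Fintype.card ι : ℝ)⁻¹ • ∑ h, sg (h i) • Φ h) := by
  have h1 : ∑ h, rk δ e h • Φ h = δ⁻¹ • (∑ h, kk δ e h • Φ h -
      (2 ^ Fintype.card ι : ℝ)⁻¹ • ∑ h, Φ h) -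
      ∑ i, sg (e i) • ((2 ^ Fintype.card ι : ℝ)⁻¹ • ∑ h, sg (h i) • Φ h) := by
    have h2 : ∑ i, sg (e i) • ((2 ^ Fintype.card ι : ℝ)⁻¹ • ∑ h : ι → Bool, sg (h i) • Φ h) =
        ∑ h : ι → Bool, ((2 ^ Fintype.card ι : ℝ)⁻¹ * ∑ i, sg (e i) * sg (h i)) • Φ h := by
      simp only [Finset.smul_sum, Finset.mul_sum, Finset.sum_smul, smul_smul]
      rw [Finset.sum_comm]
      refine Finset.sum_congr rfl fun h _ => Finset.sum_congr rfl fun i _ => ?_
      congr 1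
      ring
    rw [h2, Finset.smul_sum, ← Finset.sum_sub_distrib, Finset.smul_sum, ← Finset.sum_sub_distrib]
    refine Finset.sum_congr rfl fun h _ => ?_
    unfold rk
    rw [sub_smul, mul_smul, sub_smul]
  rw [h1]
  simp only [rs, smul_sub, Finset.sum_sub_distrib]
  abel

theorem W2.smul {V : Type} [AddCommGroup V] [Module ℝ V] {N : SN V} {ι : Type}
    [Fintype ι] {x : ι → V} {M : ℝ} (h : W2 N x M) (r : ℝ) :
    W2 N (fun i => r • x i) (|r| * M) := by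
  intro a
  have h1 : ∑ i, a i • (r • x i) = r • ∑ i, a i • x i := by
    rw [Finset.smul_sum]
    exact Finset.sum_congr rfl fun i _ => by rw [smul_comm]
  rw [h1, map_smul_eq_mul, Real.norm_eq_abs, mul_assoc]
  exact mul_le_mul_of_nonneg_left (h a) (abs_nonneg r)

theorem W2.mono {V : Type} [AddCommGroup V] [Module ℝ V] {N : SN V} {ι : Type}
    [Fintype ι] {x : ι → V} {M M' : ℝ} (h : W2 N x M) (hM : M ≤ M') : W2 N x M' := by
  intro a
  exact (h a).trans (mul_le_mul_of_nonneg_right hM (Real.sqrt_nonneg _))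

/-- (*) of the header. -/
theorem lemmaP_step {X Y : Type} [AddCommGroup X] [Module ℝ X] [AddCommGroup Y] [Module ℝ Y]
    (NX : SN X) (NY : SN Y) {K C A π δ : ℝ} (hK : 1 ≤ K) (hC : 1 ≤ C) (hA : 0 ≤ A)
    (hπ : 0 ≤ π) (hδ : 0 < δ) (hδ1 : δ ≤ 1)
    (hR : RProp NX C) (hY : CT2 NY K) (c : X →ₗ[ℝ] Y) (hc : ∀ x, NY (c x) ≤ A * NX x)
    (hfin : ∀ (ι : Type) [Fintype ι] (x : ι → X), W2 NX x 1 →
      Real.sqrt (∑ i, NY (c (x i)) ^ 2) ≤ π)
    (ι : Type) [Fintype ι] [DecidableEq ι] (x : ι → X) (hx : W2 NX x 1) :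
    Real.sqrt (∑ i, NY (c (x i)) ^ 2) ≤ K * (2 * C * A / δ + δ * C * π) := by
  obtain ⟨Φ, hΦ, hx0⟩ := hR ι x hx
  have hC0 : 0 ≤ C := by linarith
  set T : ℝ := (2 : ℝ) ^ Fintype.card ι with hT
  have hTpos : 0 < T := by rw [hT]; positivity
  have hsT : 0 < Real.sqrt T := Real.sqrt_pos.2 hTpos
  have hsT2 : Real.sqrt T * Real.sqrt T = T := Real.mul_self_sqrt hTpos.le
  have hcard : ((Fintype.card (ι → Bool) : ℕ) : ℝ) = T := B1_card ι
  -- the pieces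
  have hS : ∀ e, NX (∑ h, kk δ e h • Φ h) ≤ C := by
    intro e
    refine (B1_comb NX Finset.univ (fun h => kk δ e h) Φ hΦ).trans ?_
    have h1 : ∑ h, |kk δ e h| = 1 := by
      rw [← kk_sum δ e]
      exact Finset.sum_congr rfl fun h _ => abs_of_nonneg (kk_nonneg hδ.le hδ1 e h)
    rw [h1, one_mul]
  have hm : NX (T⁻¹ • ∑ h, Φ h) ≤ C := by
    rw [map_smul_eq_mul, Real.norm_eq_abs, abs_of_pos (inv_pos.2 hTpos)]
    have h1 := B1_comb NX Finset.univ (fun _ : ι → Bool => (1 : ℝ)) Φ hΦ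
    simp only [one_smul, abs_one, Finset.sum_const, Finset.card_univ, nsmul_eq_mul, mul_one] at h1
    rw [hcard] at h1
    calc T⁻¹ * NX (∑ h, Φ h) ≤ T⁻¹ * (T * C) :=
          mul_le_mul_of_nonneg_left h1 (inv_pos.2 hTpos).le
      _ = C := by field_simp
  -- the family of the remainders
  have hW : W2 NX (fun e : ι → Bool => (Real.sqrt T)⁻¹ • ∑ h, rk δ e h • Φ h) (δ * C) := by
    intro a
    have h1 : ∑ e, a e • ((Real.sqrt T)⁻¹ • ∑ h, rk δ e h • Φ h) =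
        (Real.sqrt T)⁻¹ • ∑ h, (∑ e, a e * rk δ e h) • Φ h := by
      simp only [Finset.smul_sum, Finset.sum_smul, smul_smul]
      rw [Finset.sum_comm]
      refine Finset.sum_congr rfl fun h _ => Finset.sum_congr rfl fun e _ => ?_
      congr 1
      ring
    rw [h1, map_smul_eq_mul, Real.norm_eq_abs, abs_of_pos (inv_pos.2 hsT)]
    have h2 := B1_comb NX Finset.univ (fun h => ∑ e, a e * rk δ e h) Φ hΦ
    have h3 := B1_cs (fun h : ι → Bool => |∑ e, a e * rk δ e h|) (fun h => abs_nonneg _)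
    simp only [sq_abs] at h3
    rw [hcard] at h3
    have h4 : Real.sqrt (∑ h, (∑ e, a e * rk δ e h) ^ 2) ≤ δ * Real.sqrt (∑ e, (a e) ^ 2) := by
      rw [← Real.sqrt_sq hδ.le, ← Real.sqrt_mul (sq_nonneg δ), Real.sqrt_sq hδ.le]
      exact Real.sqrt_le_sqrt (kernel_P hδ hδ1 a)
    calc (Real.sqrt T)⁻¹ * NX (∑ h, (∑ e, a e * rk δ e h) • Φ h)
        ≤ (Real.sqrt T)⁻¹ * ((∑ h, |∑ e, a e * rk δ e h|) * C) :=
          mul_le_mul_of_nonneg_left h2 (inv_pos.2 hsT).le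
      _ ≤ (Real.sqrt T)⁻¹ * ((Real.sqrt T * (δ * Real.sqrt (∑ e, (a e) ^ 2))) * C) := by
          refine mul_le_mul_of_nonneg_left (mul_le_mul_of_nonneg_right ?_ hC0) (inv_pos.2 hsT).le
          exact h3.trans (mul_le_mul_of_nonneg_left h4 hsT.le)
      _ = δ * C * Real.sqrt (∑ e, (a e) ^ 2) := by field_simp
  have hδC : 0 < δ * C := mul_pos hδ (by linarith)
  have hW1 := hW.smul (δ * C)⁻¹
  rw [abs_of_pos (inv_pos.2 hδC), inv_mul_cancel₀ hδC.ne'] at hW1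
  have h5 := hfin (ι → Bool) _ hW1
  -- the average of the remainders
  have h6 : ∀ e, NY (c ((δ * C)⁻¹ • ((Real.sqrt T)⁻¹ • ∑ h, rk δ e h • Φ h))) =
      (δ * C)⁻¹ * ((Real.sqrt T)⁻¹ * NY (c (∑ h, rk δ e h • Φ h))) := by
    intro e
    rw [c.map_smul, c.map_smul, map_smul_eq_mul, map_smul_eq_mul, Real.norm_eq_abs, Real.norm_eq_abs,
      abs_of_pos (inv_pos.2 hδC), abs_of_pos (inv_pos.2 hsT)]
  simp only [h6] at h5
  have h7 : ∑ e, ((δ * C)⁻¹ * ((Real.sqrt T)⁻¹ * NY (c (∑ h, rk δ e h • Φ h)))) ^ 2 =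
      ((δ * C)⁻¹ * (Real.sqrt T)⁻¹) ^ 2 * ∑ e, (NY (c (∑ h, rk δ e h • Φ h))) ^ 2 := by
    rw [Finset.mul_sum]
    exact Finset.sum_congr rfl fun e _ => by ring
  have hpos2 : 0 < (δ * C)⁻¹ * (Real.sqrt T)⁻¹ := mul_pos (inv_pos.2 hδC) (inv_pos.2 hsT)
  rw [h7, Real.sqrt_mul (sq_nonneg _), Real.sqrt_sq hpos2.le] at h5
  have h8 : Real.sqrt (∑ e, (NY (c (∑ h, rk δ e h • Φ h))) ^ 2) ≤ δ * C * π * Real.sqrt T := by
    calc Real.sqrt (∑ e, (NY (c (∑ h, rk δ e h • Φ h))) ^ 2)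
        = (δ * C * Real.sqrt T) * ((δ * C)⁻¹ * (Real.sqrt T)⁻¹ *
          Real.sqrt (∑ e, (NY (c (∑ h, rk δ e h • Φ h))) ^ 2)) := by
            field_simp
      _ ≤ (δ * C * Real.sqrt T) * π := mul_le_mul_of_nonneg_left h5 (mul_pos hδC hsT).le
      _ = δ * C * π * Real.sqrt T := by ring
  have h9 : ∑ e, NY (c (∑ h, rk δ e h • Φ h)) ≤ T * (δ * C * π) := by
    have h10 := B1_cs (fun e : ι → Bool => NY (c (∑ h, rk δ e h • Φ h)))
      (fun e => apply_nonneg NY _)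
    rw [hcard] at h10
    calc ∑ e, NY (c (∑ h, rk δ e h • Φ h))
        ≤ Real.sqrt T * Real.sqrt (∑ e, (NY (c (∑ h, rk δ e h • Φ h))) ^ 2) := h10
      _ ≤ Real.sqrt T * (δ * C * π * Real.sqrt T) := mul_le_mul_of_nonneg_left h8 hsT.le
      _ = (Real.sqrt T * Real.sqrt T) * (δ * C * π) := by ring
      _ = T * (δ * C * π) := by rw [hsT2]
  -- pointwise bound
  have h11 : ∀ e, NY (rs (fun i => c (x i)) e) ≤
      2 * C * A / δ + NY (c (∑ h, rk δ e h • Φ h)) := by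
    intro e
    have h12 : rs (fun i => c (x i)) e = c (rs x e) := by
      simp only [rs, map_sum, map_smul]
    have h13 : NX (∑ i, sg (e i) • (x i - T⁻¹ • ∑ h, sg (h i) • Φ h)) = 0 := by
      apply le_antisymm _ (apply_nonneg NX _)
      have h14 := B1_comb NX Finset.univ (fun i => sg (e i))
        (fun i => x i - T⁻¹ • ∑ h : ι → Bool, sg (h i) • Φ h) (C := 0) (fun i => (hx0 i).le)
      rw [mul_zero] at h14
      exact h14
    rw [h12, B1_rem δ Φ x e, map_add, map_sub]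
    have h15 : NY (c (∑ i, sg (e i) • (x i - T⁻¹ • ∑ h, sg (h i) • Φ h))) ≤ 0 := by
      have h16 := hc (∑ i, sg (e i) • (x i - T⁻¹ • ∑ h, sg (h i) • Φ h))
      rw [h13, mul_zero] at h16
      exact h16
    have h17 : NY (c (δ⁻¹ • (∑ h, kk δ e h • Φ h - T⁻¹ • ∑ h, Φ h))) ≤ 2 * C * A / δ := by
      have h18 := hc (δ⁻¹ • (∑ h, kk δ e h • Φ h - T⁻¹ • ∑ h, Φ h))
      rw [map_smul_eq_mul NX, Real.norm_eq_abs, abs_of_pos (inv_pos.2 hδ)] at h18
      have h19 : NX (∑ h, kk δ e h • Φ h - T⁻¹ • ∑ h, Φ h) ≤ C + C :=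
        (map_sub_le_add NX _ _).trans (add_le_add (hS e) hm)
      calc NY (c (δ⁻¹ • (∑ h, kk δ e h • Φ h - T⁻¹ • ∑ h, Φ h)))
          ≤ A * (δ⁻¹ * NX (∑ h, kk δ e h • Φ h - T⁻¹ • ∑ h, Φ h)) := h18
        _ ≤ A * (δ⁻¹ * (C + C)) :=
            mul_le_mul_of_nonneg_left (mul_le_mul_of_nonneg_left h19 (inv_pos.2 hδ).le) hA
        _ = 2 * C * A / δ := by field_simp; ring
    have h20 := map_add_le_add NY
      (c (δ⁻¹ • (∑ h, kk δ e h • Φ h - T⁻¹ • ∑ h, Φ h)) - c (∑ h, rk δ e h • Φ h))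
      (c (∑ i, sg (e i) • (x i - T⁻¹ • ∑ h, sg (h i) • Φ h)))
    have h21 := map_sub_le_add NY (c (δ⁻¹ • (∑ h, kk δ e h • Φ h - T⁻¹ • ∑ h, Φ h)))
      (c (∑ h, rk δ e h • Φ h))
    linarith
  have h22 : av (fun e => NY (rs (fun i => c (x i)) e)) ≤ 2 * C * A / δ + δ * C * π := by
    unfold av
    rw [div_le_iff₀ hTpos]
    calc ∑ e, NY (rs (fun i => c (x i)) e)
        ≤ ∑ e : ι → Bool, (2 * C * A / δ + NY (c (∑ h, rk δ e h • Φ h))) :=
          Finset.sum_le_sum fun e _ => h11 e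
      _ = T * (2 * C * A / δ) + ∑ e, NY (c (∑ h, rk δ e h • Φ h)) := by
          rw [Finset.sum_add_distrib, Finset.sum_const, Finset.card_univ, nsmul_eq_mul, hcard]
      _ ≤ T * (2 * C * A / δ) + T * (δ * C * π) := by linarith
      _ = (2 * C * A / δ + δ * C * π) * T := by ring
  exact (hY ι (fun i => c (x i))).trans (mul_le_mul_of_nonneg_left h22 (by linarith))

end RF
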