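import Pool.Agent.RF.B1

/-!
# [RF-B1] Lemma P (the bootstrap inequality)

Let `NX` have (R) with constant `C ≥ 1`, `NY` cotype 2 with constant `K ≥ 1`, `c : X → Y` linear with
`NY (c x) ≤ A NX x`, and suppose the 2-summing constant of `c` is finite (`hfin`).  Then it is at most
`8 K^2 C^2 A`.

Proof.  Let `π` be the least upper bound of `sqrt (∑ NY(c x_i)^2)` over all finite types `ι` and all families `x`
with `W2 NX x 1` (a real number `≤ M`; to avoid universe problems take `ι = Fin n`: every family over a finite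
type is a reindexed family over `Fin n`, the sums are unchanged).  It is enough to show
  (*)  for all `0 < δ ≤ 1` and all `x` with `W2 NX x 1`: `sqrt (∑ NY(c x_i)^2) ≤ K (2 C A / δ + δ C π)`.
With `δ = 1/(2KC)` this gives `π ≤ 4 K^2 C^2 A + π/2`.

Proof of (*).  Take `Φ` from `RProp` for `x`, `n = |ι|`, and put `R e = ∑_h rk δ e h • Φ h`.  By the definition of
`rk`, `R e = δ⁻¹ • (∑_h kk δ e h • Φ h - 2^{-n} • ∑_h Φ h) - ∑_i sg(e i) • (2^{-n} • ∑_h sg(h i) • Φ h)`, so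
`rs x e = δ⁻¹ • (∑_h kk δ e h • Φ h - 2^{-n} • ∑_h Φ h) - R e + (vector of NX-seminorm 0)`.  Now
 * `NX (∑_h kk δ e h • Φ h) ≤ C`  (`kk_nonneg`, `kk_sum`), `NX (2^{-n} • ∑_h Φ h) ≤ C`, so
   `NY (c (δ⁻¹ • ..)) ≤ δ⁻¹ * A * 2 C`.
 * the family `y_e = (sqrt (2^n))⁻¹ • R e`, `e ∈ cube`, satisfies `W2 NX y (δ C)`:
   `∑_e a_e • y_e = (sqrt 2^n)⁻¹ • ∑_h (∑_e a_e rk δ e h) • Φ h`, its seminorm is at most
   `(sqrt 2^n)⁻¹ C ∑_h |∑_e a_e rk δ e h| ≤ C sqrt (∑_h (∑_e a_e rk δ e h)^2) ≤ C δ sqrt (∑ a_e^2)` by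
   Cauchy-Schwarz (`2^n` points `h`) and `kernel_P`.  By scaling (`δ C > 0`), `sqrt (∑_e NY(c y_e)^2) ≤ δ C π`, i.e.
   `(av NY(c R)^2)^{1/2} ≤ δ C π`, and `av NY(c R) ≤ (av NY(c R)^2)^{1/2}`.
 * so `av_e NY (rs (c ∘ x) e) ≤ 2 C A / δ + δ C π` and cotype 2 of `NY` for the family `c ∘ x` gives (*).
-/

set_option linter.unusedVariables false

namespace RF

private theorem B1b_reindex {V : Type} [AddCommGroup V] [Module ℝ V] {N : SN V} {ι κ : Type} [Fintype ι]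
    [Fintype κ] (σ : κ ≃ ι) {x : ι → V} {M : ℝ} (h : W2 N x M) : W2 N (fun j => x (σ j)) M := by
  intro a
  have h1 := h (fun i => a (σ.symm i))
  have h2 : ∑ i, a (σ.symm i) • x i = ∑ j, a j • x (σ j) := by
    rw [← σ.sum_comp]
    exact Finset.sum_congr rfl fun j _ => by rw [Equiv.symm_apply_apply]
  have h3 : ∑ i, (a (σ.symm i)) ^ 2 = ∑ j, (a j) ^ 2 := by
    rw [← σ.sum_comp]
    exact Finset.sum_congr rfl fun j _ => by rw [Equiv.symm_apply_apply]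
  rw [h2, h3] at h1
  exact h1

theorem lemmaP {X Y : Type} [AddCommGroup X] [Module ℝ X] [AddCommGroup Y] [Module ℝ Y]
    (NX : SN X) (NY : SN Y) {K C A M : ℝ} (hK : 1 ≤ K) (hC : 1 ≤ C) (hA : 0 ≤ A)
    (hR : RProp NX C) (hY : CT2 NY K) (c : X →ₗ[ℝ] Y) (hc : ∀ x, NY (c x) ≤ A * NX x)
    (hfin : ∀ (ι : Type) [Fintype ι] (x : ι → X), W2 NX x 1 →
      Real.sqrt (∑ i, NY (c (x i)) ^ 2) ≤ M)
    (ι : Type) [Fintype ι] (x : ι → X) (hx : W2 NX x 1) :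
    Real.sqrt (∑ i, NY (c (x i)) ^ 2) ≤ 8 * K ^ 2 * C ^ 2 * A := by
  classical
  set S : Set ℝ := {r | ∃ (n : ℕ) (y : Fin n → X), W2 NX y 1 ∧ r = Real.sqrt (∑ i, NY (c (y i)) ^ 2)} with hS
  have hbdd : BddAbove S := by
    refine ⟨M, ?_⟩
    rintro r ⟨n, y, hy, rfl⟩
    exact hfin (Fin n) y hy
  have hle : ∀ (κ : Type) [Fintype κ] (y : κ → X), W2 NX y 1 →
      Real.sqrt (∑ i, NY (c (y i)) ^ 2) ≤ sSup S := by
    intro κ _ y hy
    apply le_csSup hbdd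
    refine ⟨Fintype.card κ, fun j => y ((Fintype.equivFin κ).symm j),
      B1b_reindex (Fintype.equivFin κ).symm hy, ?_⟩
    congr 1
    exact ((Fintype.equivFin κ).symm.sum_comp fun i => NY (c (y i)) ^ 2).symm
  have h0 : 0 ≤ sSup S := (Real.sqrt_nonneg _).trans (hle ι x hx)
  have hK0 : 0 < K := lt_of_lt_of_le one_pos hK
  have hC0 : 0 < C := lt_of_lt_of_le one_pos hC
  have hKC : 1 ≤ K * C := by nlinarith
  have hδ : 0 < 1 / (2 * K * C) := by positivity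
  have hδ1 : 1 / (2 * K * C) ≤ 1 := by
    rw [div_le_one (by positivity)]
    nlinarith
  have hne : S.Nonempty := ⟨_, 0, Fin.elim0, by
    intro a
    simp, rfl⟩
  have hsup : sSup S ≤ 4 * K ^ 2 * C ^ 2 * A + sSup S / 2 := by
    apply csSup_le hne
    rintro r ⟨n, y, hy, rfl⟩
    have h1 := lemmaP_step NX NY hK hC hA h0 hδ hδ1 hR hY c hc hle (Fin n) y hy
    refine h1.trans (le_of_eq ?_)
    field_simp
    ring
  have h2 : sSup S ≤ 8 * K ^ 2 * C ^ 2 * A := by linarith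
  exact (hle ι x hx).trans h2

end RF
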