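import Pool.Agent.RF.B1b

/-!
# [RF-B2] Finite-rank maps have a finite 2-summing constant

If `c x = ∑_l φ_l x • v_l` (finite sum) with `|φ_l x| ≤ B NX x`, then for `W2 NX x 1`:
`sqrt (∑_i NY(c x_i)^2) ≤ ∑_l NY(v_l) sqrt (∑_i |φ_l x_i|^2) ≤ B ∑_l NY(v_l)`, because with
`a_i = φ_l x_i`: `∑ a_i^2 = φ_l (∑ a_i • x_i) ≤ B NX(∑ a_i • x_i) ≤ B sqrt (∑ a_i^2)`.
(First inequality: `NY(c x_i) ≤ ∑_l |φ_l x_i| NY(v_l)` and Minkowski in `l_2`, e.g. the norm of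
`EuclideanSpace`, or induction over `l`.)
`lemmaP_fin` combines it with `lemmaP`.
-/

set_option linter.unusedVariables false

namespace RF

/-- The linear map `x ↦ ∑ φ_l x • v_l` is `c`, with functionals bounded by `B`. -/
def FinB {X Y : Type} [AddCommGroup X] [Module ℝ X] [AddCommGroup Y] [Module ℝ Y]
    (NX : SN X) (c : X →ₗ[ℝ] Y) : Prop :=
  ∃ (L : ℕ) (φ : Fin L → X →ₗ[ℝ] ℝ) (v : Fin L → Y) (B : ℝ), 0 ≤ B ∧
    (∀ l x, |φ l x| ≤ B * NX x) ∧ ∀ x, c x = ∑ l, φ l x • v l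

/-- the scalar estimate -/
theorem B2_scalar {X : Type} [AddCommGroup X] [Module ℝ X] {NX : SN X} {B : ℝ} (hB : 0 ≤ B)
    (φ : X →ₗ[ℝ] ℝ) (hφ : ∀ x, |φ x| ≤ B * NX x) (ι : Type) [Fintype ι] (x : ι → X)
    (hx : W2 NX x 1) : Real.sqrt (∑ i, (φ (x i)) ^ 2) ≤ B := by
  have hS0 : 0 ≤ ∑ i, (φ (x i)) ^ 2 := Finset.sum_nonneg fun i _ => sq_nonneg _
  have h1 : φ (∑ i, (φ (x i)) • x i) = ∑ i, (φ (x i)) ^ 2 := by
    rw [map_sum]
    refine Finset.sum_congr rfl fun i _ => ?_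
    rw [map_smul, smul_eq_mul]; ring
  have h2 : NX (∑ i, (φ (x i)) • x i) ≤ 1 * Real.sqrt (∑ i, (φ (x i)) ^ 2) :=
    hx (fun i => φ (x i))
  have h3 : ∑ i, (φ (x i)) ^ 2 ≤ B * Real.sqrt (∑ i, (φ (x i)) ^ 2) := by
    calc ∑ i, (φ (x i)) ^ 2 = φ (∑ i, (φ (x i)) • x i) := h1.symm
      _ ≤ |φ (∑ i, (φ (x i)) • x i)| := le_abs_self _
      _ ≤ B * NX (∑ i, (φ (x i)) • x i) := hφ _
      _ ≤ B * Real.sqrt (∑ i, (φ (x i)) ^ 2) := by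
        refine mul_le_mul_of_nonneg_left ?_ hB
        rw [one_mul] at h2
        exact h2
  rcases (Real.sqrt_nonneg (∑ i, (φ (x i)) ^ 2)).eq_or_lt with h0 | h0
  · rw [← h0]; exact hB
  · have h4 := Real.mul_self_sqrt hS0
    have h5 : Real.sqrt (∑ i, (φ (x i)) ^ 2) * Real.sqrt (∑ i, (φ (x i)) ^ 2) ≤
        B * Real.sqrt (∑ i, (φ (x i)) ^ 2) := by rw [h4]; exact h3
    exact le_of_mul_le_mul_right h5 h0

theorem FinB.summing {X Y : Type} [AddCommGroup X] [Module ℝ X] [AddCommGroup Y] [Module ℝ Y]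
    {NX : SN X} (NY : SN Y) {c : X →ₗ[ℝ] Y} (h : FinB NX c) :
    ∃ M : ℝ, ∀ (ι : Type) [Fintype ι] (x : ι → X), W2 NX x 1 →
      Real.sqrt (∑ i, NY (c (x i)) ^ 2) ≤ M := by
  obtain ⟨L, φ, v, B, hB, hφ, hc⟩ := h
  refine ⟨∑ l, NY (v l) * B, fun ι _ x hx => ?_⟩
  have hg : ∀ l, ‖(WithLp.toLp 2 (fun i => |φ l (x i)| * NY (v l)) : EuclideanSpace ℝ ι)‖
      ≤ NY (v l) * B := by
    intro l
    rw [EuclideanSpace.norm_eq]
    have h1 : ∑ i, ‖(WithLp.toLp 2 (fun i => |φ l (x i)| * NY (v l)) : EuclideanSpace ℝ ι) i‖ ^ 2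
        = NY (v l) ^ 2 * ∑ i, (φ l (x i)) ^ 2 := by
      rw [Finset.mul_sum]
      refine Finset.sum_congr rfl fun i _ => ?_
      show ‖|φ l (x i)| * NY (v l)‖ ^ 2 = _
      rw [Real.norm_eq_abs, sq_abs, mul_pow, sq_abs]; ring
    rw [h1, Real.sqrt_mul (sq_nonneg _), Real.sqrt_sq (apply_nonneg NY _)]
    exact mul_le_mul_of_nonneg_left (B2_scalar hB (φ l) (hφ l) ι x hx) (apply_nonneg NY _)
  have hsum := norm_sum_le Finset.univ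
    (fun l => (WithLp.toLp 2 (fun i => |φ l (x i)| * NY (v l)) : EuclideanSpace ℝ ι))
  refine le_trans ?_ (hsum.trans (Finset.sum_le_sum fun l _ => hg l))
  rw [EuclideanSpace.norm_eq]
  refine Real.sqrt_le_sqrt (Finset.sum_le_sum fun i _ => ?_)
  have h2 : (∑ l, (WithLp.toLp 2 (fun i => |φ l (x i)| * NY (v l)) : EuclideanSpace ℝ ι)) i =
      ∑ l, |φ l (x i)| * NY (v l) := by
    rw [WithLp.ofLp_sum, Finset.sum_apply]
  have h3 : NY (c (x i)) ≤ ∑ l, |φ l (x i)| * NY (v l) := by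
    rw [hc]
    refine (Finset.le_sum_of_subadditive NY (map_zero NY).le (fun a b => map_add_le_add NY a b)
      Finset.univ (fun l => φ l (x i) • v l)).trans ?_
    refine Finset.sum_le_sum fun l _ => ?_
    rw [map_smul_eq_mul, Real.norm_eq_abs]
  rw [h2, Real.norm_eq_abs, sq_abs]
  exact pow_le_pow_left₀ (apply_nonneg NY _) h3 2

theorem lemmaP_fin {X Y : Type} [AddCommGroup X] [Module ℝ X] [AddCommGroup Y] [Module ℝ Y]
    (NX : SN X) (NY : SN Y) {K C A : ℝ} (hK : 1 ≤ K) (hC : 1 ≤ C) (hA : 0 ≤ A)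
    (hR : RProp NX C) (hY : CT2 NY K) (c : X →ₗ[ℝ] Y) (hc : ∀ x, NY (c x) ≤ A * NX x)
    (hfin : FinB NX c) (ι : Type) [Fintype ι] (x : ι → X) (hx : W2 NX x 1) :
    Real.sqrt (∑ i, NY (c (x i)) ^ 2) ≤ 8 * K ^ 2 * C ^ 2 * A := by
  obtain ⟨M, hM⟩ := hfin.summing NY
  exact lemmaP NX NY hK hC hA hR hY c hc hM ι x hx

end RF
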