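import Pool.Agent.RF.FE

/-!
# [RF] working definitions: the sign cube, Walsh functions, cotype, the extension property, pushouts
-/

set_option linter.unusedVariables false

namespace RF

noncomputable section

/-- Seminorms (the abbreviation fixes the instances used). -/
abbrev SN (V : Type) [AddCommGroup V] [Module ℝ V] : Type := Seminorm ℝ V

/-- The sum of two seminorms on a product. -/
def sumS {A B : Type} [AddCommGroup A] [Module ℝ A] [AddCommGroup B] [Module ℝ B]
    (p : SN A) (q : SN B) : SN (A × B) :=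
  p.comp (LinearMap.fst ℝ A B) + q.comp (LinearMap.snd ℝ A B)

theorem sumS_apply {A B : Type} [AddCommGroup A] [Module ℝ A] [AddCommGroup B] [Module ℝ B]
    (p : SN A) (q : SN B) (w : A × B) : sumS p q w = p w.1 + q w.2 := rfl

/-- The sign of a Boolean: `true ↦ 1`, `false ↦ -1`. -/
def sg (b : Bool) : ℝ := if b then 1 else -1

/-- Average over the sign cube. -/
def av {ι : Type} [Fintype ι] [DecidableEq ι] (f : (ι → Bool) → ℝ) : ℝ :=
  (∑ e, f e) / 2 ^ Fintype.card ι

/-- Walsh functions. -/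
def wal {ι : Type} [Fintype ι] [DecidableEq ι] (A : Finset ι) (e : ι → Bool) : ℝ :=
  ∏ i ∈ A, sg (e i)

/-- Walsh-Fourier coefficients. -/
def fc {ι : Type} [Fintype ι] [DecidableEq ι] (f : (ι → Bool) → ℝ) (A : Finset ι) : ℝ :=
  av (fun e => f e * wal A e)

/-- The kernel of the noise operator. -/
def kk {ι : Type} [Fintype ι] [DecidableEq ι] (δ : ℝ) (e h : ι → Bool) : ℝ :=
  (∏ i, (1 + δ * (sg (e i) * sg (h i)))) / 2 ^ Fintype.card ι

/-- The remainder kernel of Lemma P. -/
def rk {ι : Type} [Fintype ι] [DecidableEq ι] (δ : ℝ) (e h : ι → Bool) : ℝ :=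
  δ⁻¹ * (kk δ e h - (2 ^ Fintype.card ι : ℝ)⁻¹)
    - (2 ^ Fintype.card ι : ℝ)⁻¹ * ∑ i, sg (e i) * sg (h i)

/-- The Rademacher sum of a family of vectors at a point of the cube. -/
def rs {V : Type} [AddCommGroup V] [Module ℝ V] {ι : Type} [Fintype ι] (x : ι → V)
    (e : ι → Bool) : V := ∑ i, sg (e i) • x i

/-- The family `x` is weakly 2-bounded by `M`. -/
def W2 {V : Type} [AddCommGroup V] [Module ℝ V] (N : SN V) {ι : Type} [Fintype ι]
    (x : ι → V) (M : ℝ) : Prop :=
  ∀ a : ι → ℝ, N (∑ i, a i • x i) ≤ M * Real.sqrt (∑ i, (a i) ^ 2)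

/-- Cotype 2 with constant `K` (with `L_1` averages). -/
def CT2 {V : Type} [AddCommGroup V] [Module ℝ V] (N : SN V) (K : ℝ) : Prop :=
  ∀ (ι : Type) [Fintype ι] [DecidableEq ι] (x : ι → V),
    Real.sqrt (∑ i, N (x i) ^ 2) ≤ K * av (fun e => N (rs x e))

/-- Cotype 4 with constant `K` (with `L_1` averages). -/
def CT4 {V : Type} [AddCommGroup V] [Module ℝ V] (N : SN V) (K : ℝ) : Prop :=
  ∀ (ι : Type) [Fintype ι] [DecidableEq ι] (x : ι → V),
    ∑ i, N (x i) ^ 4 ≤ (K * av (fun e => N (rs x e))) ^ 4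

/-- The extension property (R) with constant `C`: every weakly 2-bounded family `x` is the family of
first Walsh coefficients of a function on the cube bounded by `C` (up to null vectors). -/
def RProp {V : Type} [AddCommGroup V] [Module ℝ V] (N : SN V) (C : ℝ) : Prop :=
  ∀ (ι : Type) [Fintype ι] [DecidableEq ι] (x : ι → V), W2 N x 1 →
    ∃ Φ : (ι → Bool) → V, (∀ e, N (Φ e) ≤ C) ∧
      ∀ i, N (x i - (2 ^ Fintype.card ι : ℝ)⁻¹ • ∑ e, sg (e i) • Φ e) = 0

/-- Functions on the cube. -/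
abbrev Cu (ι : Type) : Type := (ι → Bool) → ℝ

/-- The `L_1` seminorm on functions on the cube. -/
def L1 (ι : Type) [Fintype ι] [DecidableEq ι] : SN (Cu ι) :=
  Seminorm.of (fun b => av (fun e => |b e|))
    (by
      intro x y
      simp only [av, ← add_div]
      gcongr
      rw [← Finset.sum_add_distrib]
      exact Finset.sum_le_sum (fun e _ => abs_add_le _ _))
    (by
      intro a x
      simp only [av, Pi.smul_apply, smul_eq_mul, abs_mul, Real.norm_eq_abs]
      rw [← Finset.mul_sum, mul_div_assoc])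

theorem L1_apply {ι : Type} [Fintype ι] [DecidableEq ι] (b : Cu ι) :
    L1 ι b = av (fun e => |b e|) := rfl

/-- The Rademacher embedding `a ↦ ∑ a_i ε_i`. -/
def Jm (ι : Type) [Fintype ι] : (ι → ℝ) →ₗ[ℝ] Cu ι where
  toFun a := fun e => ∑ i, a i * sg (e i)
  map_add' := by
    intro a b; ext e
    simp only [Pi.add_apply, add_mul, Finset.sum_add_distrib]
  map_smul' := by
    intro c a; ext e
    simp only [Pi.smul_apply, smul_eq_mul, RingHom.id_apply, Finset.mul_sum, mul_assoc]

theorem Jm_apply {ι : Type} [Fintype ι] (a : ι → ℝ) (e : ι → Bool) :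
    Jm ι a e = ∑ i, a i * sg (e i) := rfl

/-- The quotient seminorm `z ↦ inf_a M (z + g a)`. -/
def qs {W A : Type} [AddCommGroup W] [Module ℝ W] [AddCommGroup A] [Module ℝ A]
    (M : SN W) (g : A →ₗ[ℝ] W) : SN W :=
  Seminorm.of (fun z => ⨅ a : A, M (z + g a))
    (by
      intro x y
      have hb : ∀ z : W, BddBelow (Set.range fun a : A => M (z + g a)) :=
        fun z => ⟨0, by rintro _ ⟨a, rfl⟩; exact apply_nonneg M _⟩
      refine le_ciInf_add_ciInf (fun a b => ?_)
      refine (ciInf_le (hb _) (a + b)).trans ?_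
      have : x + y + g (a + b) = (x + g a) + (y + g b) := by rw [map_add]; abel
      rw [this]
      exact map_add_le_add M _ _)
    (by
      intro c x
      have hb : ∀ z : W, BddBelow (Set.range fun a : A => M (z + g a)) :=
        fun z => ⟨0, by rintro _ ⟨a, rfl⟩; exact apply_nonneg M _⟩
      by_cases hc : c = 0
      · subst hc
        simp only [zero_smul, norm_zero, zero_mul]
        apply le_antisymm
        · refine (ciInf_le (hb _) 0).trans ?_
          simp
        · exact Real.iInf_nonneg (fun a => apply_nonneg M _)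
      · rw [Real.mul_iInf_of_nonneg (norm_nonneg c)]
        apply le_antisymm
        · refine le_ciInf (fun a => ?_)
          refine (ciInf_le (hb _) (c • a)).trans ?_
          rw [map_smul, ← smul_add, map_smul_eq_mul]
        · refine le_ciInf (fun a => ?_)
          have hb' : BddBelow (Set.range fun a : A => ‖c‖ * M (x + g a)) :=
            ⟨0, by rintro _ ⟨a, rfl⟩; positivity⟩
          refine (ciInf_le hb' (c⁻¹ • a)).trans ?_
          rw [← map_smul_eq_mul M c, smul_add, map_smul, smul_smul, mul_inv_cancel₀ hc, one_smul])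

theorem qs_apply {W A : Type} [AddCommGroup W] [Module ℝ W] [AddCommGroup A] [Module ℝ A]
    (M : SN W) (g : A →ₗ[ℝ] W) (z : W) : qs M g z = ⨅ a : A, M (z + g a) := rfl

theorem qs_le {W A : Type} [AddCommGroup W] [Module ℝ W] [AddCommGroup A] [Module ℝ A]
    (M : SN W) (g : A →ₗ[ℝ] W) (z : W) (a : A) : qs M g z ≤ M (z + g a) :=
  ciInf_le ⟨0, by rintro _ ⟨a, rfl⟩; exact apply_nonneg M _⟩ a

theorem le_qs {W A : Type} [AddCommGroup W] [Module ℝ W] [AddCommGroup A] [Module ℝ A]
    (M : SN W) (g : A →ₗ[ℝ] W) (z : W) (r : ℝ) (h : ∀ a : A, r ≤ M (z + g a)) :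
    r ≤ qs M g z := le_ciInf h

/-- The sum seminorm `N v + 80 * L1 b` on `V × Cu ι`. -/
def ms {V : Type} [AddCommGroup V] [Module ℝ V] (N : SN V) (ι : Type) [Fintype ι]
    [DecidableEq ι] : SN (V × Cu ι) :=
  N.comp (LinearMap.fst ℝ V (Cu ι)) + (80 : NNReal) • (L1 ι).comp (LinearMap.snd ℝ V (Cu ι))

theorem ms_apply {V : Type} [AddCommGroup V] [Module ℝ V] (N : SN V) {ι : Type}
    [Fintype ι] [DecidableEq ι] (z : V × Cu ι) : ms N ι z = N z.1 + 80 * L1 ι z.2 := rfl

/-- The relation map of the pushout, `a ↦ (u a, - J a)`. -/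
def gu {V : Type} [AddCommGroup V] [Module ℝ V] {ι : Type} [Fintype ι]
    (u : (ι → ℝ) →ₗ[ℝ] V) : (ι → ℝ) →ₗ[ℝ] (V × Cu ι) :=
  u.prod (-(Jm ι))

theorem gu_apply {V : Type} [AddCommGroup V] [Module ℝ V] {ι : Type} [Fintype ι]
    (u : (ι → ℝ) →ₗ[ℝ] V) (a : ι → ℝ) : gu u a = (u a, - Jm ι a) := rfl

/-- The pushout seminorm on `V × Cu ι`. -/
def po {V : Type} [AddCommGroup V] [Module ℝ V] (N : SN V) {ι : Type} [Fintype ι]
    [DecidableEq ι] (u : (ι → ℝ) →ₗ[ℝ] V) : SN (V × Cu ι) :=
  qs (ms N ι) (gu u)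

/-- The quotient seminorm on `Cu ι` modulo the range of `J`. -/
def qJ (ι : Type) [Fintype ι] [DecidableEq ι] : SN (Cu ι) := qs (L1 ι) (-(Jm ι))

end

end RF
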