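import Pool.Agent.RF.A6

/-!
# [RF-C1] Elementary properties of the pushout seminorm

`po N u (v,b) = inf_a N(v + u a) + 80 * L1(b - J a)`; hypothesis `hu : N (u a) ≤ sqrt (∑ a_i^2)` for all `a`.

* `po_inl`: `po N u (v,0) = N v`.  `≤`: `a = 0`.  `≥`: `N v ≤ N(v + u a) + N(u a)` and
  `N(u a) ≤ sqrt (∑ a^2) ≤ sqrt 2 * L1 (J a) ≤ 80 * L1 (-J a)` (`khin`).
* `po_mono`, `po_le_mul`: compare the infima termwise (`le_qs`, `qs_le`; for `po_le_mul`:
  `po z u y ≤ z(..) + 80 L1(..) ≤ n (p (..) + 80 L1 (..))` for every `a`; use `le_qs` for `po p u` after dividing by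
  `n ≥ 1 > 0`).
* `po_Phi`: `Φ e = (0, 2^n • Pi.single e 1)`: `L1 (2^n • Pi.single e 1) = 1`, so `po ≤ 80` (`a = 0`).
* `po_rel`: `(u e_i, 0) - 2^{-n} • ∑_e sg(e i) • Φ e = (u e_i, - J e_i)` (as functions: `∑_e sg(e i) • Pi.single e 1`
  is the function `h ↦ sg (h i) = J e_i h`), and with `a = -e_i` the value is `N 0 + 80 L1 0 = 0`.
* `qJ_le_po`: `80 * qJ (b) ≤ po N u (v,b)`.
-/

set_option linter.unusedVariables false

namespace RF

variable {V : Type} [AddCommGroup V] [Module ℝ V] {ι : Type} [Fintype ι] [DecidableEq ι]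

theorem po_apply (N : SN V) (u : (ι → ℝ) →ₗ[ℝ] V) (y : V × Cu ι) :
    po N u y = ⨅ a : ι → ℝ, (N (y.1 + u a) + 80 * L1 ι (y.2 - Jm ι a)) := by
  show (⨅ a : ι → ℝ, ms N ι (y + gu u a)) = _
  have h : ∀ a : ι → ℝ, ms N ι (y + gu u a) = N (y.1 + u a) + 80 * L1 ι (y.2 - Jm ι a) := by
    intro a
    rw [ms_apply, gu_apply, sub_eq_add_neg]
    rfl
  simp only [h]

theorem po_inl (N : SN V) (u : (ι → ℝ) →ₗ[ℝ] V)
    (hu : ∀ a, N (u a) ≤ Real.sqrt (∑ i, (a i) ^ 2)) (v : V) : po N u (v, 0) = N v := by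
  apply le_antisymm
  · refine (qs_le (ms N ι) (gu u) (v, 0) 0).trans ?_
    rw [map_zero, add_zero, ms_apply, map_zero, mul_zero, add_zero]
  · rw [po_apply]
    refine le_ciInf fun a => ?_
    have h1 : N v ≤ N (v + u a) + N (u a) := by
      have h2 : v = (v + u a) - u a := by abel
      have h3 : N ((v + u a) - u a) ≤ N (v + u a) + N (u a) := map_sub_le_add N _ _
      rwa [← h2] at h3
    have h2 := hu a
    have h3 := khin a
    have h4 : L1 ι ((0 : Cu ι) - Jm ι a) = L1 ι (Jm ι a) := by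
      rw [zero_sub, map_neg_eq_map]
    have h5 : Real.sqrt 2 ≤ 80 := Real.sqrt_le_iff.2 ⟨by norm_num, by norm_num⟩
    have h6 : 0 ≤ L1 ι (Jm ι a) := apply_nonneg _ _
    have h7 := mul_le_mul_of_nonneg_right h5 h6
    show N v ≤ N (v + u a) + 80 * L1 ι ((0 : Cu ι) - Jm ι a)
    rw [h4]
    linarith

theorem po_mono (p z : SN V) (u : (ι → ℝ) →ₗ[ℝ] V) (h : ∀ v, p v ≤ z v)
    (y : V × Cu ι) : po p u y ≤ po z u y := by
  rw [po_apply, po_apply]
  refine ciInf_mono ⟨0, ?_⟩ fun a => ?_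
  · rintro _ ⟨a, rfl⟩
    have h1 : 0 ≤ p (y.1 + u a) := apply_nonneg _ _
    have h2 : 0 ≤ L1 ι (y.2 - Jm ι a) := apply_nonneg _ _
    show 0 ≤ p (y.1 + u a) + 80 * L1 ι (y.2 - Jm ι a)
    linarith
  · have h1 := h (y.1 + u a)
    linarith

theorem po_le_mul (p z : SN V) (u : (ι → ℝ) →ₗ[ℝ] V) {n : ℝ} (hn : 1 ≤ n)
    (h : ∀ v, z v ≤ n * p v) (y : V × Cu ι) : po z u y ≤ n * po p u y := by
  have hn0 : 0 < n := by linarith
  have key : po z u y / n ≤ po p u y := by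
    refine le_qs (ms p ι) (gu u) y _ fun a => ?_
    rw [div_le_iff₀ hn0]
    refine (qs_le (ms z ι) (gu u) y a).trans ?_
    rw [ms_apply, ms_apply]
    have h1 := h (y + gu u a).1
    have h2 : 0 ≤ L1 ι (y + gu u a).2 := apply_nonneg _ _
    nlinarith
  rw [div_le_iff₀ hn0] at key
  linarith

end RF
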