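import Pool.Agent.RF.C1

/-!
# [RF-C1] Elementary properties of the pushout seminorm

`po N u (v,b) = inf_a N(v + u a) + 80 * L1(b - J a)`; hypothesis `hu : N (u a) ≤ sqrt (∑ a_i^2)` for all `a`.

* `po_inl`: `po N u (v,0) = N v`.  `≤`: `a = 0`.  `≥`: `N v ≤ N(v + u a) + N(u a)` and
  `N(u a) ≤ sqrt (∑ a^2) ≤ sqrt 2 * L1 (J a) ≤ 80 * L1 (-J a)` (`khin`).
* `po_mono`, `po_le_mul`: compare the infima termwise (`le_qs`, `qs_le`; for `po_le_mul`:
  `po z u y ≤ z(..) + 80 L1(..) ≤ n (p (..) + 80 L1 (..))` for every `a`; use `le_qs` for `po p u` after dividing by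
  `n ≥ 1 > 0`).
* `po_Phi`: `Φ e = (0, 2^n • Pi.single e 1)`: `L1 (2^n • Pi.single e 1) = 1`, so `po ≤ 80` (`a = 0`).
* `po_rel`: `(u e_i, 0) - 2^{-n} • ∑_e sg(e i) • Φ e = (u e_i, - J e_i)` (as functions: `∑_e sg(e i) • Pi.single e 1`
  is the function `h ↦ sg (h i) = J e_i h`), and with `a = -e_i` the value is `N 0 + 80 L1 0 = 0`.
* `qJ_le_po`: `80 * qJ (b) ≤ po N u (v,b)`.
-/

set_option linter.unusedVariables false

namespace RF

variable {V : Type} [AddCommGroup V] [Module ℝ V] {ι : Type} [Fintype ι] [DecidableEq ι]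

/-- The functions of the extension property. -/
noncomputable def poPhi (V : Type) [AddCommGroup V] (ι : Type) [Fintype ι] [DecidableEq ι]
    (e : ι → Bool) : V × Cu ι :=
  (0, fun h => if h = e then (2 : ℝ) ^ Fintype.card ι else 0)

theorem po_Phi (N : SN V) (u : (ι → ℝ) →ₗ[ℝ] V) (e : ι → Bool) :
    po N u (poPhi V ι e) ≤ 80 := by
  refine (qs_le (ms N ι) (gu u) (poPhi V ι e) 0).trans ?_
  rw [map_zero, add_zero, ms_apply]
  have h1 : (poPhi V ι e).1 = 0 := rfl
  have h2 : L1 ι (poPhi V ι e).2 = 1 := by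
    have h0 : (2 : ℝ) ^ Fintype.card ι ≠ 0 := by positivity
    rw [L1_apply]
    unfold av
    have h3 : ∀ h : ι → Bool, |(poPhi V ι e).2 h| =
        if h = e then (2 : ℝ) ^ Fintype.card ι else 0 := by
      intro h
      show |if h = e then (2 : ℝ) ^ Fintype.card ι else 0| = _
      split_ifs
      · exact abs_of_pos (by positivity)
      · exact abs_zero
    rw [Finset.sum_congr rfl fun h _ => h3 h, Finset.sum_ite_eq' Finset.univ e,
      if_pos (Finset.mem_univ e), div_self h0]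
  rw [h1, map_zero, h2]
  norm_num

theorem po_rel (N : SN V) (u : (ι → ℝ) →ₗ[ℝ] V) (i : ι) :
    po N u ((u (Pi.single i 1), (0 : Cu ι)) -
      (2 ^ Fintype.card ι : ℝ)⁻¹ • ∑ e, sg (e i) • poPhi V ι e) = 0 := by
  have h0 : (2 : ℝ) ^ Fintype.card ι ≠ 0 := by positivity
  refine le_antisymm ((qs_le (ms N ι) (gu u) _ (-(Pi.single i 1))).trans (le_of_eq ?_))
    (apply_nonneg _ _)
  have hz : ((u (Pi.single i 1), (0 : Cu ι)) -
      (2 ^ Fintype.card ι : ℝ)⁻¹ • ∑ e, sg (e i) • poPhi V ι e) + gu u (-(Pi.single i 1)) = 0 := by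
    rw [gu_apply]
    apply Prod.ext
    · show u (Pi.single i 1) - (2 ^ Fintype.card ι : ℝ)⁻¹ • (∑ e, sg (e i) • poPhi V ι e).1 +
        u (-(Pi.single i 1)) = 0
      have h1 : (∑ e, sg (e i) • poPhi V ι e).1 = 0 := by
        rw [Prod.fst_sum]
        refine Finset.sum_eq_zero fun e _ => ?_
        show sg (e i) • (0 : V) = 0
        rw [smul_zero]
      rw [h1, smul_zero, sub_zero, map_neg, add_neg_cancel]
    · funext h
      show (0 : ℝ) - (2 ^ Fintype.card ι : ℝ)⁻¹ * (∑ e, sg (e i) • poPhi V ι e).2 h +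
        - Jm ι (-(Pi.single i 1)) h = 0
      have h1 : (∑ e, sg (e i) • poPhi V ι e).2 h = sg (h i) * 2 ^ Fintype.card ι := by
        rw [Prod.snd_sum, Finset.sum_apply]
        rw [Finset.sum_eq_single h]
        · show sg (h i) * (if h = h then (2 : ℝ) ^ Fintype.card ι else 0) = _
          rw [if_pos rfl]
        · intro e _ he
          show sg (e i) * (if h = e then (2 : ℝ) ^ Fintype.card ι else 0) = 0
          rw [if_neg he.symm, mul_zero]
        · intro h2
          exact absurd (Finset.mem_univ h) h2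
      have h2 : Jm ι (-(Pi.single i 1)) h = - sg (h i) := by
        rw [map_neg, Pi.neg_apply, Jm_apply, Finset.sum_eq_single i]
        · rw [Pi.single_eq_same, one_mul]
        · intro j _ hj
          rw [Pi.single_eq_of_ne hj, zero_mul]
        · intro h2
          exact absurd (Finset.mem_univ i) h2
      rw [h1, h2, mul_comm (sg (h i)), ← mul_assoc, inv_mul_cancel₀ h0]
      ring
  rw [hz, map_zero]

theorem qJ_apply (b : Cu ι) : qJ ι b = ⨅ a : ι → ℝ, L1 ι (b - Jm ι a) := by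
  unfold qJ
  rw [qs_apply]
  simp only [LinearMap.neg_apply, ← sub_eq_add_neg]

theorem qJ_le (b : Cu ι) (a : ι → ℝ) : qJ ι b ≤ L1 ι (b - Jm ι a) := by
  have h := qs_le (L1 ι) (-(Jm ι)) b a
  rw [LinearMap.neg_apply, ← sub_eq_add_neg] at h
  exact h

theorem qJ_le_po (N : SN V) (u : (ι → ℝ) →ₗ[ℝ] V) (y : V × Cu ι) :
    80 * qJ ι y.2 ≤ po N u y := by
  refine le_qs (ms N ι) (gu u) y _ fun a => ?_
  rw [ms_apply]
  have h1 : (y + gu u a).2 = y.2 - Jm ι a := by
    rw [gu_apply, sub_eq_add_neg]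
    rfl
  rw [h1]
  have h2 := qJ_le y.2 a
  have h3 : 0 ≤ N (y + gu u a).1 := apply_nonneg N _
  linarith

end RF
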