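import Pool.Agent.RF.C1b
import Pool.Agent.RF.A4
import Pool.Agent.RF.A2b

/-!
# [RF-C2] The lifting lemma (Kisliakov-Pisier type) for `L_1 / Rad`

Statement: for `q : κ → Cu ι` there are `b : κ → Cu ι` with `b j = q j - J (a j)` and
`av_e L1 (rs b e) ≤ 27 * av_e qJ (rs q e)`.

Proof.
(1) For every `e : κ → Bool` choose `α e : ι → ℝ` with `L1 (rs q e - J (α e)) ≤ 2 qJ (rs q e)`: possible if
 `qJ (rs q e) > 0` by definition of the infimum; if `qJ (rs q e) = 0` one needs the infimum to be attained: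
 `exists_min`: `a ↦ L1 (b - J a)` is continuous and tends to infinity (`L1 (b - J a) ≥ L1 (J a) - L1 b`,
 `khin`), so it attains its infimum (in all cases `L1 (b - J a) = qJ b` for some `a`).  So even
 `L1 (rs q e - J (α e)) = qJ (rs q e)`.
(2) `B e := rs q e - J (α e)`, a function `κ-cube → Cu ι`.  Put `β_j := 2^{-n} ∑_e sg(e j) α e` (vector in `ι → ℝ`),
 `b j := q j - J (β_j)` (`n = |κ|`), so `b j` is the first Walsh coefficient of `B` at `j`, and
 `G e := B e - rs b e = J (-(α e) + ∑_j sg(e j) β_j) =: J (γ e)`, where `γ e = ∑_j sg(e j) β_j - α e` has all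
 first Walsh coefficients `0` (coordinatewise: `fc (γ . l) {j} = β_j l - β_j l = 0` by `wal_orth`).
(3) `∑_h kk (1/2) e h • B h - (1/2) • B e = J(λ e)` with `λ e = -(∑_h kk (1/2) e h • α h) + (1/2) α e`, because the
 Rademacher sum `rs q` is multiplied by `1/2` by the kernel (`kk_fc` at singletons; directly:
 `∑_h kk (1/2) e h sg(h j) = (1/2) sg(e j)`).  Also `λ e = ∑_h kk (1/2) e h • γ h - (1/2) γ e` (the part
 `∑_j sg(e j) β_j` cancels in the same way).  Hence by `gap_vec` for `γ`: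
 `∑_e ∑_l (γ e l)^2 ≤ 16 ∑_e ∑_l (λ e l)^2`.
(4) `sqrt (∑_l (λ e l)^2) ≤ sqrt 2 L1 (J (λ e))` (`khin`), and in `L_2(cube)`:
 `(av_e L1(J(λ e))^2)^{1/2} ≤ (av_e L1(∑_h kk (1/2) e h • B h)^2)^{1/2} + (1/2)(av_e L1(B e)^2)^{1/2}
   ≤ (3/2) (av_e L1 (B e)^2)^{1/2}` (`av_kk_sq_le`, Minkowski in `l_2`).  To avoid Minkowski: for reals
 `(s + t/2)^2 ≤ (3/2) s^2 + (3/4) t^2`, so `av L1(J λ)^2 ≤ (3/2 + 3/4) D = (9/4) D`, `D = av_e L1(B e)^2`.
 So `av_e ∑_l (γ e l)^2 ≤ 16 * 2 * (9/4) D = 72 D`, and `L1 (G e) ≤ sqrt (∑_l (γ e l)^2)` (`L1_Jm_le`), so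
 `(av L1(G e)^2) ≤ 72 D`.
(5) `rs b e = B e - G e`: `av L1 (rs b e) ≤ (av L1(B)^2)^{1/2} + (av L1(G)^2)^{1/2} ≤ (1 + sqrt 72) D^{1/2}`, and
 `D = av_e qJ(rs q e)^2 ≤ 2 (av_e qJ (rs q e))^2` (`kahane` for the seminorm `qJ`).  Total constant
 `sqrt 2 (1 + 6 sqrt 2) = sqrt 2 + 12 ≤ 27` (in fact `≤ 14`; the statement has room).
-/

set_option linter.unusedVariables false

namespace RF

variable {ι κ : Type} [Fintype ι] [DecidableEq ι] [Fintype κ] [DecidableEq κ]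

/-- The infimum in `qJ` is attained. -/
theorem qJ_min (b : Cu ι) : ∃ a : ι → ℝ, L1 ι (b - Jm ι a) = qJ ι b := by
  have hcont : Continuous (fun a : ι → ℝ => L1 ι (b - Jm ι a)) := by
    have h1 : (fun a : ι → ℝ => L1 ι (b - Jm ι a)) = fun a : ι → ℝ =>
        (∑ e : ι → Bool, |b e - ∑ i, a i * sg (e i)|) / 2 ^ Fintype.card ι := by
      funext a
      rfl
    rw [h1]
    fun_prop
  have hb : 0 ≤ L1 ι b := apply_nonneg _ _
  set R : ℝ := Real.sqrt 2 * (2 * L1 ι b) with hR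
  have hR0 : 0 ≤ R := by positivity
  obtain ⟨a0, -, ha0⟩ := (isCompact_closedBall (0 : ι → ℝ) R).exists_isMinOn
    ⟨0, Metric.mem_closedBall_self hR0⟩ hcont.continuousOn
  have h0 : L1 ι (b - Jm ι a0) ≤ L1 ι b := by
    have h := ha0 (Metric.mem_closedBall_self hR0 : (0 : ι → ℝ) ∈ _)
    have h' : L1 ι (b - Jm ι a0) ≤ L1 ι (b - Jm ι 0) := h
    rwa [map_zero, sub_zero] at h'
  have hmin : ∀ a, L1 ι (b - Jm ι a0) ≤ L1 ι (b - Jm ι a) := by
    intro a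
    by_cases ha : a ∈ Metric.closedBall (0 : ι → ℝ) R
    · exact ha0 ha
    · rw [mem_closedBall_zero_iff, not_le] at ha
      have h1 : ‖a‖ ≤ Real.sqrt (∑ i, (a i) ^ 2) := by
        rw [pi_norm_le_iff_of_nonneg (Real.sqrt_nonneg _)]
        intro i
        rw [Real.norm_eq_abs]
        exact Real.abs_le_sqrt (Finset.single_le_sum (f := fun i => (a i) ^ 2)
          (fun j _ => sq_nonneg _) (Finset.mem_univ i))
      have h2 := khin a
      have h3 : Real.sqrt 2 * (2 * L1 ι b) < Real.sqrt 2 * L1 ι (Jm ι a) :=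
        lt_of_lt_of_le ha (h1.trans h2)
      have h4 : 2 * L1 ι b < L1 ι (Jm ι a) :=
        lt_of_mul_lt_mul_left h3 (Real.sqrt_nonneg 2)
      have h5 : L1 ι (Jm ι a) ≤ L1 ι (Jm ι a - b) + L1 ι b := by
        have h6 := map_add_le_add (L1 ι) (Jm ι a - b) b
        rwa [sub_add_cancel] at h6
      have h7 : L1 ι (b - Jm ι a) = L1 ι (Jm ι a - b) := map_sub_rev _ _ _
      linarith
  refine ⟨a0, le_antisymm ?_ (qJ_le b a0)⟩
  rw [qJ_apply]
  exact le_ciInf hmin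

end RF
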