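import Pool.Agent.RF.C2

/-!
# [RF-C2] The lifting lemma (Kisliakov-Pisier type) for `L_1 / Rad`

Statement: for `q : κ → Cu ι` there are `b : κ → Cu ι` with `b j = q j - J (a j)` and
`av_e L1 (rs b e) ≤ 27 * av_e qJ (rs q e)`.

Proof.
(1) For every `e : κ → Bool` choose `α e : ι → ℝ` with `L1 (rs q e - J (α e)) ≤ 2 qJ (rs q e)`: possible if
 `qJ (rs q e) > 0` by definition of the infimum; if `qJ (rs q e) = 0` one needs the infimum to be attained:
 `exists_min`: `a ↦ L1 (b - J a)` is continuous and tends to infinity (`L1 (b - J a) ≥ L1 (J a) - L1 b`,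
 `khin`), so it attains its infimum (in all cases `L1 (b - J a) = qJ b` for some `a`).  So even
 `L1 (rs q e - J (α e)) = qJ (rs q e)`.
(2) `B e := rs q e - J (α e)`, a function `κ-cube → Cu ι`.  Put `β_j := 2^{-n} ∑_e sg(e j) α e` (vector in `ι → ℝ`),
 `b j := q j - J (β_j)` (`n = |κ|`), so `b j` is the first Walsh coefficient of `B` at `j`, and
 `G e := B e - rs b e = J (-(α e) + ∑_j sg(e j) β_j) =: J (γ e)`, where `γ e = ∑_j sg(e j) β_j - α e` has all
 first Walsh coefficients `0` (coordinatewise: `fc (γ . l) {j} = β_j l - β_j l = 0` by `wal_orth`).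
(3) `∑_h kk (1/2) e h • B h - (1/2) • B e = J(λ e)` with `λ e = -(∑_h kk (1/2) e h • α h) + (1/2) α e`, because the
 Rademacher sum `rs q` is multiplied by `1/2` by the kernel (`kk_fc` at singletons; directly:
 `∑_h kk (1/2) e h sg(h j) = (1/2) sg(e j)`).  Also `λ e = ∑_h kk (1/2) e h • γ h - (1/2) γ e` (the part
 `∑_j sg(e j) β_j` cancels in the same way).  Hence by `gap_vec` for `γ`:
 `∑_e ∑_l (γ e l)^2 ≤ 16 ∑_e ∑_l (λ e l)^2`.
(4) `sqrt (∑_l (λ e l)^2) ≤ sqrt 2 L1 (J (λ e))` (`khin`), and in `L_2(cube)`: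
 `(av_e L1(J(λ e))^2)^{1/2} ≤ (av_e L1(∑_h kk (1/2) e h • B h)^2)^{1/2} + (1/2)(av_e L1(B e)^2)^{1/2}
   ≤ (3/2) (av_e L1 (B e)^2)^{1/2}` (`av_kk_sq_le`, Minkowski in `l_2`).  To avoid Minkowski: for reals
 `(s + t/2)^2 ≤ (3/2) s^2 + (3/4) t^2`, so `av L1(J λ)^2 ≤ (3/2 + 3/4) D = (9/4) D`, `D = av_e L1(B e)^2`.
 So `av_e ∑_l (γ e l)^2 ≤ 16 * 2 * (9/4) D = 72 D`, and `L1 (G e) ≤ sqrt (∑_l (γ e l)^2)` (`L1_Jm_le`), so
 `(av L1(G e)^2) ≤ 72 D`.
(5) `rs b e = B e - G e`: `av L1 (rs b e) ≤ (av L1(B)^2)^{1/2} + (av L1(G)^2)^{1/2} ≤ (1 + sqrt 72) D^{1/2}`, and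
 `D = av_e qJ(rs q e)^2 ≤ 2 (av_e qJ (rs q e))^2` (`kahane` for the seminorm `qJ`).  Total constant
 `sqrt 2 (1 + 6 sqrt 2) = sqrt 2 + 12 ≤ 27` (in fact `≤ 14`; the statement has room).
-/

set_option linter.unusedVariables false

namespace RF

variable {ι κ : Type} [Fintype ι] [DecidableEq ι] [Fintype κ] [DecidableEq κ]

/-- `∑_h kk (1/2) e h sg(h j) = sg(e j)/2`. -/
theorem kk_sg (e : κ → Bool) (j : κ) : ∑ h, kk (1/2) e h * sg (h j) = sg (e j) / 2 := by
  have h1 : ∀ h : κ → Bool, sg (h j) = wal {j} h := by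
    intro h
    simp [wal]
  have h2 : ∀ h : κ → Bool, kk (1/2) e h * sg (h j) =
      ∑ A : Finset κ, (2 ^ Fintype.card κ : ℝ)⁻¹ * ((1/2) ^ A.card * wal A e) * (wal A h * wal {j} h) := by
    intro h
    rw [kk_eq, h1, Finset.mul_sum, Finset.sum_mul]
    exact Finset.sum_congr rfl (fun A _ => by ring)
  rw [Finset.sum_congr rfl (fun h _ => h2 h), Finset.sum_comm]
  have h3 : ∀ A : Finset κ, ∑ h, (2 ^ Fintype.card κ : ℝ)⁻¹ * ((1/2) ^ A.card * wal A e) * (wal A h * wal {j} h) =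
      if A = {j} then sg (e j) / 2 else 0 := by
    intro A
    rw [← Finset.mul_sum, wal_orth]
    by_cases hA : A = {j}
    · rw [if_pos hA, if_pos hA, hA]
      have : (2 : ℝ) ^ Fintype.card κ ≠ 0 := by positivity
      simp only [Finset.card_singleton, pow_one, wal, Finset.prod_singleton]
      field_simp
    · rw [if_neg hA, if_neg hA, mul_zero]
  rw [Finset.sum_congr rfl (fun A _ => h3 A)]
  simp

theorem c2b_kk_sum (e : κ → Bool) (c : κ → ℝ) :
    ∑ h, kk (1/2) e h * (∑ j, sg (h j) * c j) = (∑ j, sg (e j) * c j) / 2 := by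
  simp_rw [Finset.mul_sum]
  rw [Finset.sum_comm, Finset.sum_div]
  refine Finset.sum_congr rfl (fun j _ => ?_)
  have : ∀ h : κ → Bool, kk (1/2) e h * (sg (h j) * c j) = kk (1/2) e h * sg (h j) * c j := fun h => by ring
  rw [Finset.sum_congr rfl (fun h _ => this h), ← Finset.sum_mul, kk_sg]
  ring

theorem c2b_av_le {f g : (κ → Bool) → ℝ} (h : ∀ e, f e ≤ g e) : av f ≤ av g := by
  unfold av
  gcongr
  exact h _

theorem c2b_av_add (f g : (κ → Bool) → ℝ) : av (fun e => f e + g e) = av f + av g := by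
  unfold av
  rw [Finset.sum_add_distrib, add_div]

theorem c2b_av_mul (c : ℝ) (f : (κ → Bool) → ℝ) : av (fun e => c * f e) = c * av f := by
  unfold av
  rw [← Finset.mul_sum, mul_div_assoc]

/-- (3), (4) of the header: `B e = rs q e - J (α e)`, `γ e = ∑_j sg(e j) β_j - α e`. -/
theorem lift_core (q : κ → Cu ι) (α : (κ → Bool) → (ι → ℝ)) :
    av (fun e => ∑ l, ((∑ j, sg (e j) *
        ((2 ^ Fintype.card κ : ℝ)⁻¹ * ∑ h, sg (h j) * α h l)) - α e l) ^ 2)
      ≤ 72 * av (fun e => (L1 ι (rs q e - Jm ι (α e))) ^ 2) := by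
  set n := Fintype.card κ with hn
  -- the vectors
  obtain ⟨β, hβ⟩ : ∃ β : κ → ι → ℝ, ∀ j l, β j l = (2 ^ n : ℝ)⁻¹ * ∑ h, sg (h j) * α h l := ⟨_, fun _ _ => rfl⟩
  obtain ⟨γ, hγ⟩ : ∃ γ : (κ → Bool) → ι → ℝ, ∀ e l, γ e l = (∑ j, sg (e j) * β j l) - α e l := ⟨_, fun _ _ => rfl⟩
  obtain ⟨lam, hlam⟩ : ∃ lam : (κ → Bool) → ι → ℝ, ∀ e l, lam e l = (∑ h, kk (1/2) e h * γ h l) - γ e l / 2 :=
    ⟨_, fun _ _ => rfl⟩
  have hL : ∀ e l, lam e l = - (∑ h, kk (1/2) e h * α h l) + α e l / 2 := by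
    intro e l
    rw [hlam]
    have h1 : ∀ h : κ → Bool, kk (1/2) e h * γ h l = kk (1/2) e h * (∑ j, sg (h j) * β j l) - kk (1/2) e h * α h l := by
      intro h
      rw [hγ]
      ring
    rw [Finset.sum_congr rfl (fun h _ => h1 h), Finset.sum_sub_distrib, c2b_kk_sum e (fun j => β j l), hγ]
    ring
  have hfc : ∀ i l, fc (fun e => γ e l) {i} = 0 := by
    intro i l
    unfold fc av
    have h1 : ∀ e : κ → Bool, γ e l * wal {i} e = (∑ j, β j l * (wal {j} e * wal {i} e)) - sg (e i) * α e l := by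
      intro e
      rw [hγ, sub_mul, Finset.sum_mul]
      congr 1
      · refine Finset.sum_congr rfl (fun j _ => ?_)
        simp only [wal, Finset.prod_singleton]
        ring
      · simp only [wal, Finset.prod_singleton]
        ring
    rw [Finset.sum_congr rfl (fun e _ => h1 e), Finset.sum_sub_distrib, Finset.sum_comm]
    have h2 : ∀ j : κ, ∑ e : κ → Bool, β j l * (wal {j} e * wal {i} e) = if j = i then β i l * 2 ^ n else 0 := by
      intro j
      rw [← Finset.mul_sum, wal_orth]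
      by_cases hj : j = i
      · subst hj
        simp [hn]
      · have : ({j} : Finset κ) ≠ {i} := fun h => hj (Finset.singleton_injective h)
        rw [if_neg this, if_neg hj, mul_zero]
    rw [Finset.sum_congr rfl (fun j _ => h2 j)]
    simp only [Finset.sum_ite_eq', Finset.mem_univ, if_true]
    rw [hβ]
    have h3 : (2 : ℝ) ^ n ≠ 0 := by positivity
    have h4 : (2 ^ n : ℝ)⁻¹ * (∑ h : κ → Bool, sg (h i) * α h l) * 2 ^ n = ∑ h : κ → Bool, sg (h i) * α h l := by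
      field_simp
    rw [h4]
    simp
  have hgap := gap_vec γ hfc
  -- the function B
  have hB : ∀ e : κ → Bool, (∑ h, kk (1/2) e h • (rs q h - Jm ι (α h))) - (1/2 : ℝ) • (rs q e - Jm ι (α e)) = Jm ι (lam e) := by
    intro e
    funext x
    simp only [Pi.sub_apply, Finset.sum_apply, Pi.smul_apply, smul_eq_mul, rs, Jm_apply, hL]
    have h1 : ∀ h : κ → Bool, kk (1/2) e h * ((∑ j, sg (h j) * q j x) - ∑ l, α h l * sg (x l)) =
        kk (1/2) e h * (∑ j, sg (h j) * q j x) - ∑ l, kk (1/2) e h * α h l * sg (x l) := by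
      intro h
      rw [mul_sub, Finset.mul_sum (s := (Finset.univ : Finset ι))]
      congr 1
      exact Finset.sum_congr rfl (fun l _ => by ring)
    rw [Finset.sum_congr rfl (fun h _ => h1 h), Finset.sum_sub_distrib, c2b_kk_sum e (fun j => q j x), Finset.sum_comm]
    have h2 : ∀ l : ι, (-(∑ h, kk (1/2) e h * α h l) + α e l / 2) * sg (x l) =
        - (∑ h, kk (1/2) e h * α h l * sg (x l)) + (1/2) * (α e l * sg (x l)) := by
      intro l
      rw [add_mul, neg_mul, Finset.sum_mul]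
      ring
    rw [Finset.sum_congr rfl (fun l _ => h2 l), Finset.sum_add_distrib, Finset.sum_neg_distrib, ← Finset.mul_sum]
    ring
  have hpt : ∀ e : κ → Bool, ∑ l, (lam e l) ^ 2 ≤
      3 * (L1 ι (∑ h, kk (1/2) e h • (rs q h - Jm ι (α h)))) ^ 2 + (3/2) * (L1 ι (rs q e - Jm ι (α e))) ^ 2 := by
    intro e
    have k1 := khin (lam e)
    have k2 : L1 ι (Jm ι (lam e)) ≤ L1 ι (∑ h, kk (1/2) e h • (rs q h - Jm ι (α h))) + (1/2) * L1 ι (rs q e - Jm ι (α e)) := by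
      rw [← hB e]
      refine (map_sub_le_add (L1 ι) _ _).trans ?_
      rw [map_smul_eq_mul]
      simp
    have k3 : 0 ≤ L1 ι (∑ h, kk (1/2) e h • (rs q h - Jm ι (α h))) := apply_nonneg _ _
    have k4 : 0 ≤ L1 ι (rs q e - Jm ι (α e)) := apply_nonneg _ _
    have k5 : 0 ≤ L1 ι (Jm ι (lam e)) := apply_nonneg _ _
    have k6 : 0 ≤ ∑ l, (lam e l) ^ 2 := Finset.sum_nonneg (fun l _ => sq_nonneg _)
    have k7 : ∑ l, (lam e l) ^ 2 = (Real.sqrt (∑ l, (lam e l) ^ 2)) ^ 2 := (Real.sq_sqrt k6).symm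
    have k8 : (Real.sqrt 2) ^ 2 = 2 := Real.sq_sqrt (by norm_num)
    have k9 : (Real.sqrt (∑ l, (lam e l) ^ 2)) ^ 2 ≤ (Real.sqrt 2 * L1 ι (Jm ι (lam e))) ^ 2 :=
      pow_le_pow_left₀ (Real.sqrt_nonneg _) k1 2
    rw [mul_pow, k8, ← k7] at k9
    generalize L1 ι (∑ h, kk (1/2) e h • (rs q h - Jm ι (α h))) = s at k2 k3 ⊢
    generalize L1 ι (rs q e - Jm ι (α e)) = t at k2 k4 ⊢
    generalize L1 ι (Jm ι (lam e)) = w at k2 k5 k9
    nlinarith [sq_nonneg (s - t), mul_nonneg k3 k4, pow_le_pow_left₀ k5 k2 2]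
  have hD := av_kk_sq_le (L1 ι) (δ := 1/2) (by norm_num) (by norm_num) (fun e => rs q e - Jm ι (α e))
  have h1 : av (fun e => ∑ l, (γ e l) ^ 2) ≤ 16 * av (fun e => ∑ l, (lam e l) ^ 2) := by
    unfold av
    rw [← mul_div_assoc]
    gcongr
    refine hgap.trans (le_of_eq ?_)
    congr 1
    exact Finset.sum_congr rfl (fun e _ => Finset.sum_congr rfl (fun l _ => by rw [hlam]))
  have h2 : av (fun e => ∑ l, (lam e l) ^ 2) ≤
      3 * av (fun e => (L1 ι (∑ h, kk (1/2) e h • (rs q h - Jm ι (α h)))) ^ 2) +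
      (3/2) * av (fun e => (L1 ι (rs q e - Jm ι (α e))) ^ 2) := by
    rw [← c2b_av_mul, ← c2b_av_mul, ← c2b_av_add]
    exact c2b_av_le hpt
  have h3 : av (fun e => ∑ l, ((∑ j, sg (e j) *
        ((2 ^ n : ℝ)⁻¹ * ∑ h, sg (h j) * α h l)) - α e l) ^ 2) = av (fun e => ∑ l, (γ e l) ^ 2) := by
    congr 1
    funext e
    refine Finset.sum_congr rfl (fun l _ => ?_)
    rw [hγ]
    simp only [hβ]
  rw [h3]
  linarith

end RF
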