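import Pool.Agent.RF.C2b
import Pool.Agent.RF.A5

/-!
# [RF-C2] The lifting lemma (Kisliakov-Pisier type) for `L_1 / Rad`

Statement: for `q : κ → Cu ι` there are `b : κ → Cu ι` with `b j = q j - J (a j)` and
`av_e L1 (rs b e) ≤ 27 * av_e qJ (rs q e)`.

Proof.
(1) For every `e : κ → Bool` choose `α e : ι → ℝ` with `L1 (rs q e - J (α e)) ≤ 2 qJ (rs q e)`: possible if
 `qJ (rs q e) > 0` by definition of the infimum; if `qJ (rs q e) = 0` one needs the infimum to be attained: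
 `exists_min`: `a ↦ L1 (b - J a)` is continuous and tends to infinity (`L1 (b - J a) ≥ L1 (J a) - L1 b`,
 `khin`), so it attains its infimum (in all cases `L1 (b - J a) = qJ b` for some `a`).  So even
 `L1 (rs q e - J (α e)) = qJ (rs q e)`.
(2) `B e := rs q e - J (α e)`, a function `κ-cube → Cu ι`.  Put `β_j := 2^{-n} ∑_e sg(e j) α e` (vector in `ι → ℝ`),
 `b j := q j - J (β_j)` (`n = |κ|`), so `b j` is the first Walsh coefficient of `B` at `j`, and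
 `G e := B e - rs b e = J (-(α e) + ∑_j sg(e j) β_j) =: J (γ e)`, where `γ e = ∑_j sg(e j) β_j - α e` has all
 first Walsh coefficients `0` (coordinatewise: `fc (γ . l) {j} = β_j l - β_j l = 0` by `wal_orth`).
(3) `∑_h kk (1/2) e h • B h - (1/2) • B e = J(λ e)` with `λ e = -(∑_h kk (1/2) e h • α h) + (1/2) α e`, because the
 Rademacher sum `rs q` is multiplied by `1/2` by the kernel (`kk_fc` at singletons; directly:
 `∑_h kk (1/2) e h sg(h j) = (1/2) sg(e j)`).  Also `λ e = ∑_h kk (1/2) e h • γ h - (1/2) γ e` (the part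
 `∑_j sg(e j) β_j` cancels in the same way).  Hence by `gap_vec` for `γ`:
 `∑_e ∑_l (γ e l)^2 ≤ 16 ∑_e ∑_l (λ e l)^2`.
(4) `sqrt (∑_l (λ e l)^2) ≤ sqrt 2 L1 (J (λ e))` (`khin`), and in `L_2(cube)`:
 `(av_e L1(J(λ e))^2)^{1/2} ≤ (av_e L1(∑_h kk (1/2) e h • B h)^2)^{1/2} + (1/2)(av_e L1(B e)^2)^{1/2}
   ≤ (3/2) (av_e L1 (B e)^2)^{1/2}` (`av_kk_sq_le`, Minkowski in `l_2`).  To avoid Minkowski: for reals
 `(s + t/2)^2 ≤ (3/2) s^2 + (3/4) t^2`, so `av L1(J λ)^2 ≤ (3/2 + 3/4) D = (9/4) D`, `D = av_e L1(B e)^2`.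
 So `av_e ∑_l (γ e l)^2 ≤ 16 * 2 * (9/4) D = 72 D`, and `L1 (G e) ≤ sqrt (∑_l (γ e l)^2)` (`L1_Jm_le`), so
 `(av L1(G e)^2) ≤ 72 D`.
(5) `rs b e = B e - G e`: `av L1 (rs b e) ≤ (av L1(B)^2)^{1/2} + (av L1(G)^2)^{1/2} ≤ (1 + sqrt 72) D^{1/2}`, and
 `D = av_e qJ(rs q e)^2 ≤ 2 (av_e qJ (rs q e))^2` (`kahane` for the seminorm `qJ`).  Total constant
 `sqrt 2 (1 + 6 sqrt 2) = sqrt 2 + 12 ≤ 27` (in fact `≤ 14`; the statement has room).
-/

set_option linter.unusedVariables false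

namespace RF

variable {ι κ : Type} [Fintype ι] [DecidableEq ι] [Fintype κ] [DecidableEq κ]

theorem c2c_av_sq_le (f : (κ → Bool) → ℝ) : (av f) ^ 2 ≤ av (fun e => (f e) ^ 2) := by
  unfold av
  have h1 : (∑ e : κ → Bool, f e) ^ 2 ≤ 2 ^ Fintype.card κ * ∑ e : κ → Bool, (f e) ^ 2 := by
    have := sq_sum_le_card_mul_sum_sq (s := (Finset.univ : Finset (κ → Bool))) (f := f)
    simpa using this
  have h2 : (0 : ℝ) < 2 ^ Fintype.card κ := by positivity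
  rw [div_pow, div_le_div_iff₀ (by positivity) h2]
  nlinarith

theorem c2c_av_nonneg {f : (κ → Bool) → ℝ} (h : ∀ e, 0 ≤ f e) : 0 ≤ av f := by
  unfold av
  have := Finset.sum_nonneg (fun e (_ : e ∈ (Finset.univ : Finset (κ → Bool))) => h e)
  positivity

theorem qJ_lift (q : κ → Cu ι) :
    ∃ a : κ → (ι → ℝ), av (fun e => L1 ι (rs (fun j => q j - Jm ι (a j)) e))
      ≤ 27 * av (fun e => qJ ι (rs q e)) := by
  have hmin : ∀ e : κ → Bool, ∃ a : ι → ℝ, L1 ι (rs q e - Jm ι a) = qJ ι (rs q e) := fun e => qJ_min _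
  choose α hα using hmin
  have hcore := lift_core q α
  refine ⟨fun j l => (2 ^ Fintype.card κ : ℝ)⁻¹ * ∑ h, sg (h j) * α h l, ?_⟩
  obtain ⟨γ, hγ⟩ : ∃ γ : (κ → Bool) → ι → ℝ, ∀ e l, γ e l = (∑ j, sg (e j) *
      ((2 ^ Fintype.card κ : ℝ)⁻¹ * ∑ h, sg (h j) * α h l)) - α e l := ⟨_, fun _ _ => rfl⟩
  have hcore' : av (fun e => ∑ l, (γ e l) ^ 2) ≤ 72 * av (fun e => (qJ ι (rs q e)) ^ 2) := by
    have h1 : av (fun e => ∑ l, (γ e l) ^ 2) = av (fun e => ∑ l, ((∑ j, sg (e j) *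
        ((2 ^ Fintype.card κ : ℝ)⁻¹ * ∑ h, sg (h j) * α h l)) - α e l) ^ 2) := by
      congr 1
      funext e
      exact Finset.sum_congr rfl (fun l _ => by rw [hγ])
    have h2 : av (fun e => (L1 ι (rs q e - Jm ι (α e))) ^ 2) = av (fun e => (qJ ι (rs q e)) ^ 2) := by
      congr 1
      funext e
      rw [hα]
    rw [h1, ← h2]
    exact hcore
  have hk := kahane (qJ ι) q
  -- pointwise
  have hpt : ∀ e : κ → Bool, L1 ι (rs (fun j => q j - Jm ι (fun l => (2 ^ Fintype.card κ : ℝ)⁻¹ * ∑ h, sg (h j) * α h l)) e) ≤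
      qJ ι (rs q e) + Real.sqrt (∑ l, (γ e l) ^ 2) := by
    intro e
    have h1 : rs (fun j => q j - Jm ι (fun l => (2 ^ Fintype.card κ : ℝ)⁻¹ * ∑ h, sg (h j) * α h l)) e =
        (rs q e - Jm ι (α e)) - Jm ι (γ e) := by
      funext x
      simp only [rs, Finset.sum_apply, Pi.smul_apply, Pi.sub_apply, smul_eq_mul, Jm_apply, hγ]
      simp only [mul_sub, sub_mul, Finset.sum_sub_distrib, Finset.mul_sum, Finset.sum_mul]
      have h2 : ∑ j : κ, ∑ l : ι, ∑ h : κ → Bool, sg (e j) * ((2 ^ Fintype.card κ : ℝ)⁻¹ * (sg (h j) * α h l) * sg (x l)) =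
          ∑ l : ι, ∑ j : κ, ∑ h : κ → Bool, sg (e j) * ((2 ^ Fintype.card κ : ℝ)⁻¹ * (sg (h j) * α h l)) * sg (x l) := by
        rw [Finset.sum_comm]
        exact Finset.sum_congr rfl (fun l _ => Finset.sum_congr rfl (fun j _ => Finset.sum_congr rfl (fun h _ => by ring)))
      rw [h2]
      ring
    rw [h1]
    refine (map_sub_le_add (L1 ι) _ _).trans ?_
    rw [hα]
    have := L1_Jm_le (γ e)
    linarith
  have hav : av (fun e => L1 ι (rs (fun j => q j - Jm ι (fun l => (2 ^ Fintype.card κ : ℝ)⁻¹ * ∑ h, sg (h j) * α h l)) e)) ≤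
      av (fun e => qJ ι (rs q e)) + av (fun e => Real.sqrt (∑ l, (γ e l) ^ 2)) := by
    rw [← c2b_av_add]
    exact c2b_av_le hpt
  have hG : av (fun e => Real.sqrt (∑ l, (γ e l) ^ 2)) ≤ 12 * av (fun e => qJ ι (rs q e)) := by
    have g1 := c2c_av_sq_le (fun e => Real.sqrt (∑ l, (γ e l) ^ 2))
    have g2 : av (fun e => (Real.sqrt (∑ l, (γ e l) ^ 2)) ^ 2) = av (fun e => ∑ l, (γ e l) ^ 2) := by
      congr 1
      funext e
      exact Real.sq_sqrt (Finset.sum_nonneg (fun l _ => sq_nonneg _))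
    rw [g2] at g1
    have g3 : 0 ≤ av (fun e => qJ ι (rs q e)) := c2c_av_nonneg (fun e => apply_nonneg _ _)
    refine (pow_le_pow_iff_left₀ (c2c_av_nonneg (fun e => Real.sqrt_nonneg _)) (by positivity) (n := 2) (by norm_num)).1 ?_
    calc (av (fun e => Real.sqrt (∑ l, (γ e l) ^ 2))) ^ 2 ≤ av (fun e => ∑ l, (γ e l) ^ 2) := g1
      _ ≤ 72 * av (fun e => (qJ ι (rs q e)) ^ 2) := hcore'
      _ ≤ 72 * (2 * (av (fun e => qJ ι (rs q e))) ^ 2) := by gcongr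
      _ = (12 * av (fun e => qJ ι (rs q e))) ^ 2 := by ring
  have g3 : 0 ≤ av (fun e => qJ ι (rs q e)) := c2c_av_nonneg (fun e => apply_nonneg _ _)
  linarith

end RF
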