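import Pool.Agent.RF.C2c
import Pool.Agent.RF.A6b

/-!
# [RF-C3] The pushout preserves cotype 2 and cotype 4 with the SAME constant

`y : κ → V × Cu ι`, `F e = rs y e`, `q j = (y j).2`, `π(F e) = 80 * qJ (rs q e)`.  Let `a` be as in `qJ_lift` for `q`,
`b j = q j - J (a j)`, `x j = (y j).1 + u (a j)`.  Then `(x j, b j) = y j + gu u (a j)` represents the same class.
Facts:
 (i) `po N u (y j) ≤ N (x j) + 80 L1 (b j)`  (`qs_le` with `a j`).
 (ii) pointwise: `N (rs x e) ≤ po N u (F e) - (1 - η) 80 qJ (rs q e) + η 80 L1 (rs b e)` with `η = sqrt 2 / 80`: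
   let `e` be fixed, `s = ∑_j sg(e j) a j`.  For every `c : ι → ℝ`, with `c' = c - s`:
   `N (rs x e) ≤ N (rs x e + u c') + N (u c')`, `N (u c') ≤ sqrt(∑ c'^2) ≤ sqrt 2 L1(J c') = η (80 L1 (J c'))`,
   `L1 (J c') ≤ L1 (rs b e) + L1 (rs b e - J c')`, `rs x e + u c' = (F e).1 + u c`, `rs b e - J c' = (F e).2 - J c`.
   So `N (rs x e) ≤ [N((F e).1 + u c) + 80 L1((F e).2 - J c)] - (1-η) 80 L1((F e).2 - J c) + η 80 L1 (rs b e)` and
   `L1((F e).2 - J c) ≥ qJ (rs q e)` (`qJ_le`).  Take the infimum over `c` (`po_apply`, `le_ciInf`).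
 (iii) average: `av N(rs x e) ≤ av po(F e) - (1 - η - 27 η) 80 av qJ(rs q e) ≤ av po (F e) - 40 av qJ (rs q e)` because
   `28 η ≤ 1/2` (`sqrt 2 ≤ 1.4143`, `28 * 1.4143/80 = 0.4950..`).
 `po_decomp` is (i)-(iii) together with the bound of `qJ_lift`.
 `po_CT2`: `sqrt(∑ po(y j)^2) ≤ sqrt(∑ N(x j)^2) + 80 sqrt(∑ L1(b j)^2)` (Minkowski) `≤ K av N(rs x e) + 80 sqrt 2 av L1(rs b e)
   ≤ K av po(F) - 40 K av qJ + 80 sqrt 2 * 27 av qJ ≤ K av po (F)` if `K ≥ 77` (`2 * 27 * sqrt 2 = 76.37`).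
 `po_CT4`: the same with `l_4` norms: `(∑ po^4)^{1/4} ≤ (∑ N(x j)^4)^{1/4} + 80 (∑ L1 (b j)^4)^{1/4}` and
   `(∑ t_j^4)^{1/4} ≤ (∑ t_j^2)^{1/2}`.  (Minkowski: `Real.Lp_add_le_of_nonneg` or the norm of `PiLp 4`.)
-/

set_option linter.unusedVariables false

namespace RF

variable {V : Type} [AddCommGroup V] [Module ℝ V] {ι κ : Type} [Fintype ι] [DecidableEq ι]
  [Fintype κ] [DecidableEq κ]

theorem po_decomp (N : SN V) (u : (ι → ℝ) →ₗ[ℝ] V)
    (hu : ∀ a, N (u a) ≤ Real.sqrt (∑ i, (a i) ^ 2)) (y : κ → V × Cu ι) :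
    ∃ (x : κ → V) (b : κ → Cu ι),
      (∀ j, po N u (y j) ≤ N (x j) + 80 * L1 ι (b j)) ∧
      av (fun e => N (rs x e)) ≤ av (fun e => po N u (rs y e))
        - 40 * av (fun e => qJ ι (rs (fun j => (y j).2) e)) ∧
      av (fun e => L1 ι (rs b e)) ≤ 27 * av (fun e => qJ ι (rs (fun j => (y j).2) e)) := by
  obtain ⟨a, ha⟩ := qJ_lift (fun j => (y j).2)
  refine ⟨fun j => (y j).1 + u (a j), fun j => (y j).2 - Jm ι (a j), fun j => ?_, ?_, ha⟩
  · rw [po_apply]
    exact ciInf_le ⟨0, by rintro _ ⟨c, rfl⟩; exact add_nonneg (apply_nonneg _ _) (mul_nonneg (by norm_num) (apply_nonneg _ _))⟩ (a j)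
  · have hpt : ∀ e : κ → Bool, N (rs (fun j => (y j).1 + u (a j)) e) + (80 - Real.sqrt 2) * qJ ι (rs (fun j => (y j).2) e)
        - Real.sqrt 2 * L1 ι (rs (fun j => (y j).2 - Jm ι (a j)) e) ≤ po N u (rs y e) := by
      intro e
      rw [po_apply]
      refine le_ciInf (fun c => ?_)
      have f1 : (rs y e).1 = rs (fun j => (y j).1) e := by
        simp only [rs, Prod.fst_sum, Prod.smul_fst]
      have f2 : (rs y e).2 = rs (fun j => (y j).2) e := by
        simp only [rs, Prod.snd_sum, Prod.smul_snd]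
      have x1 : rs (fun j => (y j).1 + u (a j)) e = (rs y e).1 + u (∑ j, sg (e j) • a j) := by
        rw [f1]
        simp only [rs, smul_add, Finset.sum_add_distrib, map_sum, map_smul]
      have b1 : rs (fun j => (y j).2 - Jm ι (a j)) e = (rs y e).2 - Jm ι (∑ j, sg (e j) • a j) := by
        rw [f2]
        simp only [rs, smul_sub, Finset.sum_sub_distrib, map_sum, map_smul]
      rw [← f2]
      generalize hs : ∑ j, sg (e j) • a j = s at x1 b1
      have k1 : N (rs (fun j => (y j).1 + u (a j)) e) ≤ N ((rs y e).1 + u c) + N (u (s - c)) := by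
        have : rs (fun j => (y j).1 + u (a j)) e = ((rs y e).1 + u c) + u (s - c) := by
          rw [x1, map_sub]
          abel
        rw [this]
        exact map_add_le_add N _ _
      have k2 := hu (s - c)
      have k3 := khin (s - c)
      have k4 : L1 ι (Jm ι (s - c)) ≤ L1 ι ((rs y e).2 - Jm ι c) + L1 ι (rs (fun j => (y j).2 - Jm ι (a j)) e) := by
        have : Jm ι (s - c) = ((rs y e).2 - Jm ι c) - rs (fun j => (y j).2 - Jm ι (a j)) e := by
          rw [b1, map_sub]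
          abel
        rw [this]
        exact map_sub_le_add (L1 ι) _ _
      have k5 := qJ_le (rs y e).2 c
      have k6 : 0 ≤ Real.sqrt 2 := Real.sqrt_nonneg _
      have k7 : Real.sqrt 2 ≤ 80 := by
        rw [Real.sqrt_le_left (by norm_num)]
        norm_num
      have k8 : Real.sqrt 2 * L1 ι (Jm ι (s - c)) ≤ Real.sqrt 2 * (L1 ι ((rs y e).2 - Jm ι c) + L1 ι (rs (fun j => (y j).2 - Jm ι (a j)) e)) :=
        mul_le_mul_of_nonneg_left k4 k6
      have k9 : (80 - Real.sqrt 2) * qJ ι (rs y e).2 ≤ (80 - Real.sqrt 2) * L1 ι ((rs y e).2 - Jm ι c) :=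
        mul_le_mul_of_nonneg_left k5 (by linarith)
      nlinarith
    have hav : av (fun e => N (rs (fun j => (y j).1 + u (a j)) e)) ≤ av (fun e => po N u (rs y e)) +
        ((-(80 - Real.sqrt 2)) * av (fun e => qJ ι (rs (fun j => (y j).2) e)) +
        Real.sqrt 2 * av (fun e => L1 ι (rs (fun j => (y j).2 - Jm ι (a j)) e))) := by
      rw [← c2b_av_mul, ← c2b_av_mul, ← c2b_av_add, ← c2b_av_add]
      apply c2b_av_le
      intro e
      have := hpt e
      linarith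
    have k6 : 0 ≤ Real.sqrt 2 := Real.sqrt_nonneg _
    have k7 : Real.sqrt 2 ≤ 10 / 7 := by
      rw [Real.sqrt_le_left (by norm_num)]
      norm_num
    have g3 : 0 ≤ av (fun e => qJ ι (rs (fun j => (y j).2) e)) := c2c_av_nonneg (fun e => apply_nonneg _ _)
    have g4 : Real.sqrt 2 * av (fun e => L1 ι (rs (fun j => (y j).2 - Jm ι (a j)) e)) ≤
        Real.sqrt 2 * (27 * av (fun e => qJ ι (rs (fun j => (y j).2) e))) := mul_le_mul_of_nonneg_left ha k6
    have g5 : Real.sqrt 2 * av (fun e => qJ ι (rs (fun j => (y j).2) e)) ≤ (10/7) * av (fun e => qJ ι (rs (fun j => (y j).2) e)) :=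
      mul_le_mul_of_nonneg_right k7 g3
    nlinarith

end RF
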