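import Pool.Agent.RF.C3

/-!
# [RF-C3] The pushout preserves cotype 2 and cotype 4 with the SAME constant

`y : κ → V × Cu ι`, `F e = rs y e`, `q j = (y j).2`, `π(F e) = 80 * qJ (rs q e)`.  Let `a` be as in `qJ_lift` for `q`,
`b j = q j - J (a j)`, `x j = (y j).1 + u (a j)`.  Then `(x j, b j) = y j + gu u (a j)` represents the same class.
Facts:
 (i) `po N u (y j) ≤ N (x j) + 80 L1 (b j)`  (`qs_le` with `a j`).
 (ii) pointwise: `N (rs x e) ≤ po N u (F e) - (1 - η) 80 qJ (rs q e) + η 80 L1 (rs b e)` with `η = sqrt 2 / 80`: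
   let `e` be fixed, `s = ∑_j sg(e j) a j`.  For every `c : ι → ℝ`, with `c' = c - s`:
   `N (rs x e) ≤ N (rs x e + u c') + N (u c')`, `N (u c') ≤ sqrt(∑ c'^2) ≤ sqrt 2 L1(J c') = η (80 L1 (J c'))`,
   `L1 (J c') ≤ L1 (rs b e) + L1 (rs b e - J c')`, `rs x e + u c' = (F e).1 + u c`, `rs b e - J c' = (F e).2 - J c`.
   So `N (rs x e) ≤ [N((F e).1 + u c) + 80 L1((F e).2 - J c)] - (1-η) 80 L1((F e).2 - J c) + η 80 L1 (rs b e)` and
   `L1((F e).2 - J c) ≥ qJ (rs q e)` (`qJ_le`).  Take the infimum over `c` (`po_apply`, `le_ciInf`).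
 (iii) average: `av N(rs x e) ≤ av po(F e) - (1 - η - 27 η) 80 av qJ(rs q e) ≤ av po (F e) - 40 av qJ (rs q e)` because
   `28 η ≤ 1/2` (`sqrt 2 ≤ 1.4143`, `28 * 1.4143/80 = 0.4950..`).
 `po_decomp` is (i)-(iii) together with the bound of `qJ_lift`.
 `po_CT2`: `sqrt(∑ po(y j)^2) ≤ sqrt(∑ N(x j)^2) + 80 sqrt(∑ L1(b j)^2)` (Minkowski) `≤ K av N(rs x e) + 80 sqrt 2 av L1(rs b e)
   ≤ K av po(F) - 40 K av qJ + 80 sqrt 2 * 27 av qJ ≤ K av po (F)` if `K ≥ 77` (`2 * 27 * sqrt 2 = 76.37`).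
 `po_CT4`: the same with `l_4` norms: `(∑ po^4)^{1/4} ≤ (∑ N(x j)^4)^{1/4} + 80 (∑ L1 (b j)^4)^{1/4}` and
   `(∑ t_j^4)^{1/4} ≤ (∑ t_j^2)^{1/2}`.  (Minkowski: `Real.Lp_add_le_of_nonneg` or the norm of `PiLp 4`.)
-/

set_option linter.unusedVariables false

namespace RF

variable {V : Type} [AddCommGroup V] [Module ℝ V] {ι κ : Type} [Fintype ι] [DecidableEq ι]
  [Fintype κ] [DecidableEq κ]

/-- Minkowski for `l_2` -/
private theorem c3b_mink {α : Type} [Fintype α] (f g : α → ℝ) :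
    Real.sqrt (∑ j, (f j + g j) ^ 2) ≤ Real.sqrt (∑ j, f j ^ 2) + Real.sqrt (∑ j, g j ^ 2) := by
  have hA : 0 ≤ ∑ j, f j ^ 2 := Finset.sum_nonneg fun j _ => sq_nonneg _
  have hB : 0 ≤ ∑ j, g j ^ 2 := Finset.sum_nonneg fun j _ => sq_nonneg _
  have h1 := Real.sum_mul_le_sqrt_mul_sqrt Finset.univ f g
  have h2 := Real.sq_sqrt hA
  have h3 := Real.sq_sqrt hB
  have h4 := Real.sqrt_nonneg (∑ j, f j ^ 2)
  have h5 := Real.sqrt_nonneg (∑ j, g j ^ 2)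
  refine Real.sqrt_le_iff.2 ⟨add_nonneg h4 h5, ?_⟩
  have h6 : ∑ j, (f j + g j) ^ 2 = ∑ j, f j ^ 2 + 2 * ∑ j, f j * g j + ∑ j, g j ^ 2 := by
    rw [Finset.mul_sum, ← Finset.sum_add_distrib, ← Finset.sum_add_distrib]
    refine Finset.sum_congr rfl fun j _ => ?_
    ring
  rw [h6]
  nlinarith [h1, h2, h3]

private theorem c3b_scale {α : Type} [Fintype α] (g : α → ℝ) :
    Real.sqrt (∑ j, (80 * g j) ^ 2) = 80 * Real.sqrt (∑ j, g j ^ 2) := by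
  have h1 : ∑ j, (80 * g j) ^ 2 = 80 ^ 2 * ∑ j, g j ^ 2 := by
    rw [Finset.mul_sum]
    refine Finset.sum_congr rfl fun j _ => ?_
    ring
  rw [h1, Real.sqrt_mul (by norm_num), Real.sqrt_sq (by norm_num)]

theorem po_CT2 (N : SN V) (u : (ι → ℝ) →ₗ[ℝ] V)
    (hu : ∀ a, N (u a) ≤ Real.sqrt (∑ i, (a i) ^ 2)) (h : CT2 N 77) : CT2 (po N u) 77 := by
  intro κ _ _ y
  obtain ⟨x, b, h1, h2, h3⟩ := po_decomp N u hu y
  have hx := h κ x
  have hb := L1_CT2 ι κ b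
  have hQ : 0 ≤ av (fun e => qJ ι (rs (fun j => (y j).2) e)) := by
    unfold av
    exact div_nonneg (Finset.sum_nonneg fun e _ => apply_nonneg _ _) (by positivity)
  have hL : 0 ≤ av (fun e => L1 ι (rs b e)) := by
    unfold av
    exact div_nonneg (Finset.sum_nonneg fun e _ => apply_nonneg _ _) (by positivity)
  have s1 : Real.sqrt (∑ j, po N u (y j) ^ 2) ≤
      Real.sqrt (∑ j, (N (x j) + 80 * L1 ι (b j)) ^ 2) := by
    refine Real.sqrt_le_sqrt (Finset.sum_le_sum fun j _ => ?_)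
    exact pow_le_pow_left₀ (apply_nonneg _ _) (h1 j) 2
  have s2 := c3b_mink (fun j => N (x j)) (fun j => 80 * L1 ι (b j))
  rw [c3b_scale] at s2
  have s3 : Real.sqrt 2 ≤ 1.4143 := by
    rw [Real.sqrt_le_left (by norm_num)]
    norm_num
  have s4 : Real.sqrt 2 * av (fun e => L1 ι (rs b e)) ≤
      1.4143 * (27 * av (fun e => qJ ι (rs (fun j => (y j).2) e))) :=
    mul_le_mul s3 h3 hL (by norm_num)
  have s5 := s1.trans s2
  linarith [s5, hx, hb, h2, s4, hQ]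

end RF
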