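import Pool.Agent.RF.C3b

/-!
# [RF-C3] The pushout preserves cotype 2 and cotype 4 with the SAME constant

`y : κ → V × Cu ι`, `F e = rs y e`, `q j = (y j).2`, `π(F e) = 80 * qJ (rs q e)`.  Let `a` be as in `qJ_lift` for `q`,
`b j = q j - J (a j)`, `x j = (y j).1 + u (a j)`.  Then `(x j, b j) = y j + gu u (a j)` represents the same class.
Facts:
 (i) `po N u (y j) ≤ N (x j) + 80 L1 (b j)`  (`qs_le` with `a j`).
 (ii) pointwise: `N (rs x e) ≤ po N u (F e) - (1 - η) 80 qJ (rs q e) + η 80 L1 (rs b e)` with `η = sqrt 2 / 80`: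
   let `e` be fixed, `s = ∑_j sg(e j) a j`.  For every `c : ι → ℝ`, with `c' = c - s`:
   `N (rs x e) ≤ N (rs x e + u c') + N (u c')`, `N (u c') ≤ sqrt(∑ c'^2) ≤ sqrt 2 L1(J c') = η (80 L1 (J c'))`,
   `L1 (J c') ≤ L1 (rs b e) + L1 (rs b e - J c')`, `rs x e + u c' = (F e).1 + u c`, `rs b e - J c' = (F e).2 - J c`.
   So `N (rs x e) ≤ [N((F e).1 + u c) + 80 L1((F e).2 - J c)] - (1-η) 80 L1((F e).2 - J c) + η 80 L1 (rs b e)` and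
   `L1((F e).2 - J c) ≥ qJ (rs q e)` (`qJ_le`).  Take the infimum over `c` (`po_apply`, `le_ciInf`).
 (iii) average: `av N(rs x e) ≤ av po(F e) - (1 - η - 27 η) 80 av qJ(rs q e) ≤ av po (F e) - 40 av qJ (rs q e)` because
   `28 η ≤ 1/2` (`sqrt 2 ≤ 1.4143`, `28 * 1.4143/80 = 0.4950..`).
 `po_decomp` is (i)-(iii) together with the bound of `qJ_lift`.
 `po_CT2`: `sqrt(∑ po(y j)^2) ≤ sqrt(∑ N(x j)^2) + 80 sqrt(∑ L1(b j)^2)` (Minkowski) `≤ K av N(rs x e) + 80 sqrt 2 av L1(rs b e)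
   ≤ K av po(F) - 40 K av qJ + 80 sqrt 2 * 27 av qJ ≤ K av po (F)` if `K ≥ 77` (`2 * 27 * sqrt 2 = 76.37`).
 `po_CT4`: the same with `l_4` norms: `(∑ po^4)^{1/4} ≤ (∑ N(x j)^4)^{1/4} + 80 (∑ L1 (b j)^4)^{1/4}` and
   `(∑ t_j^4)^{1/4} ≤ (∑ t_j^2)^{1/2}`.  (Minkowski: `Real.Lp_add_le_of_nonneg` or the norm of `PiLp 4`.)
-/

set_option linter.unusedVariables false

namespace RF

variable {V : Type} [AddCommGroup V] [Module ℝ V] {ι κ : Type} [Fintype ι] [DecidableEq ι]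
  [Fintype κ] [DecidableEq κ]

theorem C3c_mink {κ' : Type} [Fintype κ'] (f g : κ' → ℝ) (hf : ∀ j, 0 ≤ f j) (hg : ∀ j, 0 ≤ g j)
    (A B : ℝ) (hA : 0 ≤ A) (hB : 0 ≤ B) (h1 : ∑ j, f j ^ 4 ≤ A ^ 4) (h2 : ∑ j, g j ^ 4 ≤ B ^ 4) :
    ∑ j, (f j + g j) ^ 4 ≤ (A + B) ^ 4 := by
  have key := Real.Lp_add_le_of_nonneg (s := (Finset.univ : Finset κ')) (f := f) (g := g)
    (p := 4) (by norm_num) (fun j _ => hf j) (fun j _ => hg j)
  have e4 : ∀ t : ℝ, t ^ (4 : ℝ) = t ^ 4 := fun t => by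
    rw [← Real.rpow_natCast t 4]; norm_num
  simp only [e4] at key
  have hroot : ∀ S C : ℝ, 0 ≤ S → 0 ≤ C → S ≤ C ^ 4 → S ^ (1 / (4 : ℝ)) ≤ C := by
    intro S C hS hC h
    have h3 : S ^ (1 / (4 : ℝ)) ≤ (C ^ 4) ^ (1 / (4 : ℝ)) :=
      Real.rpow_le_rpow hS h (by norm_num)
    have h4 : (C ^ 4) ^ (1 / (4 : ℝ)) = C := by
      rw [← e4 C, ← Real.rpow_mul hC]
      norm_num
    rw [h4] at h3
    exact h3
  have hS0 : 0 ≤ ∑ j, (f j + g j) ^ 4 := Finset.sum_nonneg fun j _ => by positivity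
  have hle : (∑ j, (f j + g j) ^ 4) ^ (1 / (4 : ℝ)) ≤ A + B := by
    refine key.trans (add_le_add ?_ ?_)
    · exact hroot _ _ (Finset.sum_nonneg fun j _ => by positivity) hA h1
    · exact hroot _ _ (Finset.sum_nonneg fun j _ => by positivity) hB h2
  have h5 : ((∑ j, (f j + g j) ^ 4) ^ (1 / (4 : ℝ))) ^ 4 = ∑ j, (f j + g j) ^ 4 := by
    rw [← e4, ← Real.rpow_mul hS0]
    norm_num
  rw [← h5]
  exact pow_le_pow_left₀ (Real.rpow_nonneg hS0 _) hle 4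

theorem C3c_sum4 {κ' : Type} [Fintype κ'] (t : κ' → ℝ) (S : ℝ)
    (h : Real.sqrt (∑ j, t j ^ 2) ≤ S) : ∑ j, t j ^ 4 ≤ S ^ 4 := by
  have h0 : 0 ≤ ∑ j, t j ^ 2 := Finset.sum_nonneg fun j _ => sq_nonneg _
  have hS : 0 ≤ S := (Real.sqrt_nonneg _).trans h
  have h1 : ∑ j, t j ^ 2 ≤ S ^ 2 := by
    rw [← Real.sq_sqrt h0]
    exact pow_le_pow_left₀ (Real.sqrt_nonneg _) h 2
  calc ∑ j, t j ^ 4 = ∑ j, t j ^ 2 * t j ^ 2 := Finset.sum_congr rfl fun j _ => by ring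
    _ ≤ ∑ j, t j ^ 2 * ∑ l, t l ^ 2 := by
        refine Finset.sum_le_sum fun j _ => ?_
        refine mul_le_mul_of_nonneg_left ?_ (sq_nonneg _)
        exact Finset.single_le_sum (f := fun l => t l ^ 2) (fun l _ => sq_nonneg _)
          (Finset.mem_univ j)
    _ = (∑ j, t j ^ 2) * (∑ j, t j ^ 2) := by rw [Finset.sum_mul]
    _ ≤ S ^ 2 * S ^ 2 := mul_le_mul h1 h1 h0 (by positivity)
    _ = S ^ 4 := by ring

theorem C3c_av_nonneg {κ' : Type} [Fintype κ'] [DecidableEq κ'] (f : (κ' → Bool) → ℝ)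
    (hf : ∀ e, 0 ≤ f e) : 0 ≤ av f :=
  div_nonneg (Finset.sum_nonneg fun e _ => hf e) (by positivity)

theorem po_CT4 (N : SN V) (u : (ι → ℝ) →ₗ[ℝ] V)
    (hu : ∀ a, N (u a) ≤ Real.sqrt (∑ i, (a i) ^ 2)) (h : CT4 N 77) : CT4 (po N u) 77 := by
  intro κ' _ _ y
  obtain ⟨x, b, h1, h2, h3⟩ := po_decomp N u hu y
  have hP := h κ' x
  have hB := L1_CT2 ι κ' b
  obtain ⟨P, hPd⟩ : ∃ P, P = av (fun e => N (rs x e)) := ⟨_, rfl⟩
  obtain ⟨Q, hQd⟩ : ∃ Q, Q = av (fun e => qJ ι (rs (fun j => (y j).2) e)) := ⟨_, rfl⟩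
  obtain ⟨R, hRd⟩ : ∃ R, R = av (fun e => po N u (rs y e)) := ⟨_, rfl⟩
  obtain ⟨T, hTd⟩ : ∃ T, T = av (fun e => L1 ι (rs b e)) := ⟨_, rfl⟩
  rw [← hPd] at hP h2
  rw [← hQd] at h2 h3
  rw [← hRd] at h2
  rw [← hTd] at hB h3
  rw [← hRd]
  have hP0 : 0 ≤ P := by rw [hPd]; exact C3c_av_nonneg _ fun e => apply_nonneg N _
  have hQ0 : 0 ≤ Q := by rw [hQd]; exact C3c_av_nonneg _ fun e => apply_nonneg (qJ ι) _
  have hR0 : 0 ≤ R := by rw [hRd]; exact C3c_av_nonneg _ fun e => apply_nonneg (po N u) _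
  have hT0 : 0 ≤ T := by rw [hTd]; exact C3c_av_nonneg _ fun e => apply_nonneg (L1 ι) _
  have hs2 : Real.sqrt 2 ≤ 1.4143 := by
    rw [show (1.4143 : ℝ) = Real.sqrt (1.4143 ^ 2) from (Real.sqrt_sq (by norm_num)).symm]
    exact Real.sqrt_le_sqrt (by norm_num)
  have hs0 : 0 ≤ Real.sqrt 2 := Real.sqrt_nonneg 2
  have h4 : ∑ j, (L1 ι (b j)) ^ 4 ≤ (Real.sqrt 2 * T) ^ 4 := C3c_sum4 _ _ hB
  have h5 : ∑ j, (80 * L1 ι (b j)) ^ 4 ≤ (80 * (Real.sqrt 2 * T)) ^ 4 := by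
    calc ∑ j, (80 * L1 ι (b j)) ^ 4 = 80 ^ 4 * ∑ j, (L1 ι (b j)) ^ 4 := by
          rw [Finset.mul_sum]
          exact Finset.sum_congr rfl fun j _ => by ring
      _ ≤ 80 ^ 4 * (Real.sqrt 2 * T) ^ 4 := mul_le_mul_of_nonneg_left h4 (by positivity)
      _ = (80 * (Real.sqrt 2 * T)) ^ 4 := by ring
  have h6 : ∑ j, (N (x j) + 80 * L1 ι (b j)) ^ 4 ≤ (77 * P + 80 * (Real.sqrt 2 * T)) ^ 4 :=
    C3c_mink _ _ (fun j => apply_nonneg N _) (fun j => mul_nonneg (by norm_num)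
      (apply_nonneg (L1 ι) _)) _ _ (by positivity) (by positivity) hP h5
  have h7 : ∑ j, po N u (y j) ^ 4 ≤ ∑ j, (N (x j) + 80 * L1 ι (b j)) ^ 4 :=
    Finset.sum_le_sum fun j _ => pow_le_pow_left₀ (apply_nonneg (po N u) _) (h1 j) 4
  have h8 : 77 * P + 80 * (Real.sqrt 2 * T) ≤ 77 * R := by
    have h9 : Real.sqrt 2 * T ≤ 1.4143 * (27 * Q) := mul_le_mul hs2 h3 hT0 (by norm_num)
    nlinarith
  exact (h7.trans h6).trans (pow_le_pow_left₀ (by positivity) h8 4)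

end RF
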