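import Pool.Agent.RF.A6

/-!
# [RF-D1] The base space `l_4^s(l_2^m)` and its two norms

`Rb s m = PiLp 4 (fun _ : Fin s => EuclideanSpace ℝ (Fin m))`.  `zb r = ‖r‖`, `pb r = s⁻¹ * sqrt (∑_a ∑_l (r a l)^2)`.

* `Rb_norm4`: `‖r‖^4 = ∑_a ‖r a‖^4` (`PiLp.norm_eq_of_nat` or `PiLp.norm_eq_sum`).
* `pb_le_zb`: `sqrt (∑_a t_a^2) ≤ s * (∑ t_a^4)^{1/4}` for `t_a = ‖r a‖` (each `t_a ≤ ‖r‖`, so `∑ t_a^2 ≤ s ‖r‖^2 ≤ s^2 ‖r‖^2`).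
* `zb_le_pb`: `‖r‖^4 = ∑ t_a^4 ≤ (∑ t_a^2)^2`.
* `eucl_sq`: for a family `x_i` in a Euclidean space (or any real inner product space) `∑_i ‖x_i‖^2 = av ‖rs x e‖^2`
  (coordinatewise `rad_sq`).
* `pb_CT2`: `sqrt (∑ pb(x_i)^2) = (av pb(rs x e)^2)^{1/2} ≤ sqrt 2 av pb (rs x e) ≤ 77 av ..` (`eucl_sq`, `kahane`).
* `zb_CT4`: with `t_i^a = ‖x_i a‖`: `∑_i ∑_a (t_i^a)^4 ≤ ∑_a (∑_i (t_i^a)^2)^2 = ∑_a (av ‖rs x e a‖^2)^2
   ≤ ∑_a (2 (av ‖rs x e a‖)^2)^2 = 4 ∑_a (av ‖(rs x e) a‖)^4 ≤ 4 (av ‖rs x e‖)^4 ≤ (77 av ..)^4`; the last but one step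
   is the triangle inequality in `l_4^s`: the vector `(av ‖(rs x e) a‖)_a` is the average of the vectors
   `(‖(rs x e) a‖)_a`, whose `l_4^s` norm is `‖rs x e‖` (use the norm of `PiLp 4 (fun _ : Fin s => ℝ)`).
-/

set_option linter.unusedVariables false

namespace RF

noncomputable section

instance fact14 : Fact ((1 : ENNReal) ≤ 4) := ⟨by norm_num⟩

/-- `l_4^s(l_2^m)`. -/
abbrev Rb (s m : ℕ) : Type := PiLp 4 (fun _ : Fin s => EuclideanSpace ℝ (Fin m))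

/-- The norm of `l_4^s(l_2^m)` as a seminorm. -/
def zb (s m : ℕ) : SN (Rb s m) := normSeminorm ℝ (Rb s m)

/-- `s⁻¹` times the Euclidean norm. -/
def pb (s m : ℕ) : SN (Rb s m) :=
  Seminorm.of (fun r => (s : ℝ)⁻¹ * ‖(WithLp.toLp 2 (fun a : Fin s => r a) :
      PiLp 2 (fun _ : Fin s => EuclideanSpace ℝ (Fin m)))‖)
    (by
      intro x y
      rw [← mul_add]
      gcongr
      refine le_trans (le_of_eq ?_) (norm_add_le _ _)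
      congr 1)
    (by
      intro c x
      rw [← mul_assoc, mul_comm ‖c‖, mul_assoc, ← norm_smul]
      congr 2)

theorem pb_apply (s m : ℕ) (r : Rb s m) :
    pb s m r = (s : ℝ)⁻¹ * Real.sqrt (∑ a, ‖r a‖ ^ 2) := by
  show (s : ℝ)⁻¹ * ‖(WithLp.toLp 2 (fun a : Fin s => r a) :
      PiLp 2 (fun _ : Fin s => EuclideanSpace ℝ (Fin m)))‖ = _
  rw [PiLp.norm_eq_of_L2]

theorem Rb_norm4 (s m : ℕ) (r : Rb s m) : ‖r‖ ^ 4 = ∑ a, ‖r a‖ ^ 4 := by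
  have h0 : 0 ≤ ∑ a, ‖r a‖ ^ 4 := Finset.sum_nonneg fun a _ => by positivity
  have h := PiLp.norm_eq_of_nat 4 (by norm_num) r
  rw [h, ← Real.rpow_natCast, ← Real.rpow_mul h0]
  norm_num

theorem pb_le_zb (s m : ℕ) (hs : 1 ≤ s) (r : Rb s m) : pb s m r ≤ zb s m r := by
  have hs' : (1 : ℝ) ≤ s := by exact_mod_cast hs
  have hs0 : (0 : ℝ) < s := by linarith
  rw [pb_apply]
  show (s : ℝ)⁻¹ * Real.sqrt (∑ a, ‖r a‖ ^ 2) ≤ ‖r‖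
  have h1 : ∀ a, ‖r a‖ ≤ ‖r‖ := fun a => PiLp.norm_apply_le r a
  have h2 : ∑ a, ‖r a‖ ^ 2 ≤ (s * ‖r‖) ^ 2 := by
    calc ∑ a, ‖r a‖ ^ 2 ≤ ∑ a : Fin s, ‖r‖ ^ 2 :=
          Finset.sum_le_sum fun a _ => pow_le_pow_left₀ (norm_nonneg _) (h1 a) 2
      _ = s * ‖r‖ ^ 2 := by simp
      _ ≤ (s * ‖r‖) ^ 2 := by
          rw [mul_pow]
          have h3 : (s : ℝ) ≤ s ^ 2 := by nlinarith
          exact mul_le_mul_of_nonneg_right h3 (by positivity)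
  have h3 : Real.sqrt (∑ a, ‖r a‖ ^ 2) ≤ s * ‖r‖ :=
    Real.sqrt_le_iff.2 ⟨by positivity, h2⟩
  rw [inv_mul_le_iff₀ hs0]
  exact h3

theorem zb_le_pb (s m : ℕ) (hs : 1 ≤ s) (r : Rb s m) : zb s m r ≤ s * pb s m r := by
  have hs' : (1 : ℝ) ≤ s := by exact_mod_cast hs
  have hs0 : (0 : ℝ) < s := by linarith
  rw [pb_apply, ← mul_assoc, mul_inv_cancel₀ hs0.ne', one_mul]
  show ‖r‖ ≤ _
  apply Real.le_sqrt_of_sq_le
  have h1 : (‖r‖ ^ 2) ^ 2 ≤ (∑ a, ‖r a‖ ^ 2) ^ 2 := by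
    calc (‖r‖ ^ 2) ^ 2 = ‖r‖ ^ 4 := by ring
      _ = ∑ a, ‖r a‖ ^ 4 := Rb_norm4 s m r
      _ = ∑ a, (‖r a‖ ^ 2) ^ 2 := Finset.sum_congr rfl fun a _ => by ring
      _ ≤ (∑ a, ‖r a‖ ^ 2) ^ 2 := by
          rw [sq (∑ a, ‖r a‖ ^ 2), Finset.mul_sum]
          refine Finset.sum_le_sum fun a _ => ?_
          rw [sq (‖r a‖ ^ 2)]
          exact mul_le_mul_of_nonneg_right
            (Finset.single_le_sum (f := fun a => ‖r a‖ ^ 2) (fun b _ => by positivity) (Finset.mem_univ a))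
            (by positivity)
  exact le_of_sq_le_sq h1 (Finset.sum_nonneg fun a _ => by positivity)

end

end RF
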