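import Pool.Agent.RF.D1

/-!
# [RF-D1] The base space `l_4^s(l_2^m)` and its two norms

`Rb s m = PiLp 4 (fun _ : Fin s => EuclideanSpace ℝ (Fin m))`.  `zb r = ‖r‖`, `pb r = s⁻¹ * sqrt (∑_a ∑_l (r a l)^2)`.

* `Rb_norm4`: `‖r‖^4 = ∑_a ‖r a‖^4` (`PiLp.norm_eq_of_nat` or `PiLp.norm_eq_sum`).
* `pb_le_zb`: `sqrt (∑_a t_a^2) ≤ s * (∑ t_a^4)^{1/4}` for `t_a = ‖r a‖` (each `t_a ≤ ‖r‖`, so `∑ t_a^2 ≤ s ‖r‖^2 ≤ s^2 ‖r‖^2`).
* `zb_le_pb`: `‖r‖^4 = ∑ t_a^4 ≤ (∑ t_a^2)^2`.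
* `eucl_sq`: for a family `x_i` in a Euclidean space (or any real inner product space) `∑_i ‖x_i‖^2 = av ‖rs x e‖^2`
  (coordinatewise `rad_sq`).
* `pb_CT2`: `sqrt (∑ pb(x_i)^2) = (av pb(rs x e)^2)^{1/2} ≤ sqrt 2 av pb (rs x e) ≤ 77 av ..` (`eucl_sq`, `kahane`).
* `zb_CT4`: with `t_i^a = ‖x_i a‖`: `∑_i ∑_a (t_i^a)^4 ≤ ∑_a (∑_i (t_i^a)^2)^2 = ∑_a (av ‖rs x e a‖^2)^2
   ≤ ∑_a (2 (av ‖rs x e a‖)^2)^2 = 4 ∑_a (av ‖(rs x e) a‖)^4 ≤ 4 (av ‖rs x e‖)^4 ≤ (77 av ..)^4`; the last but one step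
   is the triangle inequality in `l_4^s`: the vector `(av ‖(rs x e) a‖)_a` is the average of the vectors
   `(‖(rs x e) a‖)_a`, whose `l_4^s` norm is `‖rs x e‖` (use the norm of `PiLp 4 (fun _ : Fin s => ℝ)`).
-/

set_option linter.unusedVariables false

namespace RF

noncomputable section

theorem d1b_wal {ι : Type} [Fintype ι] [DecidableEq ι] (i : ι) (e : ι → Bool) :
    wal {i} e = sg (e i) := by
  unfold wal
  rw [Finset.prod_singleton]

theorem d1b_orth {ι : Type} [Fintype ι] [DecidableEq ι] (i j : ι) :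
    ∑ e : ι → Bool, sg (e i) * sg (e j) = if i = j then (2 : ℝ) ^ Fintype.card ι else 0 := by
  have h := wal_orth (ι := ι) {i} {j}
  simp only [d1b_wal] at h
  rw [h]
  by_cases hij : i = j
  · rw [if_pos hij, if_pos (by rw [hij])]
  · rw [if_neg hij, if_neg]
    intro h'
    exact hij (Finset.singleton_inj.1 h')

theorem eucl_sq {H : Type} [NormedAddCommGroup H] [InnerProductSpace ℝ H] {ι : Type} [Fintype ι]
    [DecidableEq ι] (x : ι → H) : av (fun e => ‖rs x e‖ ^ 2) = ∑ i, ‖x i‖ ^ 2 := by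
  have h1 : ∀ e : ι → Bool, ‖rs x e‖ ^ 2 =
      ∑ i, ∑ j, (sg (e i) * sg (e j)) * inner ℝ (x i) (x j) := by
    intro e
    rw [← real_inner_self_eq_norm_sq, rs, sum_inner]
    refine Finset.sum_congr rfl fun i _ => ?_
    rw [inner_sum]
    refine Finset.sum_congr rfl fun j _ => ?_
    rw [real_inner_smul_left, real_inner_smul_right]
    ring
  unfold av
  rw [Finset.sum_congr rfl (fun e _ => h1 e), Finset.sum_comm]
  have h2 : ∀ i : ι, ∑ e : ι → Bool, ∑ j, (sg (e i) * sg (e j)) * inner ℝ (x i) (x j) =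
      2 ^ Fintype.card ι * ‖x i‖ ^ 2 := by
    intro i
    rw [Finset.sum_comm]
    have h3 : ∀ j : ι, ∑ e : ι → Bool, (sg (e i) * sg (e j)) * inner ℝ (x i) (x j) =
        if i = j then 2 ^ Fintype.card ι * ‖x i‖ ^ 2 else 0 := by
      intro j
      rw [← Finset.sum_mul, d1b_orth]
      split_ifs with hij
      · rw [← hij, real_inner_self_eq_norm_sq]
      · rw [zero_mul]
    rw [Finset.sum_congr rfl (fun j _ => h3 j), Finset.sum_ite_eq, if_pos (Finset.mem_univ i)]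
  rw [Finset.sum_congr rfl (fun i _ => h2 i), ← Finset.mul_sum]
  field_simp

/-- the identity from `l_4^s(l_2^m)` to `l_2^s(l_2^m)` -/
def d1b_T (s m : ℕ) : Rb s m →ₗ[ℝ] PiLp 2 (fun _ : Fin s => EuclideanSpace ℝ (Fin m)) where
  toFun r := WithLp.toLp 2 (fun a : Fin s => r a)
  map_add' _ _ := rfl
  map_smul' _ _ := rfl

theorem d1b_pb (s m : ℕ) (r : Rb s m) : pb s m r = (s : ℝ)⁻¹ * ‖d1b_T s m r‖ := rfl

theorem pb_CT2 (s m : ℕ) : CT2 (pb s m) 77 := by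
  intro ι _ _ x
  have hrs : ∀ e : ι → Bool, d1b_T s m (rs x e) = rs (fun i => d1b_T s m (x i)) e := by
    intro e
    unfold rs
    rw [map_sum]
    exact Finset.sum_congr rfl fun i _ => map_smul _ _ _
  have h1 : ∑ i, pb s m (x i) ^ 2 = av (fun e => pb s m (rs x e) ^ 2) := by
    have h2 := eucl_sq (fun i => d1b_T s m (x i))
    have h3 : ∑ i, pb s m (x i) ^ 2 = ((s : ℝ)⁻¹) ^ 2 * ∑ i, ‖d1b_T s m (x i)‖ ^ 2 := by
      rw [Finset.mul_sum]
      exact Finset.sum_congr rfl fun i _ => by rw [d1b_pb, mul_pow]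
    rw [h3, ← h2]
    unfold av
    rw [← mul_div_assoc, Finset.mul_sum]
    congr 1
    refine Finset.sum_congr rfl fun e _ => ?_
    show (s : ℝ)⁻¹ ^ 2 * ‖rs (fun i => d1b_T s m (x i)) e‖ ^ 2 = pb s m (rs x e) ^ 2
    rw [d1b_pb, mul_pow, hrs]
  have h4 := kahane (pb s m) x
  have h5 : 0 ≤ av (fun e => pb s m (rs x e)) :=
    div_nonneg (Finset.sum_nonneg fun e _ => apply_nonneg _ _) (by positivity)
  rw [h1]
  refine (Real.sqrt_le_sqrt h4).trans ?_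
  rw [Real.sqrt_le_iff]
  refine ⟨by positivity, ?_⟩
  nlinarith [sq_nonneg (av (fun e => pb s m (rs x e)))]

end

end RF
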