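import Pool.Agent.RF.D1b

/-!
# [RF-D1] The base space `l_4^s(l_2^m)` and its two norms

`Rb s m = PiLp 4 (fun _ : Fin s => EuclideanSpace ℝ (Fin m))`.  `zb r = ‖r‖`, `pb r = s⁻¹ * sqrt (∑_a ∑_l (r a l)^2)`.

* `Rb_norm4`: `‖r‖^4 = ∑_a ‖r a‖^4` (`PiLp.norm_eq_of_nat` or `PiLp.norm_eq_sum`).
* `pb_le_zb`: `sqrt (∑_a t_a^2) ≤ s * (∑ t_a^4)^{1/4}` for `t_a = ‖r a‖` (each `t_a ≤ ‖r‖`, so `∑ t_a^2 ≤ s ‖r‖^2 ≤ s^2 ‖r‖^2`).
* `zb_le_pb`: `‖r‖^4 = ∑ t_a^4 ≤ (∑ t_a^2)^2`.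
* `eucl_sq`: for a family `x_i` in a Euclidean space (or any real inner product space) `∑_i ‖x_i‖^2 = av ‖rs x e‖^2`
  (coordinatewise `rad_sq`).
* `pb_CT2`: `sqrt (∑ pb(x_i)^2) = (av pb(rs x e)^2)^{1/2} ≤ sqrt 2 av pb (rs x e) ≤ 77 av ..` (`eucl_sq`, `kahane`).
* `zb_CT4`: with `t_i^a = ‖x_i a‖`: `∑_i ∑_a (t_i^a)^4 ≤ ∑_a (∑_i (t_i^a)^2)^2 = ∑_a (av ‖rs x e a‖^2)^2
   ≤ ∑_a (2 (av ‖rs x e a‖)^2)^2 = 4 ∑_a (av ‖(rs x e) a‖)^4 ≤ 4 (av ‖rs x e‖)^4 ≤ (77 av ..)^4`; the last but one step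
   is the triangle inequality in `l_4^s`: the vector `(av ‖(rs x e) a‖)_a` is the average of the vectors
   `(‖(rs x e) a‖)_a`, whose `l_4^s` norm is `‖rs x e‖` (use the norm of `PiLp 4 (fun _ : Fin s => ℝ)`).
-/

set_option linter.unusedVariables false

namespace RF

noncomputable section

private theorem d1c_norm4 {s : ℕ} (f : PiLp 4 (fun _ : Fin s => ℝ)) :
    ‖f‖ ^ 4 = ∑ a, |f a| ^ 4 := by
  have h := PiLp.norm_eq_of_nat (p := (4 : ENNReal)) (β := fun _ : Fin s => ℝ) 4 (by norm_num) f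
  rw [h]
  have h0 : 0 ≤ ∑ a, ‖f a‖ ^ 4 := Finset.sum_nonneg fun a _ => by positivity
  rw [← Real.rpow_natCast, ← Real.rpow_mul h0]
  norm_num

theorem zb_CT4 (s m : ℕ) : CT4 (zb s m) 77 := by
  intro ι _ _ x
  have hz : ∀ r : Rb s m, zb s m r = ‖r‖ := fun r => rfl
  simp only [hz]
  have hcoord : ∀ (e : ι → Bool) (a : Fin s), (rs x e) a = rs (fun i => x i a) e := by
    intro e a
    simp [rs]
  set A : ℝ := av (fun e => ‖rs x e‖) with hA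
  have hA0 : 0 ≤ A := by
    rw [hA]; unfold av
    exact div_nonneg (Finset.sum_nonneg fun e _ => norm_nonneg _) (by positivity)
  -- the scalar vectors
  let T : (ι → Bool) → PiLp 4 (fun _ : Fin s => ℝ) := fun e => WithLp.toLp 4 (fun a => ‖(rs x e) a‖)
  have hT : ∀ e, ‖T e‖ = ‖rs x e‖ := by
    intro e
    have h1 : ‖T e‖ ^ 4 = ‖rs x e‖ ^ 4 := by
      rw [d1c_norm4, Rb_norm4]
      refine Finset.sum_congr rfl fun a _ => ?_
      show |‖(rs x e) a‖| ^ 4 = ‖(rs x e) a‖ ^ 4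
      rw [abs_of_nonneg (norm_nonneg _)]
    exact (pow_left_inj₀ (norm_nonneg _) (norm_nonneg _) (by norm_num)).mp h1
  let U : PiLp 4 (fun _ : Fin s => ℝ) := (2 ^ Fintype.card ι : ℝ)⁻¹ • ∑ e, T e
  have hUa : ∀ a, U a = av (fun e => ‖(rs x e) a‖) := by
    intro a
    simp only [U, PiLp.smul_apply, smul_eq_mul, av]
    rw [div_eq_inv_mul]
    congr 1
    simp [T]
  have hUn : ‖U‖ ≤ A := by
    simp only [U]
    rw [norm_smul, hA]
    unfold av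
    rw [div_eq_inv_mul, norm_inv, Real.norm_of_nonneg (by positivity : (0:ℝ) ≤ 2 ^ Fintype.card ι)]
    refine mul_le_mul_of_nonneg_left ?_ (by positivity)
    refine (norm_sum_le _ _).trans (le_of_eq ?_)
    exact Finset.sum_congr rfl fun e _ => hT e
  have hU4 : ∑ a, (av (fun e => ‖(rs x e) a‖)) ^ 4 ≤ A ^ 4 := by
    have h1 : ‖U‖ ^ 4 ≤ A ^ 4 := by gcongr
    rw [d1c_norm4] at h1
    refine le_trans (le_of_eq ?_) h1
    refine Finset.sum_congr rfl fun a _ => ?_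
    rw [hUa a, abs_of_nonneg]
    unfold av
    exact div_nonneg (Finset.sum_nonneg fun e _ => norm_nonneg _) (by positivity)
  have h3 : ∀ a, ∑ i, ‖x i a‖ ^ 2 ≤ 2 * (av (fun e => ‖(rs x e) a‖)) ^ 2 := by
    intro a
    rw [← eucl_sq (fun i => x i a)]
    have := kahane (normSeminorm ℝ (EuclideanSpace ℝ (Fin m))) (fun i => x i a)
    simp only [coe_normSeminorm] at this
    refine this.trans (le_of_eq ?_)
    congr 3
    funext e
    rw [hcoord]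
  calc ∑ i, ‖x i‖ ^ 4 = ∑ i, ∑ a, ‖x i a‖ ^ 4 := Finset.sum_congr rfl fun i _ => Rb_norm4 s m (x i)
    _ = ∑ a, ∑ i, ‖x i a‖ ^ 4 := Finset.sum_comm
    _ ≤ ∑ a, (∑ i, ‖x i a‖ ^ 2) ^ 2 := by
        refine Finset.sum_le_sum fun a _ => ?_
        have := Finset.sum_sq_le_sq_sum_of_nonneg (s := (Finset.univ : Finset ι)) (f := fun i => ‖x i a‖ ^ 2)
          (fun i _ => by positivity)
        refine le_trans (le_of_eq ?_) this
        refine Finset.sum_congr rfl fun i _ => ?_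
        ring
    _ ≤ ∑ a, (2 * (av (fun e => ‖(rs x e) a‖)) ^ 2) ^ 2 := by
        refine Finset.sum_le_sum fun a _ => ?_
        have h0 : 0 ≤ ∑ i, ‖x i a‖ ^ 2 := Finset.sum_nonneg fun i _ => by positivity
        exact pow_le_pow_left₀ h0 (h3 a) 2
    _ = 4 * ∑ a, (av (fun e => ‖(rs x e) a‖)) ^ 4 := by
        rw [Finset.mul_sum]
        refine Finset.sum_congr rfl fun a _ => ?_
        ring
    _ ≤ 4 * A ^ 4 := by gcongr
    _ ≤ (77 * A) ^ 4 := by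
        rw [mul_pow]
        have : 0 ≤ A ^ 4 := by positivity
        nlinarith

end

end RF
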