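import Pool.Agent.RF.C3c

/-!
# [RF-D2] One step of the tower, in coordinates

`Vec = ℕ →₀ ℝ`.  A state is `(N, p, z)` with seminorms that only see the coordinates `< N`
(`p (tr N v) = p v`).  The step with `x : Fin k → Vec` (supported in `< N`, `W2 z x 1`) adds `2^k` coordinates
`N, ..., N + 2^k - 1` (`bl`, `bi`, numbering `cd k` of the cube) and takes the pushout seminorms.

* `bl_bi`, `tr_bi`, `tr_of_sup`, `bl_of_sup`: coordinates.
* `stepP_good`: `p' v = po p (uL x) (tr N v, bl N k v)`.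
   - `p' (tr N' v) = p' v`: `tr N (tr N' v) = tr N v`, `bl N k (tr N' v) = bl N k v`.
   - `p' ≤ z'` (`po_mono`), `z' ≤ s p'` (`po_le_mul`);
   - cotype: `po_CT2`, `po_CT4` (`CT2.comp`, `CT4.comp`: cotype passes to `N.comp f`, `f (rs x e) = rs (f ∘ x) e`);
     the hypothesis `hu` for `z` is `W2 z x 1` (`1 * sqrt = sqrt`), for `p` it follows from `p ≤ z`.
* `stepP_ext`: for `v` supported in `< N`: `tr N v = v`, `bl N k v = 0`, so `p' v = p v` (`po_inl`).
* `stepP_R`: `Φ e = bi N k (the function of poPhi)`; `(tr N (Φ e), bl N k (Φ e)) = poPhi Vec (Fin k) e`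
  (`tr N (bi ..) = 0`), so `z' (Φ e) ≤ 80` (`po_Phi`), and `(tr N, bl N k)` of
  `x i - 2^{-k} • ∑_e sg(e i) • Φ e` is `(x i, 0) - 2^{-k} • ∑ sg(e i) • poPhi e`: `po_rel` (`uL x (Pi.single i 1) = x i`).
-/

set_option linter.unusedVariables false

namespace RF

noncomputable section

abbrev Vec : Type := ℕ →₀ ℝ

/-- `v` is supported in the coordinates `< N`. -/
def Sup (N : ℕ) (v : Vec) : Prop := ∀ i, N ≤ i → v i = 0

/-- Restriction to the coordinates `< N`. -/
def tr (N : ℕ) : Vec →ₗ[ℝ] Vec where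
  toFun v := v.filter (fun i => i < N)
  map_add' _ _ := Finsupp.filter_add
  map_smul' _ _ := Finsupp.filter_smul

theorem tr_apply (N : ℕ) (v : Vec) (i : ℕ) : tr N v i = if i < N then v i else 0 := by
  show (v.filter (fun i => i < N)) i = _
  rw [Finsupp.filter_apply]

/-- A numbering of the cube. -/
def cd (k : ℕ) : (Fin k → Bool) ≃ Fin (2 ^ k) := Fintype.equivFinOfCardEq (by simp)

/-- The block of coordinates `N, ..., N + 2^k - 1` as a function on the cube. -/
def bl (N k : ℕ) : Vec →ₗ[ℝ] Cu (Fin k) where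
  toFun v := fun e => v (N + (cd k e : ℕ))
  map_add' _ _ := rfl
  map_smul' _ _ := rfl

/-- A function on the cube as a vector supported in the block. -/
def bi (N k : ℕ) : Cu (Fin k) →ₗ[ℝ] Vec where
  toFun b := ∑ e, Finsupp.single (N + (cd k e : ℕ)) (b e)
  map_add' b c := by simp [Finset.sum_add_distrib]
  map_smul' r b := by simp [Finset.smul_sum]

/-- The linear map with `e_i ↦ x i`. -/
def uL {k : ℕ} (x : Fin k → Vec) : (Fin k → ℝ) →ₗ[ℝ] Vec where
  toFun a := ∑ i, a i • x i
  map_add' a b := by simp [add_smul, Finset.sum_add_distrib]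
  map_smul' c a := by simp [mul_smul, Finset.smul_sum]

theorem uL_apply {k : ℕ} (x : Fin k → Vec) (a : Fin k → ℝ) : uL x a = ∑ i, a i • x i := rfl

theorem d2_bi_apply (N k : ℕ) (b : Cu (Fin k)) (i : ℕ) :
    bi N k b i = ∑ e, if N + (cd k e : ℕ) = i then b e else 0 := by
  show (∑ e, Finsupp.single (N + (cd k e : ℕ)) (b e)) i = _
  rw [Finsupp.finsetSum_apply]
  exact Finset.sum_congr rfl fun e _ => Finsupp.single_apply

theorem bl_bi (N k : ℕ) (b : Cu (Fin k)) : bl N k (bi N k b) = b := by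
  funext e
  show bi N k b (N + (cd k e : ℕ)) = b e
  rw [d2_bi_apply, Finset.sum_eq_single e]
  · rw [if_pos rfl]
  · intro e' _ hne
    rw [if_neg]
    intro h
    apply hne
    apply (cd k).injective
    apply Fin.ext
    omega
  · intro h
    exact absurd (Finset.mem_univ e) h

theorem tr_bi (N k : ℕ) (b : Cu (Fin k)) : tr N (bi N k b) = 0 := by
  ext i
  rw [tr_apply]
  split_ifs with h
  · rw [d2_bi_apply]
    refine Finset.sum_eq_zero fun e _ => ?_
    rw [if_neg (by omega)]
  · rfl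

theorem sup_bi (N k : ℕ) (b : Cu (Fin k)) : Sup (N + 2 ^ k) (bi N k b) := by
  intro i hi
  rw [d2_bi_apply]
  refine Finset.sum_eq_zero fun e _ => ?_
  have h1 := (cd k e).isLt
  rw [if_neg (by omega)]

theorem tr_of_sup {N : ℕ} {v : Vec} (h : Sup N v) : tr N v = v := by
  ext i
  rw [tr_apply]
  split_ifs with h1
  · rfl
  · exact (h i (by omega)).symm

theorem bl_of_sup {N : ℕ} (k : ℕ) {v : Vec} (h : Sup N v) : bl N k v = 0 := by
  funext e
  exact h _ (Nat.le_add_right _ _)

end

end RF
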