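import Pool.Agent.RF.D2

/-!
# [RF-D2] One step of the tower, in coordinates

`Vec = ℕ →₀ ℝ`.  A state is `(N, p, z)` with seminorms that only see the coordinates `< N`
(`p (tr N v) = p v`).  The step with `x : Fin k → Vec` (supported in `< N`, `W2 z x 1`) adds `2^k` coordinates
`N, ..., N + 2^k - 1` (`bl`, `bi`, numbering `cd k` of the cube) and takes the pushout seminorms.

* `bl_bi`, `tr_bi`, `tr_of_sup`, `bl_of_sup`: coordinates.
* `stepP_good`: `p' v = po p (uL x) (tr N v, bl N k v)`.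
   - `p' (tr N' v) = p' v`: `tr N (tr N' v) = tr N v`, `bl N k (tr N' v) = bl N k v`.
   - `p' ≤ z'` (`po_mono`), `z' ≤ s p'` (`po_le_mul`);
   - cotype: `po_CT2`, `po_CT4` (`CT2.comp`, `CT4.comp`: cotype passes to `N.comp f`, `f (rs x e) = rs (f ∘ x) e`);
     the hypothesis `hu` for `z` is `W2 z x 1` (`1 * sqrt = sqrt`), for `p` it follows from `p ≤ z`.
* `stepP_ext`: for `v` supported in `< N`: `tr N v = v`, `bl N k v = 0`, so `p' v = p v` (`po_inl`).
* `stepP_R`: `Φ e = bi N k (the function of poPhi)`; `(tr N (Φ e), bl N k (Φ e)) = poPhi Vec (Fin k) e`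
  (`tr N (bi ..) = 0`), so `z' (Φ e) ≤ 80` (`po_Phi`), and `(tr N, bl N k)` of
  `x i - 2^{-k} • ∑_e sg(e i) • Φ e` is `(x i, 0) - 2^{-k} • ∑ sg(e i) • poPhi e`: `po_rel` (`uL x (Pi.single i 1) = x i`).
-/

set_option linter.unusedVariables false

namespace RF

noncomputable section

private theorem d2b_rs {V W : Type} [AddCommGroup V] [Module ℝ V] [AddCommGroup W] [Module ℝ W]
    (f : V →ₗ[ℝ] W) {ι : Type} [Fintype ι] (x : ι → V) (e : ι → Bool) :
    f (rs x e) = rs (fun i => f (x i)) e := by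
  simp [rs, map_sum]

theorem CT2.comp {V W : Type} [AddCommGroup V] [Module ℝ V] [AddCommGroup W] [Module ℝ W]
    {N : SN W} {K : ℝ} (h : CT2 N K) (f : V →ₗ[ℝ] W) : CT2 (N.comp f) K := by
  intro ι _ _ x
  have := h ι (fun i => f (x i))
  simp only [Seminorm.comp_apply, d2b_rs]
  exact this

theorem CT4.comp {V W : Type} [AddCommGroup V] [Module ℝ V] [AddCommGroup W] [Module ℝ W]
    {N : SN W} {K : ℝ} (h : CT4 N K) (f : V →ₗ[ℝ] W) : CT4 (N.comp f) K := by
  intro ι _ _ x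
  have := h ι (fun i => f (x i))
  simp only [Seminorm.comp_apply, d2b_rs]
  exact this

/-- A state of the construction. -/
structure St where
  N : ℕ
  p : SN Vec
  z : SN Vec

/-- The invariants. -/
structure Good (s : ℝ) (S : St) : Prop where
  trp : ∀ v, S.p (tr S.N v) = S.p v
  trz : ∀ v, S.z (tr S.N v) = S.z v
  pz : ∀ v, S.p v ≤ S.z v
  zp : ∀ v, S.z v ≤ s * S.p v
  c2 : CT2 S.p 77
  c4 : CT4 S.z 77

/-- The pushout step. -/
def stepP (S : St) {k : ℕ} (x : Fin k → Vec) : St where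
  N := S.N + 2 ^ k
  p := (po S.p (uL x)).comp ((tr S.N).prod (bl S.N k))
  z := (po S.z (uL x)).comp ((tr S.N).prod (bl S.N k))

theorem stepP_good {s : ℝ} (hs : 1 ≤ s) {S : St} (hS : Good s S) {k : ℕ} {x : Fin k → Vec}
    (hx : ∀ i, Sup S.N (x i)) (hW : W2 S.z x 1) : Good s (stepP S x) := by
  have huz : ∀ a, S.z (uL x a) ≤ Real.sqrt (∑ i, (a i) ^ 2) := by
    intro a
    have := hW a
    rw [one_mul] at this
    rw [uL_apply]
    exact this
  have hup : ∀ a, S.p (uL x a) ≤ Real.sqrt (∑ i, (a i) ^ 2) := fun a => (hS.pz _).trans (huz a)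
  have htr : ∀ v, tr S.N (tr (S.N + 2 ^ k) v) = tr S.N v := by
    intro v
    ext i
    rw [tr_apply, tr_apply, tr_apply]
    by_cases h : i < S.N
    · rw [if_pos h, if_pos h, if_pos (lt_of_lt_of_le h (Nat.le_add_right _ _))]
    · rw [if_neg h, if_neg h]
  have hbl : ∀ v, bl S.N k (tr (S.N + 2 ^ k) v) = bl S.N k v := by
    intro v
    funext e
    show (tr (S.N + 2 ^ k) v) (S.N + (cd k e : ℕ)) = v (S.N + (cd k e : ℕ))
    rw [tr_apply, if_pos]
    have := (cd k e).2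
    omega
  refine ⟨?_, ?_, ?_, ?_, ?_, ?_⟩
  · intro v
    show (po S.p (uL x)) ((tr S.N (tr (S.N + 2 ^ k) v), bl S.N k (tr (S.N + 2 ^ k) v))) =
      (po S.p (uL x)) (tr S.N v, bl S.N k v)
    rw [htr, hbl]
  · intro v
    show (po S.z (uL x)) ((tr S.N (tr (S.N + 2 ^ k) v), bl S.N k (tr (S.N + 2 ^ k) v))) =
      (po S.z (uL x)) (tr S.N v, bl S.N k v)
    rw [htr, hbl]
  · intro v
    exact po_mono S.p S.z (uL x) hS.pz _
  · intro v
    exact po_le_mul S.p S.z (uL x) hs hS.zp _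
  · exact (po_CT2 S.p (uL x) hup hS.c2).comp _
  · exact (po_CT4 S.z (uL x) huz hS.c4).comp _

end

end RF
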