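import Pool.Agent.RF.D2b

/-!
# [RF-D2] One step of the tower, in coordinates

`Vec = ℕ →₀ ℝ`.  A state is `(N, p, z)` with seminorms that only see the coordinates `< N`
(`p (tr N v) = p v`).  The step with `x : Fin k → Vec` (supported in `< N`, `W2 z x 1`) adds `2^k` coordinates
`N, ..., N + 2^k - 1` (`bl`, `bi`, numbering `cd k` of the cube) and takes the pushout seminorms.

* `bl_bi`, `tr_bi`, `tr_of_sup`, `bl_of_sup`: coordinates.
* `stepP_good`: `p' v = po p (uL x) (tr N v, bl N k v)`.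
   - `p' (tr N' v) = p' v`: `tr N (tr N' v) = tr N v`, `bl N k (tr N' v) = bl N k v`.
   - `p' ≤ z'` (`po_mono`), `z' ≤ s p'` (`po_le_mul`);
   - cotype: `po_CT2`, `po_CT4` (`CT2.comp`, `CT4.comp`: cotype passes to `N.comp f`, `f (rs x e) = rs (f ∘ x) e`);
     the hypothesis `hu` for `z` is `W2 z x 1` (`1 * sqrt = sqrt`), for `p` it follows from `p ≤ z`.
* `stepP_ext`: for `v` supported in `< N`: `tr N v = v`, `bl N k v = 0`, so `p' v = p v` (`po_inl`).
* `stepP_R`: `Φ e = bi N k (the function of poPhi)`; `(tr N (Φ e), bl N k (Φ e)) = poPhi Vec (Fin k) e`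
  (`tr N (bi ..) = 0`), so `z' (Φ e) ≤ 80` (`po_Phi`), and `(tr N, bl N k)` of
  `x i - 2^{-k} • ∑_e sg(e i) • Φ e` is `(x i, 0) - 2^{-k} • ∑ sg(e i) • poPhi e`: `po_rel` (`uL x (Pi.single i 1) = x i`).
-/

set_option linter.unusedVariables false

namespace RF

noncomputable section

theorem stepP_ext {s : ℝ} {S : St} (hS : Good s S) {k : ℕ} {x : Fin k → Vec}
    (hx : ∀ i, Sup S.N (x i)) (hW : W2 S.z x 1) {v : Vec} (hv : Sup S.N v) :
    (stepP S x).p v = S.p v ∧ (stepP S x).z v = S.z v := by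
  have hz : ∀ a : Fin k → ℝ, S.z (uL x a) ≤ Real.sqrt (∑ i, (a i) ^ 2) := by
    intro a
    have h1 := hW a
    rw [one_mul] at h1
    rw [uL_apply]
    exact h1
  have hp : ∀ a : Fin k → ℝ, S.p (uL x a) ≤ Real.sqrt (∑ i, (a i) ^ 2) :=
    fun a => (hS.pz _).trans (hz a)
  have h1 : (tr S.N v, bl S.N k v) = (v, (0 : Cu (Fin k))) := by
    rw [tr_of_sup hv, bl_of_sup k hv]
  constructor
  · show po S.p (uL x) (tr S.N v, bl S.N k v) = S.p v
    rw [h1]
    exact po_inl S.p (uL x) hp v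
  · show po S.z (uL x) (tr S.N v, bl S.N k v) = S.z v
    rw [h1]
    exact po_inl S.z (uL x) hz v

theorem stepP_R {S : St} {k : ℕ} {x : Fin k → Vec}
    (hx : ∀ i, Sup S.N (x i)) (hW : W2 S.z x 1) :
    ∃ Φ : (Fin k → Bool) → Vec, (∀ e, Sup (stepP S x).N (Φ e)) ∧ (∀ e, (stepP S x).z (Φ e) ≤ 80) ∧
      ∀ i, (stepP S x).z (x i - (2 ^ Fintype.card (Fin k) : ℝ)⁻¹ • ∑ e, sg (e i) • Φ e) = 0 := by
  have hF : ∀ e : Fin k → Bool, ((tr S.N).prod (bl S.N k)) (bi S.N k (poPhi Vec (Fin k) e).2) =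
      poPhi Vec (Fin k) e := by
    intro e
    show (tr S.N (bi S.N k (poPhi Vec (Fin k) e).2), bl S.N k (bi S.N k (poPhi Vec (Fin k) e).2)) = _
    rw [tr_bi, bl_bi]
    rfl
  refine ⟨fun e => bi S.N k (poPhi Vec (Fin k) e).2, fun e => sup_bi _ _ _, fun e => ?_,
    fun i => ?_⟩
  · show po S.z (uL x) (((tr S.N).prod (bl S.N k)) (bi S.N k (poPhi Vec (Fin k) e).2)) ≤ 80
    rw [hF]
    exact po_Phi S.z (uL x) e
  · show po S.z (uL x) (((tr S.N).prod (bl S.N k)) (x i - (2 ^ Fintype.card (Fin k) : ℝ)⁻¹ •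
      ∑ e, sg (e i) • bi S.N k (poPhi Vec (Fin k) e).2)) = 0
    have h1 : ((tr S.N).prod (bl S.N k)) (x i) = (x i, (0 : Cu (Fin k))) := by
      show (tr S.N (x i), bl S.N k (x i)) = _
      rw [tr_of_sup (hx i), bl_of_sup k (hx i)]
    have h2 : uL x (Pi.single i 1) = x i := by
      rw [uL_apply, Finset.sum_eq_single i]
      · rw [Pi.single_eq_same, one_smul]
      · intro j _ hj
        rw [Pi.single_eq_of_ne hj, zero_smul]
      · intro h
        exact absurd (Finset.mem_univ i) h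
    rw [map_sub, map_smul, map_sum, h1]
    simp only [map_smul, hF]
    have h3 := po_rel S.z (uL x) i
    rw [h2] at h3
    exact h3

end

end RF
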