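import Pool.Agent.RF.D2c

/-!
# [RF-D3] The tower and its union

`tow S0 U : ℕ → St`: `tow 0 = S0`, `tow (i+1) = stepU (tow i) (U i)` where `U : ℕ → Σ k, (Fin k → Vec)` and the step is
the pushout if it is allowed (`x` supported in `< N` and `W2 z x 1`) and otherwise only increases `N` by one.

* `tow_good`, `tow_N : i ≤ (tow i).N`, `(tow i).N < (tow (i+1)).N`.
* `tow_stable`: if `Sup (tow i).N v` and `i ≤ i'` then `(tow i').p v = (tow i).p v`, same for `z` (induction; `stepP_ext`;
  the trivial step does not change the seminorms).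
* the limit seminorms `lp`, `lz` on `Vec`: `lp v = (tow i).p v` for every `i` with `Sup i v` (every `v` has such an `i`, and
  `Sup i v → Sup (tow i).N v`).  Define with `bd v = v.support.sup id + 1` and `Seminorm.of` (for the triangle
  inequality choose `i` larger than the bounds of `x`, `y`, `x + y`).
* `lim_good`: `lp ≤ lz ≤ s lp`, `CT2 lp 77`, `CT4 lz 77` (a finite family and its Rademacher sums are supported in `< i` for
  some `i`), and for every `i` with the step at `i` allowed there is `Φ` as in `stepP_R` with `lz` in place of the seminorm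
  of the stage (all vectors involved are supported in `< (tow (i+1)).N`).
-/

set_option linter.unusedVariables false

namespace RF

noncomputable section

open Classical in
/-- The step with data `t`: pushout if allowed, otherwise one more (null) coordinate. -/
def stepU (S : St) (t : Σ k : ℕ, (Fin k → Vec)) : St :=
  if (∀ i, Sup S.N (t.2 i)) ∧ W2 S.z t.2 1 then stepP S t.2 else ⟨S.N + 1, S.p, S.z⟩

/-- The tower. -/
def tow (S0 : St) (U : ℕ → Σ k : ℕ, (Fin k → Vec)) : ℕ → St
  | 0 => S0
  | i + 1 => stepU (tow S0 U i) (U i)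

theorem d3_tr_tr {N M : ℕ} (h : N ≤ M) (v : Vec) : tr N (tr M v) = tr N v := by
  ext i
  rw [tr_apply, tr_apply, tr_apply]
  split_ifs with h1 h2
  · rfl
  · omega
  · rfl

theorem d3_stepU_N (S : St) (t : Σ k : ℕ, (Fin k → Vec)) : S.N + 1 ≤ (stepU S t).N := by
  unfold stepU
  split_ifs with h
  · show S.N + 1 ≤ S.N + 2 ^ t.1
    have : 0 < 2 ^ t.1 := by positivity
    omega
  · exact le_refl _

theorem d3_stepU_good {s : ℝ} (hs : 1 ≤ s) {S : St} (h : Good s S) (t : Σ k : ℕ, (Fin k → Vec)) :
    Good s (stepU S t) := by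
  unfold stepU
  split_ifs with h1
  · exact stepP_good hs h h1.1 h1.2
  · exact
      { trp := fun v => by
          show S.p (tr (S.N + 1) v) = S.p v
          rw [← h.trp, d3_tr_tr (Nat.le_succ _), h.trp]
        trz := fun v => by
          show S.z (tr (S.N + 1) v) = S.z v
          rw [← h.trz, d3_tr_tr (Nat.le_succ _), h.trz]
        pz := h.pz
        zp := h.zp
        c2 := h.c2
        c4 := h.c4 }

theorem d3_stepU_ext {s : ℝ} {S : St} (h : Good s S) (t : Σ k : ℕ, (Fin k → Vec)) {v : Vec}
    (hv : Sup S.N v) : (stepU S t).p v = S.p v ∧ (stepU S t).z v = S.z v := by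
  unfold stepU
  split_ifs with h1
  · exact stepP_ext h h1.1 h1.2 hv
  · exact ⟨rfl, rfl⟩

theorem tow_good {s : ℝ} (hs : 1 ≤ s) {S0 : St} (h0 : Good s S0)
    (U : ℕ → Σ k : ℕ, (Fin k → Vec)) (i : ℕ) : Good s (tow S0 U i) := by
  induction i with
  | zero => exact h0
  | succ i ih => exact d3_stepU_good hs ih (U i)

theorem tow_N (S0 : St) (U : ℕ → Σ k : ℕ, (Fin k → Vec)) (i : ℕ) :
    S0.N + i ≤ (tow S0 U i).N := by
  induction i with
  | zero => exact le_refl _
  | succ i ih =>
    have h := d3_stepU_N (tow S0 U i) (U i)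
    show S0.N + (i + 1) ≤ (stepU (tow S0 U i) (U i)).N
    omega

theorem tow_stable {s : ℝ} (hs : 1 ≤ s) {S0 : St} (h0 : Good s S0)
    (U : ℕ → Σ k : ℕ, (Fin k → Vec)) {i i' : ℕ} (hi : i ≤ i') {v : Vec}
    (hv : Sup (tow S0 U i).N v) :
    (tow S0 U i').p v = (tow S0 U i).p v ∧ (tow S0 U i').z v = (tow S0 U i).z v := by
  have key : (tow S0 U i).N ≤ (tow S0 U i').N ∧ (tow S0 U i').p v = (tow S0 U i).p v ∧
      (tow S0 U i').z v = (tow S0 U i).z v := by
    induction i', hi using Nat.le_induction with
    | base => exact ⟨le_rfl, rfl, rfl⟩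
    | succ m hm ih =>
      obtain ⟨h1, h2, h3⟩ := ih
      have h4 := d3_stepU_N (tow S0 U m) (U m)
      have h5 := d3_stepU_ext (tow_good hs h0 U m) (U m) (v := v)
        (fun j hj => hv j (le_trans h1 hj))
      refine ⟨?_, ?_, ?_⟩
      · show (tow S0 U i).N ≤ (stepU (tow S0 U m) (U m)).N
        omega
      · exact h5.1.trans h2
      · exact h5.2.trans h3
  exact key.2

end

end RF
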