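import Pool.Agent.RF.D3

/-!
# [RF-D3] The tower and its union

`tow S0 U : ℕ → St`: `tow 0 = S0`, `tow (i+1) = stepU (tow i) (U i)` where `U : ℕ → Σ k, (Fin k → Vec)` and the step is
the pushout if it is allowed (`x` supported in `< N` and `W2 z x 1`) and otherwise only increases `N` by one.

* `tow_good`, `tow_N : i ≤ (tow i).N`, `(tow i).N < (tow (i+1)).N`.
* `tow_stable`: if `Sup (tow i).N v` and `i ≤ i'` then `(tow i').p v = (tow i).p v`, same for `z` (induction; `stepP_ext`;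
  the trivial step does not change the seminorms).
* the limit seminorms `lp`, `lz` on `Vec`: `lp v = (tow i).p v` for every `i` with `Sup i v` (every `v` has such an `i`, and
  `Sup i v → Sup (tow i).N v`).  Define with `bd v = v.support.sup id + 1` and `Seminorm.of` (for the triangle
  inequality choose `i` larger than the bounds of `x`, `y`, `x + y`).
* `lim_good`: `lp ≤ lz ≤ s lp`, `CT2 lp 77`, `CT4 lz 77` (a finite family and its Rademacher sums are supported in `< i` for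
  some `i`), and for every `i` with the step at `i` allowed there is `Φ` as in `stepP_R` with `lz` in place of the seminorm
  of the stage (all vectors involved are supported in `< (tow (i+1)).N`).
-/

set_option linter.unusedVariables false

namespace RF

noncomputable section

theorem d3b_Sup_mono {N N' : ℕ} (h : N ≤ N') {v : Vec} (hv : Sup N v) : Sup N' v :=
  fun i hi => hv i (h.trans hi)

theorem d3b_Sup_bd (v : Vec) : ∃ b, Sup b v := by
  refine ⟨v.support.sup id + 1, fun i hi => ?_⟩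
  by_contra h
  have h1 : i ∈ v.support := Finsupp.mem_support_iff.2 h
  have h2 := Finset.le_sup (f := id) h1
  have h3 : i ≤ v.support.sup id := h2
  omega

theorem d3b_Sup_add {N : ℕ} {v w : Vec} (hv : Sup N v) (hw : Sup N w) : Sup N (v + w) := by
  intro i hi
  rw [Finsupp.add_apply, hv i hi, hw i hi, add_zero]

theorem d3b_Sup_smul {N : ℕ} (c : ℝ) {v : Vec} (hv : Sup N v) : Sup N (c • v) := by
  intro i hi
  rw [Finsupp.smul_apply, hv i hi, smul_zero]

theorem d3b_Sup_sum {N : ℕ} {ι : Type} (s : Finset ι) (f : ι → Vec) (h : ∀ i ∈ s, Sup N (f i)) :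
    Sup N (∑ i ∈ s, f i) := by
  intro i hi
  rw [Finsupp.finsetSum_apply]
  exact Finset.sum_eq_zero (fun j hj => h j hj i hi)

theorem d3b_Sup_fam {ι : Type} [Fintype ι] (x : ι → Vec) : ∃ b, ∀ j, Sup b (x j) := by
  choose b hb using fun j => d3b_Sup_bd (x j)
  exact ⟨Finset.univ.sup b, fun j => d3b_Sup_mono (Finset.le_sup (Finset.mem_univ j)) (hb j)⟩

theorem d3b_Sup_rs {N : ℕ} {ι : Type} [Fintype ι] {x : ι → Vec} (h : ∀ j, Sup N (x j)) (e : ι → Bool) :
    Sup N (rs x e) := d3b_Sup_sum _ _ (fun i _ => d3b_Sup_smul _ (h i))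

theorem d3b_lim (q : ℕ → SN Vec) (N : ℕ → ℕ) (hN : ∀ i, i ≤ N i)
    (hst : ∀ (i i' : ℕ) (v : Vec), i ≤ i' → Sup (N i) v → q i' v = q i v) :
    ∃ p : SN Vec, ∀ (i : ℕ) (v : Vec), Sup (N i) v → p v = q i v := by
  choose b hb using d3b_Sup_bd
  have hb' : ∀ v, Sup (N (b v)) v := fun v => d3b_Sup_mono (hN _) (hb v)
  have key : ∀ (i : ℕ) (v : Vec), Sup (N i) v → q (b v) v = q i v := by
    intro i v hv
    rw [← hst (b v) (max i (b v)) v (le_max_right _ _) (hb' v), hst i (max i (b v)) v (le_max_left _ _) hv]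
  refine ⟨Seminorm.of (fun v => q (b v) v) ?_ ?_, key⟩
  · intro x y
    have hx : Sup (N (max (b x) (b y))) x := d3b_Sup_mono ((le_max_left _ _).trans (hN _)) (hb x)
    have hy : Sup (N (max (b x) (b y))) y := d3b_Sup_mono ((le_max_right _ _).trans (hN _)) (hb y)
    show q (b (x + y)) (x + y) ≤ q (b x) x + q (b y) y
    rw [key _ _ hx, key _ _ hy, key _ _ (d3b_Sup_add hx hy)]
    exact map_add_le_add _ _ _
  · intro a x
    show q (b (a • x)) (a • x) = ‖a‖ * q (b x) x
    rw [key _ _ (d3b_Sup_smul a (hb' x)), map_smul_eq_mul]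

/-- The union of the tower. -/
theorem tow_union {s : ℝ} (hs : 1 ≤ s) {S0 : St} (h0 : Good s S0)
    (U : ℕ → Σ k : ℕ, (Fin k → Vec)) :
    ∃ p z : SN Vec,
      (∀ (i : ℕ) (v : Vec), Sup (tow S0 U i).N v →
        p v = (tow S0 U i).p v ∧ z v = (tow S0 U i).z v) ∧
      (∀ v, p v ≤ z v) ∧ (∀ v, z v ≤ s * p v) ∧ CT2 p 77 ∧ CT4 z 77 := by
  have hN : ∀ i, i ≤ (tow S0 U i).N := fun i => (Nat.le_add_left i S0.N).trans (tow_N S0 U i)
  obtain ⟨p, hp⟩ := d3b_lim (fun i => (tow S0 U i).p) (fun i => (tow S0 U i).N) hN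
    (fun i i' v hi hv => (tow_stable hs h0 U hi hv).1)
  obtain ⟨z, hz⟩ := d3b_lim (fun i => (tow S0 U i).z) (fun i => (tow S0 U i).N) hN
    (fun i i' v hi hv => (tow_stable hs h0 U hi hv).2)
  have hex : ∀ v : Vec, ∃ i, Sup (tow S0 U i).N v := by
    intro v
    obtain ⟨b, hb⟩ := d3b_Sup_bd v
    exact ⟨b, d3b_Sup_mono (hN b) hb⟩
  refine ⟨p, z, fun i v hv => ⟨hp i v hv, hz i v hv⟩, ?_, ?_, ?_, ?_⟩
  · intro v
    obtain ⟨i, hi⟩ := hex v
    rw [hp i v hi, hz i v hi]
    exact (tow_good hs h0 U i).pz v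
  · intro v
    obtain ⟨i, hi⟩ := hex v
    rw [hp i v hi, hz i v hi]
    exact (tow_good hs h0 U i).zp v
  · intro ι _ _ x
    obtain ⟨b, hb⟩ := d3b_Sup_fam x
    have hx : ∀ j, Sup (tow S0 U b).N (x j) := fun j => d3b_Sup_mono (hN b) (hb j)
    have e1 : ∀ j, p (x j) = (tow S0 U b).p (x j) := fun j => hp b _ (hx j)
    have e2 : ∀ e, p (rs x e) = (tow S0 U b).p (rs x e) := fun e => hp b _ (d3b_Sup_rs hx e)
    simp only [e1, e2]
    exact (tow_good hs h0 U b).c2 ι x
  · intro ι _ _ x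
    obtain ⟨b, hb⟩ := d3b_Sup_fam x
    have hx : ∀ j, Sup (tow S0 U b).N (x j) := fun j => d3b_Sup_mono (hN b) (hb j)
    have e1 : ∀ j, z (x j) = (tow S0 U b).z (x j) := fun j => hz b _ (hx j)
    have e2 : ∀ e, z (rs x e) = (tow S0 U b).z (rs x e) := fun e => hz b _ (d3b_Sup_rs hx e)
    simp only [e1, e2]
    exact (tow_good hs h0 U b).c4 ι x

end

end RF
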