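import Pool.Agent.RF.D3b

/-!
# [RF-D4] Bookkeeping and the property (R) for the union

`rat k x`, `x : Fin k → (ℕ →₀ ℚ)`: the real vectors (`Finsupp.mapRange` of the cast).

* `exists_enum`: there is `U : ℕ → Σ k, (Fin k → Vec)` such that for all `k`, all rational `x : Fin k → (ℕ →₀ ℚ)` and all
  `M` there is `i ≥ M` with `U i = ⟨k, castv ∘ x⟩`.  (`Σ k, (Fin k → (ℕ →₀ ℚ))` is countable and nonempty: take a
  surjection `g` from `ℕ` (`exists_surjective_nat`) and `U i = g (Nat.unpair i).1`; for given `n`, `i = Nat.pair n b` with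
  `b ≥ M` satisfies `i ≥ M`, `Nat.right_le_pair`.)
* `rat_approx`: for `x : Fin k → Vec`, `τ > 0`, `z` a seminorm on `Vec` there is a rational `x'` with
  `z (x j - castv (x' j)) ≤ τ` for all `j`.  (`z v ≤ ∑_{i ∈ supp} |v i| z(e_i)`, approximate each coordinate on the
  support.)
* `R_of_rat`: if `z` is a seminorm on `Vec` such that every rational `x : Fin k → (ℕ →₀ ℚ)` with `W2 z (castv ∘ x) 1` has
  a `Φ` with bound `80`, then `RProp z 81`.
  Proof.  Let `x : ι → Vec`, `W2 z x 1`.  Reindex: `ι ≃ Fin k`, `k = card ι` (the statement for `ι` follows from the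
  statement for `Fin k` by composing `Φ` with the induced equivalence of the cubes).  `k = 0`: trivial (`Φ = 0`).
  Let `k ≥ 1`, `θ = 1/(4k)`, and let `x'` be rational with `z ((1-θ) x j - castv (x' j)) ≤ θ/(2k)`.  Then
  `z (∑ a_j • castv (x' j)) ≤ (1-θ) |a|_2 + (θ/(2k)) ∑ |a_j| ≤ (1 - θ + θ) |a|_2` (`∑|a_j| ≤ k |a|_2`), so `W2 z (castv ∘ x') 1`.
  `z (x j - castv (x' j)) ≤ θ z (x j) + θ/(2k) ≤ 2 θ ≤ 1/k` as `z (x j) ≤ 1` (`a = Pi.single j 1`).
  `Φ' e = Φ e + ∑_j sg(e j) • (x j - castv (x' j))` has `z ≤ 80 + 1 = 81` and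
  `2^{-k} ∑_e sg(e i) • Φ' e = 2^{-k} ∑_e sg(e i) • Φ e + (x i - castv (x' i))` (orthogonality of the signs).
* `exists_tower_aux`: combine: `S0`, the enumeration `U`, `tow_union`; for rational `x` with `W2 z (castv ∘ x) 1` choose
  `i` with `U i = ⟨k, castv ∘ x⟩` and `i ≥` all coordinates of the `x j`, so that `Sup (tow i).N (x j)` (`tow_N`); the
  combinations `∑ a_j • x j` are also supported there, so `W2 (tow i).z x 1` and the step at `i` is the pushout; `stepP_R`.
-/

set_option linter.unusedVariables false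

namespace RF

noncomputable section

/-- Rational vectors as real vectors. -/
def castv (v : ℕ →₀ ℚ) : Vec := v.mapRange (fun q : ℚ => (q : ℝ)) (by simp)

theorem exists_enum : ∃ U : ℕ → Σ k : ℕ, (Fin k → Vec),
    ∀ (k : ℕ) (x : Fin k → (ℕ →₀ ℚ)) (M : ℕ), ∃ i, M ≤ i ∧ U i = ⟨k, fun j => castv (x j)⟩ := by
  have : Nonempty (Σ k : ℕ, (Fin k → (ℕ →₀ ℚ))) := ⟨⟨0, fun _ => 0⟩⟩
  obtain ⟨g, hg⟩ := exists_surjective_nat (Σ k : ℕ, (Fin k → (ℕ →₀ ℚ)))
  refine ⟨fun i => ⟨(g (Nat.unpair i).1).1, fun j => castv ((g (Nat.unpair i).1).2 j)⟩, ?_⟩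
  intro k x M
  obtain ⟨a, ha⟩ := hg ⟨k, x⟩
  refine ⟨Nat.pair a M, Nat.right_le_pair a M, ?_⟩
  have h1 : g (Nat.unpair (Nat.pair a M)).1 = ⟨k, x⟩ := by
    rw [Nat.unpair_pair]
    exact ha
  show (⟨(g (Nat.unpair (Nat.pair a M)).1).1, fun j =>
    castv ((g (Nat.unpair (Nat.pair a M)).1).2 j)⟩ : Σ k : ℕ, (Fin k → Vec)) = _
  rw [h1]

theorem rat_approx (z : SN Vec) {k : ℕ} (x : Fin k → Vec) {τ : ℝ} (hτ : 0 < τ) :
    ∃ x' : Fin k → (ℕ →₀ ℚ), ∀ j, z (x j - castv (x' j)) ≤ τ := by
  have key : ∀ (v : Vec) (t : ℝ), 0 < t → ∃ v' : ℕ →₀ ℚ, z (v - castv v') ≤ t := by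
    intro v
    induction v using Finsupp.induction_linear with
    | zero =>
      intro t ht
      refine ⟨0, ?_⟩
      have h1 : (0 : Vec) - castv 0 = 0 := by
        simp [castv]
      rw [h1, map_zero]
      exact ht.le
    | add f g hf hg =>
      intro t ht
      obtain ⟨f', hf'⟩ := hf (t / 2) (by positivity)
      obtain ⟨g', hg'⟩ := hg (t / 2) (by positivity)
      refine ⟨f' + g', ?_⟩
      have h1 : castv (f' + g') = castv f' + castv g' := by
        unfold castv
        exact Finsupp.mapRange_add (by intro a b; push_cast; rfl) f' g'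
      have h2 : f + g - castv (f' + g') = (f - castv f') + (g - castv g') := by
        rw [h1]; abel
      rw [h2]
      refine (map_add_le_add z _ _).trans ?_
      linarith
    | single a b =>
      intro t ht
      have hc : 0 < z (Finsupp.single a 1) + 1 := by
        have := apply_nonneg z (Finsupp.single a (1 : ℝ))
        linarith
      obtain ⟨q, hq1, hq2⟩ := exists_rat_btwn (show b - t / (z (Finsupp.single a 1) + 1) < b by
        have : 0 < t / (z (Finsupp.single a 1) + 1) := by positivity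
        linarith)
      refine ⟨Finsupp.single a q, ?_⟩
      have h1 : (Finsupp.single a b : Vec) - castv (Finsupp.single a q) =
          (b - (q : ℝ)) • Finsupp.single a (1 : ℝ) := by
        unfold castv
        rw [Finsupp.mapRange_single, ← Finsupp.single_sub, Finsupp.smul_single, smul_eq_mul, mul_one]
      rw [h1, map_smul_eq_mul, Real.norm_eq_abs, abs_of_pos (by linarith)]
      have h2 : b - (q : ℝ) ≤ t / (z (Finsupp.single a 1) + 1) := by linarith
      have h3 := apply_nonneg z (Finsupp.single a (1 : ℝ))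
      calc (b - (q : ℝ)) * z (Finsupp.single a 1)
          ≤ t / (z (Finsupp.single a 1) + 1) * (z (Finsupp.single a 1) + 1) :=
            mul_le_mul h2 (by linarith) h3 (by positivity)
        _ = t := div_mul_cancel₀ t hc.ne'
  choose x' hx' using fun j => key (x j) τ hτ
  exact ⟨x', hx'⟩

end

end RF
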