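import Pool.Agent.RF.D4

/-!
# [RF-D4] Bookkeeping and the property (R) for the union

`rat k x`, `x : Fin k → (ℕ →₀ ℚ)`: the real vectors (`Finsupp.mapRange` of the cast).

* `exists_enum`: there is `U : ℕ → Σ k, (Fin k → Vec)` such that for all `k`, all rational `x : Fin k → (ℕ →₀ ℚ)` and all
  `M` there is `i ≥ M` with `U i = ⟨k, castv ∘ x⟩`.  (`Σ k, (Fin k → (ℕ →₀ ℚ))` is countable and nonempty: take a
  surjection `g` from `ℕ` (`exists_surjective_nat`) and `U i = g (Nat.unpair i).1`; for given `n`, `i = Nat.pair n b` with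
  `b ≥ M` satisfies `i ≥ M`, `Nat.right_le_pair`.)
* `rat_approx`: for `x : Fin k → Vec`, `τ > 0`, `z` a seminorm on `Vec` there is a rational `x'` with
  `z (x j - castv (x' j)) ≤ τ` for all `j`.  (`z v ≤ ∑_{i ∈ supp} |v i| z(e_i)`, approximate each coordinate on the
  support.)
* `R_of_rat`: if `z` is a seminorm on `Vec` such that every rational `x : Fin k → (ℕ →₀ ℚ)` with `W2 z (castv ∘ x) 1` has
  a `Φ` with bound `80`, then `RProp z 81`.
  Proof.  Let `x : ι → Vec`, `W2 z x 1`.  Reindex: `ι ≃ Fin k`, `k = card ι` (the statement for `ι` follows from the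
  statement for `Fin k` by composing `Φ` with the induced equivalence of the cubes).  `k = 0`: trivial (`Φ = 0`).
  Let `k ≥ 1`, `θ = 1/(4k)`, and let `x'` be rational with `z ((1-θ) x j - castv (x' j)) ≤ θ/(2k)`.  Then
  `z (∑ a_j • castv (x' j)) ≤ (1-θ) |a|_2 + (θ/(2k)) ∑ |a_j| ≤ (1 - θ + θ) |a|_2` (`∑|a_j| ≤ k |a|_2`), so `W2 z (castv ∘ x') 1`.
  `z (x j - castv (x' j)) ≤ θ z (x j) + θ/(2k) ≤ 2 θ ≤ 1/k` as `z (x j) ≤ 1` (`a = Pi.single j 1`).
  `Φ' e = Φ e + ∑_j sg(e j) • (x j - castv (x' j))` has `z ≤ 80 + 1 = 81` and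
  `2^{-k} ∑_e sg(e i) • Φ' e = 2^{-k} ∑_e sg(e i) • Φ e + (x i - castv (x' i))` (orthogonality of the signs).
* `exists_tower_aux`: combine: `S0`, the enumeration `U`, `tow_union`; for rational `x` with `W2 z (castv ∘ x) 1` choose
  `i` with `U i = ⟨k, castv ∘ x⟩` and `i ≥` all coordinates of the `x j`, so that `Sup (tow i).N (x j)` (`tow_N`); the
  combinations `∑ a_j • x j` are also supported there, so `W2 (tow i).z x 1` and the step at `i` is the pushout; `stepP_R`.
-/

set_option linter.unusedVariables false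

namespace RF

noncomputable section

private theorem d4b_orth {ι : Type} [Fintype ι] [DecidableEq ι] (i j : ι) :
    ∑ e : ι → Bool, sg (e i) * sg (e j) = if i = j then (2 : ℝ) ^ Fintype.card ι else 0 := by
  have h := wal_orth ({i} : Finset ι) {j}
  simp only [wal, Finset.prod_singleton, Finset.singleton_inj] at h
  exact h

private theorem d4b_sum (z : SN Vec) {κ : Type} (s : Finset κ) (g : κ → Vec) :
    z (∑ i ∈ s, g i) ≤ ∑ i ∈ s, z (g i) := by
  classical
  induction s using Finset.induction_on with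
  | empty => rw [Finset.sum_empty, Finset.sum_empty, map_zero]
  | insert a s ha ih =>
    rw [Finset.sum_insert ha, Finset.sum_insert ha]
    exact (map_add_le_add z _ _).trans (by linarith)

theorem R_of_rat (z : SN Vec)
    (h : ∀ (k : ℕ) (x : Fin k → (ℕ →₀ ℚ)), W2 z (fun j => castv (x j)) 1 →
      ∃ Φ : (Fin k → Bool) → Vec, (∀ e, z (Φ e) ≤ 80) ∧
        ∀ i, z (castv (x i) - (2 ^ Fintype.card (Fin k) : ℝ)⁻¹ • ∑ e, sg (e i) • Φ e) = 0) :
    RProp z 81 := by
  intro ι _ _ x hx
  set k := Fintype.card ι with hk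
  let σ : ι ≃ Fin k := Fintype.equivFin ι
  have hk1 : (0 : ℝ) < (k : ℝ) + 1 := by positivity
  set θ : ℝ := 1 / (2 * ((k : ℝ) + 1)) with hθ
  have hθ0 : 0 < θ := by positivity
  have hkθ : 2 * (k : ℝ) * θ ≤ 1 := by
    rw [hθ, mul_one_div, div_le_one (by positivity)]
    linarith
  have hθ1 : θ ≤ 1 := by
    rw [hθ, div_le_one (by positivity)]
    have : (0 : ℝ) ≤ (k : ℝ) := Nat.cast_nonneg k
    linarith
  set τ : ℝ := θ / ((k : ℝ) + 1) with hτ
  have hτ0 : 0 < τ := by positivity
  have hτθ : τ ≤ θ := by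
    rw [hτ, div_le_iff₀ hk1]
    have : (0 : ℝ) ≤ (k : ℝ) := Nat.cast_nonneg k
    nlinarith
  have hτk : τ * (k : ℝ) ≤ θ := by
    rw [hτ, div_mul_eq_mul_div, div_le_iff₀ hk1]
    nlinarith
  obtain ⟨x', hx'⟩ := rat_approx z (fun j : Fin k => (1 - θ) • x (σ.symm j)) hτ0
  -- the norm of the members
  have hzx : ∀ i, z (x i) ≤ 1 := by
    intro i
    have h1 := hx (Pi.single i 1)
    have h2 : ∑ j, (Pi.single i (1 : ℝ) : ι → ℝ) j • x j = x i := by
      rw [Finset.sum_eq_single i]
      · rw [Pi.single_eq_same, one_smul]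
      · intro j _ hj
        rw [Pi.single_eq_of_ne hj, zero_smul]
      · intro h
        exact absurd (Finset.mem_univ i) h
    have h3 : ∑ j, ((Pi.single i (1 : ℝ) : ι → ℝ) j) ^ 2 = 1 := by
      rw [Finset.sum_eq_single i]
      · rw [Pi.single_eq_same, one_pow]
      · intro j _ hj
        rw [Pi.single_eq_of_ne hj]
        norm_num
      · intro h
        exact absurd (Finset.mem_univ i) h
    rw [h2, h3, Real.sqrt_one, mul_one] at h1
    exact h1
  -- the family of rational vectors
  have hW : W2 z (fun j => castv (x' j)) 1 := by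
    intro a
    set R := Real.sqrt (∑ i, (a i) ^ 2) with hR
    have hR0 : 0 ≤ R := Real.sqrt_nonneg _
    have ha : ∀ j, |a j| ≤ R := by
      intro j
      rw [hR, ← Real.sqrt_sq_eq_abs]
      exact Real.sqrt_le_sqrt (Finset.single_le_sum (f := fun i => (a i) ^ 2)
        (fun i _ => sq_nonneg _) (Finset.mem_univ j))
    have h1 : z (∑ j, a j • ((1 - θ) • x (σ.symm j))) ≤ (1 - θ) * R := by
      have h2 : ∑ j, a j • ((1 - θ) • x (σ.symm j)) =
          (1 - θ) • ∑ i, (fun i => a (σ i)) i • x i := by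
        rw [Finset.smul_sum, ← Equiv.sum_comp σ]
        refine Finset.sum_congr rfl fun i _ => ?_
        rw [Equiv.symm_apply_apply, smul_comm]
      have h3 : ∑ i, ((fun i => a (σ i)) i) ^ 2 = ∑ j, (a j) ^ 2 :=
        Equiv.sum_comp σ (fun j => (a j) ^ 2)
      have h4 := hx (fun i => a (σ i))
      rw [h3, one_mul] at h4
      rw [h2, map_smul_eq_mul, Real.norm_of_nonneg (by linarith)]
      exact mul_le_mul_of_nonneg_left h4 (by linarith)
    have h5 : z (∑ j, a j • ((1 - θ) • x (σ.symm j) - castv (x' j))) ≤ θ * R := by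
      calc z (∑ j, a j • ((1 - θ) • x (σ.symm j) - castv (x' j)))
          ≤ ∑ j, z (a j • ((1 - θ) • x (σ.symm j) - castv (x' j))) := d4b_sum z _ _
        _ ≤ ∑ _j : Fin k, R * τ := by
            refine Finset.sum_le_sum fun j _ => ?_
            rw [map_smul_eq_mul, Real.norm_eq_abs]
            exact mul_le_mul (ha j) (hx' j) (apply_nonneg _ _) hR0
        _ = (τ * k) * R := by
            rw [Finset.sum_const, Finset.card_univ, Fintype.card_fin, nsmul_eq_mul]
            ring
        _ ≤ θ * R := mul_le_mul_of_nonneg_right hτk hR0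
    have h6 : ∑ j, a j • castv (x' j) = ∑ j, a j • ((1 - θ) • x (σ.symm j)) -
        ∑ j, a j • ((1 - θ) • x (σ.symm j) - castv (x' j)) := by
      rw [← Finset.sum_sub_distrib]
      refine Finset.sum_congr rfl fun j _ => ?_
      rw [← smul_sub, sub_sub_cancel]
    rw [h6]
    refine (map_sub_le_add z _ _).trans ?_
    linarith
  obtain ⟨Φ, hΦ1, hΦ2⟩ := h k x' hW
  let v : ι → Vec := fun i => x i - castv (x' (σ i))
  have hv : ∀ i, z (v i) ≤ 2 * θ := by
    intro i
    have h1 : v i = θ • x i + ((1 - θ) • x (σ.symm (σ i)) - castv (x' (σ i))) := by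
      simp only [v]
      rw [Equiv.symm_apply_apply, sub_smul, one_smul]
      abel
    rw [h1]
    refine (map_add_le_add z _ _).trans ?_
    rw [map_smul_eq_mul, Real.norm_of_nonneg hθ0.le]
    have h2 := hx' (σ i)
    have h3 := mul_le_mul_of_nonneg_left (hzx i) hθ0.le
    linarith
  refine ⟨fun e => Φ (fun j => e (σ.symm j)) + ∑ j, sg (e j) • v j, ?_, ?_⟩
  · intro e
    refine (map_add_le_add z _ _).trans ?_
    have h1 : z (∑ j, sg (e j) • v j) ≤ 1 := by
      calc z (∑ j, sg (e j) • v j) ≤ ∑ j, z (sg (e j) • v j) := d4b_sum z _ _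
        _ ≤ ∑ _j : ι, 2 * θ := by
            refine Finset.sum_le_sum fun j _ => ?_
            rw [map_smul_eq_mul, Real.norm_eq_abs, sg_abs, one_mul]
            exact hv j
        _ = 2 * k * θ := by
            rw [Finset.sum_const, Finset.card_univ, nsmul_eq_mul]
            ring
        _ ≤ 1 := hkθ
    have h2 := hΦ1 (fun j => e (σ.symm j))
    linarith
  · intro i
    have h1 : ∑ e : ι → Bool, sg (e i) • (Φ (fun j => e (σ.symm j)) + ∑ j, sg (e j) • v j) =
        ∑ e : Fin k → Bool, sg (e (σ i)) • Φ e + (2 : ℝ) ^ k • v i := by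
      simp only [smul_add]
      rw [Finset.sum_add_distrib]
      congr 1
      · rw [← Equiv.sum_comp (Equiv.arrowCongr σ (Equiv.refl Bool))]
        refine Finset.sum_congr rfl fun e _ => ?_
        have h2 : (Equiv.arrowCongr σ (Equiv.refl Bool)) e = fun j => e (σ.symm j) := rfl
        rw [h2]
        simp only [Equiv.symm_apply_apply]
      · simp only [Finset.smul_sum, smul_smul]
        rw [Finset.sum_comm]
        have h3 : ∀ j, ∑ e : ι → Bool, (sg (e i) * sg (e j)) • v j =
            (if i = j then (2 : ℝ) ^ k else 0) • v j := by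
          intro j
          rw [← Finset.sum_smul, d4b_orth]
        rw [Finset.sum_congr rfl fun j _ => h3 j, Finset.sum_eq_single i]
        · rw [if_pos rfl]
        · intro j _ hj
          rw [if_neg (Ne.symm hj), zero_smul]
        · intro h
          exact absurd (Finset.mem_univ i) h
    have h4 := hΦ2 (σ i)
    rw [Fintype.card_fin] at h4
    rw [h1, smul_add, smul_smul, inv_mul_cancel₀ (by positivity), one_smul]
    have h5 : x i - ((2 ^ k : ℝ)⁻¹ • ∑ e : Fin k → Bool, sg (e (σ i)) • Φ e + v i) =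
        castv (x' (σ i)) - (2 ^ k : ℝ)⁻¹ • ∑ e : Fin k → Bool, sg (e (σ i)) • Φ e := by
      simp only [v]
      abel
    rw [h5]
    exact h4

end

end RF
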