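import Pool.Agent.RF.D4b

/-!
# [RF-D4] Bookkeeping and the property (R) for the union

`rat k x`, `x : Fin k → (ℕ →₀ ℚ)`: the real vectors (`Finsupp.mapRange` of the cast).

* `exists_enum`: there is `U : ℕ → Σ k, (Fin k → Vec)` such that for all `k`, all rational `x : Fin k → (ℕ →₀ ℚ)` and all
  `M` there is `i ≥ M` with `U i = ⟨k, castv ∘ x⟩`.  (`Σ k, (Fin k → (ℕ →₀ ℚ))` is countable and nonempty: take a
  surjection `g` from `ℕ` (`exists_surjective_nat`) and `U i = g (Nat.unpair i).1`; for given `n`, `i = Nat.pair n b` with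
  `b ≥ M` satisfies `i ≥ M`, `Nat.right_le_pair`.)
* `rat_approx`: for `x : Fin k → Vec`, `τ > 0`, `z` a seminorm on `Vec` there is a rational `x'` with
  `z (x j - castv (x' j)) ≤ τ` for all `j`.  (`z v ≤ ∑_{i ∈ supp} |v i| z(e_i)`, approximate each coordinate on the
  support.)
* `R_of_rat`: if `z` is a seminorm on `Vec` such that every rational `x : Fin k → (ℕ →₀ ℚ)` with `W2 z (castv ∘ x) 1` has
  a `Φ` with bound `80`, then `RProp z 81`.
  Proof.  Let `x : ι → Vec`, `W2 z x 1`.  Reindex: `ι ≃ Fin k`, `k = card ι` (the statement for `ι` follows from the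
  statement for `Fin k` by composing `Φ` with the induced equivalence of the cubes).  `k = 0`: trivial (`Φ = 0`).
  Let `k ≥ 1`, `θ = 1/(4k)`, and let `x'` be rational with `z ((1-θ) x j - castv (x' j)) ≤ θ/(2k)`.  Then
  `z (∑ a_j • castv (x' j)) ≤ (1-θ) |a|_2 + (θ/(2k)) ∑ |a_j| ≤ (1 - θ + θ) |a|_2` (`∑|a_j| ≤ k |a|_2`), so `W2 z (castv ∘ x') 1`.
  `z (x j - castv (x' j)) ≤ θ z (x j) + θ/(2k) ≤ 2 θ ≤ 1/k` as `z (x j) ≤ 1` (`a = Pi.single j 1`).
  `Φ' e = Φ e + ∑_j sg(e j) • (x j - castv (x' j))` has `z ≤ 80 + 1 = 81` and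
  `2^{-k} ∑_e sg(e i) • Φ' e = 2^{-k} ∑_e sg(e i) • Φ e + (x i - castv (x' i))` (orthogonality of the signs).
* `exists_tower_aux`: combine: `S0`, the enumeration `U`, `tow_union`; for rational `x` with `W2 z (castv ∘ x) 1` choose
  `i` with `U i = ⟨k, castv ∘ x⟩` and `i ≥` all coordinates of the `x j`, so that `Sup (tow i).N (x j)` (`tow_N`); the
  combinations `∑ a_j • x j` are also supported there, so `W2 (tow i).z x 1` and the step at `i` is the pushout; `stepP_R`.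
-/

set_option linter.unusedVariables false

namespace RF

noncomputable section

theorem d4c_Sup_mono {N N' : ℕ} (h : N ≤ N') {v : Vec} (hv : Sup N v) : Sup N' v :=
  fun i hi => hv i (h.trans hi)

theorem d4c_Sup_bd (v : Vec) : ∃ b, Sup b v := by
  refine ⟨v.support.sup id + 1, fun i hi => ?_⟩
  by_contra h
  have h1 : i ∈ v.support := Finsupp.mem_support_iff.2 h
  have h2 := Finset.le_sup (f := id) h1
  have h3 : i ≤ v.support.sup id := h2
  omega

theorem d4c_Sup_smul {N : ℕ} (c : ℝ) {v : Vec} (hv : Sup N v) : Sup N (c • v) := by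
  intro i hi
  rw [Finsupp.smul_apply, hv i hi, smul_zero]

theorem d4c_Sup_sum {N : ℕ} {ι : Type} (s : Finset ι) (f : ι → Vec) (h : ∀ i ∈ s, Sup N (f i)) :
    Sup N (∑ i ∈ s, f i) := by
  intro i hi
  rw [Finsupp.finsetSum_apply]
  exact Finset.sum_eq_zero (fun j hj => h j hj i hi)

theorem d4c_Sup_fam {ι : Type} [Fintype ι] (x : ι → Vec) : ∃ b, ∀ j, Sup b (x j) := by
  choose b hb using fun j => d4c_Sup_bd (x j)
  exact ⟨Finset.univ.sup b, fun j => d4c_Sup_mono (Finset.le_sup (Finset.mem_univ j)) (hb j)⟩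

theorem exists_tower_aux {s : ℝ} (hs : 1 ≤ s) {S0 : St} (h0 : Good s S0) :
    ∃ p z : SN Vec,
      (∀ v : Vec, Sup S0.N v → p v = S0.p v ∧ z v = S0.z v) ∧
      (∀ v, p v ≤ z v) ∧ (∀ v, z v ≤ s * p v) ∧ CT2 p 77 ∧ CT4 z 77 ∧ RProp z 81 := by
  obtain ⟨U, hU⟩ := exists_enum
  obtain ⟨p, z, hpz, h1, h2, h3, h4⟩ := tow_union hs h0 U
  refine ⟨p, z, fun v hv => hpz 0 v hv, h1, h2, h3, h4, R_of_rat z ?_⟩
  intro k x hW
  obtain ⟨b, hb⟩ := d4c_Sup_fam (fun j => castv (x j))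
  obtain ⟨i, hbi, hUi⟩ := hU k x b
  have hN : ∀ i, i ≤ (tow S0 U i).N := fun i => (Nat.le_add_left i S0.N).trans (tow_N S0 U i)
  have hx : ∀ j, Sup (tow S0 U i).N (castv (x j)) := fun j => d4c_Sup_mono (hbi.trans (hN i)) (hb j)
  have hW' : W2 (tow S0 U i).z (fun j => castv (x j)) 1 := by
    intro a
    rw [← (hpz i _ (d4c_Sup_sum _ _ (fun j _ => d4c_Sup_smul (a j) (hx j)))).2]
    exact hW a
  have hstep : tow S0 U (i + 1) = stepP (tow S0 U i) (fun j => castv (x j)) := by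
    show stepU (tow S0 U i) (U i) = _
    rw [hUi]
    unfold stepU
    rw [if_pos ⟨hx, hW'⟩]
  obtain ⟨Φ, hΦ1, hΦ2, hΦ3⟩ := stepP_R hx hW'
  have hz : ∀ v, Sup (stepP (tow S0 U i) (fun j => castv (x j))).N v →
      z v = (stepP (tow S0 U i) (fun j => castv (x j))).z v := by
    intro v hv
    rw [← hstep] at hv ⊢
    exact (hpz (i + 1) v hv).2
  refine ⟨Φ, fun e => ?_, fun l => ?_⟩
  · rw [hz _ (hΦ1 e)]
    exact hΦ2 e
  · rw [hz]
    · exact hΦ3 l
    · have e1 : Sup (stepP (tow S0 U i) (fun j => castv (x j))).N (castv (x l)) :=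
        d4c_Sup_mono (Nat.le_add_right _ _) (hx l)
      have e2 : Sup (stepP (tow S0 U i) (fun j => castv (x j))).N
          ((2 ^ Fintype.card (Fin k) : ℝ)⁻¹ • ∑ e, sg (e l) • Φ e) :=
        d4c_Sup_smul _ (d4c_Sup_sum _ _ (fun e _ => d4c_Sup_smul _ (hΦ1 e)))
      intro j hj
      rw [Finsupp.sub_apply, e1 j hj, e2 j hj, sub_zero]

end

end RF
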