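import Pool.Agent.RF.D4c
import Pool.Agent.RF.D1c

/-!
# [RF-D5] The spaces of Step 1: `exists_tower`

Initial state: `N = s * m`, `rd : Vec →ₗ Rb s m` reads the coordinates `< s*m` through
`finProdFinEquiv : Fin s × Fin m ≃ Fin (s*m)`, `jn : Rb s m →ₗ Vec` is its right inverse with values supported in `< s*m`.
`S0.p = (pb s m).comp rd`, `S0.z = (zb s m).comp rd`.  Good: `rd (tr N v) = rd v`; `pb_le_zb`, `zb_le_pb`,
`CT2.comp`, `CT4.comp`, `pb_CT2`, `zb_CT4`.  Then `exists_tower_aux` and `z (jn r) = S0.z (jn r) = zb (rd (jn r)) = ‖r‖`.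
-/

set_option linter.unusedVariables false

namespace RF

noncomputable section

theorem exists_coord (s m : ℕ) : ∃ (rd : Vec →ₗ[ℝ] Rb s m) (jn : Rb s m →ₗ[ℝ] Vec),
    (∀ r, rd (jn r) = r) ∧ (∀ r, Sup (s * m) (jn r)) ∧ ∀ v, rd (tr (s * m) v) = rd v := by
  classical
  set rd : Vec →ₗ[ℝ] Rb s m :=
    { toFun := fun v => WithLp.toLp 4 (fun a : Fin s => WithLp.toLp 2
        (fun b : Fin m => v ((finProdFinEquiv (a, b) : Fin (s * m)) : ℕ)))
      map_add' := by
        intro v w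
        rfl
      map_smul' := by
        intro c v
        rfl } with hrd
  set jn : Rb s m →ₗ[ℝ] Vec :=
    { toFun := fun r => ∑ p : Fin s × Fin m,
        Finsupp.single ((finProdFinEquiv p : Fin (s * m)) : ℕ) (r p.1 p.2)
      map_add' := by
        intro x y
        rw [← Finset.sum_add_distrib]
        refine Finset.sum_congr rfl fun p _ => ?_
        rw [← Finsupp.single_add]
        rfl
      map_smul' := by
        intro c x
        rw [RingHom.id_apply, Finset.smul_sum]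
        refine Finset.sum_congr rfl fun p _ => ?_
        rw [Finsupp.smul_single]
        rfl } with hjn
  have hjv : ∀ (r : Rb s m) (i : ℕ), jn r i = ∑ p : Fin s × Fin m,
      (Finsupp.single ((finProdFinEquiv p : Fin (s * m)) : ℕ) (r p.1 p.2)) i := by
    intro r i
    show (∑ p : Fin s × Fin m, Finsupp.single ((finProdFinEquiv p : Fin (s * m)) : ℕ) (r p.1 p.2)) i = _
    rw [Finsupp.finsetSum_apply]
  refine ⟨rd, jn, ?_, ?_, ?_⟩
  · intro r
    ext a b
    show jn r ((finProdFinEquiv (a, b) : Fin (s * m)) : ℕ) = r a b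
    rw [hjv, Finset.sum_eq_single (a, b)]
    · rw [Finsupp.single_eq_same]
    · intro p _ hp
      apply Finsupp.single_eq_of_ne
      intro h
      exact hp (finProdFinEquiv.injective (Fin.ext h.symm))
    · intro h
      exact absurd (Finset.mem_univ _) h
  · intro r i hi
    rw [hjv]
    refine Finset.sum_eq_zero fun p _ => ?_
    apply Finsupp.single_eq_of_ne
    intro h
    have h1 := (finProdFinEquiv p : Fin (s * m)).isLt
    omega
  · intro v
    ext a b
    show tr (s * m) v ((finProdFinEquiv (a, b) : Fin (s * m)) : ℕ) = v ((finProdFinEquiv (a, b) : Fin (s * m)) : ℕ)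
    rw [tr_apply, if_pos (finProdFinEquiv (a, b) : Fin (s * m)).isLt]

theorem exists_tower (s m : ℕ) (hs : 1 ≤ s) :
    ∃ (p z : SN Vec) (jn : Rb s m →ₗ[ℝ] Vec),
      (∀ v, p v ≤ z v) ∧ (∀ v, z v ≤ s * p v) ∧ CT2 p 77 ∧ CT4 z 77 ∧ RProp z 81 ∧
      (∀ r, Sup (s * m) (jn r)) ∧ ∀ r, z (jn r) = ‖r‖ := by
  obtain ⟨rd, jn, h1, h2, h3⟩ := exists_coord s m
  have hs' : (1 : ℝ) ≤ s := by exact_mod_cast hs
  have hG : Good (s : ℝ) ⟨s * m, (pb s m).comp rd, (zb s m).comp rd⟩ := by
    refine ⟨?_, ?_, ?_, ?_, ?_, ?_⟩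
    · intro v; simp only [Seminorm.comp_apply, h3]
    · intro v; simp only [Seminorm.comp_apply, h3]
    · intro v; exact pb_le_zb s m hs _
    · intro v; exact zb_le_pb s m hs _
    · exact (pb_CT2 s m).comp rd
    · exact (zb_CT4 s m).comp rd
  obtain ⟨p, z, k1, k2, k3, k4, k5, k6⟩ := exists_tower_aux hs' hG
  refine ⟨p, z, jn, k2, k3, k4, k5, k6, h2, fun r => ?_⟩
  rw [(k1 _ (h2 r)).2]
  show zb s m (rd (jn r)) = ‖r‖
  rw [h1]
  rfl

end

end RF
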