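import Mathlib

/-!
# [RF] definitions for MP_d63d79_an

Part 1: tensor products over a noncommutative ring, flat right modules, the algebra of approximable
operators, the approximation property (these are the definitions used in the final statement).

Part 2: working definitions (sign cube, Walsh functions, cotype, the extension property).
-/

set_option linter.unusedVariables false

namespace RF

/-! ## Part 1 -/

section Tensor
open TensorProduct

/-- The subgroup of `X ⊗_ℤ M` generated by the elements `(x b) ⊗ m - x ⊗ (b m)`.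
A right `B`-module is a module over the opposite ring. -/
def balSub (B X M : Type) [Ring B] [AddCommGroup X] [Module Bᵐᵒᵖ X] [AddCommGroup M]
    [Module B M] : AddSubgroup (X ⊗[ℤ] M) :=
  AddSubgroup.closure {t | ∃ (x : X) (b : B) (m : M),
    t = (MulOpposite.op b • x) ⊗ₜ[ℤ] m - x ⊗ₜ[ℤ] (b • m)}

/-- The tensor product `X ⊗_B M` of a right module and a left module over a ring `B`. -/
abbrev BTens (B X M : Type) [Ring B] [AddCommGroup X] [Module Bᵐᵒᵖ X] [AddCommGroup M]
    [Module B M] : Type :=
  (X ⊗[ℤ] M) ⧸ balSub B X M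

/-- The map `X ⊗_B f`. -/
def BTens.map (B X : Type) {M N : Type} [Ring B] [AddCommGroup X] [Module Bᵐᵒᵖ X]
    [AddCommGroup M] [Module B M] [AddCommGroup N] [Module B N] (f : M →ₗ[B] N) :
    BTens B X M →+ BTens B X N :=
  QuotientAddGroup.map (balSub B X M) (balSub B X N)
    (TensorProduct.map (LinearMap.id : X →ₗ[ℤ] X) (f.toAddMonoidHom.toIntLinearMap)).toAddMonoidHom
    (by
      rw [balSub, AddSubgroup.closure_le]
      rintro t ⟨x, b, m, rfl⟩
      apply AddSubgroup.subset_closure
      refine ⟨x, b, f m, ?_⟩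
      simp)

/-- Flat right modules: `X ⊗_B -` takes short exact sequences of left modules to short exact
sequences. -/
def FlatRight (B X : Type) [Ring B] [AddCommGroup X] [Module Bᵐᵒᵖ X] : Prop :=
  ∀ (M' M M'' : Type) [AddCommGroup M'] [AddCommGroup M] [AddCommGroup M'']
    [Module B M'] [Module B M] [Module B M''] (f : M' →ₗ[B] M) (g : M →ₗ[B] M''),
    Function.Injective f → Function.Exact f g → Function.Surjective g →
      Function.Injective (BTens.map B X f) ∧
      Function.Exact (BTens.map B X f) (BTens.map B X g) ∧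
      Function.Surjective (BTens.map B X g)

end Tensor

section Algebra

variable (𝕜 A : Type) [RCLike 𝕜] [NonUnitalRing A] [Module 𝕜 A] [IsScalarTower 𝕜 A A]
  [SMulCommClass 𝕜 A A]

/-- The algebra `A` as a right ideal of its unitization. -/
def unitIdeal : Submodule (Unitization 𝕜 A)ᵐᵒᵖ (Unitization 𝕜 A) where
  carrier := Set.range (Unitization.inr : A → Unitization 𝕜 A)
  add_mem' := by
    rintro _ _ ⟨a, rfl⟩ ⟨b, rfl⟩
    exact ⟨a + b, by simp⟩
  zero_mem' := ⟨0, by simp⟩
  smul_mem' := by
    rintro c _ ⟨a, rfl⟩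
    refine ⟨(MulOpposite.unop c).fst • a + a * (MulOpposite.unop c).snd, ?_⟩
    ext <;> simp

/-- `A` is right flat: `A` is a flat right module over its unitization. -/
def RightFlat : Prop := FlatRight (Unitization 𝕜 A) (unitIdeal 𝕜 A)

/-- `A` is right universally flat: `A` is a flat right `B`-module for every unital algebra `B`
that contains (a copy of) `A` as a right ideal `I`. -/
def RightUniversallyFlat : Prop :=
  ∀ (B : Type) [Ring B] [Algebra 𝕜 B] (I : Submodule Bᵐᵒᵖ B) (e : A →ₙₐ[𝕜] B),
    Function.Injective e → Set.range e = (I : Set B) → FlatRight B I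

theorem RightUniversallyFlat.rightFlat (h : RightUniversallyFlat 𝕜 A) : RightFlat 𝕜 A := by
  refine h (Unitization 𝕜 A) (unitIdeal 𝕜 A) (Unitization.inrNonUnitalAlgHom 𝕜 A) ?_ ?_
  · intro a b hab
    exact Unitization.inr_injective hab
  · rfl

end Algebra

section Operators

variable (𝕜 E : Type) [RCLike 𝕜] [NormedAddCommGroup E] [NormedSpace 𝕜 E]

/-- Finite-rank operators. -/
def finRank : Set (E →L[𝕜] E) :=
  {T | FiniteDimensional 𝕜 (LinearMap.range (T : E →ₗ[𝕜] E))}

/-- The approximation property. -/
def HasAP : Prop :=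
  ∀ K : Set E, IsCompact K → ∀ ε : ℝ, 0 < ε →
    ∃ T : E →L[𝕜] E, T ∈ finRank 𝕜 E ∧ ∀ x ∈ K, ‖T x - x‖ < ε

end Operators

end RF
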