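import Pool.Agent.RF.D5
import Pool.Agent.RF.A6c

/-!
# [RF-E1] The data, the dense subspace `W0` of the counterexample and its seminorm

`Y0`: families `y n o`, `n : ℕ`, `o : Option ℕ` (`none` = infinity), of vectors in `Vec` with
 * `y n = 0` for large `n`,  * `y n (some j) = y n none` for large `j` (uniformly in `n`),
 * `y n (some j)` is supported in the coordinates `< j`.
Seminorm `NY y = sup_{n,j} p_n (y n (some j)) ∨ sup_n z_n (y n none)`.
`W0 = Y0 × (Γ →₀ ℝ)`, `NW (y,g) = NY y + ∑ |g|`.
-/

set_option linter.unusedVariables false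

namespace RF

noncomputable section

/-- The data for the construction: for every `n` the space of Step 1 with parameters `s n`, `m n` and a finite
subset `γ n` of the unit ball of `l_4^s(l_2^m)` generating it with constant 2. -/
structure Dat where
  s : ℕ → ℕ
  m : ℕ → ℕ
  p : ℕ → SN Vec
  z : ℕ → SN Vec
  jn : ∀ n, Rb (s n) (m n) →ₗ[ℝ] Vec
  k : ℕ → ℕ
  γ : ∀ n, Fin (k n) → Rb (s n) (m n)
  hs : ∀ n, 1 ≤ s n
  pz : ∀ n v, p n v ≤ z n v
  zp : ∀ n v, z n v ≤ s n * p n v
  c2 : ∀ n, CT2 (p n) 77
  c4 : ∀ n, CT4 (z n) 77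
  R : ∀ n, RProp (z n) 81
  sup_jn : ∀ n r, Sup (s n * m n) (jn n r)
  nj : ∀ n r, z n (jn n r) = ‖r‖
  γ1 : ∀ n i, ‖γ n i‖ ≤ 1
  γ2 : ∀ n r, ∃ g : Fin (k n) → ℝ, ∑ i, g i • γ n i = r ∧ ∑ i, |g i| ≤ 2 * ‖r‖
  γ3 : ∀ n, ∃ g : Fin (k n) → ℝ, g ≠ 0 ∧ ∑ i, g i • γ n i = 0

/-- The space of families. -/
def Y0 : Submodule ℝ (ℕ → Option ℕ → Vec) where
  carrier := {y | (∃ J : ℕ, (∀ n, J ≤ n → y n = 0) ∧ ∀ n j, J ≤ j → y n (some j) = y n none) ∧
    ∀ n j, Sup j (y n (some j))}
  add_mem' := by
    rintro y y' ⟨⟨J, h1, h2⟩, h3⟩ ⟨⟨J', h1', h2'⟩, h3'⟩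
    refine ⟨⟨max J J', fun n hn => ?_, fun n j hj => ?_⟩, fun n j i hi => ?_⟩
    · show y n + y' n = 0
      rw [h1 n (le_trans (le_max_left _ _) hn), h1' n (le_trans (le_max_right _ _) hn), add_zero]
    · show y n (some j) + y' n (some j) = y n none + y' n none
      rw [h2 n j (le_trans (le_max_left _ _) hj), h2' n j (le_trans (le_max_right _ _) hj)]
    · show (y n (some j)) i + (y' n (some j)) i = 0
      rw [h3 n j i hi, h3' n j i hi, add_zero]
  zero_mem' := ⟨⟨0, fun _ _ => rfl, fun _ _ _ => rfl⟩, fun _ _ _ _ => rfl⟩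
  smul_mem' := by
    rintro c y ⟨⟨J, h1, h2⟩, h3⟩
    refine ⟨⟨J, fun n hn => ?_, fun n j hj => ?_⟩, fun n j i hi => ?_⟩
    · show c • y n = 0
      rw [h1 n hn, smul_zero]
    · show c • y n (some j) = c • y n none
      rw [h2 n j hj]
    · show c * (y n (some j)) i = 0
      rw [h3 n j i hi, mul_zero]

/-- Evaluation of a family. -/
def evY (n : ℕ) (o : Option ℕ) : Y0 →ₗ[ℝ] Vec where
  toFun y := (y : ℕ → Option ℕ → Vec) n o
  map_add' _ _ := rfl
  map_smul' _ _ := rfl

theorem evY_apply (n : ℕ) (o : Option ℕ) (y : Y0) :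
    evY n o y = (y : ℕ → Option ℕ → Vec) n o := rfl

theorem evY_sup (n j : ℕ) (y : Y0) : Sup j (evY n (some j) y) := y.2.2 n j

/-- The seminorm at the coordinate `(n, o)`. -/
def qf (D : Dat) (i : ℕ × Option ℕ) : SN Y0 :=
  (match i.2 with
    | none => D.z i.1
    | some _ => D.p i.1).comp (evY i.1 i.2)

/-- The seminorm of the space of families. -/
def NY (D : Dat) : SN Y0 := ⨆ i, qf D i

/-- For every family the values of the coordinate seminorms are bounded: they take finitely many values up to
`y n (some j) = y n none` for large `j` (`0` for large `n`). -/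
theorem qf_bdd (D : Dat) (y : Y0) : BddAbove (Set.range fun i => qf D i y) := by
  obtain ⟨J, h1, h2⟩ := y.2.1
  have hz : ∀ n, n < J → D.z n (evY n none y) ≤ ∑ n ∈ Finset.range J, (D.z n (evY n none y) +
      ∑ j ∈ Finset.range J, D.p n (evY n (some j) y)) := by
    intro n hn
    have h3 := Finset.single_le_sum (f := fun n => D.z n (evY n none y) +
      ∑ j ∈ Finset.range J, D.p n (evY n (some j) y)) (s := Finset.range J)
      (fun i _ => add_nonneg (apply_nonneg _ _) (Finset.sum_nonneg fun j _ => apply_nonneg _ _))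
      (Finset.mem_range.2 hn)
    refine le_trans ?_ h3
    have h4 : 0 ≤ ∑ j ∈ Finset.range J, D.p n (evY n (some j) y) :=
      Finset.sum_nonneg fun j _ => apply_nonneg _ _
    show D.z n (evY n none y) ≤ D.z n (evY n none y) + _
    linarith
  have hp : ∀ n j, n < J → j < J → D.p n (evY n (some j) y) ≤
      ∑ n ∈ Finset.range J, (D.z n (evY n none y) +
      ∑ j ∈ Finset.range J, D.p n (evY n (some j) y)) := by
    intro n j hn hj
    have h3 := Finset.single_le_sum (f := fun n => D.z n (evY n none y) +
      ∑ j ∈ Finset.range J, D.p n (evY n (some j) y)) (s := Finset.range J)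
      (fun i _ => add_nonneg (apply_nonneg _ _) (Finset.sum_nonneg fun j _ => apply_nonneg _ _))
      (Finset.mem_range.2 hn)
    refine le_trans ?_ h3
    have h4 := Finset.single_le_sum (f := fun j => D.p n (evY n (some j) y)) (s := Finset.range J)
      (fun i _ => apply_nonneg _ _) (Finset.mem_range.2 hj)
    have h5 : 0 ≤ D.z n (evY n none y) := apply_nonneg _ _
    show D.p n (evY n (some j) y) ≤ D.z n (evY n none y) + _
    exact le_trans h4 (by linarith)
  have h0 : 0 ≤ ∑ n ∈ Finset.range J, (D.z n (evY n none y) +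
      ∑ j ∈ Finset.range J, D.p n (evY n (some j) y)) :=
    Finset.sum_nonneg fun i _ => add_nonneg (apply_nonneg _ _)
      (Finset.sum_nonneg fun j _ => apply_nonneg _ _)
  refine ⟨∑ n ∈ Finset.range J, (D.z n (evY n none y) +
      ∑ j ∈ Finset.range J, D.p n (evY n (some j) y)), ?_⟩
  · rintro _ ⟨⟨n, o⟩, rfl⟩
    show qf D (n, o) y ≤ ∑ n ∈ Finset.range J, (D.z n (evY n none y) +
      ∑ j ∈ Finset.range J, D.p n (evY n (some j) y))
    by_cases hn : n < J
    · cases o with
      | none => exact hz n hn
      | some j =>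
        by_cases hj : j < J
        · exact hp n j hn hj
        · show D.p n (evY n (some j) y) ≤ _
          have h3 : evY n (some j) y = evY n none y := h2 n j (by omega)
          rw [h3]
          exact (D.pz n _).trans (hz n hn)
    · have h3 : evY n o y = 0 := by
        show (y : ℕ → Option ℕ → Vec) n o = 0
        rw [h1 n (by omega)]; rfl
      have h4 : qf D (n, o) y = 0 := by
        cases o with
        | none =>
          show D.z n (evY n none y) = 0
          rw [h3, map_zero]
        | some j =>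
          show D.p n (evY n (some j) y) = 0
          rw [h3, map_zero]
      rw [h4]
      exact h0

/-- `Seminorm.bddAbove_range_iff`, `Seminorm.iSup_apply`. -/
theorem NY_apply (D : Dat) (y : Y0) : NY D y = ⨆ i, qf D i y :=
  Seminorm.iSup_apply (Seminorm.bddAbove_range_iff.2 fun y => qf_bdd D y)

theorem p_le_NY (D : Dat) (y : Y0) (n j : ℕ) : D.p n (evY n (some j) y) ≤ NY D y := by
  rw [NY_apply]
  exact le_ciSup (f := fun i => qf D i y) (qf_bdd D y) (n, some j)

theorem z_le_NY (D : Dat) (y : Y0) (n : ℕ) : D.z n (evY n none y) ≤ NY D y := by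
  rw [NY_apply]
  exact le_ciSup (f := fun i => qf D i y) (qf_bdd D y) (n, none)

theorem NY_le (D : Dat) (y : Y0) {M : ℝ} (h1 : ∀ n j, D.p n (evY n (some j) y) ≤ M)
    (h2 : ∀ n, D.z n (evY n none y) ≤ M) : NY D y ≤ M := by
  rw [NY_apply]
  refine ciSup_le ?_
  rintro ⟨n, o⟩
  cases o with
  | none => exact h2 n
  | some j => exact h1 n j

/-- The index set of the `l_1` part. -/
abbrev Ga (D : Dat) : Type := Σ n, Fin (D.k n)

/-- The dense subspace of the counterexample. -/
abbrev W0 (D : Dat) : Type := Y0 × (Ga D →₀ ℝ)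

/-- Its seminorm. -/
def NW (D : Dat) : SN (W0 D) := sumS (NY D) (l1f (Ga D))

theorem NW_apply (D : Dat) (w : W0 D) : NW D w = NY D w.1 + l1f (Ga D) w.2 := rfl

/-- The constant family: the vector `v` (cut to the first `J` coordinates) at `(n, some j)`, `j ≥ J`, and at `(n, none)`,
for all `n`; here for a finitely supported family `x : ℕ →₀ Vec`. -/
def cst (J : ℕ) : (ℕ →₀ Vec) →ₗ[ℝ] Y0 where
  toFun x := ⟨fun n o => match o with
      | none => tr J (x n)
      | some j => if J ≤ j then tr J (x n) else 0, by
    refine ⟨⟨max J (x.support.sup id + 1), fun n hn => ?_, fun n j hj => ?_⟩, fun n j i hi => ?_⟩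
    · have hx : x n = 0 := by
        by_contra h
        have h1 : n ≤ x.support.sup id := Finset.le_sup (f := id) (Finsupp.mem_support_iff.2 h)
        have h2 := le_trans (le_max_right _ _) hn
        omega
      funext o
      cases o with
      | none => simp [hx]
      | some j => simp [hx]
    · have : J ≤ j := le_trans (le_max_left _ _) hj
      simp [this]
    · by_cases h : J ≤ j
      · simp only [h, if_true]
        show (Finsupp.filter (fun i => i < J) (x n)) i = 0
        rw [Finsupp.filter_apply, if_neg (by omega)]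
      · simp [h]⟩
  map_add' x x' := by
    apply Subtype.ext
    funext n o
    cases o with
    | none => exact map_add (tr J) (x n) (x' n)
    | some j =>
      show (if J ≤ j then tr J ((x + x') n) else 0) =
        (if J ≤ j then tr J (x n) else 0) + (if J ≤ j then tr J (x' n) else 0)
      split_ifs
      · exact map_add (tr J) (x n) (x' n)
      · rw [add_zero]
  map_smul' c x := by
    apply Subtype.ext
    funext n o
    cases o with
    | none => exact map_smul (tr J) c (x n)
    | some j =>
      show (if J ≤ j then tr J ((c • x) n) else 0) = c • (if J ≤ j then tr J (x n) else 0)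
      split_ifs
      · exact map_smul (tr J) c (x n)
      · rw [smul_zero]

theorem cst_none (J : ℕ) (x : ℕ →₀ Vec) (n : ℕ) : evY n none (cst J x) = tr J (x n) := rfl

theorem cst_some (J : ℕ) (x : ℕ →₀ Vec) (n j : ℕ) :
    evY n (some j) (cst J x) = if J ≤ j then tr J (x n) else 0 := rfl

/-- The element with the vector `v` (cut to the first `j` coordinates) at the place `(n, some j)`. -/
def pl (n j : ℕ) : Vec →ₗ[ℝ] Y0 where
  toFun v := ⟨fun n' o => if n' = n ∧ o = some j then tr j v else 0, by
    refine ⟨⟨max (n + 1) (j + 1), fun n' hn => ?_, fun n' j' hj => ?_⟩, fun n' j' i hi => ?_⟩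
    · have h1 : n + 1 ≤ n' := le_trans (le_max_left _ _) hn
      funext o
      simp [show n' ≠ n by omega]
    · have h1 : j + 1 ≤ j' := le_trans (le_max_right _ _) hj
      simp [show j' ≠ j by omega]
    · by_cases h : n' = n ∧ (some j' : Option ℕ) = some j
      · simp only [h, if_true, and_self]
        have : j' = j := by simpa using h.2
        show (Finsupp.filter (fun i => i < j) v) i = 0
        rw [Finsupp.filter_apply, if_neg (by omega)]
      · simp only [if_neg h]; rfl⟩
  map_add' v v' := by
    apply Subtype.ext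
    funext n' o
    show (if n' = n ∧ o = some j then tr j (v + v') else 0) =
      (if n' = n ∧ o = some j then tr j v else 0) + (if n' = n ∧ o = some j then tr j v' else 0)
    split_ifs
    · exact map_add _ _ _
    · rw [add_zero]
  map_smul' c v := by
    apply Subtype.ext
    funext n' o
    show (if n' = n ∧ o = some j then tr j (c • v) else 0) =
      c • (if n' = n ∧ o = some j then tr j v else 0)
    split_ifs
    · exact map_smul _ _ _
    · rw [smul_zero]

theorem pl_apply (n j : ℕ) (v : Vec) (n' : ℕ) (o : Option ℕ) :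
    evY n' o (pl n j v) = if n' = n ∧ o = some j then tr j v else 0 := rfl

end

end RF
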