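import Pool.Agent.RF.Base

/-!
# [RF-E2] Completion of a seminormed space, and a criterion for AP

* `exists_compl`: `W` with the seminorm `N`.  Make a type synonym of `W` a seminormed space
  (`AddGroupSeminorm.toSeminormedAddCommGroup` / `Seminorm` structure, `NormedSpace` from `map_smul_eq_mul`) and take
  `UniformSpace.Completion`; `i` is the coercion.  `UniformSpace.Completion.norm_coe`, `denseRange_coe`.
* `ap_criterion`.  Let `K` be compact, `ε > 0`.  (1) The `P n` extend to `E` with norm `≤ 1` (`i` need not be injective, but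
  `N (P n w) ≤ N w`, so `i w ↦ i (P n w)` is well defined on the range of `i` and extends by density and completeness;
  `LinearMap.extend...` or: `ContinuousLinearMap.extend`, `DenseRange`, or avoid extending `P n`: see below).
  (2) Cover `K` by finitely many balls of radius `ε/8` with centres `i (w_1), ..., i (w_r)` (density); let `n` be larger than
  all `n0 (w_k)`.  Then `‖P̄_n x - x‖ ≤ ‖P̄_n (x - i w_k)‖ + ‖i w_k - x‖ ≤ ε/4` on `K` (as `P n w_k = w_k`).
  (3) With this `n` fixed put `C = C n`, cover `K` by finitely many balls of radius `ε/(8(|C|+1))` with centres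
  `i (w'_1), ..` and let `J` be larger than all `J0 (w'_k)`.  Then for `x ∈ K`, `‖T̄ x - P̄_n x‖ ≤ ‖T̄(x - i w'_k)‖ +
  ‖P̄_n (i w'_k - x)‖ ≤ (|C| + 1) ε/(8(|C|+1))`.  So `‖T̄ x - x‖ ≤ ε/4 + ε/8 < ε`.
  (4) `T̄` = extension of `i w ↦ i (T n J w)`, its range is contained in `i (range (T n J))`, which is finite-dimensional
  hence closed (the range of the extension lies in the closure).
-/

set_option linter.unusedVariables false

namespace RF

theorem exists_compl {W : Type} [AddCommGroup W] [Module ℝ W] (N : SN W) :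
    ∃ (E : Type) (_ : NormedAddCommGroup E) (_ : NormedSpace ℝ E) (_ : CompleteSpace E)
      (i : W →ₗ[ℝ] E), DenseRange i ∧ ∀ w, ‖i w‖ = N w := by
  let s1 : SeminormedAddCommGroup W := N.toAddGroupSeminorm.toSeminormedAddCommGroup
  let s2 : NormedSpace ℝ W := { norm_smul_le := fun a b => (map_smul_eq_mul N a b).le }
  refine ⟨UniformSpace.Completion W, inferInstance, inferInstance, inferInstance,
    (UniformSpace.Completion.toComplL : W →L[ℝ] UniformSpace.Completion W).toLinearMap, ?_, ?_⟩
  · exact UniformSpace.Completion.denseRange_coe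
  · intro w
    exact UniformSpace.Completion.norm_coe w

/-- Extension of a bounded linear map given on a dense subspace. -/
theorem exists_ext {W E F : Type} [AddCommGroup W] [Module ℝ W] [NormedAddCommGroup E]
    [NormedSpace ℝ E] [NormedAddCommGroup F] [NormedSpace ℝ F] [CompleteSpace F] (N : SN W)
    (i : W →ₗ[ℝ] E) (hi : DenseRange i) (hn : ∀ w, ‖i w‖ = N w) (f : W →ₗ[ℝ] F) (C : ℝ)
    (hC : 0 ≤ C) (hf : ∀ w, ‖f w‖ ≤ C * N w) :
    ∃ g : E →L[ℝ] F, (∀ w, g (i w) = f w) ∧ ∀ x, ‖g x‖ ≤ C * ‖x‖ := by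
  have h : ∀ w, ‖f w‖ ≤ C * ‖i w‖ := fun w => by rw [hn]; exact hf w
  exact ⟨f.extendOfNorm i, fun w => LinearMap.extendOfNorm_eq hi ⟨C, h⟩ w,
    LinearMap.norm_extendOfNorm_apply_le hi C h⟩

end RF
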