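import Pool.Agent.RF.E2

/-!
# [RF-E2] Completion of a seminormed space, and a criterion for AP

* `exists_compl`: `W` with the seminorm `N`.  Make a type synonym of `W` a seminormed space
  (`AddGroupSeminorm.toSeminormedAddCommGroup` / `Seminorm` structure, `NormedSpace` from `map_smul_eq_mul`) and take
  `UniformSpace.Completion`; `i` is the coercion.  `UniformSpace.Completion.norm_coe`, `denseRange_coe`.
* `ap_criterion`.  Let `K` be compact, `ε > 0`.  (1) The `P n` extend to `E` with norm `≤ 1` (`i` need not be injective, but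
  `N (P n w) ≤ N w`, so `i w ↦ i (P n w)` is well defined on the range of `i` and extends by density and completeness;
  `LinearMap.extend...` or: `ContinuousLinearMap.extend`, `DenseRange`, or avoid extending `P n`: see below).
  (2) Cover `K` by finitely many balls of radius `ε/8` with centres `i (w_1), ..., i (w_r)` (density); let `n` be larger than
  all `n0 (w_k)`.  Then `‖P̄_n x - x‖ ≤ ‖P̄_n (x - i w_k)‖ + ‖i w_k - x‖ ≤ ε/4` on `K` (as `P n w_k = w_k`).
  (3) With this `n` fixed put `C = C n`, cover `K` by finitely many balls of radius `ε/(8(|C|+1))` with centres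
  `i (w'_1), ..` and let `J` be larger than all `J0 (w'_k)`.  Then for `x ∈ K`, `‖T̄ x - P̄_n x‖ ≤ ‖T̄(x - i w'_k)‖ +
  ‖P̄_n (i w'_k - x)‖ ≤ (|C| + 1) ε/(8(|C|+1))`.  So `‖T̄ x - x‖ ≤ ε/4 + ε/8 < ε`.
  (4) `T̄` = extension of `i w ↦ i (T n J w)`, its range is contained in `i (range (T n J))`, which is finite-dimensional
  hence closed (the range of the extension lies in the closure).
-/

set_option linter.unusedVariables false

namespace RF

private theorem e2b_cover {W E : Type} [AddCommGroup W] [Module ℝ W] [NormedAddCommGroup E]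
    [NormedSpace ℝ E] (i : W →ₗ[ℝ] E) (hi : DenseRange i) {K : Set E} (hK : IsCompact K)
    {δ : ℝ} (hδ : 0 < δ) : ∃ t : Finset W, ∀ x ∈ K, ∃ w ∈ t, ‖x - i w‖ < δ := by
  obtain ⟨t, ht⟩ := hK.elim_finite_subcover (fun w : W => Metric.ball (i w) δ)
    (fun w => Metric.isOpen_ball) (fun x _ => by
      obtain ⟨w, hw⟩ := hi.exists_dist_lt x hδ
      exact Set.mem_iUnion.2 ⟨w, hw⟩)
  refine ⟨t, fun x hx => ?_⟩
  obtain ⟨w, hw⟩ := Set.mem_iUnion.1 (ht hx)
  obtain ⟨hwt, hw2⟩ := Set.mem_iUnion.1 hw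
  refine ⟨w, hwt, ?_⟩
  rw [← dist_eq_norm]
  exact hw2

theorem ap_criterion {W E : Type} [AddCommGroup W] [Module ℝ W] [NormedAddCommGroup E]
    [NormedSpace ℝ E] [CompleteSpace E] (N : SN W) (i : W →ₗ[ℝ] E) (hi : DenseRange i)
    (hn : ∀ w, ‖i w‖ = N w)
    (P : ℕ → (W →ₗ[ℝ] W)) (hP : ∀ n w, N (P n w) ≤ N w)
    (hP1 : ∀ w, ∃ n0, ∀ n, n0 ≤ n → P n w = w)
    (T : ℕ → ℕ → (W →ₗ[ℝ] W)) (C : ℕ → ℝ) (hC : ∀ n, 0 ≤ C n)
    (hT : ∀ n J w, N (T n J w) ≤ C n * N w)
    (hT1 : ∀ n w, ∃ J0, ∀ J, J0 ≤ J → T n J w = P n w)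
    (hT2 : ∀ n J, (LinearMap.range (T n J)).FG) : HasAP ℝ E := by
  intro K hK ε hε
  have hPx : ∀ n, ∃ g : E →L[ℝ] E, (∀ w, g (i w) = (i ∘ₗ P n) w) ∧ ∀ x, ‖g x‖ ≤ 1 * ‖x‖ :=
    fun n => exists_ext N i hi hn (i ∘ₗ P n) 1 zero_le_one (fun w => by
      rw [LinearMap.comp_apply, hn, one_mul]
      exact hP n w)
  have hTx : ∀ n J, ∃ g : E →L[ℝ] E, (∀ w, g (i w) = (i ∘ₗ T n J) w) ∧ ∀ x, ‖g x‖ ≤ C n * ‖x‖ :=
    fun n J => exists_ext N i hi hn (i ∘ₗ T n J) (C n) (hC n) (fun w => by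
      rw [LinearMap.comp_apply, hn]
      exact hT n J w)
  -- the first cover
  obtain ⟨t, ht⟩ := e2b_cover i hi hK (δ := ε / 8) (by positivity)
  choose n0 hn0 using hP1
  obtain ⟨n, hn1⟩ : ∃ n, ∀ w ∈ t, P n w = w :=
    ⟨t.sup n0, fun w hw => hn0 w _ (Finset.le_sup (f := n0) hw)⟩
  obtain ⟨g, hg1, hg2⟩ := hPx n
  have hgx : ∀ x ∈ K, ‖g x - x‖ ≤ ε / 4 := by
    intro x hx
    obtain ⟨w, hw, hxw⟩ := ht x hx
    have h1 : g x - x = g (x - i w) + (i w - x) := by
      rw [map_sub, hg1, LinearMap.comp_apply, hn1 w hw]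
      abel
    rw [h1]
    have h2 := hg2 (x - i w)
    have h3 := norm_add_le (g (x - i w)) (i w - x)
    rw [norm_sub_rev (i w) x] at h3
    linarith
  -- the second cover
  have hC1 : 0 < C n + 1 := by
    have := hC n
    linarith
  obtain ⟨t', ht'⟩ := e2b_cover i hi hK (δ := ε / (8 * (C n + 1))) (by positivity)
  choose J0 hJ0 using hT1 n
  obtain ⟨J, hJ⟩ : ∃ J, ∀ w ∈ t', T n J w = P n w :=
    ⟨t'.sup J0, fun w hw => hJ0 w _ (Finset.le_sup (f := J0) hw)⟩
  obtain ⟨f, hf1, hf2⟩ := hTx n J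
  refine ⟨f, ?_, ?_⟩
  · have hfd : FiniteDimensional ℝ (LinearMap.range (T n J)) := Module.Finite.iff_fg.2 (hT2 n J)
    have hfd2 : FiniteDimensional ℝ ((LinearMap.range (T n J)).map i) := inferInstance
    refine Submodule.finiteDimensional_of_le (?_ : LinearMap.range (f : E →ₗ[ℝ] E) ≤
      (LinearMap.range (T n J)).map i)
    rintro _ ⟨x, rfl⟩
    show f x ∈ (LinearMap.range (T n J)).map i
    have hcl : IsClosed (((LinearMap.range (T n J)).map i : Submodule ℝ E) : Set E) :=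
      Submodule.closed_of_finiteDimensional _
    refine hi.induction_on (p := fun x => f x ∈ (LinearMap.range (T n J)).map i) x
      (hcl.preimage f.continuous) fun w => ?_
    rw [hf1]
    exact ⟨T n J w, ⟨w, rfl⟩, rfl⟩
  · intro x hx
    obtain ⟨w, hw, hxw⟩ := ht' x hx
    have h1 : f x - x = f (x - i w) + g (i w - x) + (g x - x) := by
      rw [map_sub, map_sub, hf1, hg1, LinearMap.comp_apply, LinearMap.comp_apply, hJ w hw]
      abel
    have h2 := hf2 (x - i w)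
    have h3 := hg2 (i w - x)
    rw [norm_sub_rev (i w) x] at h3
    have h4 : ‖f (x - i w) + g (i w - x) + (g x - x)‖ ≤ ‖f (x - i w)‖ + ‖g (i w - x)‖ + ‖g x - x‖ :=
      norm_add₃_le
    have h5 := hgx x hx
    have h6 : (C n + 1) * ‖x - i w‖ ≤ ε / 8 := by
      have h7 := mul_le_mul_of_nonneg_left hxw.le hC1.le
      have h8 : (C n + 1) * (ε / (8 * (C n + 1))) = ε / 8 := by
        field_simp
      linarith
    rw [h1]
    linarith

end RF
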