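import Pool.Agent.RF.E1
import Pool.Agent.RF.E2b

/-!
# [RF-E3] The space of the counterexample has AP

On `W0 D = Y0 × (Γ →₀ ℝ)`: `PP N (y,g) = (cut to n < N, g filtered to n < N)`, `TT N J (y,g) = (st J (cut N y), same g)` with
`st J y n (some j) = y n (some j)` for `j ≤ J`, `y n (some J)` for `j > J`, and `st J y n none = y n (some J)`.
* `NW (PP N w) ≤ NW w`: coordinatewise (`NY_le`, `p_le_NY`, `z_le_NY`), `l1f` of a filter is smaller.
* `NW (TT N J w) ≤ C NW w`, `C = 1 + ∑_{n<N} s n`: `z_n (y n (some J)) ≤ s n p_n (y n (some J)) ≤ s n NY y` (`zp`), the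
  `p`-coordinates are those of `y`.
* `PP N w = w` for large `N`, `TT N J w = PP N w` for large `J` (definition of `Y0`).
* the range of `TT N J` is finite-dimensional: the map factors through the finite-dimensional space
  `(Fin N → Fin (J+1) → Fin J → ℝ) × ({i : Γ // i.1 < N} → ℝ)` of the coordinates `y n (some j) i`, `n < N`, `j ≤ J`, `i < J`
  (all other coordinates of `y n (some j)`, `j ≤ J`, vanish) and `g i`: the kernel of `TT N J` contains the kernel of this
  restriction map, so the range is a quotient of the (finite-dimensional) image (e.g. `LinearMap.finiteDimensional_range`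
  for a composition `A ∘ B` with `B` into a finite-dimensional space).
-/

set_option linter.unusedVariables false

namespace RF

noncomputable section

/-- Cut to `n < N`. -/
def cut (N : ℕ) : Y0 →ₗ[ℝ] Y0 where
  toFun y := ⟨fun n o => if n < N then (y : ℕ → Option ℕ → Vec) n o else 0, by
    obtain ⟨⟨J, h1, h2⟩, h3⟩ := y.2
    refine ⟨⟨J, fun n hn => ?_, fun n j hj => ?_⟩, fun n j i hi => ?_⟩
    · funext o; simp [h1 n hn]
    · simp only [h2 n j hj]
    · by_cases h : n < N
      · simp only [h, if_true]; exact h3 n j i hi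
      · simp [h]⟩
  map_add' y y' := by
    apply Subtype.ext
    funext n o
    show (if n < N then _ + _ else (0 : Vec)) = (if n < N then _ else 0) + (if n < N then _ else 0)
    split_ifs
    · rfl
    · rw [add_zero]
  map_smul' c y := by
    apply Subtype.ext
    funext n o
    show (if n < N then c • _ else (0 : Vec)) = c • (if n < N then _ else 0)
    split_ifs
    · rfl
    · rw [smul_zero]

/-- Stop at `J`. -/
def st (J : ℕ) : Y0 →ₗ[ℝ] Y0 where
  toFun y := ⟨fun n o => match o with
      | none => (y : ℕ → Option ℕ → Vec) n (some J)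
      | some j => if j ≤ J then (y : ℕ → Option ℕ → Vec) n (some j)
          else (y : ℕ → Option ℕ → Vec) n (some J), by
    obtain ⟨⟨J', h1, h2⟩, h3⟩ := y.2
    refine ⟨⟨max J' (J + 1), fun n hn => ?_, fun n j hj => ?_⟩, fun n j i hi => ?_⟩
    · have h := h1 n (le_trans (le_max_left _ _) hn)
      funext o
      cases o with
      | none => simp [h]
      | some j => simp [h]
    · have : J + 1 ≤ j := le_trans (le_max_right _ _) hj
      simp [show ¬ j ≤ J by omega]
    · by_cases h : j ≤ J
      · simp only [h, if_true]; exact h3 n j i hi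
      · simp only [h, if_false]; exact h3 n J i (by omega)⟩
  map_add' y y' := by
    apply Subtype.ext
    funext n o
    cases o with
    | none => rfl
    | some j =>
      by_cases h : j ≤ J
      · simp [h]
      · simp [h]
  map_smul' c y := by
    apply Subtype.ext
    funext n o
    cases o with
    | none => rfl
    | some j =>
      by_cases h : j ≤ J
      · simp [h]
      · simp [h]

/-- Filter the `l_1` part. -/
def gf (D : Dat) (N : ℕ) : (Ga D →₀ ℝ) →ₗ[ℝ] (Ga D →₀ ℝ) where
  toFun g := g.filter (fun i => i.1 < N)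
  map_add' _ _ := Finsupp.filter_add
  map_smul' _ _ := Finsupp.filter_smul

def PP (D : Dat) (N : ℕ) : W0 D →ₗ[ℝ] W0 D := (cut N).prodMap (gf D N)

def TT (D : Dat) (N J : ℕ) : W0 D →ₗ[ℝ] W0 D := ((st J).comp (cut N)).prodMap (gf D N)

theorem e3_cut (N n : ℕ) (o : Option ℕ) (y : Y0) :
    evY n o (cut N y) = if n < N then evY n o y else 0 := rfl

theorem e3_st_none (J n : ℕ) (y : Y0) : evY n none (st J y) = evY n (some J) y := rfl

theorem e3_st_some (J n j : ℕ) (y : Y0) :
    evY n (some j) (st J y) = if j ≤ J then evY n (some j) y else evY n (some J) y := rfl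

theorem e3_gf_apply (D : Dat) (N : ℕ) (g : Ga D →₀ ℝ) (i : Ga D) :
    gf D N g i = if i.1 < N then g i else 0 := by
  show (g.filter (fun i => i.1 < N)) i = _
  rw [Finsupp.filter_apply]

theorem e3_gf_le (D : Dat) (N : ℕ) (g : Ga D →₀ ℝ) : l1f (Ga D) (gf D N g) ≤ l1f (Ga D) g := by
  rw [l1f_apply, l1f_apply]
  have hsub : (gf D N g).support ⊆ g.support := by
    intro i hi
    rw [Finsupp.mem_support_iff, e3_gf_apply] at hi
    rw [Finsupp.mem_support_iff]
    intro h0
    apply hi
    rw [h0, ite_self]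
  rw [Finsupp.sum_of_support_subset (gf D N g) (s := g.support) hsub _ (by simp), Finsupp.sum]
  refine Finset.sum_le_sum fun i _ => ?_
  rw [e3_gf_apply]
  split_ifs
  · exact le_rfl
  · rw [abs_zero]
    exact abs_nonneg _

theorem e3_p_cut (D : Dat) (N n j : ℕ) (y : Y0) :
    D.p n (evY n (some j) (cut N y)) ≤ NY D y := by
  rw [e3_cut]
  split_ifs
  · exact p_le_NY D y n j
  · rw [map_zero]
    exact apply_nonneg _ _

theorem e3_sum_nn (D : Dat) (N : ℕ) : 0 ≤ ∑ n ∈ Finset.range N, (D.s n : ℝ) :=
  Finset.sum_nonneg fun n _ => Nat.cast_nonneg _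

theorem PP_le (D : Dat) (N : ℕ) (w : W0 D) : NW D (PP D N w) ≤ NW D w := by
  rw [NW_apply, NW_apply]
  refine add_le_add ?_ (e3_gf_le D N w.2)
  show NY D (cut N w.1) ≤ NY D w.1
  refine NY_le D _ (fun n j => e3_p_cut D N n j w.1) fun n => ?_
  rw [e3_cut]
  split_ifs
  · exact z_le_NY D w.1 n
  · rw [map_zero]
    exact apply_nonneg _ _

theorem PP_eq (D : Dat) (w : W0 D) : ∃ n0, ∀ n, n0 ≤ n → PP D n w = w := by
  obtain ⟨y, g⟩ := w
  obtain ⟨⟨J, h1, h2⟩, h3⟩ := y.2
  refine ⟨max J (g.support.sup (fun i => i.1) + 1), fun N hN => ?_⟩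
  refine Prod.ext ?_ ?_
  · show cut N y = y
    apply Subtype.ext
    funext n o
    show (if n < N then (y : ℕ → Option ℕ → Vec) n o else 0) = (y : ℕ → Option ℕ → Vec) n o
    split_ifs with h
    · rfl
    · have hJ : J ≤ n := le_trans (le_trans (le_max_left _ _) hN) (not_lt.1 h)
      rw [h1 n hJ]
      rfl
  · show gf D N g = g
    ext i
    rw [e3_gf_apply]
    split_ifs with h
    · rfl
    · by_contra hne
      have hi : i ∈ g.support := Finsupp.mem_support_iff.2 (Ne.symm hne)
      have h4 : i.1 ≤ g.support.sup (fun i => i.1) := Finset.le_sup (f := fun i : Ga D => i.1) hi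
      have h5 := le_trans (le_max_right _ _) hN
      omega

theorem TT_le (D : Dat) (N J : ℕ) (w : W0 D) :
    NW D (TT D N J w) ≤ (1 + ∑ n ∈ Finset.range N, (D.s n : ℝ)) * NW D w := by
  have hs := e3_sum_nn D N
  have hC : (1 : ℝ) ≤ 1 + ∑ n ∈ Finset.range N, (D.s n : ℝ) := by linarith
  have h0 : 0 ≤ NY D w.1 := apply_nonneg _ _
  have hp : ∀ n j, D.p n (evY n (some j) (cut N w.1)) ≤
      (1 + ∑ n ∈ Finset.range N, (D.s n : ℝ)) * NY D w.1 := fun n j =>
    le_trans (e3_p_cut D N n j w.1) (le_mul_of_one_le_left h0 hC)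
  rw [NW_apply, NW_apply, mul_add]
  refine add_le_add ?_ ?_
  · show NY D (st J (cut N w.1)) ≤ _
    refine NY_le D _ (fun n j => ?_) fun n => ?_
    · rw [e3_st_some]
      split_ifs
      · exact hp n j
      · exact hp n J
    · rw [e3_st_none, e3_cut]
      split_ifs with h
      · refine le_trans (D.zp n _) ?_
        refine mul_le_mul ?_ (p_le_NY D w.1 n J) (apply_nonneg _ _) (by linarith)
        have h4 : (D.s n : ℝ) ≤ ∑ n ∈ Finset.range N, (D.s n : ℝ) :=
          Finset.single_le_sum (f := fun n => (D.s n : ℝ)) (fun n _ => Nat.cast_nonneg _)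
            (Finset.mem_range.2 h)
        linarith
      · rw [map_zero]
        exact mul_nonneg (by linarith) h0
  · exact le_trans (e3_gf_le D N w.2) (le_mul_of_one_le_left (apply_nonneg _ _) hC)

theorem TT_eq (D : Dat) (N : ℕ) (w : W0 D) : ∃ J0, ∀ J, J0 ≤ J → TT D N J w = PP D N w := by
  obtain ⟨y, g⟩ := w
  obtain ⟨⟨J0, h1, h2⟩, h3⟩ := (cut N y).2
  refine ⟨J0, fun J hJ => ?_⟩
  refine Prod.ext ?_ rfl
  show st J (cut N y) = cut N y
  apply Subtype.ext
  funext n o
  cases o with
  | none =>
    show ((cut N y : Y0) : ℕ → Option ℕ → Vec) n (some J) = _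
    exact h2 n J hJ
  | some j =>
    show (if j ≤ J then ((cut N y : Y0) : ℕ → Option ℕ → Vec) n (some j)
      else ((cut N y : Y0) : ℕ → Option ℕ → Vec) n (some J)) = _
    split_ifs with h
    · rfl
    · rw [h2 n J hJ, h2 n j (by omega)]

end

end RF
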