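import Pool.Agent.RF.E3

/-!
# [RF-E3] The space of the counterexample has AP

On `W0 D = Y0 × (Γ →₀ ℝ)`: `PP N (y,g) = (cut to n < N, g filtered to n < N)`, `TT N J (y,g) = (st J (cut N y), same g)` with
`st J y n (some j) = y n (some j)` for `j ≤ J`, `y n (some J)` for `j > J`, and `st J y n none = y n (some J)`.
* `NW (PP N w) ≤ NW w`: coordinatewise (`NY_le`, `p_le_NY`, `z_le_NY`), `l1f` of a filter is smaller.
* `NW (TT N J w) ≤ C NW w`, `C = 1 + ∑_{n<N} s n`: `z_n (y n (some J)) ≤ s n p_n (y n (some J)) ≤ s n NY y` (`zp`), the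
  `p`-coordinates are those of `y`.
* `PP N w = w` for large `N`, `TT N J w = PP N w` for large `J` (definition of `Y0`).
* the range of `TT N J` is finite-dimensional: the map factors through the finite-dimensional space
  `(Fin N → Fin (J+1) → Fin J → ℝ) × ({i : Γ // i.1 < N} → ℝ)` of the coordinates `y n (some j) i`, `n < N`, `j ≤ J`, `i < J`
  (all other coordinates of `y n (some j)`, `j ≤ J`, vanish) and `g i`: the kernel of `TT N J` contains the kernel of this
  restriction map, so the range is a quotient of the (finite-dimensional) image (e.g. `LinearMap.finiteDimensional_range`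
  for a composition `A ∘ B` with `B` into a finite-dimensional space).
-/

set_option linter.unusedVariables false

namespace RF

noncomputable section

theorem e3b_fg {V W F : Type} [AddCommGroup V] [Module ℝ V] [AddCommGroup W] [Module ℝ W]
    [AddCommGroup F] [Module ℝ F] [FiniteDimensional ℝ F] (f : V →ₗ[ℝ] W) (B : V →ₗ[ℝ] F)
    (h : LinearMap.ker B ≤ LinearMap.ker f) : (LinearMap.range f).FG := by
  have h1 : Module.Finite ℝ (V ⧸ LinearMap.ker B) := Module.Finite.equiv B.quotKerEquivRange.symm
  have hr : LinearMap.range ((LinearMap.ker B).liftQ f h) = LinearMap.range f :=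
    Submodule.range_liftQ _ _ _
  rw [← hr]
  exact Module.Finite.iff_fg.1 inferInstance

theorem TT_fin (D : Dat) (N J : ℕ) : (LinearMap.range (TT D N J)).FG := by
  unfold TT
  rw [LinearMap.range_prodMap]
  refine Submodule.FG.prod ?_ ?_
  · let B : Y0 →ₗ[ℝ] (Fin N → Fin (J + 1) → Fin J → ℝ) :=
      LinearMap.pi fun n => LinearMap.pi fun j => LinearMap.pi fun i =>
        (Finsupp.lapply (i : ℕ)).comp (evY n (some (j : ℕ)))
    refine e3b_fg (V := Y0) (W := Y0) (F := Fin N → Fin (J + 1) → Fin J → ℝ)
      ((st J).comp (cut N)) B ?_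
    intro y hy
    rw [LinearMap.mem_ker] at hy ⊢
    have h1 : ∀ n j, n < N → j ≤ J → (y : ℕ → Option ℕ → Vec) n (some j) = 0 := by
      intro n j hn hj
      ext i
      by_cases hi : i < J
      · have h2 := congrFun (congrFun (congrFun hy ⟨n, hn⟩) ⟨j, by omega⟩) ⟨i, hi⟩
        exact h2
      · exact y.2.2 n j i (by omega)
    apply Subtype.ext
    funext n o
    cases o with
    | none =>
      show (if n < N then (y : ℕ → Option ℕ → Vec) n (some J) else 0) = 0
      split_ifs with h
      · exact h1 n J h le_rfl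
      · rfl
    | some j =>
      show (if j ≤ J then (if n < N then (y : ℕ → Option ℕ → Vec) n (some j) else 0)
        else (if n < N then (y : ℕ → Option ℕ → Vec) n (some J) else 0)) = 0
      by_cases h' : n < N
      · rw [if_pos h', if_pos h']
        by_cases h : j ≤ J
        · rw [if_pos h]
          exact h1 n j h' h
        · rw [if_neg h]
          exact h1 n J h' le_rfl
      · rw [if_neg h', if_neg h', ite_self]
  · let B : (Ga D →₀ ℝ) →ₗ[ℝ] (∀ n : Fin N, (Fin (D.k n) → ℝ)) :=
      LinearMap.pi fun n => LinearMap.pi fun i => Finsupp.lapply (⟨(n : ℕ), i⟩ : Ga D)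
    refine e3b_fg (V := Ga D →₀ ℝ) (W := Ga D →₀ ℝ) (F := ∀ n : Fin N, (Fin (D.k n) → ℝ))
      (gf D N) B ?_
    intro g hg
    rw [LinearMap.mem_ker] at hg ⊢
    ext ⟨n, i⟩
    rw [e3_gf_apply]
    split_ifs with h
    · have h2 := congrFun (congrFun hg ⟨n, h⟩) i
      exact h2
    · rfl

theorem hasAP_of_dense (D : Dat) {E : Type} [NormedAddCommGroup E] [NormedSpace ℝ E]
    [CompleteSpace E] (i : W0 D →ₗ[ℝ] E) (hi : DenseRange i) (hn : ∀ w, ‖i w‖ = NW D w) :
    HasAP ℝ E :=
  ap_criterion (NW D) i hi hn (PP D) (PP_le D) (PP_eq D) (TT D)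
    (fun N => 1 + ∑ n ∈ Finset.range N, (D.s n : ℝ))
    (fun N => by positivity) (fun N J w => TT_le D N J w) (TT_eq D) (TT_fin D)

end

end RF
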