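import Pool.Agent.RF.D1c

/-!
# [RF-F1] Blocks of `l_4^s(l_2^m)`: maps into cotype 2 spaces

`sv a w` = the vector `w` in the block `a`.
* `norm_sv_sum`: `‖∑_a c_a • sv a (w a)‖^4 = ∑ |c_a|^4 ‖w a‖^4`.
* `block4`: `d : Rb s m → V` linear, `N (d r) ≤ ‖r‖`, `CT2 N K`, `‖w a‖ ≤ 1`.  Put `δ_a = N (d (sv a (w a)))` and apply
  cotype 2 to the family `x_a = δ_a • d (sv a (w a))`: for all signs `N (rs x e) = N (d (∑ ± δ_a sv a (w a))) ≤
  (∑ δ_a^4)^{1/4}`, so with `S = ∑ δ_a^4`: `sqrt (∑ δ_a^2 δ_a^2) = sqrt S ≤ K S^{1/4}`, i.e. `S^2 ≤ K^4 S`, so `S ≤ K^4`.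
-/

set_option linter.unusedVariables false

namespace RF

noncomputable section

/-- The vector `w` in the block `a`. -/
def sv {s m : ℕ} (a : Fin s) : EuclideanSpace ℝ (Fin m) →ₗ[ℝ] Rb s m where
  toFun w := WithLp.toLp 4 (fun b : Fin s => if b = a then w else 0)
  map_add' w w' := by
    ext b i
    by_cases h : b = a <;> simp [h]
  map_smul' c w := by
    ext b i
    by_cases h : b = a <;> simp [h]

theorem sv_apply {s m : ℕ} (a : Fin s) (w : EuclideanSpace ℝ (Fin m)) (b : Fin s) :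
    sv a w b = if b = a then w else 0 := rfl

theorem norm_sv {s m : ℕ} (a : Fin s) (w : EuclideanSpace ℝ (Fin m)) : ‖sv a w‖ = ‖w‖ := by
  have h4 : ‖sv a w‖ ^ 4 = ‖w‖ ^ 4 := by
    rw [Rb_norm4, Finset.sum_eq_single a]
    · rw [sv_apply, if_pos rfl]
    · intro b _ hb
      rw [sv_apply, if_neg hb, norm_zero]
      norm_num
    · intro h
      exact absurd (Finset.mem_univ a) h
  exact (pow_left_inj₀ (norm_nonneg _) (norm_nonneg _) (by norm_num)).1 h4

theorem F1_sum_apply {s m : ℕ} (c : Fin s → ℝ) (w : Fin s → EuclideanSpace ℝ (Fin m))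
    (b : Fin s) : (∑ a, c a • sv a (w a)) b = c b • w b := by
  have h1 : ∀ (t : Finset (Fin s)), (∑ a ∈ t, c a • sv a (w a)) b
      = ∑ a ∈ t, c a • (sv a (w a) b) := by
    intro t
    classical
    induction t using Finset.induction_on with
    | empty => rfl
    | insert x t hx ih =>
      rw [Finset.sum_insert hx, Finset.sum_insert hx, ← ih]
      rfl
  rw [h1, Finset.sum_eq_single b]
  · rw [sv_apply, if_pos rfl]
  · intro a _ ha
    rw [sv_apply, if_neg (Ne.symm ha), smul_zero]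
  · intro h
    exact absurd (Finset.mem_univ b) h

theorem norm_sv_sum {s m : ℕ} (c : Fin s → ℝ) (w : Fin s → EuclideanSpace ℝ (Fin m)) :
    ‖∑ a, c a • sv a (w a)‖ ^ 4 = ∑ a, |c a| ^ 4 * ‖w a‖ ^ 4 := by
  rw [Rb_norm4]
  refine Finset.sum_congr rfl fun b _ => ?_
  rw [F1_sum_apply, norm_smul, Real.norm_eq_abs, mul_pow]

end

end RF
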