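import Pool.Agent.RF.F1

/-!
# [RF-F1] Blocks of `l_4^s(l_2^m)`: maps into cotype 2 spaces

`sv a w` = the vector `w` in the block `a`.
* `norm_sv_sum`: `‖∑_a c_a • sv a (w a)‖^4 = ∑ |c_a|^4 ‖w a‖^4`.
* `block4`: `d : Rb s m → V` linear, `N (d r) ≤ ‖r‖`, `CT2 N K`, `‖w a‖ ≤ 1`.  Put `δ_a = N (d (sv a (w a)))` and apply
  cotype 2 to the family `x_a = δ_a • d (sv a (w a))`: for all signs `N (rs x e) = N (d (∑ ± δ_a sv a (w a))) ≤
  (∑ δ_a^4)^{1/4}`, so with `S = ∑ δ_a^4`: `sqrt (∑ δ_a^2 δ_a^2) = sqrt S ≤ K S^{1/4}`, i.e. `S^2 ≤ K^4 S`, so `S ≤ K^4`.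
-/

set_option linter.unusedVariables false

namespace RF

noncomputable section

private theorem f1b_av {ι : Type} [Fintype ι] [DecidableEq ι] {f : (ι → Bool) → ℝ} {T : ℝ}
    (h : ∀ e, f e ≤ T) : av f ≤ T := by
  unfold av
  rw [div_le_iff₀ (by positivity)]
  calc ∑ e, f e ≤ ∑ _e : ι → Bool, T := Finset.sum_le_sum fun e _ => h e
    _ = T * 2 ^ Fintype.card ι := by
        rw [Finset.sum_const, Finset.card_univ, Fintype.card_fun, Fintype.card_bool, nsmul_eq_mul]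
        push_cast
        ring

theorem block4 {V : Type} [AddCommGroup V] [Module ℝ V] (N : SN V) {K : ℝ} (hK : 0 ≤ K)
    (hN : CT2 N K) {s m : ℕ} (d : Rb s m →ₗ[ℝ] V) (hd : ∀ r, N (d r) ≤ ‖r‖)
    (w : Fin s → EuclideanSpace ℝ (Fin m)) (hw : ∀ a, ‖w a‖ ≤ 1) :
    ∑ a, N (d (sv a (w a))) ^ 4 ≤ K ^ 4 := by
  classical
  set δ : Fin s → ℝ := fun a => N (d (sv a (w a))) with hδ
  have hδ0 : ∀ a, 0 ≤ δ a := fun a => apply_nonneg N _
  set S : ℝ := ∑ a, δ a ^ 4 with hS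
  have hS0 : 0 ≤ S := Finset.sum_nonneg fun a _ => by positivity
  set T : ℝ := Real.sqrt (Real.sqrt S) with hT
  have hT0 : 0 ≤ T := Real.sqrt_nonneg _
  have hT2 : T ^ 2 = Real.sqrt S := Real.sq_sqrt (Real.sqrt_nonneg _)
  have hT4 : T ^ 4 = S := by
    have : T ^ 4 = (T ^ 2) ^ 2 := by ring
    rw [this, hT2, Real.sq_sqrt hS0]
  have h1 := hN (Fin s) (fun a => δ a • d (sv a (w a)))
  have h2 : ∑ a, N (δ a • d (sv a (w a))) ^ 2 = S := by
    rw [hS]
    refine Finset.sum_congr rfl fun a _ => ?_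
    rw [map_smul_eq_mul, Real.norm_eq_abs, abs_of_nonneg (hδ0 a)]
    change (δ a * δ a) ^ 2 = δ a ^ 4
    ring
  have h3 : ∀ e : Fin s → Bool, N (rs (fun a => δ a • d (sv a (w a))) e) ≤ T := by
    intro e
    have h4 : rs (fun a => δ a • d (sv a (w a))) e = d (∑ a, (sg (e a) * δ a) • sv a (w a)) := by
      unfold rs
      rw [map_sum]
      exact Finset.sum_congr rfl fun a _ => by rw [map_smul, smul_smul]
    rw [h4]
    refine (hd _).trans ?_
    have h5 := norm_sv_sum (fun a => sg (e a) * δ a) w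
    have h6 : ‖∑ a, (sg (e a) * δ a) • sv a (w a)‖ ^ 4 ≤ T ^ 4 := by
      rw [h5, hT4, hS]
      refine Finset.sum_le_sum fun a _ => ?_
      rw [abs_mul, sg_abs, one_mul, abs_of_nonneg (hδ0 a)]
      have h7 : ‖w a‖ ^ 4 ≤ 1 := pow_le_one₀ (norm_nonneg _) (hw a)
      exact mul_le_of_le_one_right (by positivity) h7
    exact (pow_le_pow_iff_left₀ (norm_nonneg _) hT0 (by norm_num)).1 h6
  have h8 : Real.sqrt S ≤ K * T := by
    rw [← h2]
    exact h1.trans (mul_le_mul_of_nonneg_left (f1b_av h3) hK)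
  change S ≤ K ^ 4
  rw [← hT2] at h8
  rw [← hT4]
  rcases hT0.eq_or_lt with h9 | h9
  · rw [← h9, zero_pow (by norm_num)]
    positivity
  · have h10 : T ≤ K := by
      rw [sq] at h8
      exact le_of_mul_le_mul_right h8 h9
    exact pow_le_pow_left₀ hT0 h10 4

end

end RF
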