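import Pool.Agent.RF.Base

/-!
# [RF-F2] The counting lemma for the `K`-part

`J` finite index set, `NJ j` seminorms on `Vec'` spaces, `C : (J → V) → Z` linear with
`z (C y) ≤ A M` whenever `NJ j (y j) ≤ M` for all `j`; `y : Fin s → J → V` with `∑_a NJ j (y a j)^4 ≤ K^4` for every `j`;
`CT4 z K`, `A ≥ 1`, `K ≥ 1`.  Claim: `#{a : 1/4 < z (C (y a))} ≤ (4096 K^5)^4 A^16`.

Proof.  `δ = 1/(8A)`, `yL a j = y a j` if `NJ j (y a j) ≥ δ`, else `0`; `yS = y - yL`.  `z (C (yS a)) ≤ A δ = 1/8`.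
For all `j`: `∑_a NJ j (yL a j) ≤ ∑_a NJ j (y a j)^4 / δ^3 ≤ K^4/δ^3`.  For signs `e`: `rs (C ∘ yL) e = C (rs yL e)`, and
`NJ j ((rs yL e) j) ≤ ∑_a NJ j (yL a j) ≤ K^4/δ^3`, so `z (rs (C ∘ yL) e) ≤ A K^4/δ^3 = 512 A^4 K^4`.  `CT4`:
`∑_a z (C (yL a))^4 ≤ (K * 512 A^4 K^4)^4`.  If `z (C (y a)) > 1/4` then `z (C (yL a)) > 1/8`, so
`# * (1/8)^4 ≤ (512 K^5 A^4)^4`.
-/

set_option linter.unusedVariables false

namespace RF

private theorem F2_av_le {ι : Type} [Fintype ι] [DecidableEq ι] (f : (ι → Bool) → ℝ) {B : ℝ}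
    (h : ∀ e, f e ≤ B) : av f ≤ B := by
  unfold av
  rw [div_le_iff₀ (by positivity)]
  refine (Finset.sum_le_sum (fun e _ => h e)).trans ?_
  rw [Finset.sum_const, Finset.card_univ, Fintype.card_fun, Fintype.card_bool, nsmul_eq_mul]
  push_cast
  exact le_of_eq (mul_comm _ _)

private theorem F2_sg (b : Bool) : ‖sg b‖ = 1 := by
  unfold sg
  cases b <;> simp

private theorem F2_sum_le {V : Type} [AddCommGroup V] [Module ℝ V] (N : SN V) {κ : Type}
    (s : Finset κ) (f : κ → V) : N (∑ a ∈ s, f a) ≤ ∑ a ∈ s, N (f a) := by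
  classical
  induction s using Finset.induction_on with
  | empty => simp
  | insert a s ha ih =>
    rw [Finset.sum_insert ha, Finset.sum_insert ha]
    exact (map_add_le_add N _ _).trans (by linarith)

private theorem F2_pow {δ t : ℝ} (hδ : 0 < δ) (ht : δ ≤ t) : t ≤ t ^ 4 / δ ^ 3 := by
  rw [le_div_iff₀ (by positivity)]
  have h0 : 0 ≤ t := hδ.le.trans ht
  have h1 : δ ^ 3 ≤ t ^ 3 := pow_le_pow_left₀ hδ.le ht 3
  calc t * δ ^ 3 ≤ t * t ^ 3 := mul_le_mul_of_nonneg_left h1 h0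
    _ = t ^ 4 := by ring

theorem count_A {V Z : Type} [AddCommGroup V] [Module ℝ V] [AddCommGroup Z] [Module ℝ Z]
    {J : Type} [Fintype J] [DecidableEq J] (NJ : J → SN V) (z : SN Z) {A K : ℝ} (hA : 1 ≤ A)
    (hK : 1 ≤ K) (hz : CT4 z K) (C : (J → V) →ₗ[ℝ] Z)
    (hC : ∀ (y : J → V) (M : ℝ), 0 ≤ M → (∀ j, NJ j (y j) ≤ M) → z (C y) ≤ A * M)
    {s : ℕ} (y : Fin s → J → V) (hy : ∀ j, ∑ a, NJ j (y a j) ^ 4 ≤ K ^ 4)
    (S : Finset (Fin s)) (hS : ∀ a ∈ S, 1 / 4 < z (C (y a))) :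
    (S.card : ℝ) ≤ (4096 * K ^ 5) ^ 4 * A ^ 16 := by
  classical
  have hA0 : 0 < A := lt_of_lt_of_le one_pos hA
  have hK0 : 0 < K := lt_of_lt_of_le one_pos hK
  obtain ⟨δ, hδ⟩ : ∃ δ : ℝ, δ = 1 / (8 * A) := ⟨_, rfl⟩
  have hδ0 : 0 < δ := by rw [hδ]; positivity
  have hAδ : A * δ = 1 / 8 := by rw [hδ]; field_simp
  obtain ⟨yL, hyL⟩ : ∃ yL : Fin s → J → V,
      ∀ a j, yL a j = if δ ≤ NJ j (y a j) then y a j else 0 := ⟨_, fun _ _ => rfl⟩
  have h1 : ∀ a j, NJ j (yL a j) ≤ NJ j (y a j) ^ 4 / δ ^ 3 := by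
    intro a j
    rw [hyL]
    split_ifs with h
    · exact F2_pow hδ0 h
    · rw [map_zero]
      positivity
  have h2 : ∀ a j, NJ j ((y a - yL a) j) ≤ δ := by
    intro a j
    rw [Pi.sub_apply, hyL]
    split_ifs with h
    · rw [sub_self, map_zero]
      exact hδ0.le
    · rw [sub_zero]
      exact (not_le.1 h).le
  have h3 : ∀ a, z (C (y a)) ≤ z (C (yL a)) + 1 / 8 := by
    intro a
    have h4 : C (y a) = C (yL a) + C (y a - yL a) := by
      rw [← map_add]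
      congr 1
      abel
    rw [h4]
    refine (map_add_le_add z _ _).trans ?_
    have h5 := hC (y a - yL a) δ hδ0.le (h2 a)
    rw [hAδ] at h5
    linarith
  have h4 : ∀ j, ∑ a, NJ j (yL a j) ≤ K ^ 4 / δ ^ 3 := by
    intro j
    calc ∑ a, NJ j (yL a j) ≤ ∑ a, NJ j (y a j) ^ 4 / δ ^ 3 :=
          Finset.sum_le_sum (fun a _ => h1 a j)
      _ = (∑ a, NJ j (y a j) ^ 4) / δ ^ 3 := by rw [Finset.sum_div]
      _ ≤ K ^ 4 / δ ^ 3 := by
          apply div_le_div_of_nonneg_right (hy j) (by positivity)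
  have h5 : ∀ e : Fin s → Bool, z (rs (fun a => C (yL a)) e) ≤ 512 * A ^ 4 * K ^ 4 := by
    intro e
    have h6 : rs (fun a => C (yL a)) e = C (rs yL e) := by
      unfold rs
      rw [map_sum]
      exact Finset.sum_congr rfl fun a _ => (map_smul C _ _).symm
    rw [h6]
    have h7 : ∀ j, NJ j ((rs yL e) j) ≤ K ^ 4 / δ ^ 3 := by
      intro j
      have h8 : (rs yL e) j = ∑ a, sg (e a) • yL a j := by
        unfold rs
        rw [Finset.sum_apply]
        rfl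
      rw [h8]
      calc NJ j (∑ a, sg (e a) • yL a j) ≤ ∑ a, NJ j (sg (e a) • yL a j) :=
            F2_sum_le (NJ j) _ _
        _ = ∑ a, NJ j (yL a j) := by
            refine Finset.sum_congr rfl fun a _ => ?_
            rw [map_smul_eq_mul, F2_sg, one_mul]
        _ ≤ K ^ 4 / δ ^ 3 := h4 j
    have h9 := hC (rs yL e) (K ^ 4 / δ ^ 3) (by positivity) h7
    refine h9.trans (le_of_eq ?_)
    rw [hδ]
    field_simp
    ring
  have h6 := hz (Fin s) (fun a => C (yL a))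
  have h7 : av (fun e => z (rs (fun a => C (yL a)) e)) ≤ 512 * A ^ 4 * K ^ 4 := F2_av_le _ h5
  have h8 : 0 ≤ av (fun e => z (rs (fun a => C (yL a)) e)) := by
    unfold av
    apply div_nonneg _ (by positivity)
    exact Finset.sum_nonneg fun e _ => apply_nonneg z _
  have h9 : ∑ a, z (C (yL a)) ^ 4 ≤ (K * (512 * A ^ 4 * K ^ 4)) ^ 4 := by
    refine h6.trans ?_
    apply pow_le_pow_left₀ (mul_nonneg hK0.le h8)
    exact mul_le_mul_of_nonneg_left h7 hK0.le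
  have h10 : (S.card : ℝ) * (1 / 8) ^ 4 ≤ ∑ a, z (C (yL a)) ^ 4 := by
    calc (S.card : ℝ) * (1 / 8) ^ 4 = ∑ a ∈ S, (1 / 8 : ℝ) ^ 4 := by
          rw [Finset.sum_const, nsmul_eq_mul]
      _ ≤ ∑ a ∈ S, z (C (yL a)) ^ 4 := by
          apply Finset.sum_le_sum
          intro a ha
          apply pow_le_pow_left₀ (by norm_num)
          have h11 := hS a ha
          have h12 := h3 a
          linarith
      _ ≤ ∑ a, z (C (yL a)) ^ 4 := by
          apply Finset.sum_le_sum_of_subset_of_nonneg (Finset.subset_univ _)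
          intro a _ _
          positivity
  have h11 := h10.trans h9
  have h12 : (4096 * K ^ 5) ^ 4 * A ^ 16 = (K * (512 * A ^ 4 * K ^ 4)) ^ 4 * 8 ^ 4 := by ring
  rw [h12]
  calc (S.card : ℝ) = (S.card : ℝ) * (1 / 8) ^ 4 * 8 ^ 4 := by ring
    _ ≤ (K * (512 * A ^ 4 * K ^ 4)) ^ 4 * 8 ^ 4 := by
        apply mul_le_mul_of_nonneg_right h11 (by positivity)

end RF
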