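import Pool.Agent.RF.E1

/-!
# [RF-F3] Limits at infinity of functionals on `W0`

`X' = ℕ →₀ Vec` with `NZ x = sup_n z_n (x n)` (a maximum over the support).
* `NZ_apply`..: `le_NZ`, `NZ_le`.
* `cst_le`: if all `x n` are supported in `< J` then `NY (cst J x) ≤ NZ x` (coordinates of `cst J x`: `p_n (x n) ≤ z_n (x n)`
  at `some j`, `j ≥ J`; `z_n (x n)` at `none`; else `0`).
* `exists_lim`: an ultrafilter limit.  Fix the ultrafilter `U = Filter.hyperfilter ℕ`.  For a linear functional
  `φ : W0 → ℝ` with `|φ w| ≤ B NW w` and `x : X'` the sequence `J ↦ φ (cst J x, 0)` satisfies `|..| ≤ B NZ x` for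
  `J ≥ J_x`, so it has a limit along `U` (compactness of `[-B NZ x, B NZ x]`), linear in `x`.
  Property: for all `x`, `τ > 0`: `∀ᶠ J in U, |φ (cst J x, 0) - φZ x| ≤ τ`; and `U ≤ atTop` so eventually in `atTop`
  implies eventually in `U`.
-/

set_option linter.unusedVariables false

namespace RF

noncomputable section

/-- `sup_n z_n (x n)` on finitely supported families. -/
def NZ (D : Dat) : SN (ℕ →₀ Vec) :=
  Seminorm.of (fun x => ⨆ n, D.z n (x n))
    (by
      intro x y
      have hb : ∀ x : ℕ →₀ Vec, BddAbove (Set.range fun n => D.z n (x n)) := by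
        intro x
        refine ⟨∑ n ∈ x.support, D.z n (x n), ?_⟩
        rintro _ ⟨n, rfl⟩
        by_cases h : n ∈ x.support
        · exact Finset.single_le_sum (f := fun n => D.z n (x n))
            (fun i _ => apply_nonneg (D.z i) _) h
        · rw [Finsupp.notMem_support_iff] at h
          simp only [h, map_zero]
          exact Finset.sum_nonneg (fun i _ => apply_nonneg (D.z i) _)
      refine ciSup_le (fun n => ?_)
      refine (map_add_le_add (D.z n) (x n) (y n)).trans ?_
      exact add_le_add (le_ciSup (hb x) n) (le_ciSup (hb y) n))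
    (by
      intro c x
      rw [Real.mul_iSup_of_nonneg (norm_nonneg c)]
      congr 1
      funext n
      exact map_smul_eq_mul (D.z n) c (x n))

private theorem f3_apply (D : Dat) (x : ℕ →₀ Vec) : NZ D x = ⨆ n, D.z n (x n) := rfl

private theorem f3_bdd (D : Dat) (x : ℕ →₀ Vec) : BddAbove (Set.range fun n => D.z n (x n)) := by
  refine ⟨∑ n ∈ x.support, D.z n (x n), ?_⟩
  rintro _ ⟨n, rfl⟩
  by_cases h : n ∈ x.support
  · exact Finset.single_le_sum (f := fun n => D.z n (x n))
      (fun i _ => apply_nonneg (D.z i) _) h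
  · rw [Finsupp.notMem_support_iff] at h
    simp only [h, map_zero]
    exact Finset.sum_nonneg (fun i _ => apply_nonneg (D.z i) _)

theorem le_NZ (D : Dat) (x : ℕ →₀ Vec) (n : ℕ) : D.z n (x n) ≤ NZ D x := by
  rw [f3_apply]
  exact le_ciSup (f3_bdd D x) n

theorem NZ_le (D : Dat) (x : ℕ →₀ Vec) {M : ℝ} (h : ∀ n, D.z n (x n) ≤ M) : NZ D x ≤ M := by
  rw [f3_apply]
  exact ciSup_le h

private theorem f3_tr {J : ℕ} {v : Vec} (h : Sup J v) : tr J v = v := by
  apply Finsupp.ext
  intro i
  show (Finsupp.filter (fun i => i < J) v) i = v i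
  rw [Finsupp.filter_apply]
  split_ifs with hi
  · rfl
  · exact (h i (by omega)).symm

theorem cst_le (D : Dat) {J : ℕ} {x : ℕ →₀ Vec} (h : ∀ n, Sup J (x n)) :
    NY D (cst J x) ≤ NZ D x := by
  have htr : ∀ n, tr J (x n) = x n := fun n => f3_tr (h n)
  refine NY_le D _ (fun n j => ?_) (fun n => ?_)
  · rw [cst_some]
    split_ifs
    · rw [htr]
      exact (D.pz n _).trans (le_NZ D x n)
    · rw [map_zero]
      exact apply_nonneg _ _
  · rw [cst_none, htr]
    exact le_NZ D x n

theorem exists_bound (x : ℕ →₀ Vec) : ∃ J0, ∀ J, J0 ≤ J → ∀ n, Sup J (x n) := by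
  refine ⟨x.support.sup fun n => (x n).support.sup id + 1, fun J hJ n => ?_⟩
  intro i hi
  by_contra hne
  have h1 : x n ≠ 0 := by
    intro h0
    rw [h0] at hne
    exact hne rfl
  have h2 : i ≤ (x n).support.sup id :=
    Finset.le_sup (f := id) (Finsupp.mem_support_iff.2 hne)
  have h3 : (x n).support.sup id + 1 ≤ x.support.sup fun n => (x n).support.sup id + 1 :=
    Finset.le_sup (f := fun n => (x n).support.sup id + 1) (Finsupp.mem_support_iff.2 h1)
  omega

end

end RF
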