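import Pool.Agent.RF.F3

/-!
# [RF-F3] Limits at infinity of functionals on `W0`

`X' = ℕ →₀ Vec` with `NZ x = sup_n z_n (x n)` (a maximum over the support).
* `NZ_apply`..: `le_NZ`, `NZ_le`.
* `cst_le`: if all `x n` are supported in `< J` then `NY (cst J x) ≤ NZ x` (coordinates of `cst J x`: `p_n (x n) ≤ z_n (x n)`
  at `some j`, `j ≥ J`; `z_n (x n)` at `none`; else `0`).
* `exists_lim`: an ultrafilter limit.  Fix the ultrafilter `U = Filter.hyperfilter ℕ`.  For a linear functional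
  `φ : W0 → ℝ` with `|φ w| ≤ B NW w` and `x : X'` the sequence `J ↦ φ (cst J x, 0)` satisfies `|..| ≤ B NZ x` for
  `J ≥ J_x`, so it has a limit along `U` (compactness of `[-B NZ x, B NZ x]`), linear in `x`.
  Property: for all `x`, `τ > 0`: `∀ᶠ J in U, |φ (cst J x, 0) - φZ x| ≤ τ`; and `U ≤ atTop` so eventually in `atTop`
  implies eventually in `U`.
-/

set_option linter.unusedVariables false

namespace RF

noncomputable section

theorem F3b_bound (D : Dat) {B : ℝ} (hB : 0 ≤ B) (φ : W0 D →ₗ[ℝ] ℝ)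
    (hφ : ∀ w, |φ w| ≤ B * NW D w) (x : ℕ →₀ Vec) :
    ∃ J0, ∀ J, J0 ≤ J → |φ (cst J x, 0)| ≤ B * NZ D x := by
  obtain ⟨J0, hJ0⟩ := exists_bound x
  refine ⟨J0, fun J hJ => ?_⟩
  refine (hφ _).trans (mul_le_mul_of_nonneg_left ?_ hB)
  rw [NW_apply]
  simp only [map_zero, add_zero]
  exact cst_le D (hJ0 J hJ)

theorem F3b_ge : (Filter.hyperfilter ℕ : Filter ℕ) ≤ Filter.atTop := Nat.hyperfilter_le_atTop

theorem F3b_lim (D : Dat) {B : ℝ} (hB : 0 ≤ B) (φ : W0 D →ₗ[ℝ] ℝ)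
    (hφ : ∀ w, |φ w| ≤ B * NW D w) (x : ℕ →₀ Vec) :
    ∃ l ∈ Set.Icc (-(B * NZ D x)) (B * NZ D x),
      Filter.Tendsto (fun J => φ (cst J x, 0)) (Filter.hyperfilter ℕ : Filter ℕ) (nhds l) := by
  obtain ⟨J0, hJ0⟩ := F3b_bound D hB φ hφ x
  have hc : IsCompact (Set.Icc (-(B * NZ D x)) (B * NZ D x)) := isCompact_Icc
  have hu := hc.ultrafilter_le_nhds ((Filter.hyperfilter ℕ).map (fun J => φ (cst J x, 0))) (by
    rw [Filter.le_principal_iff]
    rw [Ultrafilter.coe_map, Filter.mem_map]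
    refine F3b_ge ?_
    rw [Filter.mem_atTop_sets]
    refine ⟨J0, fun J hJ => ?_⟩
    exact abs_le.1 (hJ0 J hJ))
  obtain ⟨l, hl, hl2⟩ := hu
  exact ⟨l, hl, hl2⟩

theorem exists_lim (D : Dat) {B : ℝ} (hB : 0 ≤ B) (φ : W0 D →ₗ[ℝ] ℝ)
    (hφ : ∀ w, |φ w| ≤ B * NW D w) :
    ∃ φZ : (ℕ →₀ Vec) →ₗ[ℝ] ℝ, (∀ x, |φZ x| ≤ B * NZ D x) ∧
      ∀ (x : ℕ →₀ Vec) (τ : ℝ), 0 < τ →
        ∀ᶠ J in (Filter.hyperfilter ℕ : Filter ℕ), |φ (cst J x, 0) - φZ x| ≤ τ := by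
  choose l hl hl2 using F3b_lim D hB φ hφ
  refine ⟨{ toFun := l, map_add' := ?_, map_smul' := ?_ }, ?_, ?_⟩
  · intro x y
    refine tendsto_nhds_unique (hl2 (x + y)) ?_
    have := (hl2 x).add (hl2 y)
    refine this.congr (fun J => ?_)
    rw [← map_add]
    congr 1
    rw [map_add, Prod.mk_add_mk, add_zero]
  · intro c x
    refine tendsto_nhds_unique (hl2 (c • x)) ?_
    have := (hl2 x).const_mul c
    refine this.congr (fun J => ?_)
    rw [← smul_eq_mul, ← map_smul]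
    congr 1
    rw [map_smul, Prod.smul_mk, smul_zero]
  · intro x
    exact abs_le.2 (hl x)
  · intro x τ hτ
    have h := Metric.tendsto_nhds.1 (hl2 x) τ hτ
    filter_upwards [h] with J hJ
    exact le_of_lt hJ

end

end RF
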