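import Pool.Agent.RF.F3b

/-!
# [RF-F3] Limits at infinity of functionals on `W0`

`X' = ℕ →₀ Vec` with `NZ x = sup_n z_n (x n)` (a maximum over the support).
* `NZ_apply`..: `le_NZ`, `NZ_le`.
* `cst_le`: if all `x n` are supported in `< J` then `NY (cst J x) ≤ NZ x` (coordinates of `cst J x`: `p_n (x n) ≤ z_n (x n)`
  at `some j`, `j ≥ J`; `z_n (x n)` at `none`; else `0`).
* `exists_lim`: an ultrafilter limit.  Fix the ultrafilter `U = Filter.hyperfilter ℕ`.  For a linear functional
  `φ : W0 → ℝ` with `|φ w| ≤ B NW w` and `x : X'` the sequence `J ↦ φ (cst J x, 0)` satisfies `|..| ≤ B NZ x` for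
  `J ≥ J_x`, so it has a limit along `U` (compactness of `[-B NZ x, B NZ x]`), linear in `x`.
  Property: for all `x`, `τ > 0`: `∀ᶠ J in U, |φ (cst J x, 0) - φZ x| ≤ τ`; and `U ≤ atTop` so eventually in `atTop`
  implies eventually in `U`.
-/

set_option linter.unusedVariables false

namespace RF

noncomputable section

/-- The extension property for the sup-sum. -/
theorem NZ_R (D : Dat) : RProp (NZ D) 81 := by
  classical
  intro ι _ _ x hx
  have h1 : ∀ n, W2 (D.z n) (fun i => x i n) 1 := by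
    intro n a
    refine le_trans ?_ (hx a)
    refine le_trans (le_of_eq ?_) (le_NZ D _ n)
    congr 1
    simp [Finsupp.finsetSum_apply]
  choose Φ hΦ1 hΦ2 using fun n => D.R n ι (fun i => x i n) (h1 n)
  let S : Finset ℕ := Finset.univ.biUnion (fun i => (x i).support)
  have hS : ∀ i n, n ∉ S → x i n = 0 := by
    intro i n hn
    by_contra h
    exact hn (Finset.mem_biUnion.2 ⟨i, Finset.mem_univ _, Finsupp.mem_support_iff.2 h⟩)
  let Ψ : (ι → Bool) → (ℕ →₀ Vec) := fun e =>
    Finsupp.onFinset S (fun n => if n ∈ S then Φ n e else 0) (by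
      intro n hn
      by_contra h
      exact hn (if_neg h))
  have hΨ : ∀ e n, Ψ e n = if n ∈ S then Φ n e else 0 := fun e n => rfl
  refine ⟨Ψ, ?_, ?_⟩
  · intro e
    refine NZ_le D _ fun n => ?_
    rw [hΨ]
    split_ifs
    · exact hΦ1 n e
    · rw [map_zero]; norm_num
  · intro i
    refine le_antisymm (NZ_le D _ fun n => ?_) (apply_nonneg _ _)
    have e1 : (x i - (2 ^ Fintype.card ι : ℝ)⁻¹ • ∑ e, sg (e i) • Ψ e) n =
        x i n - (2 ^ Fintype.card ι : ℝ)⁻¹ • ∑ e, sg (e i) • Ψ e n := by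
      simp [Finsupp.finsetSum_apply]
    rw [e1]
    by_cases hn : n ∈ S
    · simp only [hΨ, if_pos hn]
      exact le_of_eq (hΦ2 n i)
    · simp only [hΨ, if_neg hn, hS i n hn, smul_zero, Finset.sum_const_zero, sub_zero, map_zero, le_refl]

end

end RF
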