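import Pool.Agent.RF.F1b
import Pool.Agent.RF.F3c
import Pool.Agent.RF.B2

/-!
# [RF-F4] The part at infinity

* `CT2_z`: `CT2 (D.z n) (77 * s n)`: `z_n ≤ s_n p_n` inside the square root, cotype 2 of `p_n`, `p_n ≤ z_n` inside the average.
* `infY y` = the finitely supported family `n ↦ y n none`; `NZ (infY y) ≤ NY y` (`z_le_NY`, `NZ_le`).
* `exists_cZ`: for `c x = ∑_l φ_l x • v_l` (`FinB`) take `cZ x = ∑_l φZ_l x • v_l` with `exists_lim`.  Convergence:
  `z_n (c (cst J x,0) - cZ x) ≤ ∑_l |φ_l (cst J x,0) - φZ_l x| z_n(v_l)`, finitely many `l`.  Bound: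
  `z_n (cZ x) ≤ z_n (c (cst J x, 0)) + τ ≤ A NY(cst J x) + τ ≤ A NZ x + τ` for a suitable large `J` (`cst_le`,
  `exists_bound`, `Filter.hyperfilter_le_atTop`), for every `τ > 0`.
* `TZ_block`: fix the block `a`.  The family `x_l = d_i (sv a e_l)`, `l < m`, satisfies `W2 NZ x 1`:
  `NZ (∑ b_l • x_l) = NZ (d_i (sv a b)) ≤ ‖sv a b‖ = |b|_2` (`norm_sv`).  `lemmaP_fin` with `K = 77 s`, `C = 81` (`NZ_R`,
  `CT2_z`): `sqrt (∑_l z_n(cZ_i x_l)^2) ≤ 8 (77 s)^2 81^2 A_i`.  Minkowski over `i`: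
  `sqrt (∑_l z_n (∑_i cZ_i (d_i (sv a e_l)))^2) ≤ 8 (77 s)^2 81^2 t`.  If every `l` had value `> 1/16` the left side would be
  `> sqrt m / 16 ≥ 8 (77 s)^2 81^2 t`.
-/

set_option linter.unusedVariables false

namespace RF

noncomputable section

theorem CT2_z (D : Dat) (n : ℕ) : CT2 (D.z n) (77 * D.s n) := by
  intro ι _ _ x
  have hs : (0 : ℝ) ≤ D.s n := Nat.cast_nonneg _
  have h1 : Real.sqrt (∑ i, (D.z n (x i)) ^ 2) ≤
      Real.sqrt ((D.s n : ℝ) ^ 2 * ∑ i, (D.p n (x i)) ^ 2) := by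
    refine Real.sqrt_le_sqrt ?_
    rw [Finset.mul_sum]
    refine Finset.sum_le_sum fun i _ => ?_
    rw [← mul_pow]
    exact pow_le_pow_left₀ (apply_nonneg (D.z n) _) (D.zp n _) 2
  rw [Real.sqrt_mul (sq_nonneg _), Real.sqrt_sq hs] at h1
  have h2 := D.c2 n ι x
  have h3 : av (fun e => D.p n (rs x e)) ≤ av (fun e => D.z n (rs x e)) := by
    unfold av
    exact div_le_div_of_nonneg_right (Finset.sum_le_sum fun e _ => D.pz n _) (by positivity)
  calc Real.sqrt (∑ i, (D.z n (x i)) ^ 2)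
      ≤ (D.s n : ℝ) * Real.sqrt (∑ i, (D.p n (x i)) ^ 2) := h1
    _ ≤ (D.s n : ℝ) * (77 * av (fun e => D.p n (rs x e))) := mul_le_mul_of_nonneg_left h2 hs
    _ ≤ (D.s n : ℝ) * (77 * av (fun e => D.z n (rs x e))) :=
        mul_le_mul_of_nonneg_left (mul_le_mul_of_nonneg_left h3 (by norm_num)) hs
    _ = 77 * D.s n * av (fun e => D.z n (rs x e)) := by ring

/-- The family of the values at infinity. -/
def infY : Y0 →ₗ[ℝ] (ℕ →₀ Vec) where
  toFun y := Finsupp.ofSupportFinite (fun n => (y : ℕ → Option ℕ → Vec) n none) (by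
    obtain ⟨⟨J, h1, h2⟩, h3⟩ := y.2
    refine (Set.finite_lt_nat J).subset (fun n hn => ?_)
    by_contra h
    apply hn
    show (y : ℕ → Option ℕ → Vec) n none = 0
    rw [h1 n (by simpa using h)]; rfl)
  map_add' y y' := by ext n; rfl
  map_smul' c y := by ext n; rfl

theorem infY_apply (y : Y0) (n : ℕ) : infY y n = evY n none y := rfl

theorem infY_le (D : Dat) (y : Y0) : NZ D (infY y) ≤ NY D y :=
  NZ_le D _ (fun n => by rw [infY_apply]; exact z_le_NY D y n)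

end

end RF
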