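import Pool.Agent.RF.F4

/-!
# [RF-F4] The part at infinity

* `CT2_z`: `CT2 (D.z n) (77 * s n)`: `z_n ≤ s_n p_n` inside the square root, cotype 2 of `p_n`, `p_n ≤ z_n` inside the average.
* `infY y` = the finitely supported family `n ↦ y n none`; `NZ (infY y) ≤ NY y` (`z_le_NY`, `NZ_le`).
* `exists_cZ`: for `c x = ∑_l φ_l x • v_l` (`FinB`) take `cZ x = ∑_l φZ_l x • v_l` with `exists_lim`.  Convergence:
  `z_n (c (cst J x,0) - cZ x) ≤ ∑_l |φ_l (cst J x,0) - φZ_l x| z_n(v_l)`, finitely many `l`.  Bound: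
  `z_n (cZ x) ≤ z_n (c (cst J x, 0)) + τ ≤ A NY(cst J x) + τ ≤ A NZ x + τ` for a suitable large `J` (`cst_le`,
  `exists_bound`, `Filter.hyperfilter_le_atTop`), for every `τ > 0`.
* `TZ_block`: fix the block `a`.  The family `x_l = d_i (sv a e_l)`, `l < m`, satisfies `W2 NZ x 1`:
  `NZ (∑ b_l • x_l) = NZ (d_i (sv a b)) ≤ ‖sv a b‖ = |b|_2` (`norm_sv`).  `lemmaP_fin` with `K = 77 s`, `C = 81` (`NZ_R`,
  `CT2_z`): `sqrt (∑_l z_n(cZ_i x_l)^2) ≤ 8 (77 s)^2 81^2 A_i`.  Minkowski over `i`: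
  `sqrt (∑_l z_n (∑_i cZ_i (d_i (sv a e_l)))^2) ≤ 8 (77 s)^2 81^2 t`.  If every `l` had value `> 1/16` the left side would be
  `> sqrt m / 16 ≥ 8 (77 s)^2 81^2 t`.
-/

set_option linter.unusedVariables false

namespace RF

noncomputable section

private theorem F4b_sum_le {V : Type} [AddCommGroup V] [Module ℝ V] (N : SN V) {κ : Type}
    (s : Finset κ) (f : κ → V) : N (∑ a ∈ s, f a) ≤ ∑ a ∈ s, N (f a) := by
  classical
  induction s using Finset.induction_on with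
  | empty => simp
  | insert a s ha ih =>
    rw [Finset.sum_insert ha, Finset.sum_insert ha]
    exact (map_add_le_add N _ _).trans (by linarith)

theorem exists_cZ (D : Dat) (n : ℕ) {A : ℝ} (hA : 0 ≤ A) (c : W0 D →ₗ[ℝ] Vec)
    (hc : ∀ w, D.z n (c w) ≤ A * NW D w) (hf : FinB (NW D) c) :
    ∃ cZ : (ℕ →₀ Vec) →ₗ[ℝ] Vec, FinB (NZ D) cZ ∧ (∀ x, D.z n (cZ x) ≤ A * NZ D x) ∧
      ∀ (x : ℕ →₀ Vec) (τ : ℝ), 0 < τ →
        ∀ᶠ J in (Filter.hyperfilter ℕ : Filter ℕ), D.z n (c (cst J x, 0) - cZ x) ≤ τ := by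
  classical
  obtain ⟨L, φ, v, B, hB, hφ, hcx⟩ := hf
  have hex : ∀ l : Fin L, ∃ φZ : (ℕ →₀ Vec) →ₗ[ℝ] ℝ, (∀ x, |φZ x| ≤ B * NZ D x) ∧
      ∀ (x : ℕ →₀ Vec) (τ : ℝ), 0 < τ →
        ∀ᶠ J in (Filter.hyperfilter ℕ : Filter ℕ), |φ l (cst J x, 0) - φZ x| ≤ τ :=
    fun l => exists_lim D hB (φ l) (hφ l)
  choose φZ hφ1 hφ2 using hex
  have hcZ : ∀ x, (∑ l, (φZ l).smulRight (v l)) x = ∑ l, φZ l x • v l := by
    intro x
    rw [LinearMap.sum_apply]
    rfl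
  have hconv : ∀ (x : ℕ →₀ Vec) (τ : ℝ), 0 < τ →
      ∀ᶠ J in (Filter.hyperfilter ℕ : Filter ℕ),
        D.z n (c (cst J x, 0) - (∑ l, (φZ l).smulRight (v l)) x) ≤ τ := by
    intro x τ hτ
    have hS0 : 0 ≤ ∑ l, D.z n (v l) := Finset.sum_nonneg fun l _ => apply_nonneg (D.z n) _
    have hS : 0 < ∑ l, D.z n (v l) + 1 := by linarith
    have h1 : ∀ᶠ J in (Filter.hyperfilter ℕ : Filter ℕ),
        ∀ l, |φ l (cst J x, 0) - φZ l x| ≤ τ / (∑ l, D.z n (v l) + 1) := by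
      rw [Filter.eventually_all]
      intro l
      exact hφ2 l x _ (div_pos hτ hS)
    refine h1.mono fun J hJ => ?_
    rw [hcx, hcZ, ← Finset.sum_sub_distrib]
    calc D.z n (∑ l, (φ l (cst J x, 0) • v l - φZ l x • v l))
        ≤ ∑ l, D.z n (φ l (cst J x, 0) • v l - φZ l x • v l) := F4b_sum_le _ _ _
      _ = ∑ l, |φ l (cst J x, 0) - φZ l x| * D.z n (v l) := by
          refine Finset.sum_congr rfl fun l _ => ?_
          rw [← sub_smul, map_smul_eq_mul, Real.norm_eq_abs]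
      _ ≤ ∑ l, τ / (∑ l, D.z n (v l) + 1) * D.z n (v l) :=
          Finset.sum_le_sum fun l _ => mul_le_mul_of_nonneg_right (hJ l) (apply_nonneg _ _)
      _ = τ * ((∑ l, D.z n (v l)) / (∑ l, D.z n (v l) + 1)) := by
          rw [← Finset.mul_sum]
          ring
      _ ≤ τ * 1 := by
          apply mul_le_mul_of_nonneg_left _ hτ.le
          rw [div_le_one hS]
          linarith
      _ = τ := mul_one τ
  refine ⟨∑ l, (φZ l).smulRight (v l), ⟨L, φZ, v, B, hB, hφ1, hcZ⟩, ?_, hconv⟩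
  intro x
  apply le_of_forall_pos_le_add
  intro τ hτ
  obtain ⟨J0, hJ0⟩ := exists_bound x
  have h1 : ∀ᶠ J in (Filter.hyperfilter ℕ : Filter ℕ), J0 ≤ J :=
    (Filter.eventually_ge_atTop J0).filter_mono Nat.hyperfilter_le_atTop
  obtain ⟨J, hJ1, hJ2⟩ := (h1.and (hconv x τ hτ)).exists
  have h2 : NW D (cst J x, 0) ≤ NZ D x := by
    rw [NW_apply, map_zero, add_zero]
    exact cst_le D (hJ0 J hJ1)
  have h3 := hc (cst J x, 0)
  have h4 : A * NW D (cst J x, 0) ≤ A * NZ D x := mul_le_mul_of_nonneg_left h2 hA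
  have h5 : (∑ l, (φZ l).smulRight (v l)) x =
      c (cst J x, 0) - (c (cst J x, 0) - (∑ l, (φZ l).smulRight (v l)) x) := by abel
  have h6 : D.z n ((∑ l, (φZ l).smulRight (v l)) x) ≤
      D.z n (c (cst J x, 0)) + D.z n (c (cst J x, 0) - (∑ l, (φZ l).smulRight (v l)) x) := by
    conv_lhs => rw [h5]
    exact map_sub_le_add _ _ _
  linarith

end

end RF
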