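import Pool.Agent.RF.F4b

/-!
# [RF-F4] The part at infinity

* `CT2_z`: `CT2 (D.z n) (77 * s n)`: `z_n ≤ s_n p_n` inside the square root, cotype 2 of `p_n`, `p_n ≤ z_n` inside the average.
* `infY y` = the finitely supported family `n ↦ y n none`; `NZ (infY y) ≤ NY y` (`z_le_NY`, `NZ_le`).
* `exists_cZ`: for `c x = ∑_l φ_l x • v_l` (`FinB`) take `cZ x = ∑_l φZ_l x • v_l` with `exists_lim`.  Convergence:
  `z_n (c (cst J x,0) - cZ x) ≤ ∑_l |φ_l (cst J x,0) - φZ_l x| z_n(v_l)`, finitely many `l`.  Bound: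
  `z_n (cZ x) ≤ z_n (c (cst J x, 0)) + τ ≤ A NY(cst J x) + τ ≤ A NZ x + τ` for a suitable large `J` (`cst_le`,
  `exists_bound`, `Filter.hyperfilter_le_atTop`), for every `τ > 0`.
* `TZ_block`: fix the block `a`.  The family `x_l = d_i (sv a e_l)`, `l < m`, satisfies `W2 NZ x 1`:
  `NZ (∑ b_l • x_l) = NZ (d_i (sv a b)) ≤ ‖sv a b‖ = |b|_2` (`norm_sv`).  `lemmaP_fin` with `K = 77 s`, `C = 81` (`NZ_R`,
  `CT2_z`): `sqrt (∑_l z_n(cZ_i x_l)^2) ≤ 8 (77 s)^2 81^2 A_i`.  Minkowski over `i`: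
  `sqrt (∑_l z_n (∑_i cZ_i (d_i (sv a e_l)))^2) ≤ 8 (77 s)^2 81^2 t`.  If every `l` had value `> 1/16` the left side would be
  `> sqrt m / 16 ≥ 8 (77 s)^2 81^2 t`.
-/

set_option linter.unusedVariables false

namespace RF

noncomputable section

private theorem f4c_sum_le {V : Type} [AddCommGroup V] [Module ℝ V] (N : SN V) {ι : Type} [Fintype ι]
    (f : ι → V) : N (∑ i, f i) ≤ ∑ i, N (f i) := by
  classical
  have : ∀ s : Finset ι, N (∑ i ∈ s, f i) ≤ ∑ i ∈ s, N (f i) := by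
    intro s
    induction s using Finset.induction_on with
    | empty => simp
    | insert i s hi ih =>
      rw [Finset.sum_insert hi, Finset.sum_insert hi]
      exact (map_add_le_add N _ _).trans (by linarith)
  exact this Finset.univ

theorem TZ_block (D : Dat) (n : ℕ) {t : ℝ} (ht : 1 ≤ t) {K : ℕ} (A : Fin K → ℝ)
    (hA : ∀ i, 0 ≤ A i) (hAt : ∑ i, A i ≤ t) (cZ : Fin K → ((ℕ →₀ Vec) →ₗ[ℝ] Vec))
    (hf : ∀ i, FinB (NZ D) (cZ i)) (hc : ∀ i x, D.z n (cZ i x) ≤ A i * NZ D x)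
    (d : Fin K → (Rb (D.s n) (D.m n) →ₗ[ℝ] (ℕ →₀ Vec))) (hd : ∀ i r, NZ D (d i r) ≤ ‖r‖)
    (hm : (128 * (77 * (D.s n : ℝ)) ^ 2 * 81 ^ 2 * t) ^ 2 ≤ D.m n) (a : Fin (D.s n)) :
    ∃ l : Fin (D.m n),
      D.z n (∑ i, cZ i (d i (sv a (EuclideanSpace.single l (1 : ℝ))))) ≤ 1 / 16 := by
  classical
  have hs : (1 : ℝ) ≤ D.s n := by exact_mod_cast D.hs n
  set X : Fin K → Fin (D.m n) → (ℕ →₀ Vec) := fun i l => d i (sv a (EuclideanSpace.single l (1 : ℝ))) with hX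
  have hW : ∀ i, W2 (NZ D) (X i) 1 := by
    intro i b
    have e1 : ∑ l, b l • X i l = d i (sv a (∑ l, b l • EuclideanSpace.single l (1 : ℝ))) := by
      simp only [hX, map_sum, map_smul]
    rw [e1, one_mul]
    refine (hd i _).trans (le_of_eq ?_)
    rw [norm_sv, EuclideanSpace.norm_eq]
    congr 1
    refine Finset.sum_congr rfl fun l _ => ?_
    have e2 : (∑ l', b l' • EuclideanSpace.single l' (1 : ℝ) : EuclideanSpace ℝ (Fin (D.m n))) l = b l := by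
      simp [Pi.single_apply]
    rw [e2, Real.norm_eq_abs, sq_abs]
  have hP : ∀ i, Real.sqrt (∑ l, D.z n (cZ i (X i l)) ^ 2) ≤
      8 * (77 * (D.s n : ℝ)) ^ 2 * 81 ^ 2 * A i := by
    intro i
    exact lemmaP_fin (NZ D) (D.z n) (by linarith) (by norm_num) (hA i) (NZ_R D) (CT2_z D n)
      (cZ i) (hc i) (hf i) (Fin (D.m n)) (X i) (hW i)
  -- Minkowski
  let V : Fin K → EuclideanSpace ℝ (Fin (D.m n)) := fun i => WithLp.toLp 2 (fun l => D.z n (cZ i (X i l)))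
  have hV : ∀ i, ‖V i‖ = Real.sqrt (∑ l, D.z n (cZ i (X i l)) ^ 2) := by
    intro i
    rw [EuclideanSpace.norm_eq]
    congr 1
    refine Finset.sum_congr rfl fun l _ => ?_
    show ‖D.z n (cZ i (X i l))‖ ^ 2 = _
    rw [Real.norm_eq_abs, sq_abs]
  have hsum : ‖∑ i, V i‖ ≤ 8 * (77 * (D.s n : ℝ)) ^ 2 * 81 ^ 2 * t := by
    refine (norm_sum_le _ _).trans ?_
    calc ∑ i, ‖V i‖ ≤ ∑ i, 8 * (77 * (D.s n : ℝ)) ^ 2 * 81 ^ 2 * A i :=
          Finset.sum_le_sum fun i _ => by rw [hV]; exact hP i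
      _ = 8 * (77 * (D.s n : ℝ)) ^ 2 * 81 ^ 2 * ∑ i, A i := by rw [Finset.mul_sum]
      _ ≤ _ := by gcongr
  have hcoord : ∀ l, (∑ i, V i) l = ∑ i, D.z n (cZ i (X i l)) := by
    intro l
    simp [V]
  have hB : Real.sqrt (∑ l, (D.z n (∑ i, cZ i (X i l))) ^ 2) ≤ 8 * (77 * (D.s n : ℝ)) ^ 2 * 81 ^ 2 * t := by
    refine le_trans ?_ hsum
    rw [EuclideanSpace.norm_eq]
    refine Real.sqrt_le_sqrt (Finset.sum_le_sum fun l _ => ?_)
    rw [hcoord, Real.norm_eq_abs, sq_abs]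
    refine pow_le_pow_left₀ (apply_nonneg _ _) ?_ 2
    exact f4c_sum_le (D.z n) _
  by_contra hcon
  push Not at hcon
  have hm1 : (0 : ℝ) < D.m n := by
    refine lt_of_lt_of_le ?_ hm
    positivity
  have hm0 : 0 < D.m n := by exact_mod_cast hm1
  have hlt : (D.m n : ℝ) * (1 / 16) ^ 2 < ∑ l, (D.z n (∑ i, cZ i (X i l))) ^ 2 := by
    have : ∑ l : Fin (D.m n), ((1 : ℝ) / 16) ^ 2 < ∑ l, (D.z n (∑ i, cZ i (X i l))) ^ 2 := by
      refine Finset.sum_lt_sum_of_nonempty ⟨⟨0, hm0⟩, Finset.mem_univ _⟩ fun l _ => ?_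
      exact pow_lt_pow_left₀ (hcon l) (by norm_num) (by norm_num)
    simpa using this
  have hR0 : 0 ≤ 8 * (77 * (D.s n : ℝ)) ^ 2 * 81 ^ 2 * t := by positivity
  have hle : ∑ l, (D.z n (∑ i, cZ i (X i l))) ^ 2 ≤ (8 * (77 * (D.s n : ℝ)) ^ 2 * 81 ^ 2 * t) ^ 2 :=
    (Real.sqrt_le_left hR0).mp hB
  have : (128 * (77 * (D.s n : ℝ)) ^ 2 * 81 ^ 2 * t) ^ 2 =
      256 * (8 * (77 * (D.s n : ℝ)) ^ 2 * 81 ^ 2 * t) ^ 2 := by ring
  rw [this] at hm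
  linarith

end

end RF
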