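import Pool.Agent.RF.F4c
import Pool.Agent.RF.F2

/-!
# [RF-F5] The main estimate on the dense subspace

* `decomp`: for `y ∈ Y0` and all large `J`, `y = ∑_{n,j < J} pl n j (y n (some j)) + cst J (infY y)`.
* `T1_count`: with `δ_i(a) = l1f ((d_i (sv a (w a))).2)`: `∑_a δ_i(a)^4 ≤ (sqrt 2)^4 = 4` (`block4`, `l1f_CT2`),
  `(∑_i A_i δ_i)^4 ≤ (∑ A_i)^3 ∑ A_i δ_i^4`, so `∑_a (∑_i A_i δ_i(a))^4 ≤ 4 t^4` and at most `64 t^4` indices `a` have
  `∑_i A_i δ_i(a) ≥ 1/2`.
* `TA_count`: index set `Fin K × Fin J × Fin J`, `NJ (i,n',j) = (D.p n').comp (tr j)`,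
  `C y = ∑_i c_i (∑_{n',j} pl n' j (y (i,n',j)), 0)`, `y a (i,n',j) = evY n' (some j) (d_i (sv a (w a))).1`; `count_A` with
  `A := t`, `K := 77`, `z := D.z n`.
   hC: if `p_{n'}(tr j (y (i,n',j))) ≤ M` for all indices then `NY (∑ pl n' j (y (i,n',j))) ≤ M` (`NY_le`; the coordinate at
   `(n', some j)` is `tr j (y (i,n',j))`, the one at `none` is `0`), so `z (C y) ≤ ∑_i A_i M ≤ t M`.
   hy: `block4` for `N = D.p n'`, `d = evY n' (some j) ∘ fst ∘ d_i` (`p_le_NY`), and `tr j v = v` for `v` supported in `< j`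
   (`evY_sup`, `tr_of_sup`).
* `main_est`: suppose `z_n (jn r - ∑ c_i (d_i r)) ≤ ‖r‖/8` for all `r` with `‖r‖ ≤ 1`.  `exists_cZ` for every `i`; `TZ_block`
  for `d_i' = infY ∘ fst ∘ d_i` gives `l(a)`; `w a = e_{l(a)}`, `r_a = sv a (w a)`, `‖r_a‖ = 1`.  Choose `J` such that
  for all `i, a`: `decomp` holds for `(d_i r_a).1` and `z_n (c_i (cst J x_{ia}, 0) - cZ_i x_{ia}) ≤ 1/(16 (K+1))`,
  `x_{ia} = infY (d_i r_a).1` (finitely many eventual conditions in the ultrafilter).  Then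
  `1 = z_n (jn r_a) ≤ 1/8 + z_n (C (y a)) + (1/16 + 1/16) + ∑_i A_i δ_i(a)`, so `z_n (C (y a)) > 1/4` or
  `∑_i A_i δ_i(a) ≥ 1/2` for every `a`: `s ≤ (4096 * 77^5)^4 t^16 + 64 t^4 ≤ 2 (4096 * 77^5)^4 t^16 < s`.
-/

set_option linter.unusedVariables false

namespace RF

noncomputable section

theorem decomp (y : Y0) : ∃ J0, ∀ J, J0 ≤ J →
    y = (∑ n : Fin J, ∑ j : Fin J, pl n j (evY n (some (j : ℕ)) y)) + cst J (infY y) := by
  classical
  obtain ⟨⟨J0, h1, h2⟩, h3⟩ := y.2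
  refine ⟨J0, fun J hJ => ?_⟩
  have hn : ∀ n, Sup J (evY n none y) := by
    intro n
    rw [evY_apply, ← h2 n J hJ]
    exact h3 n J
  have hext : ∀ y' y'' : Y0, (∀ n o, evY n o y' = evY n o y'') → y' = y'' := by
    intro y' y'' h
    apply Subtype.ext
    funext n o
    exact h n o
  apply hext
  intro n' o
  rw [map_add, map_sum]
  simp only [map_sum, pl_apply]
  cases o with
  | none =>
    rw [cst_none, infY_apply, tr_of_sup (hn n')]
    simp
  | some j' =>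
    rw [cst_some, infY_apply]
    by_cases hj : j' < J
    · rw [if_neg (by omega), add_zero]
      by_cases hn' : n' < J
      · rw [Finset.sum_eq_single (⟨n', hn'⟩ : Fin J)]
        · rw [Finset.sum_eq_single (⟨j', hj⟩ : Fin J)]
          · simp only [and_self, if_true]
            rw [tr_of_sup (evY_sup n' j' y)]
          · intro b _ hb
            rw [if_neg]
            rintro ⟨_, h⟩
            apply hb
            apply Fin.ext
            simpa using h.symm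
          · intro h; exact absurd (Finset.mem_univ _) h
        · intro b _ hb
          apply Finset.sum_eq_zero
          intro c _
          rw [if_neg]
          rintro ⟨h, _⟩
          apply hb
          apply Fin.ext
          exact h.symm
        · intro h; exact absurd (Finset.mem_univ _) h
      · rw [evY_apply, h1 n' (by omega)]
        symm
        apply Finset.sum_eq_zero
        intro b _
        apply Finset.sum_eq_zero
        intro c _
        rw [if_neg]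
        rintro ⟨h, _⟩
        have := b.2
        omega
    · rw [if_pos (by omega), tr_of_sup (hn n')]
      have e1 : evY n' (some j') y = evY n' none y := by
        rw [evY_apply, evY_apply]
        exact h2 n' j' (by omega)
      rw [e1]
      symm
      rw [add_eq_right]
      apply Finset.sum_eq_zero
      intro b _
      apply Finset.sum_eq_zero
      intro c _
      rw [if_neg]
      rintro ⟨_, h⟩
      have := c.2
      simp at h
      omega

theorem T1_count (D : Dat) (n : ℕ) {t : ℝ} (ht : 1 ≤ t) {K : ℕ} (A : Fin K → ℝ)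
    (hA : ∀ i, 0 ≤ A i) (hAt : ∑ i, A i ≤ t)
    (d : Fin K → (Rb (D.s n) (D.m n) →ₗ[ℝ] W0 D)) (hd : ∀ i r, NW D (d i r) ≤ ‖r‖)
    (w : Fin (D.s n) → EuclideanSpace ℝ (Fin (D.m n))) (hw : ∀ a, ‖w a‖ ≤ 1)
    (S : Finset (Fin (D.s n)))
    (hS : ∀ a ∈ S, 1 / 2 ≤ ∑ i, A i * l1f (Ga D) (d i (sv a (w a))).2) :
    (S.card : ℝ) ≤ 64 * t ^ 4 := by
  classical
  set δ : Fin K → Fin (D.s n) → ℝ := fun i a => l1f (Ga D) (d i (sv a (w a))).2 with hδ
  have hδ0 : ∀ i a, 0 ≤ δ i a := fun i a => apply_nonneg _ _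
  have h4 : ∀ i, ∑ a, δ i a ^ 4 ≤ 4 := by
    intro i
    have := block4 (l1f (Ga D)) (Real.sqrt_nonneg 2) (l1f_CT2 (Ga D))
      ((LinearMap.snd ℝ Y0 (Ga D →₀ ℝ)).comp (d i)) (by
        intro r
        refine le_trans ?_ (hd i r)
        rw [NW_apply]
        have : 0 ≤ NY D (d i r).1 := apply_nonneg _ _
        show l1f (Ga D) (d i r).2 ≤ _
        linarith) w hw
    refine le_trans this ?_
    have e : Real.sqrt 2 ^ 4 = 4 := by
      have : Real.sqrt 2 ^ 2 = 2 := Real.sq_sqrt (by norm_num)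
      calc Real.sqrt 2 ^ 4 = (Real.sqrt 2 ^ 2) ^ 2 := by ring
        _ = 4 := by rw [this]; norm_num
    exact le_of_eq e
  have hA0 : 0 ≤ ∑ i, A i := Finset.sum_nonneg fun i _ => hA i
  have hJ : ∀ a, (∑ i, A i * δ i a) ^ 4 ≤ t ^ 3 * ∑ i, A i * δ i a ^ 4 := by
    intro a
    have c1 : (∑ i, A i * δ i a) ^ 2 ≤ (∑ i, A i) * ∑ i, A i * δ i a ^ 2 :=
      Finset.sum_sq_le_sum_mul_sum_of_sq_le_mul _ (fun i _ => hA i)
        (fun i _ => mul_nonneg (hA i) (by positivity)) (fun i _ => le_of_eq (by ring))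
    have c2 : (∑ i, A i * δ i a ^ 2) ^ 2 ≤ (∑ i, A i) * ∑ i, A i * δ i a ^ 4 :=
      Finset.sum_sq_le_sum_mul_sum_of_sq_le_mul _ (fun i _ => hA i)
        (fun i _ => mul_nonneg (hA i) (by positivity)) (fun i _ => le_of_eq (by ring))
    have p1 : 0 ≤ ∑ i, A i * δ i a ^ 4 :=
      Finset.sum_nonneg fun i _ => mul_nonneg (hA i) (by positivity)
    calc (∑ i, A i * δ i a) ^ 4 = ((∑ i, A i * δ i a) ^ 2) ^ 2 := by ring
      _ ≤ ((∑ i, A i) * ∑ i, A i * δ i a ^ 2) ^ 2 := by gcongr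
      _ = (∑ i, A i) ^ 2 * (∑ i, A i * δ i a ^ 2) ^ 2 := by ring
      _ ≤ (∑ i, A i) ^ 2 * ((∑ i, A i) * ∑ i, A i * δ i a ^ 4) := by gcongr
      _ = (∑ i, A i) ^ 3 * ∑ i, A i * δ i a ^ 4 := by ring
      _ ≤ t ^ 3 * ∑ i, A i * δ i a ^ 4 := by gcongr
  have htot : ∑ a, (∑ i, A i * δ i a) ^ 4 ≤ 4 * t ^ 4 := by
    calc ∑ a, (∑ i, A i * δ i a) ^ 4 ≤ ∑ a, t ^ 3 * ∑ i, A i * δ i a ^ 4 :=
          Finset.sum_le_sum fun a _ => hJ a
      _ = t ^ 3 * ∑ i, A i * ∑ a, δ i a ^ 4 := by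
          rw [← Finset.mul_sum, Finset.sum_comm]
          simp only [Finset.mul_sum]
      _ ≤ t ^ 3 * ∑ i, A i * 4 := by
          gcongr with i
          · exact hA i
          · exact h4 i
      _ = t ^ 3 * ((∑ i, A i) * 4) := by rw [Finset.sum_mul]
      _ ≤ t ^ 3 * (t * 4) := by gcongr
      _ = 4 * t ^ 4 := by ring
  have hlow : (S.card : ℝ) * (1 / 2) ^ 4 ≤ ∑ a, (∑ i, A i * δ i a) ^ 4 := by
    calc (S.card : ℝ) * (1 / 2) ^ 4 = ∑ a ∈ S, ((1 : ℝ) / 2) ^ 4 := by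
          rw [Finset.sum_const, nsmul_eq_mul]
      _ ≤ ∑ a ∈ S, (∑ i, A i * δ i a) ^ 4 := by
          refine Finset.sum_le_sum fun a ha => ?_
          exact pow_le_pow_left₀ (by norm_num) (hS a ha) 4
      _ ≤ ∑ a, (∑ i, A i * δ i a) ^ 4 :=
          Finset.sum_le_sum_of_subset_of_nonneg (Finset.subset_univ _) fun a _ _ => by positivity
  linarith

end

end RF
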