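import Pool.Agent.RF.F5

/-!
# [RF-F5] The main estimate on the dense subspace

* `decomp`: for `y ∈ Y0` and all large `J`, `y = ∑_{n,j < J} pl n j (y n (some j)) + cst J (infY y)`.
* `T1_count`: with `δ_i(a) = l1f ((d_i (sv a (w a))).2)`: `∑_a δ_i(a)^4 ≤ (sqrt 2)^4 = 4` (`block4`, `l1f_CT2`),
  `(∑_i A_i δ_i)^4 ≤ (∑ A_i)^3 ∑ A_i δ_i^4`, so `∑_a (∑_i A_i δ_i(a))^4 ≤ 4 t^4` and at most `64 t^4` indices `a` have
  `∑_i A_i δ_i(a) ≥ 1/2`.
* `TA_count`: index set `Fin K × Fin J × Fin J`, `NJ (i,n',j) = (D.p n').comp (tr j)`,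
  `C y = ∑_i c_i (∑_{n',j} pl n' j (y (i,n',j)), 0)`, `y a (i,n',j) = evY n' (some j) (d_i (sv a (w a))).1`; `count_A` with
  `A := t`, `K := 77`, `z := D.z n`.
   hC: if `p_{n'}(tr j (y (i,n',j))) ≤ M` for all indices then `NY (∑ pl n' j (y (i,n',j))) ≤ M` (`NY_le`; the coordinate at
   `(n', some j)` is `tr j (y (i,n',j))`, the one at `none` is `0`), so `z (C y) ≤ ∑_i A_i M ≤ t M`.
   hy: `block4` for `N = D.p n'`, `d = evY n' (some j) ∘ fst ∘ d_i` (`p_le_NY`), and `tr j v = v` for `v` supported in `< j`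
   (`evY_sup`, `tr_of_sup`).
* `main_est`: suppose `z_n (jn r - ∑ c_i (d_i r)) ≤ ‖r‖/8` for all `r` with `‖r‖ ≤ 1`.  `exists_cZ` for every `i`; `TZ_block`
  for `d_i' = infY ∘ fst ∘ d_i` gives `l(a)`; `w a = e_{l(a)}`, `r_a = sv a (w a)`, `‖r_a‖ = 1`.  Choose `J` such that
  for all `i, a`: `decomp` holds for `(d_i r_a).1` and `z_n (c_i (cst J x_{ia}, 0) - cZ_i x_{ia}) ≤ 1/(16 (K+1))`,
  `x_{ia} = infY (d_i r_a).1` (finitely many eventual conditions in the ultrafilter).  Then
  `1 = z_n (jn r_a) ≤ 1/8 + z_n (C (y a)) + (1/16 + 1/16) + ∑_i A_i δ_i(a)`, so `z_n (C (y a)) > 1/4` or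
  `∑_i A_i δ_i(a) ≥ 1/2` for every `a`: `s ≤ (4096 * 77^5)^4 t^16 + 64 t^4 ≤ 2 (4096 * 77^5)^4 t^16 < s`.
-/

set_option linter.unusedVariables false

namespace RF

noncomputable section

theorem TA_count (D : Dat) (n : ℕ) {t : ℝ} (ht : 1 ≤ t) {K : ℕ} (A : Fin K → ℝ)
    (hA : ∀ i, 0 ≤ A i) (hAt : ∑ i, A i ≤ t) (c : Fin K → (W0 D →ₗ[ℝ] Vec))
    (hc : ∀ i w, D.z n (c i w) ≤ A i * NW D w)
    (d : Fin K → (Rb (D.s n) (D.m n) →ₗ[ℝ] W0 D)) (hd : ∀ i r, NW D (d i r) ≤ ‖r‖)
    (w : Fin (D.s n) → EuclideanSpace ℝ (Fin (D.m n))) (hw : ∀ a, ‖w a‖ ≤ 1) (J : ℕ)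
    (S : Finset (Fin (D.s n)))
    (hS : ∀ a ∈ S, 1 / 4 < D.z n (∑ i, c i (∑ n' : Fin J, ∑ j : Fin J,
      pl n' j (evY n' (some (j : ℕ)) (d i (sv a (w a))).1), 0))) :
    (S.card : ℝ) ≤ (4096 * 77 ^ 5) ^ 4 * t ^ 16 := by
  classical
  -- the linear map
  let P : Fin K → ((Fin K × Fin J × Fin J → Vec) →ₗ[ℝ] Y0) := fun i =>
    ∑ n' : Fin J, ∑ j : Fin J, (pl n' j).comp (LinearMap.proj (i, n', j))
  have hP : ∀ i y, P i y = ∑ n' : Fin J, ∑ j : Fin J, pl n' j (y (i, n', j)) := by
    intro i y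
    simp [P, LinearMap.sum_apply]
  let C : (Fin K × Fin J × Fin J → Vec) →ₗ[ℝ] Vec :=
    ∑ i, (c i).comp ((LinearMap.inl ℝ Y0 (Ga D →₀ ℝ)).comp (P i))
  have hCv : ∀ y, C y = ∑ i, c i (P i y, 0) := by
    intro y
    simp [C, LinearMap.sum_apply]
  have hsumle : ∀ {ι : Type} [Fintype ι] (N : SN Vec) (f : ι → Vec), N (∑ i, f i) ≤ ∑ i, N (f i) := by
    intro ι _ N f
    have : ∀ s : Finset ι, N (∑ i ∈ s, f i) ≤ ∑ i ∈ s, N (f i) := by
      intro s
      induction s using Finset.induction_on with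
      | empty => simp
      | insert i s hi ih =>
        rw [Finset.sum_insert hi, Finset.sum_insert hi]
        exact (map_add_le_add N _ _).trans (by linarith)
    exact this Finset.univ
  refine count_A (fun q : Fin K × Fin J × Fin J => (D.p q.2.1).comp (tr q.2.2)) (D.z n) ht
    (by norm_num) (D.c4 n) C ?_
    (fun a q => evY q.2.1 (some (q.2.2 : ℕ)) (d q.1 (sv a (w a))).1) ?_ S ?_
  · intro y M hM hy
    rw [hCv]
    have hNY : ∀ i, NY D (P i y) ≤ M := by
      intro i
      refine NY_le D _ ?_ ?_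
      · intro n1 j1
        rw [hP, map_sum]
        simp only [map_sum, pl_apply]
        by_cases h : n1 < J ∧ j1 < J
        · have e1 : ∑ b : Fin J, ∑ c' : Fin J, (if n1 = (b : ℕ) ∧ some j1 = some (c' : ℕ) then
              tr c' (y (i, b, c')) else 0) = tr j1 (y (i, ⟨n1, h.1⟩, ⟨j1, h.2⟩)) := by
            rw [Finset.sum_eq_single (⟨n1, h.1⟩ : Fin J)]
            · rw [Finset.sum_eq_single (⟨j1, h.2⟩ : Fin J)]
              · simp
              · intro b _ hb
                rw [if_neg]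
                rintro ⟨_, h'⟩
                apply hb
                apply Fin.ext
                simpa using h'.symm
              · intro h'; exact absurd (Finset.mem_univ _) h'
            · intro b _ hb
              apply Finset.sum_eq_zero
              intro c' _
              rw [if_neg]
              rintro ⟨h', _⟩
              apply hb
              apply Fin.ext
              exact h'.symm
            · intro h'; exact absurd (Finset.mem_univ _) h'
          rw [e1]
          exact hy (i, ⟨n1, h.1⟩, ⟨j1, h.2⟩)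
        · have e1 : ∑ b : Fin J, ∑ c' : Fin J, (if n1 = (b : ℕ) ∧ some j1 = some (c' : ℕ) then
              tr c' (y (i, b, c')) else 0) = 0 := by
            apply Finset.sum_eq_zero
            intro b _
            apply Finset.sum_eq_zero
            intro c' _
            rw [if_neg]
            rintro ⟨h1, h2⟩
            apply h
            have h3 := b.2
            have h4 := c'.2
            simp at h2
            omega
          rw [e1, map_zero]
          exact hM
      · intro n1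
        rw [hP, map_sum]
        simp only [map_sum, pl_apply]
        have e1 : ∑ b : Fin J, ∑ c' : Fin J, (if n1 = (b : ℕ) ∧ (none : Option ℕ) = some (c' : ℕ) then
              tr c' (y (i, b, c')) else 0) = 0 := by
          apply Finset.sum_eq_zero
          intro b _
          apply Finset.sum_eq_zero
          intro c' _
          rw [if_neg]
          rintro ⟨_, h2⟩
          exact absurd h2 (by simp)
        rw [e1, map_zero]
        exact hM
    calc D.z n (∑ i, c i (P i y, 0)) ≤ ∑ i, D.z n (c i (P i y, 0)) := hsumle _ _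
      _ ≤ ∑ i, A i * M := by
          refine Finset.sum_le_sum fun i _ => ?_
          refine (hc i _).trans ?_
          have : NW D (P i y, 0) ≤ M := by
            rw [NW_apply]
            show NY D (P i y) + l1f (Ga D) 0 ≤ M
            rw [map_zero, add_zero]
            exact hNY i
          exact mul_le_mul_of_nonneg_left this (hA i)
      _ = (∑ i, A i) * M := by rw [Finset.sum_mul]
      _ ≤ t * M := by gcongr
  · rintro ⟨i, n', j⟩
    have hb := block4 (D.p n') (by norm_num : (0:ℝ) ≤ 77) (D.c2 n')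
      ((evY n' (some (j : ℕ))).comp ((LinearMap.fst ℝ Y0 (Ga D →₀ ℝ)).comp (d i))) (by
        intro r
        refine le_trans ?_ (hd i r)
        rw [NW_apply]
        have h1 : 0 ≤ l1f (Ga D) (d i r).2 := apply_nonneg _ _
        have h2 := p_le_NY D (d i r).1 n' j
        show D.p n' (evY n' (some (j : ℕ)) (d i r).1) ≤ _
        linarith) w hw
    refine le_trans (le_of_eq ?_) hb
    refine Finset.sum_congr rfl fun a _ => ?_
    show (D.p n' (tr j (evY n' (some (j : ℕ)) (d i (sv a (w a))).1))) ^ 4 =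
      (D.p n' (evY n' (some (j : ℕ)) (d i (sv a (w a))).1)) ^ 4
    rw [tr_of_sup (evY_sup _ _ _)]
  · intro a ha
    refine (hS a ha).trans_le (le_of_eq ?_)
    rw [hCv]
    congr 1
    refine Finset.sum_congr rfl fun i _ => ?_
    rw [hP]

end

end RF
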