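import Pool.Agent.RF.F5b

/-!
# [RF-F5] The main estimate on the dense subspace

* `decomp`: for `y ∈ Y0` and all large `J`, `y = ∑_{n,j < J} pl n j (y n (some j)) + cst J (infY y)`.
* `T1_count`: with `δ_i(a) = l1f ((d_i (sv a (w a))).2)`: `∑_a δ_i(a)^4 ≤ (sqrt 2)^4 = 4` (`block4`, `l1f_CT2`),
  `(∑_i A_i δ_i)^4 ≤ (∑ A_i)^3 ∑ A_i δ_i^4`, so `∑_a (∑_i A_i δ_i(a))^4 ≤ 4 t^4` and at most `64 t^4` indices `a` have
  `∑_i A_i δ_i(a) ≥ 1/2`.
* `TA_count`: index set `Fin K × Fin J × Fin J`, `NJ (i,n',j) = (D.p n').comp (tr j)`,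
  `C y = ∑_i c_i (∑_{n',j} pl n' j (y (i,n',j)), 0)`, `y a (i,n',j) = evY n' (some j) (d_i (sv a (w a))).1`; `count_A` with
  `A := t`, `K := 77`, `z := D.z n`.
   hC: if `p_{n'}(tr j (y (i,n',j))) ≤ M` for all indices then `NY (∑ pl n' j (y (i,n',j))) ≤ M` (`NY_le`; the coordinate at
   `(n', some j)` is `tr j (y (i,n',j))`, the one at `none` is `0`), so `z (C y) ≤ ∑_i A_i M ≤ t M`.
   hy: `block4` for `N = D.p n'`, `d = evY n' (some j) ∘ fst ∘ d_i` (`p_le_NY`), and `tr j v = v` for `v` supported in `< j`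
   (`evY_sup`, `tr_of_sup`).
* `main_est`: suppose `z_n (jn r - ∑ c_i (d_i r)) ≤ ‖r‖/8` for all `r` with `‖r‖ ≤ 1`.  `exists_cZ` for every `i`; `TZ_block`
  for `d_i' = infY ∘ fst ∘ d_i` gives `l(a)`; `w a = e_{l(a)}`, `r_a = sv a (w a)`, `‖r_a‖ = 1`.  Choose `J` such that
  for all `i, a`: `decomp` holds for `(d_i r_a).1` and `z_n (c_i (cst J x_{ia}, 0) - cZ_i x_{ia}) ≤ 1/(16 (K+1))`,
  `x_{ia} = infY (d_i r_a).1` (finitely many eventual conditions in the ultrafilter).  Then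
  `1 = z_n (jn r_a) ≤ 1/8 + z_n (C (y a)) + (1/16 + 1/16) + ∑_i A_i δ_i(a)`, so `z_n (C (y a)) > 1/4` or
  `∑_i A_i δ_i(a) ≥ 1/2` for every `a`: `s ≤ (4096 * 77^5)^4 t^16 + 64 t^4 ≤ 2 (4096 * 77^5)^4 t^16 < s`.
-/

set_option linter.unusedVariables false

namespace RF

noncomputable section

private theorem F5c_sum_le {V : Type} [AddCommGroup V] [Module ℝ V] (N : SN V) {κ : Type}
    (s : Finset κ) (f : κ → V) : N (∑ a ∈ s, f a) ≤ ∑ a ∈ s, N (f a) := by
  classical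
  induction s using Finset.induction_on with
  | empty => simp
  | insert a s ha ih =>
    rw [Finset.sum_insert ha, Finset.sum_insert ha]
    exact (map_add_le_add N _ _).trans (by linarith)

theorem main_est (D : Dat) (n : ℕ) {t : ℝ} (ht : 1 ≤ t)
    (hs : 2 * (4096 * 77 ^ 5) ^ 4 * t ^ 16 < D.s n)
    (hm : (128 * (77 * (D.s n : ℝ)) ^ 2 * 81 ^ 2 * t) ^ 2 ≤ D.m n)
    {K : ℕ} (A : Fin K → ℝ) (hA : ∀ i, 0 ≤ A i) (hAt : ∑ i, A i ≤ t)
    (c : Fin K → (W0 D →ₗ[ℝ] Vec)) (hc : ∀ i w, D.z n (c i w) ≤ A i * NW D w)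
    (hf : ∀ i, FinB (NW D) (c i))
    (d : Fin K → (Rb (D.s n) (D.m n) →ₗ[ℝ] W0 D)) (hd : ∀ i r, NW D (d i r) ≤ ‖r‖) :
    ∃ r, ‖r‖ ≤ 1 ∧ 1 / 8 < D.z n (D.jn n r - ∑ i, c i (d i r)) := by
  classical
  by_contra hcon
  push Not at hcon
  have hex : ∀ i, ∃ cZ : (ℕ →₀ Vec) →ₗ[ℝ] Vec, FinB (NZ D) cZ ∧
      (∀ x, D.z n (cZ x) ≤ A i * NZ D x) ∧
      ∀ (x : ℕ →₀ Vec) (τ : ℝ), 0 < τ →
        ∀ᶠ J in (Filter.hyperfilter ℕ : Filter ℕ), D.z n (c i (cst J x, 0) - cZ x) ≤ τ :=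
    fun i => exists_cZ D n (hA i) (c i) (hc i) (hf i)
  choose cZ hcZ1 hcZ2 hcZ3 using hex
  have hd' : ∀ i r, NZ D ((infY ∘ₗ (LinearMap.fst ℝ Y0 (Ga D →₀ ℝ)) ∘ₗ (d i)) r) ≤ ‖r‖ := by
    intro i r
    have h1 : NZ D (infY (d i r).1) ≤ NY D (d i r).1 := infY_le D _
    have h2 := hd i r
    rw [NW_apply] at h2
    have h3 : 0 ≤ l1f (Ga D) (d i r).2 := apply_nonneg _ _
    show NZ D (infY (d i r).1) ≤ ‖r‖
    linarith
  have hTZ := fun a => TZ_block D n ht A hA hAt cZ hcZ1 hcZ2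
    (fun i => infY ∘ₗ (LinearMap.fst ℝ Y0 (Ga D →₀ ℝ)) ∘ₗ (d i)) hd' hm a
  choose l hl using hTZ
  obtain ⟨w, hw⟩ : ∃ w : Fin (D.s n) → EuclideanSpace ℝ (Fin (D.m n)),
      ∀ a, w a = EuclideanSpace.single (l a) (1 : ℝ) := ⟨_, fun _ => rfl⟩
  have hw1 : ∀ a, ‖w a‖ = 1 := by
    intro a
    rw [hw, EuclideanSpace.norm_single, norm_one]
  have hr1 : ∀ a, ‖sv a (w a)‖ = 1 := fun a => by rw [norm_sv, hw1]
  have hl' : ∀ a, D.z n (∑ i, cZ i (infY (d i (sv a (w a))).1)) ≤ 1 / 16 := by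
    intro a
    rw [hw]
    exact hl a
  have hK : (0 : ℝ) < 16 * ((K : ℝ) + 1) := by positivity
  -- the choice of J
  have hev1 : ∀ᶠ J in (Filter.hyperfilter ℕ : Filter ℕ), ∀ a i,
      (d i (sv a (w a))).1 = (∑ n' : Fin J, ∑ j : Fin J,
        pl n' j (evY n' (some (j : ℕ)) (d i (sv a (w a))).1)) +
          cst J (infY (d i (sv a (w a))).1) := by
    rw [Filter.eventually_all]
    intro a
    rw [Filter.eventually_all]
    intro i
    obtain ⟨J0, hJ0⟩ := decomp (d i (sv a (w a))).1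
    exact ((Filter.eventually_ge_atTop J0).filter_mono Nat.hyperfilter_le_atTop).mono
      fun J hJ => hJ0 J hJ
  have hev2 : ∀ᶠ J in (Filter.hyperfilter ℕ : Filter ℕ), ∀ a i,
      D.z n (c i (cst J (infY (d i (sv a (w a))).1), 0) - cZ i (infY (d i (sv a (w a))).1)) ≤
        1 / (16 * ((K : ℝ) + 1)) := by
    rw [Filter.eventually_all]
    intro a
    rw [Filter.eventually_all]
    intro i
    exact hcZ3 i _ _ (div_pos one_pos hK)
  obtain ⟨J, hJ1, hJ2⟩ := (hev1.and hev2).exists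
  obtain ⟨P, hP⟩ : ∃ P : Fin (D.s n) → Fin K → Y0, ∀ a i, P a i = ∑ n' : Fin J, ∑ j : Fin J,
        pl n' j (evY n' (some (j : ℕ)) (d i (sv a (w a))).1) := ⟨_, fun _ _ => rfl⟩
  have hkey : ∀ a, 1 / 4 < D.z n (∑ i, c i (P a i, 0)) ∨
      1 / 2 ≤ ∑ i, A i * l1f (Ga D) (d i (sv a (w a))).2 := by
    intro a
    have h1 := hcon (sv a (w a)) (hr1 a).le
    have hsplit : ∀ i, d i (sv a (w a)) = ((P a i, 0) : W0 D) +
        ((cst J (infY (d i (sv a (w a))).1), 0) : W0 D) + ((0, (d i (sv a (w a))).2) : W0 D) := by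
      intro i
      have h2 := hJ1 a i
      rw [← hP] at h2
      apply Prod.ext
      · show (d i (sv a (w a))).1 = P a i + cst J (infY (d i (sv a (w a))).1) + 0
        rw [add_zero]
        exact h2
      · show (d i (sv a (w a))).2 = 0 + 0 + (d i (sv a (w a))).2
        rw [add_zero, zero_add]
    have hsum : ∑ i, c i (d i (sv a (w a))) = ∑ i, c i ((P a i, 0) : W0 D) +
        ∑ i, c i ((cst J (infY (d i (sv a (w a))).1), 0) : W0 D) +
          ∑ i, c i ((0, (d i (sv a (w a))).2) : W0 D) := by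
      rw [← Finset.sum_add_distrib, ← Finset.sum_add_distrib]
      refine Finset.sum_congr rfl fun i _ => ?_
      rw [← map_add, ← map_add, ← hsplit i]
    have h3 : D.z n (∑ i, c i ((0, (d i (sv a (w a))).2) : W0 D)) ≤
        ∑ i, A i * l1f (Ga D) (d i (sv a (w a))).2 := by
      refine (F5c_sum_le _ _ _).trans (Finset.sum_le_sum fun i _ => ?_)
      have h4 := hc i ((0, (d i (sv a (w a))).2) : W0 D)
      rw [NW_apply, map_zero, zero_add] at h4
      exact h4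
    have h4 : D.z n (∑ i, c i ((cst J (infY (d i (sv a (w a))).1), 0) : W0 D)) ≤ 1 / 8 := by
      have h5 : ∑ i, c i ((cst J (infY (d i (sv a (w a))).1), 0) : W0 D) =
          (∑ i, (c i ((cst J (infY (d i (sv a (w a))).1), 0) : W0 D) -
            cZ i (infY (d i (sv a (w a))).1))) + ∑ i, cZ i (infY (d i (sv a (w a))).1) := by
        rw [Finset.sum_sub_distrib]
        abel
      rw [h5]
      refine (map_add_le_add _ _ _).trans ?_
      have h6 : D.z n (∑ i, (c i ((cst J (infY (d i (sv a (w a))).1), 0) : W0 D) -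
            cZ i (infY (d i (sv a (w a))).1))) ≤ 1 / 16 := by
        refine (F5c_sum_le _ _ _).trans ?_
        refine (Finset.sum_le_sum fun i _ => hJ2 a i).trans ?_
        rw [Finset.sum_const, Finset.card_univ, Fintype.card_fin, nsmul_eq_mul,
          mul_one_div, div_le_iff₀ hK]
        linarith
      have h7 := hl' a
      linarith
    have h5 : (1 : ℝ) = D.z n (D.jn n (sv a (w a))) := by rw [D.nj, hr1]
    have h6 : D.jn n (sv a (w a)) = (D.jn n (sv a (w a)) - ∑ i, c i (d i (sv a (w a)))) +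
        (∑ i, c i ((P a i, 0) : W0 D) +
        ∑ i, c i ((cst J (infY (d i (sv a (w a))).1), 0) : W0 D) +
          ∑ i, c i ((0, (d i (sv a (w a))).2) : W0 D)) := by
      rw [← hsum]
      abel
    have h7 : D.z n (D.jn n (sv a (w a))) ≤
        D.z n (D.jn n (sv a (w a)) - ∑ i, c i (d i (sv a (w a)))) +
        (D.z n (∑ i, c i ((P a i, 0) : W0 D)) +
        D.z n (∑ i, c i ((cst J (infY (d i (sv a (w a))).1), 0) : W0 D)) +
          D.z n (∑ i, c i ((0, (d i (sv a (w a))).2) : W0 D))) := by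
      conv_lhs => rw [h6]
      refine (map_add_le_add _ _ _).trans ?_
      have h8 := map_add_le_add (D.z n) (∑ i, c i ((P a i, 0) : W0 D) +
        ∑ i, c i ((cst J (infY (d i (sv a (w a))).1), 0) : W0 D))
          (∑ i, c i ((0, (d i (sv a (w a))).2) : W0 D))
      have h9 := map_add_le_add (D.z n) (∑ i, c i ((P a i, 0) : W0 D))
        (∑ i, c i ((cst J (infY (d i (sv a (w a))).1), 0) : W0 D))
      linarith
    by_contra hnot
    rw [not_or, not_lt, not_le] at hnot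
    obtain ⟨h10, h11⟩ := hnot
    linarith
  have hS1 : (((Finset.univ.filter fun a => 1 / 4 < D.z n (∑ i, c i (P a i, 0))).card : ℕ) : ℝ) ≤
      (4096 * 77 ^ 5) ^ 4 * t ^ 16 := by
    apply TA_count D n ht A hA hAt c hc d hd w (fun a => (hw1 a).le) J
    intro a ha
    have h1 := (Finset.mem_filter.1 ha).2
    simp only [hP] at h1
    exact h1
  have hS2 : (((Finset.univ.filter fun a =>
      1 / 2 ≤ ∑ i, A i * l1f (Ga D) (d i (sv a (w a))).2).card : ℕ) : ℝ) ≤ 64 * t ^ 4 := by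
    apply T1_count D n ht A hA hAt d hd w (fun a => (hw1 a).le)
    intro a ha
    exact (Finset.mem_filter.1 ha).2
  have hcard : D.s n ≤ (Finset.univ.filter fun a => 1 / 4 < D.z n (∑ i, c i (P a i, 0))).card +
      (Finset.univ.filter fun a => 1 / 2 ≤ ∑ i, A i * l1f (Ga D) (d i (sv a (w a))).2).card := by
    have h1 : (Finset.univ : Finset (Fin (D.s n))) ⊆
        (Finset.univ.filter fun a => 1 / 4 < D.z n (∑ i, c i (P a i, 0))) ∪
        (Finset.univ.filter fun a => 1 / 2 ≤ ∑ i, A i * l1f (Ga D) (d i (sv a (w a))).2) := by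
      intro a _
      rw [Finset.mem_union, Finset.mem_filter, Finset.mem_filter]
      rcases hkey a with h2 | h2
      · exact Or.inl ⟨Finset.mem_univ _, h2⟩
      · exact Or.inr ⟨Finset.mem_univ _, h2⟩
    have h2 := (Finset.card_le_card h1).trans (Finset.card_union_le _ _)
    rw [Finset.card_univ, Fintype.card_fin] at h2
    exact h2
  have hcardR : (D.s n : ℝ) ≤
      (((Finset.univ.filter fun a => 1 / 4 < D.z n (∑ i, c i (P a i, 0))).card : ℕ) : ℝ) +
      (((Finset.univ.filter fun a =>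
        1 / 2 ≤ ∑ i, A i * l1f (Ga D) (d i (sv a (w a))).2).card : ℕ) : ℝ) := by
    exact_mod_cast hcard
  have ht4 : t ^ 4 ≤ t ^ 16 := pow_le_pow_right₀ ht (by norm_num)
  have ht0 : 0 ≤ t ^ 16 := by positivity
  have hbig : 64 * t ^ 4 ≤ (4096 * 77 ^ 5) ^ 4 * t ^ 16 := by
    calc 64 * t ^ 4 ≤ 64 * t ^ 16 := by linarith
      _ ≤ (4096 * 77 ^ 5) ^ 4 * t ^ 16 := by
          apply mul_le_mul_of_nonneg_right _ ht0
          norm_num
  linarith

end

end RF
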