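import Pool.Agent.RF.F5c
import Pool.Agent.RF.E2b

/-!
# [RF-F6] Transfer to the completion

`i : W → E` with dense range and `‖i w‖ = N w`.
* `approx_d`: `R` finite-dimensional normed space, `d : R → E` linear, `ε > 0`: there is a linear `d0 : R → W` with
  `‖i (d0 r) - d r‖ ≤ ε ‖r‖` (approximate the images of a basis; the coordinates are bounded by `C ‖r‖`).
* `approx_c`: `c ∈ FE ℝ E`, `ε > 0`: there is a linear `c0 : W → W` with `FinB N c0` and `‖i (c0 w) - c (i w)‖ ≤ ε N w`.
  Take `S` of finite rank with `‖c - S‖ ≤ ε/2`; `S x = ∑_l φ_l x • e_l` with a basis `e_l` of the range and `φ_l` continuous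
  (coordinates on a finite-dimensional space are continuous); replace `e_l` by `i (w_l)` with
  `∑_l ‖φ_l‖ ‖e_l - i w_l‖ ≤ ε/2`; `c0 w = ∑_l φ_l (i w) • w_l`.
* `iotW D n r = (constant family of jn r at n, 0)`.
-/

set_option linter.unusedVariables false

namespace RF

noncomputable section

theorem approx_d {W E R : Type} [AddCommGroup W] [Module ℝ W] [NormedAddCommGroup E]
    [NormedSpace ℝ E] [NormedAddCommGroup R] [NormedSpace ℝ R] [FiniteDimensional ℝ R]
    (i : W →ₗ[ℝ] E) (hi : DenseRange i) (d : R →ₗ[ℝ] E) {ε : ℝ} (hε : 0 < ε) :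
    ∃ d0 : R →ₗ[ℝ] W, ∀ r, ‖i (d0 r) - d r‖ ≤ ε * ‖r‖ := by
  classical
  let b := Module.finBasis ℝ R
  let φ : Fin (Module.finrank ℝ R) → (R →L[ℝ] ℝ) := fun j => LinearMap.toContinuousLinearMap (b.coord j)
  have hφ : ∀ j r, φ j r = b.repr r j := fun j r => rfl
  set C : ℝ := ∑ j, ‖φ j‖ with hC
  have hC0 : 0 ≤ C := Finset.sum_nonneg fun j _ => norm_nonneg _
  have hη : 0 < ε / (C + 1) := div_pos hε (by linarith)
  have hex : ∀ j, ∃ w : W, ‖i w - d (b j)‖ < ε / (C + 1) := by
    intro j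
    obtain ⟨w, hw⟩ := hi.exists_dist_lt (d (b j)) hη
    refine ⟨w, ?_⟩
    rw [dist_comm, dist_eq_norm] at hw
    exact hw
  choose w hw using hex
  refine ⟨b.constr ℝ w, fun r => ?_⟩
  have h1 : i (b.constr ℝ w r) - d r = ∑ j, φ j r • (i (w j) - d (b j)) := by
    have h2 : d r = ∑ j, φ j r • d (b j) := by
      conv_lhs => rw [← b.sum_repr r]
      rw [map_sum]
      exact Finset.sum_congr rfl fun j _ => by rw [map_smul, hφ]
    have h3 : b.constr ℝ w r = ∑ j, φ j r • w j := by
      rw [Module.Basis.constr_apply_fintype]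
      exact Finset.sum_congr rfl fun j _ => rfl
    rw [h2, h3, map_sum, ← Finset.sum_sub_distrib]
    exact Finset.sum_congr rfl fun j _ => by rw [map_smul, smul_sub]
  rw [h1]
  calc ‖∑ j, φ j r • (i (w j) - d (b j))‖ ≤ ∑ j, ‖φ j r • (i (w j) - d (b j))‖ := norm_sum_le _ _
    _ ≤ ∑ j, ‖φ j‖ * ‖r‖ * (ε / (C + 1)) := by
        refine Finset.sum_le_sum fun j _ => ?_
        rw [norm_smul]
        exact mul_le_mul ((φ j).le_opNorm r) (hw j).le (norm_nonneg _)
          (mul_nonneg (norm_nonneg _) (norm_nonneg _))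
    _ = C * (ε / (C + 1)) * ‖r‖ := by
        rw [hC, Finset.sum_mul, Finset.sum_mul]
        exact Finset.sum_congr rfl fun j _ => by ring
    _ ≤ ε * ‖r‖ := by
        refine mul_le_mul_of_nonneg_right ?_ (norm_nonneg r)
        rw [mul_div_assoc', div_le_iff₀ (by linarith)]
        nlinarith

end

end RF
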