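import Pool.Agent.RF.F6

/-!
# [RF-F6] Transfer to the completion

`i : W → E` with dense range and `‖i w‖ = N w`.
* `approx_d`: `R` finite-dimensional normed space, `d : R → E` linear, `ε > 0`: there is a linear `d0 : R → W` with
  `‖i (d0 r) - d r‖ ≤ ε ‖r‖` (approximate the images of a basis; the coordinates are bounded by `C ‖r‖`).
* `approx_c`: `c ∈ FE ℝ E`, `ε > 0`: there is a linear `c0 : W → W` with `FinB N c0` and `‖i (c0 w) - c (i w)‖ ≤ ε N w`.
  Take `S` of finite rank with `‖c - S‖ ≤ ε/2`; `S x = ∑_l φ_l x • e_l` with a basis `e_l` of the range and `φ_l` continuous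
  (coordinates on a finite-dimensional space are continuous); replace `e_l` by `i (w_l)` with
  `∑_l ‖φ_l‖ ‖e_l - i w_l‖ ≤ ε/2`; `c0 w = ∑_l φ_l (i w) • w_l`.
* `iotW D n r = (constant family of jn r at n, 0)`.
-/

set_option linter.unusedVariables false

namespace RF

noncomputable section

theorem approx_c {W E : Type} [AddCommGroup W] [Module ℝ W] [NormedAddCommGroup E]
    [NormedSpace ℝ E] (N : SN W) (i : W →ₗ[ℝ] E) (hi : DenseRange i) (hn : ∀ w, ‖i w‖ = N w)
    (c : E →L[ℝ] E) (hc : c ∈ FE ℝ E) {ε : ℝ} (hε : 0 < ε) :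
    ∃ c0 : W →ₗ[ℝ] W, FinB N c0 ∧ ∀ w, ‖i (c0 w) - c (i w)‖ ≤ ε * N w := by
  have hc' : c ∈ closure (finRank ℝ E) := hc
  obtain ⟨S, hS, hcS⟩ := Metric.mem_closure_iff.mp hc' (ε / 2) (by linarith)
  have hfd : FiniteDimensional ℝ (LinearMap.range (S : E →ₗ[ℝ] E)) := hS
  let V : Submodule ℝ E := LinearMap.range (S : E →ₗ[ℝ] E)
  have hV : ∀ x, S x ∈ V := fun x => ⟨x, rfl⟩
  let S' : E →L[ℝ] V := S.codRestrict V hV
  let b := Module.finBasis ℝ V
  let φ : Fin (Module.finrank ℝ V) → (E →L[ℝ] ℝ) :=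
    fun l => (LinearMap.toContinuousLinearMap (b.coord l)).comp S'
  have hSx : ∀ x, S x = ∑ l, φ l x • ((b l : V) : E) := by
    intro x
    have h := b.sum_repr (S' x)
    have h2 := congrArg (fun v : V => (v : E)) h
    simp only [Submodule.coe_sum, Submodule.coe_smul] at h2
    exact h2.symm
  let B : ℝ := ∑ l, ‖φ l‖
  have hB : 0 ≤ B := Finset.sum_nonneg (fun l _ => norm_nonneg _)
  have hδ : 0 < ε / (2 * (B + 1)) := by positivity
  have hw : ∀ l, ∃ w : W, dist ((b l : V) : E) (i w) < ε / (2 * (B + 1)) :=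
    fun l => hi.exists_dist_lt _ hδ
  choose w hw using hw
  let c0 : W →ₗ[ℝ] W := ∑ l, (((φ l : E →L[ℝ] ℝ) : E →ₗ[ℝ] ℝ).comp i).smulRight (w l)
  have hc0 : ∀ x, c0 x = ∑ l, φ l (i x) • w l := by
    intro x
    simp only [c0, LinearMap.sum_apply, LinearMap.smulRight_apply, LinearMap.comp_apply,
      ContinuousLinearMap.coe_coe]
  have hle : ∀ l x, |φ l (i x)| ≤ ‖φ l‖ * N x := by
    intro l x
    have h := (φ l).le_opNorm (i x)
    rw [hn, Real.norm_eq_abs] at h
    exact h
  refine ⟨c0, ⟨_, fun l => ((φ l : E →L[ℝ] ℝ) : E →ₗ[ℝ] ℝ).comp i, w, B, hB, ?_, ?_⟩, ?_⟩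
  · intro l x
    refine (hle l x).trans ?_
    refine mul_le_mul_of_nonneg_right ?_ (apply_nonneg N x)
    exact Finset.single_le_sum (f := fun l => ‖φ l‖) (fun l _ => norm_nonneg _)
      (Finset.mem_univ l)
  · intro x
    exact hc0 x
  · intro x
    have hNx : 0 ≤ N x := apply_nonneg N x
    have h1 : i (c0 x) - c (i x)
        = (∑ l, φ l (i x) • (i (w l) - ((b l : V) : E))) + (S (i x) - c (i x)) := by
      rw [hc0, map_sum, hSx]
      simp only [map_smul, smul_sub, Finset.sum_sub_distrib]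
      abel
    rw [h1]
    have h2 : ‖∑ l, φ l (i x) • (i (w l) - ((b l : V) : E))‖ ≤ ε / 2 * N x := by
      refine (norm_sum_le _ _).trans ?_
      have h3 : ∀ l ∈ Finset.univ, ‖φ l (i x) • (i (w l) - ((b l : V) : E))‖
          ≤ ‖φ l‖ * N x * (ε / (2 * (B + 1))) := by
        intro l _
        rw [norm_smul, Real.norm_eq_abs]
        have h4 : ‖i (w l) - ((b l : V) : E)‖ ≤ ε / (2 * (B + 1)) := by
          rw [← dist_eq_norm, dist_comm]
          exact (hw l).le
        exact mul_le_mul (hle l x) h4 (norm_nonneg _) (by positivity)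
      refine (Finset.sum_le_sum h3).trans ?_
      rw [← Finset.sum_mul, ← Finset.sum_mul]
      show B * N x * (ε / (2 * (B + 1))) ≤ ε / 2 * N x
      have h5 : B * N x * (ε / (2 * (B + 1))) = (B / (B + 1)) * (ε / 2 * N x) := by
        field_simp
      rw [h5]
      have h6 : B / (B + 1) ≤ 1 := by
        rw [div_le_one (by linarith)]
        linarith
      have h7 : 0 ≤ ε / 2 * N x := by positivity
      calc B / (B + 1) * (ε / 2 * N x) ≤ 1 * (ε / 2 * N x) :=
            mul_le_mul_of_nonneg_right h6 h7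
        _ = ε / 2 * N x := one_mul _
    have h8 : ‖S (i x) - c (i x)‖ ≤ ε / 2 * N x := by
      show ‖(S - c) (i x)‖ ≤ _
      refine ((S - c).le_opNorm (i x)).trans ?_
      rw [hn]
      refine mul_le_mul_of_nonneg_right ?_ hNx
      rw [← dist_eq_norm, dist_comm]
      exact hcS.le
    calc _ ≤ _ := norm_add_le _ _
      _ ≤ ε / 2 * N x + ε / 2 * N x := add_le_add h2 h8
      _ = ε * N x := by ring

end

end RF
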