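import Pool.Agent.RF.F6b

/-!
# [RF-F6] Transfer to the completion

`i : W → E` with dense range and `‖i w‖ = N w`.
* `approx_d`: `R` finite-dimensional normed space, `d : R → E` linear, `ε > 0`: there is a linear `d0 : R → W` with
  `‖i (d0 r) - d r‖ ≤ ε ‖r‖` (approximate the images of a basis; the coordinates are bounded by `C ‖r‖`).
* `approx_c`: `c ∈ FE ℝ E`, `ε > 0`: there is a linear `c0 : W → W` with `FinB N c0` and `‖i (c0 w) - c (i w)‖ ≤ ε N w`.
  Take `S` of finite rank with `‖c - S‖ ≤ ε/2`; `S x = ∑_l φ_l x • e_l` with a basis `e_l` of the range and `φ_l` continuous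
  (coordinates on a finite-dimensional space are continuous); replace `e_l` by `i (w_l)` with
  `∑_l ‖φ_l‖ ‖e_l - i w_l‖ ≤ ε/2`; `c0 w = ∑_l φ_l (i w) • w_l`.
* `iotW D n r = (constant family of jn r at n, 0)`.
-/

set_option linter.unusedVariables false

namespace RF

noncomputable section

/-- The constant family of `jn r` at `n`. -/
def iotW (D : Dat) (n : ℕ) : Rb (D.s n) (D.m n) →ₗ[ℝ] W0 D where
  toFun r := (cst (D.s n * D.m n) (Finsupp.single n (D.jn n r)), 0)
  map_add' r r' := by
    rw [map_add, Finsupp.single_add, map_add, Prod.mk_add_mk, add_zero]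
  map_smul' c r := by
    rw [map_smul, ← Finsupp.smul_single, map_smul, RingHom.id_apply, Prod.smul_mk, smul_zero]

theorem iotW_none (D : Dat) (n : ℕ) (r : Rb (D.s n) (D.m n)) :
    evY n none (iotW D n r).1 = D.jn n r := by
  show tr (D.s n * D.m n) ((Finsupp.single n (D.jn n r) : ℕ →₀ Vec) n) = D.jn n r
  rw [Finsupp.single_eq_same, tr_of_sup (D.sup_jn n r)]

theorem iotW_norm (D : Dat) (n : ℕ) (r : Rb (D.s n) (D.m n)) : NW D (iotW D n r) = ‖r‖ := by
  have h0 : NW D (iotW D n r) = NY D (iotW D n r).1 := by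
    rw [NW_apply]
    have : (iotW D n r).2 = 0 := rfl
    rw [this, map_zero, add_zero]
  rw [h0]
  apply le_antisymm
  · show NY D (cst (D.s n * D.m n) (Finsupp.single n (D.jn n r))) ≤ ‖r‖
    have hs : ∀ n', Sup (D.s n * D.m n) ((Finsupp.single n (D.jn n r) : ℕ →₀ Vec) n') := by
      intro n'
      rw [Finsupp.single_apply]
      split_ifs with h
      · exact D.sup_jn n r
      · intro i _
        rfl
    refine (cst_le D hs).trans (NZ_le D _ (fun n' => ?_))
    rw [Finsupp.single_apply]
    split_ifs with h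
    · subst h
      exact (D.nj n r).le
    · rw [map_zero]
      exact norm_nonneg r
  · have h := z_le_NY D (iotW D n r).1 n
    rw [iotW_none, D.nj] at h
    exact h

/-- `z_n (y n none) ≤ NW (y, g)`. -/
theorem z_le_NW (D : Dat) (n : ℕ) (w : W0 D) : D.z n (evY n none w.1) ≤ NW D w := by
  rw [NW_apply]
  have h1 := z_le_NY D w.1 n
  have h2 : 0 ≤ l1f (Ga D) w.2 := apply_nonneg _ _
  linarith

end

end RF
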