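import Pool.Agent.RF.F6c

/-!
# [RF-F7] The factorization estimate (*) in the completion

Suppose `∑ ‖c_j‖ B_j < t = 4^n`.  Choose `τ > 0` with `∑ (‖c_j‖ + τ)(B_j + τ) ≤ t` and put `d_j' = (B_j + τ)⁻¹ • d_j`,
`c_j' = (B_j + τ) • c_j`, so `∑ c_j' (d_j' r) = i (iotW r)`, `‖d_j' r‖ ≤ (B_j/(B_j+τ)) ‖r‖`.
Let `ε > 0` be small: `ε ≤ τ/(B_j + τ)`, `ε ≤ τ (B_j + τ)` for all `j`, and `∑_j (‖c_j'‖ + 1) ε ≤ 1/8`.
`approx_d` for `d_j'` and `ε`: `NW (d0_j r) = ‖i (d0_j r)‖ ≤ (B_j/(B_j+τ) + ε) ‖r‖ ≤ ‖r‖`.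
`approx_c` for `c_j' ∈ FE` and `ε`: `c0_j`.  Put `c''_j w = evY n none (c0_j w).1`: `FinB`, and
`z_n (c''_j w) ≤ NW (c0_j w) = ‖i (c0_j w)‖ ≤ (‖c_j'‖ + ε) NW w ≤ (‖c_j‖ + τ)(B_j + τ) NW w =: A_j NW w`, `∑ A_j ≤ t`.
`main_est` gives `r`, `‖r‖ ≤ 1`, with `1/8 < z_n (jn r - ∑ c''_j (d0_j r)) = z_n (evY n none (iotW r - ∑ c0_j (d0_j r)).1)
 ≤ NW (iotW r - ∑ c0_j (d0_j r)) = ‖∑ (c_j' (d_j' r) - i (c0_j (d0_j r)))‖ ≤ ∑ (‖c_j'‖ ε + ε) ‖r‖ ≤ 1/8`, a contradiction.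
-/

set_option linter.unusedVariables false

namespace RF

theorem f7_tau {K : ℕ} (a B : Fin K → ℝ) {t : ℝ} (h : ∑ j, a j * B j < t) :
    ∃ τ : ℝ, 0 < τ ∧ ∑ j, (a j + τ) * (B j + τ) ≤ t := by
  have hcont : Continuous (fun τ : ℝ => ∑ j, (a j + τ) * (B j + τ)) := by fun_prop
  have h0 : (fun τ : ℝ => ∑ j, (a j + τ) * (B j + τ)) 0 < t := by
    simpa using h
  have h1 : ∀ᶠ τ in nhds (0 : ℝ), (fun τ : ℝ => ∑ j, (a j + τ) * (B j + τ)) τ < t :=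
    (hcont.tendsto 0).eventually (gt_mem_nhds h0)
  have h2 : ∀ᶠ τ in nhdsWithin (0 : ℝ) (Set.Ioi 0),
      (fun τ : ℝ => ∑ j, (a j + τ) * (B j + τ)) τ < t := h1.filter_mono nhdsWithin_le_nhds
  obtain ⟨τ, h3, h4⟩ := (h2.and self_mem_nhdsWithin).exists
  exact ⟨τ, h4, h3.le⟩

theorem f7_eps {K : ℕ} (a b : Fin K → ℝ) {e : ℝ} (ha : ∀ j, 0 < a j) (hb : ∀ j, 0 < b j)
    (he : 0 < e) : ∃ ε : ℝ, 0 < ε ∧ (∀ j, ε ≤ a j) ∧ (∀ j, ε ≤ b j) ∧ ε ≤ e := by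
  have h1 : ∀ᶠ ε in nhds (0 : ℝ), ∀ j, ε ≤ a j :=
    Filter.eventually_all.2 fun j => eventually_le_nhds (ha j)
  have h2 : ∀ᶠ ε in nhds (0 : ℝ), ∀ j, ε ≤ b j :=
    Filter.eventually_all.2 fun j => eventually_le_nhds (hb j)
  have h3 : ∀ᶠ ε in nhds (0 : ℝ), ε ≤ e := eventually_le_nhds he
  have h4 := ((h1.and (h2.and h3)).filter_mono
    (nhdsWithin_le_nhds : nhdsWithin (0 : ℝ) (Set.Ioi 0) ≤ nhds 0)).and self_mem_nhdsWithin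
  obtain ⟨ε, ⟨h5, h6, h7⟩, h8⟩ := h4.exists
  exact ⟨ε, h8, h5, h6, h7⟩

theorem f7_FinB {X : Type} [AddCommGroup X] [Module ℝ X] {Y Z : Type} [AddCommGroup Y]
    [Module ℝ Y] [AddCommGroup Z] [Module ℝ Z] {N : SN X} {c : X →ₗ[ℝ] Y} (h : FinB N c)
    (g : Y →ₗ[ℝ] Z) : FinB N (g ∘ₗ c) := by
  obtain ⟨L, φ, v, B, hB, hφ, hv⟩ := h
  refine ⟨L, φ, fun l => g (v l), B, hB, hφ, fun x => ?_⟩
  rw [LinearMap.comp_apply, hv, map_sum]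
  exact Finset.sum_congr rfl fun l _ => map_smul g _ _

theorem f7_lin {X Z : Type} [AddCommGroup X] [Module ℝ X] [AddCommGroup Z] [Module ℝ Z]
    (g : X →ₗ[ℝ] Z) (x : X) {K : ℕ} (y : Fin K → X) :
    g (x - ∑ j, y j) = g x - ∑ j, g (y j) := by
  rw [map_sub, map_sum]

theorem star (D : Dat) (n : ℕ)
    (hs : 2 * (4096 * 77 ^ 5) ^ 4 * ((4 : ℝ) ^ n) ^ 16 < D.s n)
    (hm : (128 * (77 * (D.s n : ℝ)) ^ 2 * 81 ^ 2 * (4 : ℝ) ^ n) ^ 2 ≤ D.m n)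
    {E : Type} [NormedAddCommGroup E] [NormedSpace ℝ E] (i : W0 D →ₗ[ℝ] E) (hi : DenseRange i)
    (hn : ∀ w, ‖i w‖ = NW D w) {K : ℕ} (c : Fin K → (E →L[ℝ] E)) (hc : ∀ j, c j ∈ FE ℝ E)
    (d : Fin K → (Rb (D.s n) (D.m n) →ₗ[ℝ] E)) (B : Fin K → ℝ) (hB : ∀ j, 0 ≤ B j)
    (hd : ∀ j r, ‖d j r‖ ≤ B j * ‖r‖) (h : ∀ r, i (iotW D n r) = ∑ j, c j (d j r)) :
    (4 : ℝ) ^ n ≤ ∑ j, ‖c j‖ * B j := by
  by_contra hlt
  rw [not_le] at hlt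
  obtain ⟨τ, hτ, hτt⟩ := f7_tau (fun j => ‖c j‖) B hlt
  have hBτ : ∀ j, 0 < B j + τ := fun j => add_pos_of_nonneg_of_pos (hB j) hτ
  have hd' : ∀ (j) (r), ‖((B j + τ)⁻¹ • d j) r‖ ≤ (B j + τ)⁻¹ * B j * ‖r‖ := by
    intro j r
    rw [LinearMap.smul_apply, norm_smul, norm_inv, Real.norm_of_nonneg (hBτ j).le, mul_assoc]
    exact mul_le_mul_of_nonneg_left (hd j r) (inv_nonneg.2 (hBτ j).le)
  have hc' : ∀ j, (B j + τ) • c j ∈ FE ℝ E := fun j => (FE ℝ E).smul_mem (B j + τ) (hc j)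
  have hnc : ∀ j, ‖(B j + τ) • c j‖ = (B j + τ) * ‖c j‖ := fun j => by
    rw [norm_smul, Real.norm_of_nonneg (hBτ j).le]
  have hS : 0 ≤ ∑ j, (‖(B j + τ) • c j‖ + 1) :=
    Finset.sum_nonneg fun j _ => add_nonneg (norm_nonneg _) zero_le_one
  obtain ⟨ε, hε, hε1, hε2, hε3⟩ := f7_eps (fun j => τ / (B j + τ)) (fun j => τ * (B j + τ))
    (e := 1 / (8 * (∑ j, (‖(B j + τ) • c j‖ + 1) + 1)))
    (fun j => div_pos hτ (hBτ j)) (fun j => mul_pos hτ (hBτ j)) (by positivity)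
  have hex1 : ∀ j, ∃ d0 : Rb (D.s n) (D.m n) →ₗ[ℝ] W0 D,
      ∀ r, ‖i (d0 r) - ((B j + τ)⁻¹ • d j) r‖ ≤ ε * ‖r‖ :=
    fun j => approx_d (W := W0 D) (R := Rb (D.s n) (D.m n)) i hi ((B j + τ)⁻¹ • d j) hε
  have hex2 := fun j => approx_c (NW D) i hi hn ((B j + τ) • c j) (hc' j) hε
  choose d0 hd0 using hex1
  choose c0 hc0f hc0 using hex2
  have hNd : ∀ j r, NW D (d0 j r) ≤ ‖r‖ := by
    intro j r
    have e1 : (B j + τ)⁻¹ * B j + τ / (B j + τ) = 1 := by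
      have := (hBτ j).ne'
      field_simp
    have e2 : i (d0 j r) = (i (d0 j r) - ((B j + τ)⁻¹ • d j) r) + ((B j + τ)⁻¹ • d j) r := by
      abel
    have e3 : ‖i (d0 j r)‖ ≤ ε * ‖r‖ + (B j + τ)⁻¹ * B j * ‖r‖ := by
      rw [e2]
      exact (norm_add_le _ _).trans (add_le_add (hd0 j r) (hd' j r))
    have e4 : ε * ‖r‖ ≤ τ / (B j + τ) * ‖r‖ :=
      mul_le_mul_of_nonneg_right (hε1 j) (norm_nonneg r)
    rw [← hn]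
    calc ‖i (d0 j r)‖ ≤ ε * ‖r‖ + (B j + τ)⁻¹ * B j * ‖r‖ := e3
      _ ≤ τ / (B j + τ) * ‖r‖ + (B j + τ)⁻¹ * B j * ‖r‖ := add_le_add e4 le_rfl
      _ = ((B j + τ)⁻¹ * B j + τ / (B j + τ)) * ‖r‖ := by ring
      _ = ‖r‖ := by rw [e1, one_mul]
  have hcz : ∀ j w, D.z n (((evY n none ∘ₗ LinearMap.fst ℝ Y0 (Ga D →₀ ℝ)) ∘ₗ c0 j) w) ≤
      ((‖c j‖ + τ) * (B j + τ)) * NW D w := by
    intro j w
    have e1 : D.z n (((evY n none ∘ₗ LinearMap.fst ℝ Y0 (Ga D →₀ ℝ)) ∘ₗ c0 j) w) ≤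
        NW D (c0 j w) := z_le_NW D n (c0 j w)
    have e2 : i (c0 j w) = (i (c0 j w) - ((B j + τ) • c j) (i w)) + ((B j + τ) • c j) (i w) := by
      abel
    have e3 : ‖i (c0 j w)‖ ≤ ε * NW D w + (B j + τ) * ‖c j‖ * NW D w := by
      rw [e2]
      refine (norm_add_le _ _).trans (add_le_add (hc0 j w) ?_)
      refine (ContinuousLinearMap.le_opNorm _ _).trans ?_
      rw [hnc, hn]
    have e4 : ε * NW D w ≤ τ * (B j + τ) * NW D w :=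
      mul_le_mul_of_nonneg_right (hε2 j) (apply_nonneg _ _)
    calc _ ≤ NW D (c0 j w) := e1
      _ = ‖i (c0 j w)‖ := (hn _).symm
      _ ≤ ε * NW D w + (B j + τ) * ‖c j‖ * NW D w := e3
      _ ≤ τ * (B j + τ) * NW D w + (B j + τ) * ‖c j‖ * NW D w := add_le_add e4 le_rfl
      _ = ((‖c j‖ + τ) * (B j + τ)) * NW D w := by ring
  obtain ⟨r, hr, hbig⟩ := main_est D n (t := (4 : ℝ) ^ n) (one_le_pow₀ (by norm_num)) hs hm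
    (fun j => (‖c j‖ + τ) * (B j + τ))
    (fun j => mul_nonneg (add_nonneg (norm_nonneg _) hτ.le) (hBτ j).le) hτt
    (fun j => (evY n none ∘ₗ LinearMap.fst ℝ Y0 (Ga D →₀ ℝ)) ∘ₗ c0 j) hcz
    (fun j => f7_FinB (hc0f j) _) d0 hNd
  have e1 : D.jn n r - ∑ j, ((evY n none ∘ₗ LinearMap.fst ℝ Y0 (Ga D →₀ ℝ)) ∘ₗ c0 j) (d0 j r) =
      evY n none (iotW D n r - ∑ j, c0 j (d0 j r)).1 := by
    have e3 := f7_lin (evY n none ∘ₗ LinearMap.fst ℝ Y0 (Ga D →₀ ℝ)) (iotW D n r)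
      (fun j => c0 j (d0 j r))
    have e4 : (evY n none ∘ₗ LinearMap.fst ℝ Y0 (Ga D →₀ ℝ)) (iotW D n r) = D.jn n r :=
      iotW_none D n r
    rw [e4] at e3
    exact e3.symm
  have e2 : D.z n (D.jn n r - ∑ j, ((evY n none ∘ₗ LinearMap.fst ℝ Y0 (Ga D →₀ ℝ)) ∘ₗ c0 j) (d0 j r)) ≤
      NW D (iotW D n r - ∑ j, c0 j (d0 j r)) := by
    rw [e1]
    exact z_le_NW D n _
  have e3 : i (iotW D n r - ∑ j, c0 j (d0 j r)) =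
      ∑ j, (((B j + τ) • c j) (((B j + τ)⁻¹ • d j) r) - i (c0 j (d0 j r))) := by
    rw [f7_lin i (iotW D n r) (fun j => c0 j (d0 j r)), h r, ← Finset.sum_sub_distrib]
    refine Finset.sum_congr rfl fun j _ => ?_
    congr 1
    rw [LinearMap.smul_apply, ContinuousLinearMap.smul_apply, map_smul, smul_smul,
      mul_inv_cancel₀ (hBτ j).ne', one_smul]
  have e4 : ∀ j, ‖((B j + τ) • c j) (((B j + τ)⁻¹ • d j) r) - i (c0 j (d0 j r))‖ ≤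
      ε * (‖(B j + τ) • c j‖ + 1) := by
    intro j
    have e5 : ((B j + τ) • c j) (((B j + τ)⁻¹ • d j) r) - i (c0 j (d0 j r)) =
        ((B j + τ) • c j) (((B j + τ)⁻¹ • d j) r - i (d0 j r)) +
          (((B j + τ) • c j) (i (d0 j r)) - i (c0 j (d0 j r))) := by
      rw [map_sub]
      abel
    rw [e5]
    refine (norm_add_le _ _).trans ?_
    have e6 : ‖((B j + τ) • c j) (((B j + τ)⁻¹ • d j) r - i (d0 j r))‖ ≤
        ‖(B j + τ) • c j‖ * (ε * 1) := by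
      refine (ContinuousLinearMap.le_opNorm _ _).trans ?_
      refine mul_le_mul_of_nonneg_left ?_ (norm_nonneg _)
      rw [norm_sub_rev]
      exact (hd0 j r).trans (mul_le_mul_of_nonneg_left hr hε.le)
    have e7 : ‖((B j + τ) • c j) (i (d0 j r)) - i (c0 j (d0 j r))‖ ≤ ε * 1 := by
      rw [norm_sub_rev]
      exact (hc0 j (d0 j r)).trans (mul_le_mul_of_nonneg_left ((hNd j r).trans hr) hε.le)
    calc _ ≤ ‖(B j + τ) • c j‖ * (ε * 1) + ε * 1 := add_le_add e6 e7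
      _ = ε * (‖(B j + τ) • c j‖ + 1) := by ring
  have e5 : NW D (iotW D n r - ∑ j, c0 j (d0 j r)) ≤ 1 / 8 := by
    rw [← hn, e3]
    refine (norm_sum_le _ _).trans ((Finset.sum_le_sum fun j _ => e4 j).trans ?_)
    rw [← Finset.mul_sum]
    have hS1 : 0 < ∑ j, (‖(B j + τ) • c j‖ + 1) + 1 := add_pos_of_nonneg_of_pos hS one_pos
    calc ε * ∑ j, (‖(B j + τ) • c j‖ + 1)
        ≤ 1 / (8 * (∑ j, (‖(B j + τ) • c j‖ + 1) + 1)) * (∑ j, (‖(B j + τ) • c j‖ + 1) + 1) :=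
          mul_le_mul hε3 (le_add_of_nonneg_right zero_le_one) hS (by positivity)
      _ = 1 / 8 := by
          field_simp
  exact absurd (hbig.trans_le (e2.trans e5)) (lt_irrefl _)

end RF
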