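import Pool.Agent.RF.Defs

set_option linter.unusedVariables false

namespace RF

variable (𝕜 E : Type) [RCLike 𝕜] [NormedAddCommGroup E] [NormedSpace 𝕜 E]

theorem finRank_add {S T : E →L[𝕜] E} (hS : S ∈ finRank 𝕜 E) (hT : T ∈ finRank 𝕜 E) :
    S + T ∈ finRank 𝕜 E := by
  have h1 : FiniteDimensional 𝕜 (LinearMap.range (S : E →ₗ[𝕜] E)) := hS
  have h2 : FiniteDimensional 𝕜 (LinearMap.range (T : E →ₗ[𝕜] E)) := hT
  have h3 : FiniteDimensional 𝕜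
      (LinearMap.range (S : E →ₗ[𝕜] E) ⊔ LinearMap.range (T : E →ₗ[𝕜] E) : Submodule 𝕜 E) :=
    inferInstance
  refine Submodule.finiteDimensional_of_le (?_ : LinearMap.range ((S + T : E →L[𝕜] E) : E →ₗ[𝕜] E)
    ≤ LinearMap.range (S : E →ₗ[𝕜] E) ⊔ LinearMap.range (T : E →ₗ[𝕜] E))
  rintro _ ⟨x, rfl⟩
  exact Submodule.add_mem_sup ⟨x, rfl⟩ ⟨x, rfl⟩

theorem finRank_zero : (0 : E →L[𝕜] E) ∈ finRank 𝕜 E := by
  show FiniteDimensional 𝕜 (LinearMap.range ((0 : E →L[𝕜] E) : E →ₗ[𝕜] E))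
  have : LinearMap.range ((0 : E →L[𝕜] E) : E →ₗ[𝕜] E) = ⊥ := by
    ext x; simp [eq_comm]
  rw [this]; infer_instance

theorem finRank_smul (c : 𝕜) {S : E →L[𝕜] E} (hS : S ∈ finRank 𝕜 E) :
    c • S ∈ finRank 𝕜 E := by
  have h1 : FiniteDimensional 𝕜 (LinearMap.range (S : E →ₗ[𝕜] E)) := hS
  refine Submodule.finiteDimensional_of_le (?_ : LinearMap.range ((c • S : E →L[𝕜] E) : E →ₗ[𝕜] E)
    ≤ LinearMap.range (S : E →ₗ[𝕜] E))
  rintro _ ⟨x, rfl⟩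
  exact ⟨c • x, by simp⟩

theorem finRank_mul_left (T : E →L[𝕜] E) {S : E →L[𝕜] E} (hS : S ∈ finRank 𝕜 E) :
    T * S ∈ finRank 𝕜 E := by
  have h1 : FiniteDimensional 𝕜 (LinearMap.range (S : E →ₗ[𝕜] E)) := hS
  have h2 : FiniteDimensional 𝕜
      ((LinearMap.range (S : E →ₗ[𝕜] E)).map (T : E →ₗ[𝕜] E)) := inferInstance
  refine Submodule.finiteDimensional_of_le (?_ : LinearMap.range ((T * S : E →L[𝕜] E) : E →ₗ[𝕜] E)
    ≤ ((LinearMap.range (S : E →ₗ[𝕜] E)).map (T : E →ₗ[𝕜] E)))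
  rintro _ ⟨x, rfl⟩
  exact ⟨S x, ⟨x, rfl⟩, rfl⟩

theorem finRank_mul_right (T : E →L[𝕜] E) {S : E →L[𝕜] E} (hS : S ∈ finRank 𝕜 E) :
    S * T ∈ finRank 𝕜 E := by
  have h1 : FiniteDimensional 𝕜 (LinearMap.range (S : E →ₗ[𝕜] E)) := hS
  refine Submodule.finiteDimensional_of_le (?_ : LinearMap.range ((S * T : E →L[𝕜] E) : E →ₗ[𝕜] E)
    ≤ LinearMap.range (S : E →ₗ[𝕜] E))
  rintro _ ⟨x, rfl⟩
  exact ⟨T x, rfl⟩

/-- The algebra of approximable operators: the operator-norm closure of the finite-rank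
operators. -/
def FE : NonUnitalSubalgebra 𝕜 (E →L[𝕜] E) where
  carrier := closure (finRank 𝕜 E)
  add_mem' := by
    intro a b ha hb
    exact map_mem_closure₂ continuous_add ha hb (fun S hS T hT => finRank_add 𝕜 E hS hT)
  zero_mem' := subset_closure (finRank_zero 𝕜 E)
  smul_mem' := by
    intro c x hx
    exact map_mem_closure (continuous_const_smul c) hx (fun S hS => finRank_smul 𝕜 E c hS)
  mul_mem' := by
    intro a b ha hb
    exact map_mem_closure₂ continuous_mul ha hb (fun S hS T hT => finRank_mul_right 𝕜 E T hS)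

example (h : ¬ RightFlat 𝕜 (FE 𝕜 E)) : ¬ RightUniversallyFlat 𝕜 (FE 𝕜 E) :=
  fun h' => h h'.rightFlat

end RF
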