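import Pool.Agent.RF.Defs

/-!
# [RF-G1] Flat right ideals: the equational criterion in the direction needed

`I` a right ideal of `B` that is flat as a right module, `a ∈ I`, `b ∈ B`, `a b = 0`.  Then `a = ∑ c_j h_j` (finite sum),
`c_j ∈ I`, `h_j ∈ B`, `h_j b = 0`.

Proof.  Let `ρ : B →ₗ[B] B`, `h ↦ h * b` (`LinearMap.toSpanSingleton B B b`), `L = range ρ = B b` (left ideal),
`0 → L → B → B/L → 0` (`L.subtype`, `L.mkQ`: `Submodule.injective_subtype`, exactness `LinearMap.exact_subtype_mkQ`,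
`Submodule.mkQ_surjective`).  By flatness `I ⊗_B L → I ⊗_B B` is injective.
(1) In `I ⊗_B B`: `a ⊗ b = a ⊗ (b • 1) = (a b) ⊗ 1 = 0` (the difference is a generator of `balSub`; here
`MulOpposite.op b • a = 0` in `I` because `(a : B) * b = 0`).  So the class of `a ⊗ ⟨b, _⟩` in `I ⊗_B L` is `0`
(`BTens.map` of it is the class of `a ⊗ b`), i.e. `a ⊗ ⟨b, _⟩ ∈ balSub B I L`.
(2) Let `S` be the additive subgroup (or ℤ-submodule) of `I` generated by the elements `op h • c`, `c ∈ I`, `h ∈ B`,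
`h * b = 0`.  For `c ∈ I` the additive map `B → I/S`, `h ↦ [op h • c]` kills `ker ρ`, so it factors through
`B/ker ρ ≃ L` (`LinearMap.quotKerEquivRange`).  This gives a bi-additive map `I × L → I/S`, `(c, h b) ↦ [op h • c]`, hence
`Θ : I ⊗_ℤ L →+ I/S` (`TensorProduct.lift` / `TensorProduct.liftAddHom`).  `Θ` kills `balSub`:
`Θ((op b' • c) ⊗ (h b)) = [op h • op b' • c] = [op (b' h) • c] = Θ(c ⊗ (b' • (h b)))`.
So `0 = Θ(a ⊗ b) = [op 1 • a] = [a]`, `a ∈ S`.
(3) Every element of `S` has the required form: `AddSubgroup.closure_induction` (sums: `Fin.append` or prove the statement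
with finite types / lists / `Finset` sums first; negatives: replace `c_j` by `-c_j`).
-/

set_option linter.unusedVariables false

namespace RF

open TensorProduct

/-- the subgroup generated by the elements `op h • c` with `h * b = 0` -/
def g1S (B : Type) [Ring B] (I : Submodule Bᵐᵒᵖ B) (b : B) : AddSubgroup I :=
  AddSubgroup.closure {x : I | ∃ (c : I) (h : B), h * b = 0 ∧ x = MulOpposite.op h • c}

theorem g1_key {B : Type} [Ring B] {I : Submodule Bᵐᵒᵖ B} {b : B} (c : I) {h h' : B}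
    (hh : h * b = h' * b) :
    (QuotientAddGroup.mk (MulOpposite.op h • c) : I ⧸ g1S B I b) =
      QuotientAddGroup.mk (MulOpposite.op h' • c) := by
  rw [QuotientAddGroup.eq]
  refine AddSubgroup.subset_closure ⟨c, h' - h, ?_, ?_⟩
  · rw [sub_mul, hh, sub_self]
  · rw [MulOpposite.op_sub, neg_add_eq_sub]
    exact (sub_smul (MulOpposite.op h') (MulOpposite.op h) c).symm

theorem g1_form {B : Type} [Ring B] {I : Submodule Bᵐᵒᵖ B} {b : B} {x : I} (hx : x ∈ g1S B I b) :
    ∃ (k : ℕ) (c : Fin k → I) (h : Fin k → B), (∀ j, h j * b = 0) ∧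
      (x : B) = ∑ j, (c j : B) * h j := by
  induction hx using AddSubgroup.closure_induction with
  | mem x hx =>
    obtain ⟨c, h, h1, rfl⟩ := hx
    refine ⟨1, fun _ => c, fun _ => h, fun _ => h1, ?_⟩
    rw [Fin.sum_univ_one]
    rfl
  | zero =>
    exact ⟨0, Fin.elim0, Fin.elim0, fun j => j.elim0, by simp⟩
  | add x y _ _ ihx ihy =>
    obtain ⟨k1, c1, h1, e1, f1⟩ := ihx
    obtain ⟨k2, c2, h2, e2, f2⟩ := ihy
    refine ⟨k1 + k2, Fin.append c1 c2, Fin.append h1 h2, fun j => ?_, ?_⟩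
    · refine Fin.addCases (fun i => ?_) (fun i => ?_) j
      · rw [Fin.append_left]
        exact e1 i
      · rw [Fin.append_right]
        exact e2 i
    · rw [Fin.sum_univ_add]
      simp only [Fin.append_left, Fin.append_right]
      rw [← f1, ← f2]
      rfl
  | neg x _ ih =>
    obtain ⟨k1, c1, h1, e1, f1⟩ := ih
    refine ⟨k1, fun j => - c1 j, h1, e1, ?_⟩
    have h2 : ((-x : I) : B) = - (x : B) := rfl
    rw [h2, f1, ← Finset.sum_neg_distrib]
    refine Finset.sum_congr rfl fun j _ => ?_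
    have h3 : ((-c1 j : I) : B) = - (c1 j : B) := rfl
    rw [h3, neg_mul]

theorem flat_factor (B : Type) [Ring B] (I : Submodule Bᵐᵒᵖ B) (hI : FlatRight B I)
    (a : I) (b : B) (hab : (a : B) * b = 0) :
    ∃ (k : ℕ) (c : Fin k → I) (h : Fin k → B), (∀ j, h j * b = 0) ∧
      (a : B) = ∑ j, (c j : B) * h j := by
  apply g1_form
  set L : Submodule B B := LinearMap.range (LinearMap.toSpanSingleton B B b) with hL
  have hpre : ∀ l : L, ∃ h : B, h * b = l := by
    rintro ⟨_, h, rfl⟩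
    exact ⟨h, rfl⟩
  choose pre hpre using hpre
  have hbL : b ∈ L := ⟨1, by rw [LinearMap.toSpanSingleton_apply, one_smul]⟩
  -- the class of `a ⊗ b` vanishes
  obtain ⟨hinj, -, -⟩ := hI L B (B ⧸ L) L.subtype L.mkQ (Submodule.injective_subtype _)
    (LinearMap.exact_subtype_mkQ L) (Submodule.mkQ_surjective L)
  have h1 : (a ⊗ₜ[ℤ] (⟨b, hbL⟩ : L)) ∈ balSub B I L := by
    rw [← QuotientAddGroup.eq_zero_iff]
    apply hinj
    rw [map_zero]
    show (QuotientAddGroup.mk (a ⊗ₜ[ℤ] b) : BTens B I B) = 0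
    rw [QuotientAddGroup.eq_zero_iff]
    have h2 : MulOpposite.op b • a = 0 := Subtype.ext hab
    have h3 : (MulOpposite.op b • a) ⊗ₜ[ℤ] (1 : B) - a ⊗ₜ[ℤ] (b • (1 : B)) ∈ balSub B I B :=
      AddSubgroup.subset_closure ⟨a, b, 1, rfl⟩
    rw [h2, TensorProduct.zero_tmul, zero_sub, smul_eq_mul, mul_one] at h3
    exact neg_mem_iff.1 h3
  -- the bi-additive map
  let Ψ : I →+ L →+ (I ⧸ g1S B I b) := AddMonoidHom.mk'
    (fun c => AddMonoidHom.mk'
      (fun l => (QuotientAddGroup.mk (MulOpposite.op (pre l) • c) : I ⧸ g1S B I b))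
      (by
        intro l l'
        rw [g1_key (b := b) c (h := pre (l + l')) (h' := pre l + pre l')
          (by rw [add_mul, hpre, hpre, hpre]; rfl), MulOpposite.op_add, add_smul]
        rfl))
    (by
      intro c c'
      ext l
      show (QuotientAddGroup.mk (MulOpposite.op (pre l) • (c + c')) : I ⧸ g1S B I b) = _
      rw [smul_add]
      rfl)
  have hΨ : ∀ c l, Ψ c l = QuotientAddGroup.mk (MulOpposite.op (pre l) • c) := fun c l => rfl
  let Θ : I ⊗[ℤ] L →+ (I ⧸ g1S B I b) := TensorProduct.liftAddHom Ψ (by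
    intro r c l
    rw [map_zsmul, map_zsmul, AddMonoidHom.zsmul_apply])
  have hΘ : ∀ (c : I) (l : L), Θ (c ⊗ₜ[ℤ] l) = Ψ c l := fun c l => rfl
  have hker : balSub B I L ≤ Θ.ker := by
    rw [balSub, AddSubgroup.closure_le]
    rintro t ⟨x, b', m, rfl⟩
    show Θ _ = 0
    rw [map_sub, hΘ, hΘ, hΨ, hΨ, sub_eq_zero, smul_smul, ← MulOpposite.op_mul]
    refine g1_key (b := b) x ?_
    rw [mul_assoc, hpre, hpre]
    rfl
  have h4 : Θ (a ⊗ₜ[ℤ] (⟨b, hbL⟩ : L)) = 0 := hker h1
  rw [hΘ, hΨ, g1_key (b := b) a (h' := 1) (by rw [hpre, one_mul]), MulOpposite.op_one, one_smul,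
    QuotientAddGroup.eq_zero_iff] at h4
  exact h4

end RF
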