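import Pool.Agent.RF.FE
import Pool.Agent.RF.G1

/-!
# [RF-G2] What right flatness of `F(E)` gives for operators

Apply `flat_factor` with `B = Unitization 𝕜 (FE 𝕜 E)`, `I = unitIdeal 𝕜 (FE 𝕜 E)`, to `inr ⟨a, ha⟩ ∈ I` and `inr ⟨b, hb⟩`.
An element `h` of the unitization is `(l, T)` = `inl l + inr T`, `h * inr b = inr (l • b + T * b)`, and for `c ∈ FE`
`inr c * h = inr (l • c + c * T)`; an element of `I` is `inr c` for some `c : FE 𝕜 E`.  Take the `.snd` of the identities and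
coerce to operators.
-/

set_option linter.unusedVariables false

namespace RF

theorem g2_flat (𝕜 A : Type) [RCLike 𝕜] [NonUnitalRing A] [Module 𝕜 A] [IsScalarTower 𝕜 A A]
    [SMulCommClass 𝕜 A A] (hf : RightFlat 𝕜 A) (a b : A) (hab : a * b = 0) :
    ∃ (k : ℕ) (c T : Fin k → A) (l : Fin k → 𝕜),
      (∀ j, l j • b + T j * b = 0) ∧ a = ∑ j, (l j • c j + c j * T j) := by
  obtain ⟨k, c, h, h1, h2⟩ := flat_factor (Unitization 𝕜 A) (unitIdeal 𝕜 A) hf
    ⟨Unitization.inr a, ⟨a, rfl⟩⟩ (Unitization.inr b) (by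
      show (Unitization.inr a : Unitization 𝕜 A) * Unitization.inr b = 0
      rw [← Unitization.inr_mul, hab, Unitization.inr_zero])
  have hc : ∀ j, ∃ x : A, (Unitization.inr x : Unitization 𝕜 A) = c j :=
    fun j => (c j).2
  choose c' hc' using hc
  refine ⟨k, c', fun j => (h j).snd, fun j => (h j).fst, fun j => ?_, ?_⟩
  · have h3 : (h j * (Unitization.inr b : Unitization 𝕜 A)).snd = (0 : Unitization 𝕜 A).snd := by
      rw [h1 j]
    rw [Unitization.snd_mul, Unitization.snd_inr, Unitization.fst_inr, zero_smul, add_zero,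
      Unitization.snd_zero] at h3
    exact h3
  · have h4 := congrArg (Unitization.sndHom 𝕜 𝕜 A) h2
    rw [map_sum] at h4
    have h5 : Unitization.sndHom 𝕜 𝕜 A (Unitization.inr a : Unitization 𝕜 A) = a := rfl
    refine (h5.symm.trans h4).trans (Finset.sum_congr rfl fun j _ => ?_)
    rw [← hc' j]
    show ((Unitization.inr (c' j) : Unitization 𝕜 A) * h j).snd = _
    rw [Unitization.snd_mul, Unitization.snd_inr, Unitization.fst_inr, zero_smul, zero_add]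

theorem rf_factor (𝕜 E : Type) [RCLike 𝕜] [NormedAddCommGroup E] [NormedSpace 𝕜 E]
    (hf : RightFlat 𝕜 (FE 𝕜 E)) (a b : E →L[𝕜] E) (ha : a ∈ FE 𝕜 E) (hb : b ∈ FE 𝕜 E)
    (hab : a * b = 0) :
    ∃ (k : ℕ) (c T : Fin k → (E →L[𝕜] E)) (l : Fin k → 𝕜),
      (∀ j, c j ∈ FE 𝕜 E) ∧ (∀ j, T j ∈ FE 𝕜 E) ∧
      (∀ j, l j • b + T j * b = 0) ∧ a = ∑ j, (l j • c j + c j * T j) := by
  have hab' : (⟨a, ha⟩ : FE 𝕜 E) * ⟨b, hb⟩ = 0 := Subtype.ext hab
  obtain ⟨k, c, T, l, h1, h2⟩ := g2_flat 𝕜 (FE 𝕜 E) hf ⟨a, ha⟩ ⟨b, hb⟩ hab'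
  refine ⟨k, fun j => (c j : E →L[𝕜] E), fun j => (T j : E →L[𝕜] E), l,
    fun j => (c j).2, fun j => (T j).2, fun j => ?_, ?_⟩
  · exact congrArg Subtype.val (h1 j)
  · have h4 := congrArg (Subtype.val : FE 𝕜 E → (E →L[𝕜] E)) h2
    rw [show (∑ j, (l j • c j + c j * T j) : FE 𝕜 E).1 =
      ∑ j, (l j • (c j : E →L[𝕜] E) + (c j : E →L[𝕜] E) * (T j : E →L[𝕜] E)) from
        by rw [AddSubmonoidClass.coe_finsetSum]; rfl] at h4
    exact h4

end RF
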