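import Pool.Agent.RF.FE

/-!
# [RF-G3] An approximable operator has no nonzero eigenvalue of infinite multiplicity

Suppose `l ≠ 0`.  `T ∈ FE` = closure of the finite-rank operators, so there is `S ∈ finRank 𝕜 E` with `‖T - S‖ < ‖l‖`
(`Metric.mem_closure_iff`).  Let `d = finrank (range S)`.  The linear map `Fin (d+1) →₀ 𝕜` (or `Fin (d+1) → 𝕜`) `→ range S`,
`c ↦ S (∑ c_i • v i)` has a nonzero kernel (`LinearMap.exists_ne_zero_of_...`/`LinearMap.ker_ne_bot_of_finrank_lt`), so there is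
`x = ∑ c_i • v i ≠ 0` (linear independence) with `S x = 0`.  `T x = - l • x`, so `‖l‖ ‖x‖ = ‖T x‖ = ‖(T - S) x‖ ≤ ‖T - S‖ ‖x‖
< ‖l‖ ‖x‖`, a contradiction.
-/

set_option linter.unusedVariables false

namespace RF

theorem scalar_zero (𝕜 E : Type) [RCLike 𝕜] [NormedAddCommGroup E] [NormedSpace 𝕜 E]
    (T : E →L[𝕜] E) (hT : T ∈ FE 𝕜 E) (l : 𝕜) (v : ℕ → E) (hv : LinearIndependent 𝕜 v)
    (h : ∀ n, l • v n + T (v n) = 0) : l = 0 := by
  by_contra hl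
  have hl' : 0 < ‖l‖ := norm_pos_iff.2 hl
  have hT' : T ∈ closure (finRank 𝕜 E) := hT
  obtain ⟨S, hS, hd⟩ := Metric.mem_closure_iff.1 hT' ‖l‖ hl'
  have hfin : FiniteDimensional 𝕜 (LinearMap.range (S : E →ₗ[𝕜] E)) := hS
  obtain ⟨d, hdd⟩ : ∃ d, d = Module.finrank 𝕜 (LinearMap.range (S : E →ₗ[𝕜] E)) := ⟨_, rfl⟩
  let g : (Fin (d + 1) → 𝕜) →ₗ[𝕜] E := Fintype.linearCombination 𝕜 (fun i : Fin (d + 1) => v i)
  have hg : ∀ c, g c = ∑ i : Fin (d + 1), c i • v i := fun c =>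
    Fintype.linearCombination_apply 𝕜 (fun i : Fin (d + 1) => v i) c
  let φ : (Fin (d + 1) → 𝕜) →ₗ[𝕜] (LinearMap.range (S : E →ₗ[𝕜] E)) :=
    (S : E →ₗ[𝕜] E).rangeRestrict ∘ₗ g
  have hker : LinearMap.ker φ ≠ ⊥ := by
    refine LinearMap.ker_ne_bot_of_finrank_lt ?_
    rw [Module.finrank_fin_fun, ← hdd]
    exact Nat.lt_succ_self d
  obtain ⟨c, hc, hc0⟩ := (Submodule.ne_bot_iff _).1 hker
  have hS0 : S (g c) = 0 := congrArg Subtype.val (LinearMap.mem_ker.1 hc)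
  have hx : g c ≠ 0 := by
    intro h0
    have hli : LinearIndependent 𝕜 (fun i : Fin (d + 1) => v i) :=
      hv.comp (fun i : Fin (d + 1) => (i : ℕ)) Fin.val_injective
    rw [hg] at h0
    exact hc0 (funext (Fintype.linearIndependent_iff.1 hli c h0))
  have hTx : T (g c) = -(l • g c) := by
    rw [hg, map_sum, Finset.smul_sum, ← Finset.sum_neg_distrib]
    refine Finset.sum_congr rfl fun i _ => ?_
    have h1 : T (v i) = -(l • v i) := by
      rw [eq_neg_iff_add_eq_zero, add_comm]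
      exact h i
    rw [map_smul, h1, smul_neg, smul_comm]
  have h2 : ‖l‖ * ‖g c‖ = ‖(T - S) (g c)‖ := by
    rw [sub_apply, hS0, sub_zero, hTx, norm_neg, norm_smul]
  have h3 : ‖(T - S) (g c)‖ ≤ ‖T - S‖ * ‖g c‖ := (T - S).le_opNorm (g c)
  have h4 : ‖T - S‖ < ‖l‖ := by
    rw [← dist_eq_norm]
    exact hd
  have h5 : 0 < ‖g c‖ := norm_pos_iff.2 hx
  nlinarith

end RF
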