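import Pool.Agent.RF.E1

/-!
# [RF-G4] Finite nets with a lifting constant 2; the data exist

* `exists_net`.  Let `b_1, ..., b_d` be a basis of `R` with `‖b_l‖ ≤ 1` (scale `Module.finBasis ℝ R`), and `C > 0` with
  `∑_l |coordinate_l r| ≤ C ‖r‖` (linear maps on a finite-dimensional space are bounded,
  `LinearMap.toContinuousLinearMap`).  The closed unit ball is compact (`FiniteDimensional.proper_real`,
  `isCompact_closedBall`), so there is a finite set `F` in it such that every `r` with `‖r‖ ≤ 1` has `f ∈ F` with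
  `‖r - f‖ ≤ 1/C` (`IsCompact.finite_cover_balls` or `TotallyBounded`).  `γ` = enumeration of `F ∪ {b_l} ∪ {0}`
  (e.g. a family indexed by the finite type `F ⊕ Fin d ⊕ Unit`, reindexed by `Fintype.equivFin`).
  For `‖r‖ = 1`: `r = f + ∑ c_l b_l` with `∑ |c_l| ≤ C * (1/C) = 1`, so `∑|g| ≤ 2`; for general `r ≠ 0` scale, `r = 0`: `g = 0`.
  Third claim: `g = Pi.single` at an index with `γ = 0`.
* `exists_Dat`: `s n`, `m n` from `exists_nat_gt`, `exists_nat_ge`; `exists_tower (s n) (m n)` and `exists_net` with `choose`.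
-/

set_option linter.unusedVariables false

namespace RF

/-- reindexing -/
private theorem G4_reindex (R : Type) [NormedAddCommGroup R] [NormedSpace ℝ R]
    (ι : Type) [Fintype ι] (γ : ι → R) (h1 : ∀ i, ‖γ i‖ ≤ 1)
    (h2 : ∀ r, ∃ g : ι → ℝ, ∑ i, g i • γ i = r ∧ ∑ i, |g i| ≤ 2 * ‖r‖)
    (h3 : ∃ g : ι → ℝ, g ≠ 0 ∧ ∑ i, g i • γ i = 0) :
    ∃ (k : ℕ) (γ : Fin k → R), (∀ i, ‖γ i‖ ≤ 1) ∧
      (∀ r, ∃ g : Fin k → ℝ, ∑ i, g i • γ i = r ∧ ∑ i, |g i| ≤ 2 * ‖r‖) ∧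
      ∃ g : Fin k → ℝ, g ≠ 0 ∧ ∑ i, g i • γ i = 0 := by
  refine ⟨Fintype.card ι, fun i => γ ((Fintype.equivFin ι).symm i), fun i => h1 _, ?_, ?_⟩
  · intro r
    obtain ⟨g, hg1, hg2⟩ := h2 r
    refine ⟨fun i => g ((Fintype.equivFin ι).symm i), ?_, ?_⟩
    · rw [← hg1]
      exact Equiv.sum_comp (Fintype.equivFin ι).symm (fun i => g i • γ i)
    · refine le_trans (le_of_eq ?_) hg2
      exact Equiv.sum_comp (Fintype.equivFin ι).symm (fun i => |g i|)
  · obtain ⟨g, hg1, hg2⟩ := h3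
    refine ⟨fun i => g ((Fintype.equivFin ι).symm i), ?_, ?_⟩
    · intro h
      apply hg1
      funext i
      have := congrFun h (Fintype.equivFin ι i)
      simpa using this
    · rw [← hg2]
      exact Equiv.sum_comp (Fintype.equivFin ι).symm (fun i => g i • γ i)

/-- coordinates with respect to a normalised basis -/
private theorem G4_basis (R : Type) [NormedAddCommGroup R] [NormedSpace ℝ R]
    [FiniteDimensional ℝ R] : ∃ (d : ℕ) (b : Fin d → R) (c : Fin d → R → ℝ) (C : ℝ), 0 < C ∧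
      (∀ l, ‖b l‖ ≤ 1) ∧ (∀ r, ∑ l, c l r • b l = r) ∧ ∀ r, ∑ l, |c l r| ≤ C * ‖r‖ := by
  set b0 := Module.finBasis ℝ R with hb0
  refine ⟨_, fun l => ‖b0 l‖⁻¹ • b0 l, fun l r => b0.coord l r * ‖b0 l‖,
    1 + ∑ l, ‖LinearMap.toContinuousLinearMap (b0.coord l)‖ * ‖b0 l‖, ?_, ?_, ?_, ?_⟩
  · have : 0 ≤ ∑ l, ‖LinearMap.toContinuousLinearMap (b0.coord l)‖ * ‖b0 l‖ :=
      Finset.sum_nonneg fun l _ => mul_nonneg (norm_nonneg _) (norm_nonneg _)
    linarith
  · intro l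
    have h : ‖b0 l‖ ≠ 0 := norm_ne_zero_iff.2 (b0.ne_zero l)
    rw [norm_smul, norm_inv, norm_norm, inv_mul_cancel₀ h]
  · intro r
    conv_rhs => rw [← b0.sum_repr r]
    refine Finset.sum_congr rfl fun l _ => ?_
    have h : ‖b0 l‖ ≠ 0 := norm_ne_zero_iff.2 (b0.ne_zero l)
    rw [smul_smul, mul_assoc, mul_inv_cancel₀ h, mul_one]
    rfl
  · intro r
    have h1 : ∀ l, |b0.coord l r * ‖b0 l‖| ≤
        ‖LinearMap.toContinuousLinearMap (b0.coord l)‖ * ‖b0 l‖ * ‖r‖ := by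
      intro l
      rw [abs_mul, abs_norm]
      have h2 := (LinearMap.toContinuousLinearMap (b0.coord l)).le_opNorm r
      have h3 : ‖(LinearMap.toContinuousLinearMap (b0.coord l)) r‖ = |b0.coord l r| := rfl
      rw [h3] at h2
      calc |b0.coord l r| * ‖b0 l‖
          ≤ (‖LinearMap.toContinuousLinearMap (b0.coord l)‖ * ‖r‖) * ‖b0 l‖ :=
            mul_le_mul_of_nonneg_right h2 (norm_nonneg _)
        _ = _ := by ring
    calc ∑ l, |b0.coord l r * ‖b0 l‖|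
        ≤ ∑ l, ‖LinearMap.toContinuousLinearMap (b0.coord l)‖ * ‖b0 l‖ * ‖r‖ :=
          Finset.sum_le_sum fun l _ => h1 l
      _ = (∑ l, ‖LinearMap.toContinuousLinearMap (b0.coord l)‖ * ‖b0 l‖) * ‖r‖ := by
          rw [Finset.sum_mul]
      _ ≤ (1 + ∑ l, ‖LinearMap.toContinuousLinearMap (b0.coord l)‖ * ‖b0 l‖) * ‖r‖ := by
          apply mul_le_mul_of_nonneg_right _ (norm_nonneg _)
          linarith

theorem exists_net (R : Type) [NormedAddCommGroup R] [NormedSpace ℝ R] [FiniteDimensional ℝ R] :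
    ∃ (k : ℕ) (γ : Fin k → R), (∀ i, ‖γ i‖ ≤ 1) ∧
      (∀ r, ∃ g : Fin k → ℝ, ∑ i, g i • γ i = r ∧ ∑ i, |g i| ≤ 2 * ‖r‖) ∧
      ∃ g : Fin k → ℝ, g ≠ 0 ∧ ∑ i, g i • γ i = 0 := by
  classical
  obtain ⟨d, b, c, C, hC, hb, hc1, hc2⟩ := G4_basis R
  haveI : ProperSpace R := FiniteDimensional.proper_real R
  obtain ⟨t, ht1, ht2, ht3⟩ := (isCompact_closedBall (0 : R) 1).finite_cover_balls
    (e := 1 / C) (by positivity)
  haveI : Fintype t := ht2.fintype
  -- the unit sphere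
  have key : ∀ r : R, ‖r‖ = 1 → ∃ g : (t ⊕ (Fin d ⊕ Unit)) → ℝ,
      ∑ i, g i • (Sum.elim (fun f : t => (f : R)) (Sum.elim b (fun _ => 0))) i = r ∧
      ∑ i, |g i| ≤ 2 := by
    intro r hr
    have h1 : r ∈ Metric.closedBall (0 : R) 1 := by
      rw [mem_closedBall_zero_iff]; exact hr.le
    obtain ⟨f, hf, hf2⟩ := Set.mem_iUnion₂.1 (ht3 h1)
    have hf3 : ‖r - f‖ < 1 / C := by rwa [Metric.mem_ball, dist_eq_norm] at hf2
    refine ⟨Sum.elim (fun f' : t => if f' = ⟨f, hf⟩ then 1 else 0)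
      (Sum.elim (fun l => c l (r - f)) (fun _ => 0)), ?_, ?_⟩
    · rw [Fintype.sum_sum_type, Fintype.sum_sum_type]
      simp only [Sum.elim_inl, Sum.elim_inr, smul_zero, Finset.sum_const_zero, add_zero]
      rw [hc1 (r - f)]
      have h2 : ∑ x : t, (if x = ⟨f, hf⟩ then (1 : ℝ) else 0) • (x : R) = f := by
        rw [Finset.sum_eq_single (⟨f, hf⟩ : t)]
        · simp
        · intro x _ hx
          rw [if_neg hx, zero_smul]
        · intro h; exact absurd (Finset.mem_univ _) h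
      rw [h2]; abel
    · rw [Fintype.sum_sum_type, Fintype.sum_sum_type]
      simp only [Sum.elim_inl, Sum.elim_inr, abs_zero, Finset.sum_const_zero, add_zero]
      have h2 : ∑ x : t, |if x = ⟨f, hf⟩ then (1 : ℝ) else 0| = 1 := by
        rw [Finset.sum_eq_single (⟨f, hf⟩ : t)]
        · simp
        · intro x _ hx
          rw [if_neg hx, abs_zero]
        · intro h; exact absurd (Finset.mem_univ _) h
      rw [h2]
      have h3 := hc2 (r - f)
      have h4 : C * ‖r - f‖ ≤ C * (1 / C) := mul_le_mul_of_nonneg_left hf3.le hC.le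
      have h5 : C * (1 / C) = 1 := by field_simp
      linarith
  refine G4_reindex R (t ⊕ (Fin d ⊕ Unit))
    (Sum.elim (fun f : t => (f : R)) (Sum.elim b (fun _ => 0))) ?_ ?_ ?_
  · rintro (f | l | u)
    · have := ht1 f.2
      rw [mem_closedBall_zero_iff] at this
      exact this
    · exact hb l
    · show ‖(0 : R)‖ ≤ 1
      rw [norm_zero]; exact zero_le_one
  · intro r
    by_cases hr : r = 0
    · refine ⟨0, ?_, ?_⟩
      · rw [hr]; simp
      · rw [hr]; simp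
    · have hr' : ‖r‖ ≠ 0 := norm_ne_zero_iff.2 hr
      obtain ⟨g, hg1, hg2⟩ := key (‖r‖⁻¹ • r) (by
        rw [norm_smul, norm_inv, norm_norm, inv_mul_cancel₀ hr'])
      refine ⟨fun i => ‖r‖ * g i, ?_, ?_⟩
      · have h1 : ∑ i, (‖r‖ * g i) •
            (Sum.elim (fun f : t => (f : R)) (Sum.elim b (fun _ => 0))) i = ‖r‖ • ∑ i, g i •
            (Sum.elim (fun f : t => (f : R)) (Sum.elim b (fun _ => 0))) i := by
          rw [Finset.smul_sum]
          exact Finset.sum_congr rfl fun i _ => by rw [mul_smul]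
        rw [h1, hg1, smul_smul, mul_inv_cancel₀ hr', one_smul]
      · have h1 : ∑ i, |‖r‖ * g i| = ‖r‖ * ∑ i, |g i| := by
          rw [Finset.mul_sum]
          exact Finset.sum_congr rfl fun i _ => by rw [abs_mul, abs_norm]
        rw [h1, mul_comm 2]
        exact mul_le_mul_of_nonneg_left hg2 (norm_nonneg _)
  · refine ⟨Sum.elim (fun _ => 0) (Sum.elim (fun _ => 0) (fun _ => 1)), ?_, ?_⟩
    · intro h
      have := congrFun h (Sum.inr (Sum.inr ()))
      simp at this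
    · rw [Fintype.sum_sum_type, Fintype.sum_sum_type]
      simp

theorem exists_Dat : ∃ D : Dat,
    (∀ n, 2 * (4096 * 77 ^ 5) ^ 4 * ((4 : ℝ) ^ n) ^ 16 < D.s n) ∧
    ∀ n, (128 * (77 * (D.s n : ℝ)) ^ 2 * 81 ^ 2 * (4 : ℝ) ^ n) ^ 2 ≤ D.m n := by
  have h1 : ∀ n : ℕ, ∃ s : ℕ, 2 * (4096 * 77 ^ 5) ^ 4 * ((4 : ℝ) ^ n) ^ 16 < s ∧ 1 ≤ s := by
    intro n
    obtain ⟨s, hs⟩ := exists_nat_gt (2 * (4096 * 77 ^ 5) ^ 4 * ((4 : ℝ) ^ n) ^ 16)
    refine ⟨s, hs, ?_⟩
    have h0 : (0 : ℝ) < s := lt_trans (by positivity) hs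
    exact_mod_cast h0
  choose s hs1 hs2 using h1
  have h2 : ∀ n : ℕ, ∃ m : ℕ,
      (128 * (77 * (s n : ℝ)) ^ 2 * 81 ^ 2 * (4 : ℝ) ^ n) ^ 2 ≤ m :=
    fun n => exists_nat_ge _
  choose m hm using h2
  choose p z jn a1 a2 a3 a4 a5 a6 a7 using fun n => exists_tower (s n) (m n) (hs2 n)
  choose k γ b1 b2 b3 using fun n => exists_net (Rb (s n) (m n))
  exact ⟨⟨s, m, p, z, jn, k, γ, hs2, a1, a2, a3, a4, a5, a6, a7, b1, b2, b3⟩, hs1, hm⟩

end RF
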