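import Pool.Agent.RF.FE

/-!
# [RF-G5] Change of scalars: `Cx 𝕜 E = (𝕜 →L[ℝ] E)` with `(c • f) z = f (c * z)`

All definitions and instances here are proved.
-/

set_option linter.unusedVariables false

namespace RF

noncomputable section

/-- The `𝕜`-Banach space `𝕜 →L[ℝ] E` (for `𝕜 = ℝ` it is `E`, for `𝕜 = ℂ` a complexification of `E`). -/
def Cx (𝕜 E : Type) [RCLike 𝕜] [NormedAddCommGroup E] [NormedSpace ℝ E] : Type := 𝕜 →L[ℝ] E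

variable (𝕜 E : Type) [RCLike 𝕜] [NormedAddCommGroup E] [NormedSpace ℝ E]

instance : NormedAddCommGroup (Cx 𝕜 E) := inferInstanceAs (NormedAddCommGroup (𝕜 →L[ℝ] E))

instance : NormedSpace ℝ (Cx 𝕜 E) := inferInstanceAs (NormedSpace ℝ (𝕜 →L[ℝ] E))

instance [CompleteSpace E] : CompleteSpace (Cx 𝕜 E) :=
  inferInstanceAs (CompleteSpace (𝕜 →L[ℝ] E))

variable {𝕜 E}

/-- The value at `z`. -/
def Cx.ev (z : 𝕜) (f : Cx 𝕜 E) : E := (show 𝕜 →L[ℝ] E from f) z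

/-- Multiplication by `c` on `𝕜`. -/
def mulc (c : 𝕜) : 𝕜 →L[ℝ] 𝕜 := ContinuousLinearMap.mul ℝ 𝕜 c

theorem mulc_apply (c z : 𝕜) : mulc c z = c * z := rfl

theorem Cx.ext {f g : Cx 𝕜 E} (h : ∀ z, f.ev z = g.ev z) : f = g :=
  ContinuousLinearMap.ext h

theorem Cx.ev_add (z : 𝕜) (f g : Cx 𝕜 E) : (f + g).ev z = f.ev z + g.ev z := rfl

theorem Cx.ev_rsmul (z : 𝕜) (r : ℝ) (f : Cx 𝕜 E) : (r • f).ev z = r • f.ev z := rfl

theorem Cx.ev_map_add (z w : 𝕜) (f : Cx 𝕜 E) : f.ev (z + w) = f.ev z + f.ev w :=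
  map_add (show 𝕜 →L[ℝ] E from f) z w

theorem Cx.ev_map_smul (r : ℝ) (z : 𝕜) (f : Cx 𝕜 E) : f.ev (r • z) = r • f.ev z :=
  map_smul (show 𝕜 →L[ℝ] E from f) r z

theorem Cx.norm_ev_le (f : Cx 𝕜 E) (z : 𝕜) : ‖f.ev z‖ ≤ ‖f‖ * ‖z‖ :=
  ContinuousLinearMap.le_opNorm (show 𝕜 →L[ℝ] E from f) z

theorem Cx.norm_le (f : Cx 𝕜 E) {M : ℝ} (hM : 0 ≤ M) (h : ∀ z, ‖f.ev z‖ ≤ M * ‖z‖) : ‖f‖ ≤ M :=
  ContinuousLinearMap.opNorm_le_bound (show 𝕜 →L[ℝ] E from f) hM h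

instance : SMul 𝕜 (Cx 𝕜 E) :=
  ⟨fun c f => show 𝕜 →L[ℝ] E from (show 𝕜 →L[ℝ] E from f).comp (mulc c)⟩

theorem Cx.ev_smul (c z : 𝕜) (f : Cx 𝕜 E) : (c • f).ev z = f.ev (c * z) := rfl

instance : Module 𝕜 (Cx 𝕜 E) where
  one_smul f := Cx.ext fun z => by rw [Cx.ev_smul, one_mul]
  mul_smul c d f := Cx.ext fun z => by
    rw [Cx.ev_smul, Cx.ev_smul, Cx.ev_smul, mul_comm c d, mul_assoc]
  smul_zero c := rfl
  smul_add c f g := rfl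
  add_smul c d f := Cx.ext fun z => by
    rw [Cx.ev_smul, Cx.ev_add, Cx.ev_smul, Cx.ev_smul, add_mul, Cx.ev_map_add]
  zero_smul f := Cx.ext fun z => by
    rw [Cx.ev_smul, zero_mul]
    exact map_zero (show 𝕜 →L[ℝ] E from f)

instance : NormedSpace 𝕜 (Cx 𝕜 E) where
  norm_smul_le c f := by
    refine Cx.norm_le _ (by positivity) (fun z => ?_)
    rw [Cx.ev_smul]
    refine (Cx.norm_ev_le f _).trans ?_
    rw [norm_mul]
    exact le_of_eq (by ring)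

instance : IsScalarTower ℝ 𝕜 (Cx 𝕜 E) where
  smul_assoc r c f := Cx.ext fun z => by
    rw [Cx.ev_rsmul, Cx.ev_smul, Cx.ev_smul, smul_mul_assoc, Cx.ev_map_smul]

/-- `x ↦ (z ↦ Re z • x)`. -/
def shp (x : E) : Cx 𝕜 E :=
  show 𝕜 →L[ℝ] E from (RCLike.reCLM : 𝕜 →L[ℝ] ℝ).smulRight x

/-- `x ↦ (z ↦ Im z • x)`. -/
def flt (x : E) : Cx 𝕜 E :=
  show 𝕜 →L[ℝ] E from (RCLike.imCLM : 𝕜 →L[ℝ] ℝ).smulRight x

theorem shp_ev (x : E) (z : 𝕜) : (shp x : Cx 𝕜 E).ev z = RCLike.re z • x := rfl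

theorem flt_ev (x : E) (z : 𝕜) : (flt x : Cx 𝕜 E).ev z = RCLike.im z • x := rfl

theorem Cx.decomp (f : Cx 𝕜 E) : f = shp (f.ev 1) + flt (f.ev RCLike.I) := by
  refine Cx.ext fun z => ?_
  rw [Cx.ev_add, shp_ev, flt_ev, ← Cx.ev_map_smul, ← Cx.ev_map_smul, ← Cx.ev_map_add]
  congr 1
  conv_lhs => rw [← RCLike.re_add_im z]
  rw [RCLike.real_smul_eq_coe_mul, RCLike.real_smul_eq_coe_mul, mul_one]

theorem norm_shp_le (x : E) : ‖(shp x : Cx 𝕜 E)‖ ≤ ‖x‖ := by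
  refine Cx.norm_le _ (norm_nonneg _) (fun z => ?_)
  rw [shp_ev, norm_smul, Real.norm_eq_abs, mul_comm]
  exact mul_le_mul_of_nonneg_left (RCLike.abs_re_le_norm z) (norm_nonneg _)

theorem norm_flt_le (x : E) : ‖(flt x : Cx 𝕜 E)‖ ≤ ‖x‖ := by
  refine Cx.norm_le _ (norm_nonneg _) (fun z => ?_)
  rw [flt_ev, norm_smul, Real.norm_eq_abs, mul_comm]
  exact mul_le_mul_of_nonneg_left (RCLike.abs_im_le_norm z) (norm_nonneg _)

variable (𝕜 E)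

/-- `shp` as an operator. -/
def shpL : E →L[ℝ] Cx 𝕜 E :=
  LinearMap.mkContinuous
    { toFun := fun x => (shp x : Cx 𝕜 E)
      map_add' := fun x y => Cx.ext fun z => by
        rw [Cx.ev_add, shp_ev, shp_ev, shp_ev, smul_add]
      map_smul' := fun r x => Cx.ext fun z => by
        rw [RingHom.id_apply, Cx.ev_rsmul, shp_ev, shp_ev, smul_comm] } 1
    (fun x => by rw [one_mul]; exact norm_shp_le x)

/-- `flt` as an operator. -/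
def fltL : E →L[ℝ] Cx 𝕜 E :=
  LinearMap.mkContinuous
    { toFun := fun x => (flt x : Cx 𝕜 E)
      map_add' := fun x y => Cx.ext fun z => by
        rw [Cx.ev_add, flt_ev, flt_ev, flt_ev, smul_add]
      map_smul' := fun r x => Cx.ext fun z => by
        rw [RingHom.id_apply, Cx.ev_rsmul, flt_ev, flt_ev, smul_comm] } 1
    (fun x => by rw [one_mul]; exact norm_flt_le x)

/-- The value at `z` as an operator. -/
def evL (z : 𝕜) : Cx 𝕜 E →L[ℝ] E :=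
  LinearMap.mkContinuous
    { toFun := fun f => f.ev z
      map_add' := fun f g => rfl
      map_smul' := fun r f => rfl } ‖z‖
    (fun f => by rw [mul_comm]; exact Cx.norm_ev_le f z)

theorem shpL_apply (x : E) : shpL 𝕜 E x = shp x := rfl

theorem fltL_apply (x : E) : fltL 𝕜 E x = flt x := rfl

theorem evL_apply (z : 𝕜) (f : Cx 𝕜 E) : evL 𝕜 E z f = f.ev z := rfl

theorem shpL_norm : ‖shpL 𝕜 E‖ ≤ 1 := LinearMap.mkContinuous_norm_le _ zero_le_one _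

theorem fltL_norm : ‖fltL 𝕜 E‖ ≤ 1 := LinearMap.mkContinuous_norm_le _ zero_le_one _

theorem evL_norm (z : 𝕜) : ‖evL 𝕜 E z‖ ≤ ‖z‖ :=
  LinearMap.mkContinuous_norm_le _ (norm_nonneg _) _

variable {E}

/-- The operator `f ↦ T ∘ f` on `Cx 𝕜 E`. -/
def cmap (T : E →L[ℝ] E) : Cx 𝕜 E →L[𝕜] Cx 𝕜 E :=
  LinearMap.mkContinuous
    { toFun := fun f => (show 𝕜 →L[ℝ] E from T.comp (show 𝕜 →L[ℝ] E from f) : Cx 𝕜 E)
      map_add' := fun f g => Cx.ext fun z => map_add T (f.ev z) (g.ev z)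
      map_smul' := fun c f => rfl } ‖T‖
    (fun f => by
      refine Cx.norm_le _ (by positivity) (fun z => ?_)
      show ‖T (f.ev z)‖ ≤ _
      refine (T.le_opNorm _).trans ?_
      rw [mul_assoc]
      exact mul_le_mul_of_nonneg_left (Cx.norm_ev_le f z) (norm_nonneg _))

theorem cmap_ev (T : E →L[ℝ] E) (f : Cx 𝕜 E) (z : 𝕜) : (cmap 𝕜 T f).ev z = T (f.ev z) := rfl

theorem cmap_norm (T : E →L[ℝ] E) : ‖cmap 𝕜 T‖ ≤ ‖T‖ :=
  LinearMap.mkContinuous_norm_le _ (norm_nonneg _) _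

theorem cmap_mul (S T : E →L[ℝ] E) : cmap 𝕜 (S * T) = cmap 𝕜 S * cmap 𝕜 T := rfl

theorem cmap_zero : cmap 𝕜 (0 : E →L[ℝ] E) = 0 := rfl

theorem cmap_sub (S T : E →L[ℝ] E) : cmap 𝕜 (S - T) = cmap 𝕜 S - cmap 𝕜 T := rfl

theorem cmap_shp (T : E →L[ℝ] E) (x : E) : cmap 𝕜 T (shp x) = shp (T x) :=
  Cx.ext fun z => by rw [cmap_ev, shp_ev, shp_ev, map_smul]

end

end RF
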