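import Pool.Agent.RF.G5

/-!
# [RF-G5b] Change of scalars and approximable operators

* `flt_eq`: `flt x = (-I) • shp x` : at `z`: `Re (-I z) = Im z` (`RCLike.mul_re`, `I_re`; for `𝕜 = ℝ` both are zero:
  `RCLike.im` is handled by the general lemmas of `RCLike`; `Re(I z) = - Im z` is `RCLike.I_mul_re`).
* `cmap_finRank`: let `S` be a finite set spanning `range T` (`Submodule.fg_def` / `FiniteDimensional` = `FG`).  By `Cx.decomp` and
  `flt_eq`, `cmap T f = shp (T (f 1)) + (-I) • shp (T (f I))` lies in the `𝕜`-span of `shp '' S` (`shp` is `ℝ`-linear: `shpL`,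
  so it maps the real span of `S` into the real span of `shp '' S`, contained in the `𝕜`-span: `Submodule.span_le_restrictScalars`).
* `cmap_FE`: `cmap` is continuous (`cmap_sub`, `cmap_norm`), `map_mem_closure` or an ε-argument with `Metric.mem_closure_iff`.
* `FE_real`: for `c = S` of finite rank over `𝕜`, the range of `A ∘ S ∘ P` is contained in the image under `A` of `range S`, which is
  finite-dimensional over `𝕜`, hence over `ℝ` (`Module.Finite.trans 𝕜`; `FiniteDimensional ℝ 𝕜` is `RCLike.finiteDimensional...`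
  / `inferInstance`).  General `c`: `‖A ∘ (c - S) ∘ P‖ ≤ ‖A‖ ‖c - S‖ ‖P‖` and `Metric.mem_closure_iff`.
-/

set_option linter.unusedVariables false

namespace RF

variable {𝕜 E : Type} [RCLike 𝕜] [NormedAddCommGroup E] [NormedSpace ℝ E]

theorem flt_eq (x : E) : (flt x : Cx 𝕜 E) = (-(RCLike.I : 𝕜)) • (shp x : Cx 𝕜 E) := by
  refine Cx.ext fun z => ?_
  rw [flt_ev, Cx.ev_smul, shp_ev, neg_mul, map_neg, RCLike.I_mul_re, neg_neg]

theorem cmap_finRank (T : E →L[ℝ] E) (hT : T ∈ finRank ℝ E) :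
    cmap 𝕜 T ∈ finRank 𝕜 (Cx 𝕜 E) := by
  have hfin : FiniteDimensional ℝ (LinearMap.range (T : E →ₗ[ℝ] E)) := hT
  obtain ⟨s, hs⟩ := (Module.Finite.iff_fg (N := LinearMap.range (T : E →ₗ[ℝ] E))).1 hfin
  set U : Submodule 𝕜 (Cx 𝕜 E) :=
    Submodule.span 𝕜 ((fun x => (shp x : Cx 𝕜 E)) '' (s : Set E)) with hU
  have hUfin : FiniteDimensional 𝕜 U :=
    FiniteDimensional.span_of_finite 𝕜 (s.finite_toSet.image _)
  have hshp : ∀ x ∈ LinearMap.range (T : E →ₗ[ℝ] E), (shp x : Cx 𝕜 E) ∈ U := by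
    intro x hx
    rw [← hs] at hx
    induction hx using Submodule.span_induction with
    | mem x hx => exact Submodule.subset_span ⟨x, hx, rfl⟩
    | zero =>
      rw [← shpL_apply, map_zero]
      exact U.zero_mem
    | add x y _ _ hx hy =>
      rw [← shpL_apply, map_add]
      exact U.add_mem hx hy
    | smul r x _ hx =>
      rw [← shpL_apply, map_smul, shpL_apply, ← smul_one_smul 𝕜 r]
      exact U.smul_mem _ hx
  show FiniteDimensional 𝕜 (LinearMap.range ((cmap 𝕜 T : Cx 𝕜 E →L[𝕜] Cx 𝕜 E) :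
    Cx 𝕜 E →ₗ[𝕜] Cx 𝕜 E))
  refine Submodule.finiteDimensional_of_le (S₂ := U) ?_
  rintro _ ⟨f, rfl⟩
  show cmap 𝕜 T f ∈ U
  rw [Cx.decomp (cmap 𝕜 T f), flt_eq, cmap_ev, cmap_ev]
  exact U.add_mem (hshp _ ⟨_, rfl⟩) (U.smul_mem _ (hshp _ ⟨_, rfl⟩))

theorem cmap_FE (T : E →L[ℝ] E) (hT : T ∈ FE ℝ E) : cmap 𝕜 T ∈ FE 𝕜 (Cx 𝕜 E) := by
  have hT' : T ∈ closure (finRank ℝ E) := hT
  show cmap 𝕜 T ∈ closure (finRank 𝕜 (Cx 𝕜 E))
  rw [Metric.mem_closure_iff]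
  intro ε hε
  obtain ⟨S, hS, hd⟩ := Metric.mem_closure_iff.1 hT' ε hε
  refine ⟨cmap 𝕜 S, cmap_finRank S hS, ?_⟩
  rw [dist_eq_norm, ← cmap_sub]
  rw [dist_eq_norm] at hd
  exact lt_of_le_of_lt (cmap_norm 𝕜 _) hd

theorem FE_real (c : Cx 𝕜 E →L[𝕜] Cx 𝕜 E) (hc : c ∈ FE 𝕜 (Cx 𝕜 E)) (P : E →L[ℝ] Cx 𝕜 E)
    (A : Cx 𝕜 E →L[ℝ] E) : A.comp ((c.restrictScalars ℝ).comp P) ∈ FE ℝ E := by
  have hc' : c ∈ closure (finRank 𝕜 (Cx 𝕜 E)) := hc
  show _ ∈ closure (finRank ℝ E)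
  rw [Metric.mem_closure_iff]
  intro ε hε
  have hK : 0 < ‖A‖ * ‖P‖ + 1 := by positivity
  obtain ⟨S, hS, hd⟩ := Metric.mem_closure_iff.1 hc' (ε / (‖A‖ * ‖P‖ + 1)) (div_pos hε hK)
  refine ⟨A.comp ((S.restrictScalars ℝ).comp P), ?_, ?_⟩
  · have h1 : FiniteDimensional 𝕜 (LinearMap.range (S : Cx 𝕜 E →ₗ[𝕜] Cx 𝕜 E)) := hS
    have h2 : Module.Finite ℝ (LinearMap.range (S : Cx 𝕜 E →ₗ[𝕜] Cx 𝕜 E)) :=
      Module.Finite.trans 𝕜 _
    have h3 : FiniteDimensional ℝ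
        ((LinearMap.range (S : Cx 𝕜 E →ₗ[𝕜] Cx 𝕜 E)).restrictScalars ℝ) := h2
    have h4 : FiniteDimensional ℝ (((LinearMap.range (S : Cx 𝕜 E →ₗ[𝕜] Cx 𝕜 E)).restrictScalars
      ℝ).map (A : Cx 𝕜 E →ₗ[ℝ] E)) := inferInstance
    refine Submodule.finiteDimensional_of_le (S₂ := ((LinearMap.range
      (S : Cx 𝕜 E →ₗ[𝕜] Cx 𝕜 E)).restrictScalars ℝ).map (A : Cx 𝕜 E →ₗ[ℝ] E)) ?_
    rintro _ ⟨x, rfl⟩
    exact ⟨S (P x), ⟨P x, rfl⟩, rfl⟩
  · rw [dist_eq_norm] at hd ⊢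
    have h1 : ‖A.comp ((c.restrictScalars ℝ).comp P) - A.comp ((S.restrictScalars ℝ).comp P)‖ ≤
        ‖c - S‖ * (‖A‖ * ‖P‖) := by
      refine ContinuousLinearMap.opNorm_le_bound _ (by positivity) fun x => ?_
      have h2 : (A.comp ((c.restrictScalars ℝ).comp P) - A.comp ((S.restrictScalars ℝ).comp P)) x =
          A ((c - S) (P x)) := by
        show A (c (P x)) - A (S (P x)) = A (c (P x) - S (P x))
        rw [map_sub]
      rw [h2]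
      calc ‖A ((c - S) (P x))‖ ≤ ‖A‖ * ‖(c - S) (P x)‖ := A.le_opNorm _
        _ ≤ ‖A‖ * (‖c - S‖ * ‖P x‖) :=
          mul_le_mul_of_nonneg_left ((c - S).le_opNorm _) (norm_nonneg _)
        _ ≤ ‖A‖ * (‖c - S‖ * (‖P‖ * ‖x‖)) :=
          mul_le_mul_of_nonneg_left (mul_le_mul_of_nonneg_left (P.le_opNorm _) (norm_nonneg _))
            (norm_nonneg _)
        _ = ‖c - S‖ * (‖A‖ * ‖P‖) * ‖x‖ := by ring
    refine lt_of_le_of_lt h1 ?_
    rw [lt_div_iff₀ hK] at hd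
    have h3 : 0 ≤ ‖c - S‖ := norm_nonneg _
    nlinarith

end RF
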