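import Pool.Agent.RF.G5b

/-!
# [RF-G5c] AP passes to `Cx 𝕜 E`

`K ⊆ Cx 𝕜 E` compact, `ε > 0`: `K' = evL 1 '' K ∪ evL I '' K` is compact in `E`.  Take `T ∈ finRank ℝ E` with
`‖T x - x‖ < ε/3` on `K'`.  `cmap T` has finite rank (`cmap_finRank`), and for `f ∈ K`, by `Cx.decomp` applied to
`g = cmap T f - f` (`g 1 = T (f 1) - f 1`, `g I = T (f I) - f I`): `‖g‖ ≤ ‖g 1‖ + ‖g I‖ ≤ 2ε/3 < ε`
(`norm_shp_le`, `norm_flt_le`).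
-/

set_option linter.unusedVariables false

namespace RF

theorem cx_AP (𝕜 E : Type) [RCLike 𝕜] [NormedAddCommGroup E] [NormedSpace ℝ E]
    (h : HasAP ℝ E) : HasAP 𝕜 (Cx 𝕜 E) := by
  intro K hK ε hε
  have hK' : IsCompact ((evL 𝕜 E 1) '' K ∪ (evL 𝕜 E RCLike.I) '' K) :=
    (hK.image (evL 𝕜 E 1).continuous).union (hK.image (evL 𝕜 E RCLike.I).continuous)
  obtain ⟨T, hT, hTK⟩ := h _ hK' (ε / 3) (by linarith)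
  refine ⟨cmap 𝕜 T, cmap_finRank T hT, fun f hf => ?_⟩
  have h1 : ‖T (f.ev 1) - f.ev 1‖ < ε / 3 :=
    hTK (f.ev 1) (Or.inl ⟨f, hf, rfl⟩)
  have h2 : ‖T (f.ev RCLike.I) - f.ev RCLike.I‖ < ε / 3 :=
    hTK (f.ev RCLike.I) (Or.inr ⟨f, hf, rfl⟩)
  have hd := Cx.decomp (cmap 𝕜 T f - f)
  have e1 : (cmap 𝕜 T f - f).ev 1 = T (f.ev 1) - f.ev 1 := rfl
  have e2 : (cmap 𝕜 T f - f).ev RCLike.I = T (f.ev RCLike.I) - f.ev RCLike.I := rfl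
  rw [hd, e1, e2]
  have h3 := norm_add_le (shp (T (f.ev 1) - f.ev 1) : Cx 𝕜 E)
    (flt (T (f.ev RCLike.I) - f.ev RCLike.I))
  have h4 := norm_shp_le (𝕜 := 𝕜) (T (f.ev 1) - f.ev 1)
  have h5 := norm_flt_le (𝕜 := 𝕜) (T (f.ev RCLike.I) - f.ev RCLike.I)
  linarith

end RF
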