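import Pool.Agent.RF.F6c

/-!
# [RF-G6] Blocks of the `l_1` part

* `pn_en_same`, `pn_en_ne`: coordinates of finite sums of `Finsupp.single`.
* `en_norm`: `l1f` of `∑_i single ⟨n,i⟩ (g i)` is `∑ |g i|` (and `NY 0 = 0`).
* `pn_le`: `∑_i |w.2 ⟨n,i⟩| ≤ l1f w.2 ≤ NW w`.
* `rho_le`: triangle inequality and `γ1`.
* `rho_lift`: this is `γ2`.
-/

set_option linter.unusedVariables false

namespace RF

noncomputable section

/-- The vector `g` in the `n`-th block of the `l_1` part. -/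
def en (D : Dat) (n : ℕ) : (Fin (D.k n) → ℝ) →ₗ[ℝ] W0 D where
  toFun g := (0, ∑ i, Finsupp.single (⟨n, i⟩ : Ga D) (g i))
  map_add' g h := by
    simp [Finset.sum_add_distrib]
  map_smul' c g := by
    simp [Finset.smul_sum]

/-- The `n`-th block of the `l_1` part. -/
def pn (D : Dat) (n : ℕ) : W0 D →ₗ[ℝ] (Fin (D.k n) → ℝ) where
  toFun w := fun i => w.2 ⟨n, i⟩
  map_add' w w' := rfl
  map_smul' c w := rfl

/-- The quotient map onto `l_4^s(l_2^m)`. -/
def rho (D : Dat) (n : ℕ) : (Fin (D.k n) → ℝ) →ₗ[ℝ] Rb (D.s n) (D.m n) where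
  toFun g := ∑ i, g i • D.γ n i
  map_add' g h := by simp [add_smul, Finset.sum_add_distrib]
  map_smul' c g := by simp [mul_smul, Finset.smul_sum]

theorem rho_apply (D : Dat) (n : ℕ) (g : Fin (D.k n) → ℝ) :
    rho D n g = ∑ i, g i • D.γ n i := rfl

private theorem G6_inj (D : Dat) (n : ℕ) : Function.Injective fun i : Fin (D.k n) => (⟨n, i⟩ : Ga D) :=
  fun _ _ h => eq_of_heq (Sigma.mk.inj h).2

private theorem G6_apply (D : Dat) (n : ℕ) (g : Fin (D.k n) → ℝ) (i : Fin (D.k n)) :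
    (∑ j, Finsupp.single (⟨n, j⟩ : Ga D) (g j)) ⟨n, i⟩ = g i := by
  classical
  rw [Finsupp.finsetSum_apply, Finset.sum_eq_single i]
  · exact Finsupp.single_eq_same
  · intro j _ hj
    exact Finsupp.single_eq_of_ne' fun h => hj (G6_inj D n h)
  · intro h
    exact absurd (Finset.mem_univ i) h

private theorem G6_apply_ne (D : Dat) {n n' : ℕ} (h : n ≠ n') (g : Fin (D.k n) → ℝ)
    (i : Fin (D.k n')) : (∑ j, Finsupp.single (⟨n, j⟩ : Ga D) (g j)) ⟨n', i⟩ = 0 := by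
  classical
  rw [Finsupp.finsetSum_apply]
  refine Finset.sum_eq_zero fun j _ => ?_
  exact Finsupp.single_eq_of_ne' fun h' => h (Sigma.mk.inj h').1

private theorem G6_support (D : Dat) (n : ℕ) (g : Fin (D.k n) → ℝ) :
    (∑ j, Finsupp.single (⟨n, j⟩ : Ga D) (g j)).support ⊆
      Finset.univ.image fun i : Fin (D.k n) => (⟨n, i⟩ : Ga D) := by
  classical
  intro x hx
  obtain ⟨n', i⟩ := x
  rw [Finsupp.mem_support_iff] at hx
  by_cases h : n = n'
  · subst h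
    exact Finset.mem_image_of_mem _ (Finset.mem_univ i)
  · exact absurd (G6_apply_ne D h g i) hx

theorem pn_en_same (D : Dat) (n : ℕ) (g : Fin (D.k n) → ℝ) : pn D n (en D n g) = g := by
  funext i
  exact G6_apply D n g i

theorem pn_en_ne (D : Dat) {n n' : ℕ} (h : n ≠ n') (g : Fin (D.k n) → ℝ) :
    pn D n' (en D n g) = 0 := by
  funext i
  exact G6_apply_ne D h g i

theorem en_norm (D : Dat) (n : ℕ) (g : Fin (D.k n) → ℝ) : NW D (en D n g) = ∑ i, |g i| := by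
  classical
  rw [NW_apply]
  have h1 : NY D (en D n g).1 = 0 := map_zero (NY D)
  rw [h1, zero_add]
  show (∑ j, Finsupp.single (⟨n, j⟩ : Ga D) (g j)).sum (fun _ a => |a|) = ∑ i, |g i|
  rw [Finsupp.sum_of_support_subset _ (G6_support D n g) _ (fun _ _ => abs_zero),
    Finset.sum_image fun a _ b _ h => G6_inj D n h]
  exact Finset.sum_congr rfl fun i _ => by rw [G6_apply]

theorem pn_le (D : Dat) (n : ℕ) (w : W0 D) : ∑ i, |pn D n w i| ≤ NW D w := by
  classical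
  rw [NW_apply]
  have h1 : 0 ≤ NY D w.1 := apply_nonneg _ _
  have h2 : ∑ i, |pn D n w i| ≤ l1f (Ga D) w.2 := by
    show ∑ i, |w.2 (⟨n, i⟩ : Ga D)| ≤ w.2.sum (fun _ a => |a|)
    have h3 : ∑ i, |w.2 (⟨n, i⟩ : Ga D)| =
        ∑ x ∈ Finset.univ.image (fun i : Fin (D.k n) => (⟨n, i⟩ : Ga D)), |w.2 x| := by
      rw [Finset.sum_image fun a _ b _ h => G6_inj D n h]
    rw [h3, Finsupp.sum_of_support_subset w.2
      (s := w.2.support ∪ Finset.univ.image (fun i : Fin (D.k n) => (⟨n, i⟩ : Ga D)))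
      Finset.subset_union_left _ (fun _ _ => abs_zero)]
    exact Finset.sum_le_sum_of_subset_of_nonneg Finset.subset_union_right
      (fun _ _ _ => abs_nonneg _)
  linarith

theorem rho_le (D : Dat) (n : ℕ) (g : Fin (D.k n) → ℝ) : ‖rho D n g‖ ≤ ∑ i, |g i| := by
  rw [rho_apply]
  refine (norm_sum_le _ _).trans (Finset.sum_le_sum fun i _ => ?_)
  rw [norm_smul, Real.norm_eq_abs]
  calc |g i| * ‖D.γ n i‖ ≤ |g i| * 1 := mul_le_mul_of_nonneg_left (D.γ1 n i) (abs_nonneg _)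
    _ = |g i| := mul_one _

theorem rho_lift (D : Dat) (n : ℕ) (r : Rb (D.s n) (D.m n)) :
    ∃ g, rho D n g = r ∧ ∑ i, |g i| ≤ 2 * ‖r‖ := D.γ2 n r

end

end RF
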