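import Pool.Agent.RF.E2b

/-!
# [RF-G6b] A norm convergent series of finite-rank operators given on a dense subspace

`exists_ext` for `f = i ∘ A n` (`‖i (A n w)‖ = N (A n w) ≤ C n * N w`) gives `G n : E →L[ℝ] E`, `G n (i w) = i (A n w)`,
`‖G n x‖ ≤ C n * ‖x‖`, so `‖G n‖ ≤ C n`.
`G n` has finite rank: the subspace `i (range (A n))` is finite-dimensional, hence closed
(`Submodule.closed_of_finiteDimensional`), and contains `G n x` for all `x` in the dense set `range i`, hence for all `x`
(`DenseRange`, `IsClosed.mem_of_...` or `isClosed.closure_subset_iff`).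
`T = ∑' n, β n • G n` converges absolutely in the Banach space `E →L[ℝ] E`; the partial sums are in the subalgebra `FE ℝ E`, which
is closed (`isClosed_closure`), so `T ∈ FE ℝ E` (`IsClosed.mem_of_tendsto` with `HasSum.tendsto_sum_nat`).
`HasSum (fun n => β n • i (A n w)) (T (i w))`: apply the continuous linear map evaluation at `i w`
(`ContinuousLinearMap.apply ℝ E (i w)`, `ContinuousLinearMap.hasSum`).
-/

set_option linter.unusedVariables false

namespace RF

theorem g6b_rank {W E : Type} [AddCommGroup W] [Module ℝ W] [NormedAddCommGroup E]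
    [NormedSpace ℝ E] (i : W →ₗ[ℝ] E) (hi : DenseRange i) (A : W →ₗ[ℝ] W)
    (hfg : (LinearMap.range A).FG) (G : E →L[ℝ] E) (hG : ∀ w, G (i w) = i (A w)) :
    G ∈ finRank ℝ E := by
  have hS : ((LinearMap.range A).map i).FG := hfg.map i
  have hfd : FiniteDimensional ℝ ((LinearMap.range A).map i) := Module.Finite.iff_fg.2 hS
  have hcl : IsClosed (((LinearMap.range A).map i : Submodule ℝ E) : Set E) :=
    Submodule.closed_of_finiteDimensional _
  have hmem : ∀ x, G x ∈ ((LinearMap.range A).map i : Submodule ℝ E) := by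
    intro x
    refine hi.induction_on (p := fun x => G x ∈ ((LinearMap.range A).map i : Submodule ℝ E)) x
      (hcl.preimage G.continuous) ?_
    intro w
    rw [hG]
    exact Submodule.mem_map_of_mem (LinearMap.mem_range_self A w)
  show FiniteDimensional ℝ (LinearMap.range (G : E →ₗ[ℝ] E))
  refine Submodule.finiteDimensional_of_le
    (S₂ := ((LinearMap.range A).map i : Submodule ℝ E)) ?_
  rintro _ ⟨x, rfl⟩
  exact hmem x

theorem exists_series {W E : Type} [AddCommGroup W] [Module ℝ W] [NormedAddCommGroup E]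
    [NormedSpace ℝ E] [CompleteSpace E] (N : SN W) (i : W →ₗ[ℝ] E) (hi : DenseRange i)
    (hn : ∀ w, ‖i w‖ = N w) (A : ℕ → (W →ₗ[ℝ] W)) (C β : ℕ → ℝ) (hC : ∀ n, 0 ≤ C n)
    (hA : ∀ n w, N (A n w) ≤ C n * N w) (hfg : ∀ n, (LinearMap.range (A n)).FG)
    (hβ : ∀ n, 0 ≤ β n) (hs : Summable fun n => β n * C n) :
    ∃ T : E →L[ℝ] E, T ∈ FE ℝ E ∧ ∀ w, HasSum (fun n => β n • i (A n w)) (T (i w)) := by
  have h1 : ∀ n, ∃ g : E →L[ℝ] E, (∀ w, g (i w) = (i ∘ₗ A n) w) ∧ ∀ x, ‖g x‖ ≤ C n * ‖x‖ :=
    fun n => exists_ext N i hi hn (i ∘ₗ A n) (C n) (hC n) (fun w => by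
      rw [LinearMap.comp_apply, hn]
      exact hA n w)
  choose G hG1 hG2 using h1
  have hG3 : ∀ n, ‖G n‖ ≤ C n := fun n => (G n).opNorm_le_bound (hC n) (hG2 n)
  have hG4 : ∀ n, G n ∈ FE ℝ E := fun n =>
    subset_closure (g6b_rank i hi (A n) (hfg n) (G n) (hG1 n))
  have hsum : Summable (fun n => β n • G n) := by
    refine Summable.of_norm_bounded hs (fun n => ?_)
    rw [norm_smul, Real.norm_of_nonneg (hβ n)]
    exact mul_le_mul_of_nonneg_left (hG3 n) (hβ n)
  refine ⟨∑' n, β n • G n, ?_, ?_⟩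
  · have h2 : ∀ k, ∑ n ∈ Finset.range k, β n • G n ∈ FE ℝ E := fun k =>
      sum_mem fun n _ => (FE ℝ E).smul_mem (β n) (hG4 n)
    have h3 : ∑' n, β n • G n ∈ closure (finRank ℝ E) :=
      isClosed_closure.mem_of_tendsto hsum.hasSum.tendsto_sum_nat
        (Filter.Eventually.of_forall fun k => h2 k)
    exact h3
  · intro w
    have h2 := (ContinuousLinearMap.apply ℝ E (i w)).hasSum hsum.hasSum
    have h3 : (fun n => (ContinuousLinearMap.apply ℝ E (i w)) (β n • G n)) =
        fun n => β n • i (A n w) := by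
      funext n
      show (β n • G n) (i w) = β n • i (A n w)
      show β n • G n (i w) = β n • i (A n w)
      rw [hG1]
      rfl
    rw [h3] at h2
    exact h2

end RF
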