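import Pool.Agent.RF.G6

/-!
# [RF-G6c] The operators `a` and `b`

* `a`: `exists_series` with `A n = iotW D n ∘ rho D n ∘ pn D n`, `C n = 1`, `β n = (1/2)^n`.
  `NW (A n w) = ‖rho (pn w)‖ ≤ ∑ |pn w i| ≤ NW w` (`iotW_norm`, `rho_le`, `pn_le`); the range is finitely generated because the map
  factors through the finite-dimensional space `Fin k → ℝ`.
  For `w = en D n g` only the term `n` of the sum is nonzero (`pn_en_same`, `pn_en_ne`, `hasSum_single`, `HasSum.unique`).
* `exists_Q`: a linear `Q : (Fin k → ℝ) → (Fin k → ℝ)` with `rho (Q g) = 0`, `Q g = g` if `rho g = 0`, and a constant `C`: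
  `∑ |Q g i| ≤ C ∑ |g i|`.  (`LinearMap.exists_leftInverse_of_injective` for the inclusion of `ker (rho D n)`; the bound:
  `Q g = ∑_j g_j Q e_j`, `C = ∑_j ∑_i |Q e_j i|`.)
* `b`: `exists_series` with `A n = en D n ∘ Q n ∘ pn D n`, this `C n`, and `β n = (1/2)^n / (C n + 1) > 0`.
* `a * b = 0`: for `w : W0`, `b (i w)` is the sum of `β n • i (en D n q_n)`, `q_n = Q n (pn D n w)`, and
  `a (i (en D n q_n)) = (1/2)^n • i (iotW D n (rho q_n)) = 0`; so `a (b (i w)) = 0` (continuity of `a`), and `range i` is dense.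
-/

set_option linter.unusedVariables false

namespace RF

private theorem G6c_bound {k : ℕ} (Q : (Fin k → ℝ) →ₗ[ℝ] (Fin k → ℝ)) (g : Fin k → ℝ) :
    ∑ i, |Q g i| ≤ (∑ j, ∑ i, |Q (Pi.single j 1) i|) * ∑ i, |g i| := by
  have h1 : g = ∑ j, g j • (Pi.single j 1 : Fin k → ℝ) := by
    funext t
    simp [Finset.sum_apply, Pi.single_apply]
  have h2 : ∀ i, Q g i = ∑ j, g j * Q (Pi.single j 1) i := by
    intro i
    conv_lhs => rw [h1]
    rw [map_sum, Finset.sum_apply]
    exact Finset.sum_congr rfl fun j _ => by rw [map_smul, Pi.smul_apply, smul_eq_mul]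
  calc ∑ i, |Q g i| ≤ ∑ i, ∑ j, |g j| * |Q (Pi.single j 1) i| := by
        refine Finset.sum_le_sum fun i _ => ?_
        rw [h2 i]
        refine (Finset.abs_sum_le_sum_abs _ _).trans (le_of_eq ?_)
        exact Finset.sum_congr rfl fun j _ => abs_mul _ _
    _ = ∑ j, |g j| * ∑ i, |Q (Pi.single j 1) i| := by
        rw [Finset.sum_comm]
        exact Finset.sum_congr rfl fun j _ => by rw [Finset.mul_sum]
    _ ≤ ∑ j, |g j| * ∑ j', ∑ i, |Q (Pi.single j' 1) i| := by
        refine Finset.sum_le_sum fun j _ => mul_le_mul_of_nonneg_left ?_ (abs_nonneg _)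
        exact Finset.single_le_sum (f := fun j' => ∑ i, |Q (Pi.single j' 1) i|)
          (fun _ _ => Finset.sum_nonneg fun _ _ => abs_nonneg _) (Finset.mem_univ j)
    _ = (∑ j, ∑ i, |Q (Pi.single j 1) i|) * ∑ i, |g i| := by
        rw [← Finset.sum_mul, mul_comm]

theorem exists_Q (D : Dat) (n : ℕ) : ∃ (Q : (Fin (D.k n) → ℝ) →ₗ[ℝ] (Fin (D.k n) → ℝ)) (C : ℝ),
    0 ≤ C ∧ (∀ g, rho D n (Q g) = 0) ∧ (∀ g, rho D n g = 0 → Q g = g) ∧
      ∀ g, ∑ i, |Q g i| ≤ C * ∑ i, |g i| := by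
  obtain ⟨P, hP⟩ := LinearMap.exists_leftInverse_of_injective
    (LinearMap.ker (rho D n)).subtype (Submodule.ker_subtype _)
  refine ⟨(LinearMap.ker (rho D n)).subtype.comp P,
    ∑ j, ∑ i, |((LinearMap.ker (rho D n)).subtype.comp P) (Pi.single j 1) i|,
    Finset.sum_nonneg fun _ _ => Finset.sum_nonneg fun _ _ => abs_nonneg _, ?_, ?_,
    fun g => G6c_bound _ g⟩
  · intro g
    exact LinearMap.mem_ker.1 (P g).2
  · intro g hg
    have h1 := LinearMap.congr_fun hP ⟨g, LinearMap.mem_ker.2 hg⟩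
    exact congrArg Subtype.val h1

end RF
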