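import Pool.Agent.RF.G6c
import Pool.Agent.RF.G6b

/-!
# [RF-G6c] The operators `a` and `b`

* `a`: `exists_series` with `A n = iotW D n ∘ rho D n ∘ pn D n`, `C n = 1`, `β n = (1/2)^n`.
  `NW (A n w) = ‖rho (pn w)‖ ≤ ∑ |pn w i| ≤ NW w` (`iotW_norm`, `rho_le`, `pn_le`); the range is finitely generated because the map
  factors through the finite-dimensional space `Fin k → ℝ`.
  For `w = en D n g` only the term `n` of the sum is nonzero (`pn_en_same`, `pn_en_ne`, `hasSum_single`, `HasSum.unique`).
* `exists_Q`: a linear `Q : (Fin k → ℝ) → (Fin k → ℝ)` with `rho (Q g) = 0`, `Q g = g` if `rho g = 0`, and a constant `C`: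
  `∑ |Q g i| ≤ C ∑ |g i|`.  (`LinearMap.exists_leftInverse_of_injective` for the inclusion of `ker (rho D n)`; the bound:
  `Q g = ∑_j g_j Q e_j`, `C = ∑_j ∑_i |Q e_j i|`.)
* `b`: `exists_series` with `A n = en D n ∘ Q n ∘ pn D n`, this `C n`, and `β n = (1/2)^n / (C n + 1) > 0`.
* `a * b = 0`: for `w : W0`, `b (i w)` is the sum of `β n • i (en D n q_n)`, `q_n = Q n (pn D n w)`, and
  `a (i (en D n q_n)) = (1/2)^n • i (iotW D n (rho q_n)) = 0`; so `a (b (i w)) = 0` (continuity of `a`), and `range i` is dense.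
-/

set_option linter.unusedVariables false

namespace RF

private theorem G6d_fg {W : Type} [AddCommMonoid W] [Module ℝ W] {k : ℕ}
    (h : (Fin k → ℝ) →ₗ[ℝ] W) (g : W →ₗ[ℝ] (Fin k → ℝ)) :
    (LinearMap.range (h.comp g)).FG := by
  rw [LinearMap.range_comp]
  exact Submodule.FG.map h (IsNoetherian.noetherian _)

theorem exists_ab (D : Dat) {E : Type} [NormedAddCommGroup E] [NormedSpace ℝ E]
    [CompleteSpace E] (i : W0 D →ₗ[ℝ] E) (hi : DenseRange i) (hn : ∀ w, ‖i w‖ = NW D w) :
    ∃ a b : E →L[ℝ] E, a ∈ FE ℝ E ∧ b ∈ FE ℝ E ∧ a * b = 0 ∧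
      (∀ n g, a (i (en D n g)) = (1 / 2 : ℝ) ^ n • i (iotW D n (rho D n g))) ∧
      ∀ n, ∃ β : ℝ, 0 < β ∧ ∀ g, rho D n g = 0 → b (i (en D n g)) = β • i (en D n g) := by
  obtain ⟨a, haF, haS⟩ := exists_series (NW D) i hi hn
    (fun n => ((iotW D n).comp (rho D n)).comp (pn D n)) (fun _ => 1) (fun n => (1 / 2 : ℝ) ^ n)
    (fun _ => zero_le_one)
    (fun n w => by
      show NW D (iotW D n (rho D n (pn D n w))) ≤ 1 * NW D w
      rw [iotW_norm, one_mul]
      exact (rho_le D n _).trans (pn_le D n w))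
    (fun n => G6d_fg ((iotW D n).comp (rho D n)) (pn D n)) (fun n => by positivity)
    (by
      simp only [mul_one]
      exact summable_geometric_two)
  choose Q C hC0 hQ0 hQ1 hQle using exists_Q D
  obtain ⟨b, hbF, hbS⟩ := exists_series (NW D) i hi hn
    (fun n => ((en D n).comp (Q n)).comp (pn D n)) C (fun n => (1 / 2 : ℝ) ^ n / (C n + 1)) hC0
    (fun n w => by
      show NW D (en D n (Q n (pn D n w))) ≤ C n * NW D w
      rw [en_norm]
      exact (hQle n _).trans (mul_le_mul_of_nonneg_left (pn_le D n w) (hC0 n)))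
    (fun n => G6d_fg ((en D n).comp (Q n)) (pn D n))
    (fun n => by
      have := hC0 n
      positivity)
    (by
      refine Summable.of_nonneg_of_le (fun n => ?_) (fun n => ?_) summable_geometric_two
      · have := hC0 n
        positivity
      · have h0 := hC0 n
        have h1 : (0 : ℝ) < C n + 1 := by linarith
        rw [div_mul_eq_mul_div, div_le_iff₀ h1]
        apply mul_le_mul_of_nonneg_left _ (by positivity)
        linarith)
  have haE : ∀ n g, a (i (en D n g)) = (1 / 2 : ℝ) ^ n • i (iotW D n (rho D n g)) := by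
    intro n g
    have h1 := haS (en D n g)
    have h2 : HasSum (fun n' => (1 / 2 : ℝ) ^ n' •
        i ((((iotW D n').comp (rho D n')).comp (pn D n')) (en D n g)))
        ((1 / 2 : ℝ) ^ n • i ((((iotW D n).comp (rho D n)).comp (pn D n)) (en D n g))) := by
      apply hasSum_single n
      intro n' hn'
      show (1 / 2 : ℝ) ^ n' • i (iotW D n' (rho D n' (pn D n' (en D n g)))) = 0
      rw [pn_en_ne D (Ne.symm hn'), map_zero, map_zero, map_zero, smul_zero]
    have h3 := h1.unique h2
    rw [h3]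
    show (1 / 2 : ℝ) ^ n • i (iotW D n (rho D n (pn D n (en D n g)))) = _
    rw [pn_en_same]
  refine ⟨a, b, haF, hbF, ?_, haE, fun n => ⟨(1 / 2 : ℝ) ^ n / (C n + 1), ?_, fun g hg => ?_⟩⟩
  · have hz : ∀ w, (a * b) (i w) = 0 := by
      intro w
      have h1 := a.hasSum (hbS w)
      have h2 : (fun n => a (((1 / 2 : ℝ) ^ n / (C n + 1)) •
          i ((((en D n).comp (Q n)).comp (pn D n)) w))) = fun _ => 0 := by
        funext n
        rw [map_smul]
        show _ • a (i (en D n (Q n (pn D n w)))) = 0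
        rw [haE, hQ0, map_zero, map_zero, smul_zero, smul_zero]
      have h3 : HasSum (fun n => a (((1 / 2 : ℝ) ^ n / (C n + 1)) •
          i ((((en D n).comp (Q n)).comp (pn D n)) w))) (a (b (i w))) := h1
      rw [h2] at h3
      exact h3.unique hasSum_zero
    have h4 := hi.equalizer (a * b).continuous (continuous_const (y := (0 : E)))
      (funext fun w => hz w)
    exact ContinuousLinearMap.ext fun x => congrFun h4 x
  · have := hC0 n
    positivity
  · have h1 := hbS (en D n g)
    have h2 : HasSum (fun n' => ((1 / 2 : ℝ) ^ n' / (C n' + 1)) •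
        i ((((en D n').comp (Q n')).comp (pn D n')) (en D n g)))
        (((1 / 2 : ℝ) ^ n / (C n + 1)) • i ((((en D n).comp (Q n)).comp (pn D n)) (en D n g))) := by
      apply hasSum_single n
      intro n' hn'
      show _ • i (en D n' (Q n' (pn D n' (en D n g)))) = 0
      rw [pn_en_ne D (Ne.symm hn'), map_zero, map_zero, map_zero, smul_zero]
    have h3 := h1.unique h2
    rw [h3]
    show ((1 / 2 : ℝ) ^ n / (C n + 1)) • i (en D n (Q n (pn D n (en D n g)))) = _
    rw [pn_en_same, hQ1 n g hg]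

end RF
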