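import Pool.Agent.RF.G6
import Pool.Agent.RF.G5

/-!
# [RF-G7] Preparations for the contradiction

* `indep`: suppose `∑_{n ∈ S} c_n • shp (x_n) = 0`, `x_n = i (en D n (g n))` (`linearIndependent_iff'`).  Evaluate at `z`:
  `∑_{n ∈ S} Re(c_n z) • x_n = 0` (`Cx.ev_smul`, `shp_ev`; `Cx.ev` of a finite sum: use `evL`), i.e.
  `i (∑ en D n (Re(c_n z) • g n)) = 0`, so the seminorm `NW` of `∑_{n∈S} en D n (Re (c_n z) • g n)` is zero, and by `pn_le` its
  block `n` is zero: `Re(c_n z) • g n = 0` (`pn_en_same`, `pn_en_ne`), so `Re (c_n z) = 0` as `g n ≠ 0`; with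
  `z = conj (c_n)` this gives `c_n = 0` (`Re (c * conj c) = ‖c‖^2`).
* `exists_d`: `rho D n` is surjective (`rho_lift`), so it has a linear right inverse `σ`
  (`LinearMap.exists_rightInverse_of_surjective`).  Put `d r = T (shp (i (en D n (σ r))))`.  For every `g`:
  `σ (rho g) - g` is in the kernel of `rho`, so `d (rho g) = T (shp (i (en D n g)))`.  For `r` choose `g` by `rho_lift`:
  `‖d r‖ = ‖T (shp (i (en D n g)))‖ ≤ ‖T‖ ‖i (en D n g)‖ = ‖T‖ ∑ |g i| ≤ ‖T‖ 2 ‖r‖` (`norm_shp_le`, `en_norm`).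
-/

set_option linter.unusedVariables false

namespace RF

theorem indep (𝕜 : Type) [RCLike 𝕜] (D : Dat) {E : Type} [NormedAddCommGroup E]
    [NormedSpace ℝ E] (i : W0 D →ₗ[ℝ] E) (hn : ∀ w, ‖i w‖ = NW D w)
    (g : ∀ n, Fin (D.k n) → ℝ) (hg : ∀ n, g n ≠ 0) :
    LinearIndependent 𝕜 (fun n => (shp (i (en D n (g n))) : Cx 𝕜 E)) := by
  rw [linearIndependent_iff']
  intro s c hc m hm
  have hz : ∀ z : 𝕜, RCLike.re (c m * z) = 0 := by
    intro z
    have h1 : ∑ n ∈ s, RCLike.re (c n * z) • i (en D n (g n)) = 0 := by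
      have h2 := congrArg (evL 𝕜 E z) hc
      rw [map_sum, map_zero] at h2
      exact h2
    have h3 : i (∑ n ∈ s, en D n (RCLike.re (c n * z) • g n)) = 0 := by
      rw [map_sum, ← h1]
      refine Finset.sum_congr rfl (fun n _ => ?_)
      rw [map_smul, map_smul]
    have h4 : NW D (∑ n ∈ s, en D n (RCLike.re (c n * z) • g n)) = 0 := by
      rw [← hn, h3, norm_zero]
    have h5 : pn D m (∑ n ∈ s, en D n (RCLike.re (c n * z) • g n))
        = RCLike.re (c m * z) • g m := by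
      rw [map_sum, Finset.sum_eq_single m, pn_en_same]
      · intro n _ hnm
        exact pn_en_ne D hnm _
      · intro h
        exact absurd hm h
    have h6 := pn_le D m (∑ n ∈ s, en D n (RCLike.re (c n * z) • g n))
    rw [h4, h5] at h6
    obtain ⟨j, hj⟩ : ∃ j, g m j ≠ 0 := by
      by_contra hcon
      push Not at hcon
      exact hg m (funext hcon)
    have h7 : |(RCLike.re (c m * z) • g m) j| ≤ 0 :=
      le_trans (Finset.single_le_sum (f := fun j => |(RCLike.re (c m * z) • g m) j|)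
        (fun _ _ => abs_nonneg _) (Finset.mem_univ j)) h6
    have h8 : (RCLike.re (c m * z) • g m) j = 0 := abs_nonpos_iff.mp h7
    rw [Pi.smul_apply, smul_eq_mul] at h8
    exact (mul_eq_zero.mp h8).resolve_right hj
  have h9 := hz ((starRingEnd 𝕜) (c m))
  rw [RCLike.mul_conj, ← RCLike.ofReal_pow, RCLike.ofReal_re] at h9
  exact norm_eq_zero.mp (pow_eq_zero_iff (two_ne_zero)|>.mp h9)

end RF
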