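import Pool.Agent.RF.G6
import Pool.Agent.RF.G5

/-!
# [RF-G7] Preparations for the contradiction

* `indep`: suppose `∑_{n ∈ S} c_n • shp (x_n) = 0`, `x_n = i (en D n (g n))` (`linearIndependent_iff'`).  Evaluate at `z`:
  `∑_{n ∈ S} Re(c_n z) • x_n = 0` (`Cx.ev_smul`, `shp_ev`; `Cx.ev` of a finite sum: use `evL`), i.e.
  `i (∑ en D n (Re(c_n z) • g n)) = 0`, so the seminorm `NW` of `∑_{n∈S} en D n (Re (c_n z) • g n)` is zero, and by `pn_le` its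
  block `n` is zero: `Re(c_n z) • g n = 0` (`pn_en_same`, `pn_en_ne`), so `Re (c_n z) = 0` as `g n ≠ 0`; with
  `z = conj (c_n)` this gives `c_n = 0` (`Re (c * conj c) = ‖c‖^2`).
* `exists_d`: `rho D n` is surjective (`rho_lift`), so it has a linear right inverse `σ`
  (`LinearMap.exists_rightInverse_of_surjective`).  Put `d r = T (shp (i (en D n (σ r))))`.  For every `g`:
  `σ (rho g) - g` is in the kernel of `rho`, so `d (rho g) = T (shp (i (en D n g)))`.  For `r` choose `g` by `rho_lift`: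
  `‖d r‖ = ‖T (shp (i (en D n g)))‖ ≤ ‖T‖ ‖i (en D n g)‖ = ‖T‖ ∑ |g i| ≤ ‖T‖ 2 ‖r‖` (`norm_shp_le`, `en_norm`).
-/

set_option linter.unusedVariables false

namespace RF

theorem exists_d (𝕜 : Type) [RCLike 𝕜] (D : Dat) {E : Type} [NormedAddCommGroup E]
    [NormedSpace ℝ E] (i : W0 D →ₗ[ℝ] E) (hn : ∀ w, ‖i w‖ = NW D w) (n : ℕ)
    (T : Cx 𝕜 E →L[𝕜] Cx 𝕜 E)
    (hT : ∀ g, rho D n g = 0 → T (shp (i (en D n g))) = 0) :
    ∃ d : Rb (D.s n) (D.m n) →ₗ[ℝ] Cx 𝕜 E,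
      (∀ g, d (rho D n g) = T (shp (i (en D n g)))) ∧ ∀ r, ‖d r‖ ≤ 2 * ‖T‖ * ‖r‖ := by
  have hsurj : Function.Surjective (rho D n) := fun r => by
    obtain ⟨g, hg, _⟩ := rho_lift D n r
    exact ⟨g, hg⟩
  obtain ⟨σ, hσ⟩ := LinearMap.exists_rightInverse_of_surjective (rho D n)
    (LinearMap.range_eq_top.2 hsurj)
  have hσ' : ∀ r, rho D n (σ r) = r := fun r => by
    have := LinearMap.congr_fun hσ r
    simpa using this
  let dd : (Fin (D.k n) → ℝ) →ₗ[ℝ] Cx 𝕜 E :=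
    (T.toLinearMap.restrictScalars ℝ).comp ((shpL 𝕜 E).toLinearMap.comp (i.comp (en D n)))
  have hdd : ∀ g, dd g = T (shp (i (en D n g))) := fun g => rfl
  have key : ∀ g, dd (σ (rho D n g)) = T (shp (i (en D n g))) := by
    intro g
    have h0 : rho D n (σ (rho D n g) - g) = 0 := by
      rw [map_sub, hσ', sub_self]
    have h1 := hT _ h0
    rw [← hdd, map_sub, sub_eq_zero] at h1
    rw [h1, hdd]
  refine ⟨dd.comp σ, fun g => key g, fun r => ?_⟩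
  obtain ⟨g, hg, hb⟩ := rho_lift D n r
  have h2 : (dd.comp σ) r = T (shp (i (en D n g))) := by
    rw [← hg]
    exact key g
  rw [h2]
  have h3 : ‖(shp (i (en D n g)) : Cx 𝕜 E)‖ ≤ 2 * ‖r‖ := by
    refine (norm_shp_le _).trans ?_
    rw [hn, en_norm]
    exact hb
  calc ‖T (shp (i (en D n g)))‖ ≤ ‖T‖ * ‖(shp (i (en D n g)) : Cx 𝕜 E)‖ := T.le_opNorm _
    _ ≤ ‖T‖ * (2 * ‖r‖) := mul_le_mul_of_nonneg_left h3 (norm_nonneg _)
    _ = 2 * ‖T‖ * ‖r‖ := by ring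

end RF
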