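import Pool.Agent.RF.G5b
import Pool.Agent.RF.F7

/-!
# [RF-G7b] The factorization estimate over `𝕜`

Take the value at `1`: by `Cx.decomp`, `i (iotW r) = ∑_j (c_j (shp (d_j r 1) + flt (d_j r I))) 1 = ∑_j c1_j (d1_j r) + ∑_j c2_j (d2_j r)`
with `c1_j = evL 1 ∘ c_j ∘ shpL`, `c2_j = evL 1 ∘ c_j ∘ fltL` in `FE ℝ E` (`FE_real`), of norms `≤ ‖c_j‖` (`shpL_norm`,
`fltL_norm`, `evL_norm`, `‖(1:𝕜)‖ = 1`), `d1_j = evL 1 ∘ d_j`, `d2_j = evL I ∘ d_j`, bounded by `B_j` (`evL_norm`, `‖I‖ ≤ 1`).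
Apply `star` to the families indexed by `Fin (K + K)` (`Fin.append`, `Fin.sum_univ_add`).
-/

set_option linter.unusedVariables false

namespace RF

theorem star_cx (𝕜 : Type) [RCLike 𝕜] (D : Dat) (n : ℕ)
    (hs : 2 * (4096 * 77 ^ 5) ^ 4 * ((4 : ℝ) ^ n) ^ 16 < D.s n)
    (hm : (128 * (77 * (D.s n : ℝ)) ^ 2 * 81 ^ 2 * (4 : ℝ) ^ n) ^ 2 ≤ D.m n)
    {E : Type} [NormedAddCommGroup E] [NormedSpace ℝ E] (i : W0 D →ₗ[ℝ] E) (hi : DenseRange i)
    (hn : ∀ w, ‖i w‖ = NW D w) {K : ℕ} (c : Fin K → (Cx 𝕜 E →L[𝕜] Cx 𝕜 E))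
    (hc : ∀ j, c j ∈ FE 𝕜 (Cx 𝕜 E))
    (d : Fin K → (Rb (D.s n) (D.m n) →ₗ[ℝ] Cx 𝕜 E)) (B : Fin K → ℝ) (hB : ∀ j, 0 ≤ B j)
    (hd : ∀ j r, ‖d j r‖ ≤ B j * ‖r‖)
    (h : ∀ r, (shp (i (iotW D n r)) : Cx 𝕜 E) = ∑ j, c j (d j r)) :
    (4 : ℝ) ^ n ≤ 2 * ∑ j, ‖c j‖ * B j := by
  let C1 : Fin K → (E →L[ℝ] E) := fun j =>
    (evL 𝕜 E 1).comp (((c j).restrictScalars ℝ).comp (shpL 𝕜 E))
  let C2 : Fin K → (E →L[ℝ] E) := fun j =>
    (evL 𝕜 E 1).comp (((c j).restrictScalars ℝ).comp (fltL 𝕜 E))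
  let D1 : Fin K → (Rb (D.s n) (D.m n) →ₗ[ℝ] E) := fun j =>
    ((evL 𝕜 E 1 : Cx 𝕜 E →L[ℝ] E) : Cx 𝕜 E →ₗ[ℝ] E).comp (d j)
  let D2 : Fin K → (Rb (D.s n) (D.m n) →ₗ[ℝ] E) := fun j =>
    ((evL 𝕜 E (RCLike.I : 𝕜) : Cx 𝕜 E →L[ℝ] E) : Cx 𝕜 E →ₗ[ℝ] E).comp (d j)
  have hC1 : ∀ j, ‖C1 j‖ ≤ ‖c j‖ := by
    intro j
    refine ContinuousLinearMap.opNorm_le_bound _ (norm_nonneg _) (fun x => ?_)
    show ‖(c j (shp x)).ev 1‖ ≤ ‖c j‖ * ‖x‖
    have h1 := Cx.norm_ev_le (c j (shp x)) 1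
    rw [norm_one, mul_one] at h1
    refine h1.trans (((c j).le_opNorm _).trans ?_)
    exact mul_le_mul_of_nonneg_left (norm_shp_le x) (norm_nonneg _)
  have hC2 : ∀ j, ‖C2 j‖ ≤ ‖c j‖ := by
    intro j
    refine ContinuousLinearMap.opNorm_le_bound _ (norm_nonneg _) (fun x => ?_)
    show ‖(c j (flt x)).ev 1‖ ≤ ‖c j‖ * ‖x‖
    have h1 := Cx.norm_ev_le (c j (flt x)) 1
    rw [norm_one, mul_one] at h1
    refine h1.trans (((c j).le_opNorm _).trans ?_)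
    exact mul_le_mul_of_nonneg_left (norm_flt_le x) (norm_nonneg _)
  have hD1 : ∀ j r, ‖D1 j r‖ ≤ B j * ‖r‖ := by
    intro j r
    have h1 := Cx.norm_ev_le (d j r) 1
    rw [norm_one, mul_one] at h1
    exact h1.trans (hd j r)
  have hD2 : ∀ j r, ‖D2 j r‖ ≤ B j * ‖r‖ := by
    intro j r
    have h1 := Cx.norm_ev_le (d j r) (RCLike.I : 𝕜)
    have hI : ‖(RCLike.I : 𝕜)‖ ≤ 1 := by
      by_cases hI0 : (RCLike.I : 𝕜) = 0
      · rw [hI0, norm_zero]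
        exact zero_le_one
      · rw [RCLike.norm_I_of_ne_zero hI0]
    refine h1.trans (le_trans ?_ (hd j r))
    calc ‖d j r‖ * ‖(RCLike.I : 𝕜)‖ ≤ ‖d j r‖ * 1 :=
          mul_le_mul_of_nonneg_left hI (norm_nonneg _)
      _ = ‖d j r‖ := mul_one _
  have key := star D n hs hm i hi hn (Fin.append C1 C2) (fun j => by
      refine Fin.addCases (fun j => ?_) (fun j => ?_) j
      · rw [Fin.append_left]
        exact FE_real (c j) (hc j) _ _
      · rw [Fin.append_right]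
        exact FE_real (c j) (hc j) _ _)
    (Fin.append D1 D2) (Fin.append B B) (fun j => by
      refine Fin.addCases (fun j => ?_) (fun j => ?_) j
      · rw [Fin.append_left]
        exact hB j
      · rw [Fin.append_right]
        exact hB j)
    (fun j r => by
      revert r
      refine Fin.addCases (fun j r => ?_) (fun j r => ?_) j
      · rw [Fin.append_left, Fin.append_left]
        exact hD1 j r
      · rw [Fin.append_right, Fin.append_right]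
        exact hD2 j r)
    (fun r => by
      rw [Fin.sum_univ_add]
      simp only [Fin.append_left, Fin.append_right]
      rw [← Finset.sum_add_distrib]
      have h1 := congrArg (evL 𝕜 E 1) (h r)
      rw [map_sum, evL_apply, shp_ev, RCLike.one_re, one_smul] at h1
      rw [h1]
      refine Finset.sum_congr rfl (fun j _ => ?_)
      show (c j (d j r)).ev 1
        = (c j (shp ((d j r).ev 1))).ev 1 + (c j (flt ((d j r).ev RCLike.I))).ev 1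
      rw [← Cx.ev_add, ← map_add, ← Cx.decomp])
  refine key.trans ?_
  rw [Fin.sum_univ_add]
  simp only [Fin.append_left, Fin.append_right]
  rw [two_mul]
  exact add_le_add
    (Finset.sum_le_sum (fun j _ => mul_le_mul_of_nonneg_right (hC1 j) (hB j)))
    (Finset.sum_le_sum (fun j _ => mul_le_mul_of_nonneg_right (hC2 j) (hB j)))

end RF
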