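import Pool.Agent.RF.G2
import Pool.Agent.RF.G3
import Pool.Agent.RF.G4
import Pool.Agent.RF.G5c
import Pool.Agent.RF.G6d
import Pool.Agent.RF.G7
import Pool.Agent.RF.G7a
import Pool.Agent.RF.G7b
import Pool.Agent.RF.E3b

/-!
# [RF-G8] Assembly
-/

set_option linter.unusedVariables false

namespace RF

theorem not_rf (𝕜 : Type) [RCLike 𝕜] (D : Dat)
    (hs : ∀ n, 2 * (4096 * 77 ^ 5) ^ 4 * ((4 : ℝ) ^ n) ^ 16 < D.s n)
    (hm : ∀ n, (128 * (77 * (D.s n : ℝ)) ^ 2 * 81 ^ 2 * (4 : ℝ) ^ n) ^ 2 ≤ D.m n)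
    {E : Type} [NormedAddCommGroup E] [NormedSpace ℝ E] [CompleteSpace E]
    (i : W0 D →ₗ[ℝ] E) (hi : DenseRange i) (hn : ∀ w, ‖i w‖ = NW D w) :
    ¬ RightFlat 𝕜 (FE 𝕜 (Cx 𝕜 E)) := by
  intro hf
  obtain ⟨a, b, ha, hb, hab, ha1, hb1⟩ := exists_ab D i hi hn
  obtain ⟨K, c, T, l, hc, hT, hl, hsum⟩ := rf_factor 𝕜 (Cx 𝕜 E) hf (cmap 𝕜 a) (cmap 𝕜 b)
    (cmap_FE a ha) (cmap_FE b hb) (by rw [← cmap_mul, hab, cmap_zero])
  choose g0 hg0 hg1 using D.γ3
  -- `b` is a nonzero multiple of the identity on the kernel of `rho`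
  have key : ∀ j n g, rho D n g = 0 →
      l j • (shp (i (en D n g)) : Cx 𝕜 E) + T j (shp (i (en D n g))) = 0 := by
    intro j n g hg
    obtain ⟨β, hβ, hβ1⟩ := hb1 n
    have h1 : (l j • cmap 𝕜 b + T j * cmap 𝕜 b) (shp (i (en D n g))) = 0 := by
      rw [hl j]; rfl
    have h2 : cmap 𝕜 b (shp (i (en D n g))) = (β : 𝕜) • (shp (i (en D n g)) : Cx 𝕜 E) := by
      rw [cmap_shp, hβ1 g hg]
      refine Cx.ext fun z => ?_
      rw [shp_ev, Cx.ev_smul, shp_ev, smul_smul, RCLike.re_ofReal_mul, mul_comm]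
    have h3 : l j • ((β : 𝕜) • (shp (i (en D n g)) : Cx 𝕜 E))
        + T j ((β : 𝕜) • (shp (i (en D n g)) : Cx 𝕜 E)) = 0 := by
      rw [← h2]; exact h1
    have hβ' : (β : 𝕜) ≠ 0 := by
      rw [Ne, RCLike.ofReal_eq_zero]; exact ne_of_gt hβ
    rw [map_smul, smul_comm, ← smul_add] at h3
    exact (smul_eq_zero.1 h3).resolve_left hβ'
  have hl0 : ∀ j, l j = 0 := by
    intro j
    exact scalar_zero 𝕜 (Cx 𝕜 E) (T j) (hT j) (l j) _ (indep 𝕜 D i hn g0 hg0)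
      (fun n => key j n (g0 n) (hg1 n))
  have hker : ∀ j n g, rho D n g = 0 → T j (shp (i (en D n g))) = 0 := by
    intro j n g hg
    have := key j n g hg
    rwa [hl0 j, zero_smul, zero_add] at this
  -- the estimate for every `n`
  have main : ∀ n : ℕ, (2 : ℝ) ^ n ≤ 4 * ∑ j, ‖c j‖ * ‖T j‖ := by
    intro n
    choose d hd1 hd2 using fun j => exists_d 𝕜 D i hn n (T j) (hker j n)
    have h1 : ∀ r, (shp (i (iotW D n r)) : Cx 𝕜 E)
        = ∑ j, c j (((2 : ℝ) ^ n • d j) r) := by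
      intro r
      obtain ⟨g, hg, -⟩ := rho_lift D n r
      subst hg
      have e1 : cmap 𝕜 a (shp (i (en D n g))) = ∑ j, c j (T j (shp (i (en D n g)))) := by
        rw [hsum]
        simp only [hl0, zero_smul, zero_add]
        rw [sum_apply]
        rfl
      rw [cmap_shp, ha1] at e1
      have e2 : (shp (i (iotW D n (rho D n g))) : Cx 𝕜 E)
          = (2 : ℝ) ^ n • (shp ((1 / 2 : ℝ) ^ n • i (iotW D n (rho D n g))) : Cx 𝕜 E) := by
        rw [← shpL_apply, ← shpL_apply, map_smul, smul_smul, ← mul_pow]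
        norm_num
      rw [e2, e1, Finset.smul_sum]
      refine Finset.sum_congr rfl (fun j _ => ?_)
      rw [LinearMap.smul_apply, hd1]
      exact ((c j).restrictScalars ℝ).map_smul _ _ |>.symm
    have h2 := star_cx 𝕜 D n (hs n) (hm n) i hi hn c hc (fun j => (2 : ℝ) ^ n • d j)
      (fun j => 2 ^ n * (2 * ‖T j‖)) (fun j => by positivity)
      (fun j r => by
        rw [LinearMap.smul_apply, norm_smul, Real.norm_eq_abs, abs_of_pos (by positivity),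
          mul_assoc]
        exact mul_le_mul_of_nonneg_left (hd2 j r) (by positivity)) h1
    have h3 : (2 : ℝ) * ∑ j, ‖c j‖ * (2 ^ n * (2 * ‖T j‖))
        = 2 ^ n * (4 * ∑ j, ‖c j‖ * ‖T j‖) := by
      simp only [Finset.mul_sum]
      exact Finset.sum_congr rfl (fun j _ => by ring)
    rw [h3, show (4 : ℝ) ^ n = 2 ^ n * 2 ^ n by rw [← mul_pow]; norm_num] at h2
    exact le_of_mul_le_mul_left h2 (by positivity)
  obtain ⟨n, hn'⟩ := pow_unbounded_of_one_lt (4 * ∑ j, ‖c j‖ * ‖T j‖) (one_lt_two (α := ℝ))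
  exact absurd (main n) (not_le.2 hn')

theorem main (𝕜 : Type) [RCLike 𝕜] :
    ∃ (E : Type) (_ : NormedAddCommGroup E) (_ : NormedSpace 𝕜 E), CompleteSpace E ∧
      HasAP 𝕜 E ∧ ¬ RightFlat 𝕜 (FE 𝕜 E) ∧ ¬ RightUniversallyFlat 𝕜 (FE 𝕜 E) := by
  obtain ⟨D, hs, hm⟩ := exists_Dat
  obtain ⟨E, i1, i2, i3, i, hi, hn⟩ := exists_compl (NW D)
  have h := not_rf 𝕜 D hs hm i hi hn
  exact ⟨Cx 𝕜 E, inferInstance, inferInstance, inferInstance,
    cx_AP 𝕜 E (hasAP_of_dense D i hi hn), h, fun h' => h h'.rightFlat⟩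

end RF
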