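import Mathlib

/-!
# Definitions for the statement about right flatness of the approximable operators

Tensor products over a noncommutative ring, flat right modules, right flat and right universally flat algebras, finite-rank
and approximable operators, the approximation property.
-/

set_option linter.unusedVariables false

namespace RFlat

/-! ## Tensor products and flat right modules -/

section Tensor

open TensorProduct

variable (B X M : Type) [Ring B] [AddCommGroup X] [Module Bᵐᵒᵖ X] [AddCommGroup M] [Module B M]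

/-- The subgroup of `X ⊗_ℤ M` generated by the elements `(x b) ⊗ m - x ⊗ (b m)`.
A right `B`-module is a module over the opposite ring. -/
def balSub : AddSubgroup (X ⊗[ℤ] M) :=
  AddSubgroup.closure {t | ∃ (x : X) (b : B) (m : M),
    t = (MulOpposite.op b • x) ⊗ₜ[ℤ] m - x ⊗ₜ[ℤ] (b • m)}

/-- The tensor product `X ⊗_B M` of a right module and a left module over a ring `B`. -/
def BTens : Type := (X ⊗[ℤ] M) ⧸ balSub B X M

instance : AddCommGroup (BTens B X M) :=
  (inferInstance : AddCommGroup ((X ⊗[ℤ] M) ⧸ balSub B X M))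

variable {M}

/-- The additive map `X ⊗_ℤ f`. -/
def zmap {N : Type} [AddCommGroup N] [Module B N] (f : M →ₗ[B] N) :
    (X ⊗[ℤ] M) →+ (X ⊗[ℤ] N) :=
  (TensorProduct.map (LinearMap.id : X →ₗ[ℤ] X) f.toAddMonoidHom.toIntLinearMap).toAddMonoidHom

theorem zmap_le {N : Type} [AddCommGroup N] [Module B N] (f : M →ₗ[B] N) :
    balSub B X M ≤ (balSub B X N).comap (zmap B X f) := by
  rw [balSub, AddSubgroup.closure_le]
  rintro t ⟨x, b, m, rfl⟩
  apply AddSubgroup.subset_closure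
  refine ⟨x, b, f m, ?_⟩
  simp [zmap]

/-- The map `X ⊗_B f`. -/
def BTens.map {N : Type} [AddCommGroup N] [Module B N] (f : M →ₗ[B] N) :
    BTens B X M →+ BTens B X N :=
  QuotientAddGroup.map (balSub B X M) (balSub B X N) (zmap B X f) (zmap_le B X f)

end Tensor

/-- `0 → M' → M → M'' → 0` is exact. -/
def ShortExact {M' M M'' : Type} [AddCommGroup M'] [AddCommGroup M] [AddCommGroup M'']
    (f : M' →+ M) (g : M →+ M'') : Prop :=
  Function.Injective f ∧ Function.Exact f g ∧ Function.Surjective g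

/-- Flat right modules: `X ⊗_B -` takes short exact sequences of left modules to short exact
sequences. -/
def FlatRight (B X : Type) [Ring B] [AddCommGroup X] [Module Bᵐᵒᵖ X] : Prop :=
  ∀ (M' M M'' : Type) [AddCommGroup M'] [AddCommGroup M] [AddCommGroup M'']
    [Module B M'] [Module B M] [Module B M''] (f : M' →ₗ[B] M) (g : M →ₗ[B] M''),
    ShortExact f.toAddMonoidHom g.toAddMonoidHom →
      ShortExact (BTens.map B X f) (BTens.map B X g)

/-! ## Right flat and right universally flat algebras -/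

section Algebra

variable (𝕜 A : Type) [RCLike 𝕜] [NonUnitalRing A] [Module 𝕜 A] [IsScalarTower 𝕜 A A]
  [SMulCommClass 𝕜 A A]

/-- The algebra `A` as a right ideal of its unitization. -/
def unitIdeal : Submodule (Unitization 𝕜 A)ᵐᵒᵖ (Unitization 𝕜 A) where
  carrier := Set.range (Unitization.inr : A → Unitization 𝕜 A)
  add_mem' := by
    rintro _ _ ⟨a, rfl⟩ ⟨b, rfl⟩
    exact ⟨a + b, by simp⟩
  zero_mem' := ⟨0, by simp⟩
  smul_mem' := by
    rintro c _ ⟨a, rfl⟩
    refine ⟨(MulOpposite.unop c).fst • a + a * (MulOpposite.unop c).snd, ?_⟩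
    ext <;> simp

/-- `A` is right flat: `A` is a flat right module over its unitization. -/
def RightFlat : Prop := FlatRight (Unitization 𝕜 A) (unitIdeal 𝕜 A)

/-- `A` is right universally flat: `A` is a flat right `B`-module for every unital algebra `B`
that contains (a copy of) `A` as a right ideal `I`. -/
def RightUniversallyFlat : Prop :=
  ∀ (B : Type) [Ring B] [Algebra 𝕜 B] (I : Submodule Bᵐᵒᵖ B) (e : A →ₙₐ[𝕜] B),
    Function.Injective e → Set.range e = (I : Set B) → FlatRight B I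

end Algebra

/-! ## Operators -/

section Operators

variable (𝕜 E : Type) [RCLike 𝕜] [NormedAddCommGroup E] [NormedSpace 𝕜 E]

/-- The algebra of bounded operators on `E`. -/
def Op : Type := E →L[𝕜] E

noncomputable instance : NormedRing (Op 𝕜 E) := (inferInstance : NormedRing (E →L[𝕜] E))

noncomputable instance : NormedAlgebra 𝕜 (Op 𝕜 E) :=
  (inferInstance : NormedAlgebra 𝕜 (E →L[𝕜] E))

variable {𝕜 E} in
/-- An element of `Op 𝕜 E` as a bounded linear map (the identity). -/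
def Op.clm (T : Op 𝕜 E) : E →L[𝕜] E := T

/-- Finite-rank operators. -/
def finRank : Set (Op 𝕜 E) :=
  {T | FiniteDimensional 𝕜 (LinearMap.range (T.clm : E →ₗ[𝕜] E))}

/-- The approximation property. -/
def HasAP : Prop :=
  ∀ K : Set E, IsCompact K → ∀ ε : ℝ, 0 < ε → ∃ T ∈ finRank 𝕜 E, ∀ x ∈ K, ‖T.clm x - x‖ < ε

/-- Approximable operators: the operator-norm closure of the finite-rank operators. -/
def appr : Set (Op 𝕜 E) := closure (finRank 𝕜 E)

theorem finRank_add {S T : Op 𝕜 E} (hS : S ∈ finRank 𝕜 E) (hT : T ∈ finRank 𝕜 E) :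
    S + T ∈ finRank 𝕜 E := by
  have h1 : FiniteDimensional 𝕜 (LinearMap.range (S.clm : E →ₗ[𝕜] E)) := hS
  have h2 : FiniteDimensional 𝕜 (LinearMap.range (T.clm : E →ₗ[𝕜] E)) := hT
  have h3 : FiniteDimensional 𝕜 (LinearMap.range (S.clm : E →ₗ[𝕜] E) ⊔
    LinearMap.range (T.clm : E →ₗ[𝕜] E) : Submodule 𝕜 E) := inferInstance
  refine Submodule.finiteDimensional_of_le (?_ : LinearMap.range ((S + T).clm : E →ₗ[𝕜] E)
    ≤ LinearMap.range (S.clm : E →ₗ[𝕜] E) ⊔ LinearMap.range (T.clm : E →ₗ[𝕜] E))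
  rintro _ ⟨x, rfl⟩
  exact Submodule.add_mem_sup ⟨x, rfl⟩ ⟨x, rfl⟩

theorem finRank_zero : (0 : Op 𝕜 E) ∈ finRank 𝕜 E := by
  refine Submodule.finiteDimensional_of_le (?_ : LinearMap.range ((0 : Op 𝕜 E).clm : E →ₗ[𝕜] E)
    ≤ (⊥ : Submodule 𝕜 E))
  rintro _ ⟨x, rfl⟩
  exact Submodule.zero_mem _

theorem finRank_smul (c : 𝕜) {S : Op 𝕜 E} (hS : S ∈ finRank 𝕜 E) : c • S ∈ finRank 𝕜 E := by
  have h1 : FiniteDimensional 𝕜 (LinearMap.range (S.clm : E →ₗ[𝕜] E)) := hS
  refine Submodule.finiteDimensional_of_le (?_ : LinearMap.range ((c • S).clm : E →ₗ[𝕜] E)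
    ≤ LinearMap.range (S.clm : E →ₗ[𝕜] E))
  rintro _ ⟨x, rfl⟩
  exact Submodule.smul_mem _ c ⟨x, rfl⟩

theorem finRank_mul_right (T : Op 𝕜 E) {S : Op 𝕜 E} (hS : S ∈ finRank 𝕜 E) :
    S * T ∈ finRank 𝕜 E := by
  have h1 : FiniteDimensional 𝕜 (LinearMap.range (S.clm : E →ₗ[𝕜] E)) := hS
  refine Submodule.finiteDimensional_of_le (?_ : LinearMap.range ((S * T).clm : E →ₗ[𝕜] E)
    ≤ LinearMap.range (S.clm : E →ₗ[𝕜] E))
  rintro _ ⟨x, rfl⟩
  exact ⟨T.clm x, rfl⟩

theorem appr_add {a b : Op 𝕜 E} (ha : a ∈ appr 𝕜 E) (hb : b ∈ appr 𝕜 E) :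
    a + b ∈ appr 𝕜 E :=
  map_mem_closure₂ continuous_add ha hb (fun _ hS _ hT => finRank_add 𝕜 E hS hT)

theorem appr_zero : (0 : Op 𝕜 E) ∈ appr 𝕜 E := subset_closure (finRank_zero 𝕜 E)

theorem appr_smul (c : 𝕜) {a : Op 𝕜 E} (ha : a ∈ appr 𝕜 E) : c • a ∈ appr 𝕜 E :=
  map_mem_closure (continuous_const_smul c) ha (fun _ hS => finRank_smul 𝕜 E c hS)

theorem appr_mul {a b : Op 𝕜 E} (ha : a ∈ appr 𝕜 E) (hb : b ∈ appr 𝕜 E) :
    a * b ∈ appr 𝕜 E :=
  map_mem_closure₂ continuous_mul ha hb (fun _ hS T _ => finRank_mul_right 𝕜 E T hS)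

/-- The algebra of approximable operators. -/
noncomputable def FE : NonUnitalSubalgebra 𝕜 (Op 𝕜 E) where
  carrier := appr 𝕜 E
  add_mem' := appr_add 𝕜 E
  zero_mem' := appr_zero 𝕜 E
  smul_mem' c _ h := appr_smul 𝕜 E c h
  mul_mem' := appr_mul 𝕜 E

/-- The algebra of approximable operators as a type. -/
def ApOp : Type := FE 𝕜 E

noncomputable instance : NonUnitalRing (ApOp 𝕜 E) := (inferInstance : NonUnitalRing (FE 𝕜 E))

noncomputable instance : Module 𝕜 (ApOp 𝕜 E) := (inferInstance : Module 𝕜 (FE 𝕜 E))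

instance : IsScalarTower 𝕜 (ApOp 𝕜 E) (ApOp 𝕜 E) :=
  (inferInstance : IsScalarTower 𝕜 (FE 𝕜 E) (FE 𝕜 E))

instance : SMulCommClass 𝕜 (ApOp 𝕜 E) (ApOp 𝕜 E) :=
  (inferInstance : SMulCommClass 𝕜 (FE 𝕜 E) (FE 𝕜 E))

end Operators

end RFlat
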