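import Pool.Agent.RF.Stmt
import Pool.Agent.RF.G8

/-!
# [RF] Transfer of the main theorem to the definitions of `Stmt.lean`
-/

set_option linter.unusedVariables false

namespace RFlat

theorem flat_old {B X : Type} [Ring B] [AddCommGroup X] [Module Bᵐᵒᵖ X] (h : FlatRight B X) :
    RF.FlatRight B X := by
  intro M' M M'' _ _ _ _ _ _ f g hf hfg hg
  exact h M' M M'' f g ⟨hf, hfg, hg⟩

theorem hasAP_new {𝕜 E : Type} [RCLike 𝕜] [NormedAddCommGroup E] [NormedSpace 𝕜 E]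
    (h : RF.HasAP 𝕜 E) : HasAP 𝕜 E := h

theorem rightFlat_old {𝕜 E : Type} [RCLike 𝕜] [NormedAddCommGroup E] [NormedSpace 𝕜 E]
    (h : RightFlat 𝕜 (ApOp 𝕜 E)) : RF.RightFlat 𝕜 (RF.FE 𝕜 E) := by
  have h1 : RF.FlatRight (Unitization 𝕜 (ApOp 𝕜 E)) (unitIdeal 𝕜 (ApOp 𝕜 E)) := flat_old h
  exact h1

theorem RightUniversallyFlat.rightFlat {𝕜 A : Type} [RCLike 𝕜] [NonUnitalRing A] [Module 𝕜 A]
    [IsScalarTower 𝕜 A A] [SMulCommClass 𝕜 A A] (h : RightUniversallyFlat 𝕜 A) :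
    RightFlat 𝕜 A := by
  refine h (Unitization 𝕜 A) (unitIdeal 𝕜 A) (Unitization.inrNonUnitalAlgHom 𝕜 A) ?_ ?_
  · intro a b hab
    exact Unitization.inr_injective hab
  · rfl

theorem main (𝕜 : Type) [RCLike 𝕜] :
    ∃ (E : Type) (_ : NormedAddCommGroup E) (_ : NormedSpace 𝕜 E), CompleteSpace E ∧
      HasAP 𝕜 E ∧ ¬ RightFlat 𝕜 (ApOp 𝕜 E) ∧ ¬ RightUniversallyFlat 𝕜 (ApOp 𝕜 E) := by
  obtain ⟨E, i1, i2, h1, h2, h3, -⟩ := RF.main 𝕜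
  exact ⟨E, i1, i2, h1, hasAP_new h2, fun h => h3 (rightFlat_old h),
    fun h => h3 (rightFlat_old h.rightFlat)⟩

end RFlat
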